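import Pool.Agent.Lib_helper90d.T00

/-!
Certificates for `N = 9`, part 2.
-/

set_option autoImplicit false
set_option maxRecDepth 100000

namespace Pool.Agent.Lib_helper90d

def c9_3a0 : List Cert :=
  [⟨-47076849,-361720240,[263723123,-91217019,19928639,9017078,-5192240,-1576627],[-456563772,4274335,-45936760,31186326,-11298668,6286486],[-63518720,17782784,1605632,-2940928,200704,0]⟩,
  ⟨-25954104,-89954146,[127426770,-36546743,9488663,-5280022,-1381350,2293233],[-90436729,-7391051,-14410849,8650570,-1444884,3806783],[-63518720,17782784,1605632,-2940928,200704,0]⟩]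

theorem j9_3_a0 : jok 192 46 9 26 8 6 tb_8_6 [-63518720,17782784,1605632,-2940928,200704,0] 9 0 c9_3a0 = true := by
  decide +kernel

def c9_3a1 : List Cert :=
  [⟨-14235691,-31137131,[82407386,-4428503,7091676,-3484878,339594,-821257],[-29660628,-10749535,-4935116,-2134083,-216490,-248288],[-63518720,17782784,1605632,-2940928,200704,0]⟩,
  ⟨-9138252,-9295191,[66611793,5695843,3744404,2476730,521588,494495],[-9377923,-2710428,-1936243,-1023173,-599626,-440127],[-63518720,17782784,1605632,-2940928,200704,0]⟩]

theorem j9_3_a1 : jok 192 46 9 26 8 6 tb_8_6 [-63518720,17782784,1605632,-2940928,200704,0] 9 2 c9_3a1 = true := by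
  decide +kernel

def c9_3b0 : List Cert :=
  [⟨-53115976,-406040963,[275261235,-96672278,19840792,10335599,-5131344,-2547429],[-505648326,12707728,-50181914,33239916,-11771872,6644907],[-63518720,17782784,1605632,-2940928,200704,0]⟩,
  ⟨-34659468,-100061925,[144103310,-43669456,12524597,-5913599,-1762538,2787600],[-95496668,-20155395,-2878928,-153082,3991577,1709340],[-63518720,17782784,1605632,-2940928,200704,0]⟩]

theorem j9_3_b0 : jok 192 46 9 26 8 6 tb_8_6 [-63518720,17782784,1605632,-2940928,200704,0] 9 0 c9_3b0 = true := by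
  decide +kernel

def c9_3b1 : List Cert :=
  [⟨-16364762,-37985862,[86616731,-6478470,7273355,-3790910,-67,-669612],[-35290745,-11581431,-4956145,-2104333,-39732,-205013],[-63518720,17782784,1605632,-2940928,200704,0]⟩,
  ⟨-13875656,-10230679,[76715793,5441850,5350330,2418866,509493,865149],[-9543023,-5561443,188162,-3208603,378551,-1081672],[-63518720,17782784,1605632,-2940928,200704,0]⟩]

theorem j9_3_b1 : jok 192 46 9 26 8 6 tb_8_6 [-63518720,17782784,1605632,-2940928,200704,0] 9 2 c9_3b1 = true := by
  decide +kernel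

theorem j9_3 : (JSeg.mk 28288 31616 [-63518720,17782784,1605632,-2940928,200704,0] (c9_3a0 ++ c9_3a1) (c9_3b0 ++ c9_3b1)).ok 192 46 9 26 8 5 9 tb_8_6 = true :=
  JSeg.ok_of (by decide +kernel) (jok_app j9_3_a0 rfl j9_3_a1) (jok_app j9_3_b0 rfl j9_3_b1)

end Pool.Agent.Lib_helper90d
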