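import Pool.Agent.Lib_helper90d.T00

/-!
Certificates for `N = 9`, part 3.
-/

set_option autoImplicit false
set_option maxRecDepth 100000

namespace Pool.Agent.Lib_helper90d

def c9_4a0 : List Cert :=
  [⟨-11259205,-153584906,[87118263,-25386772,11219603,-1273176,-381075,-754080],[-213781287,-20075654,-2520779,2439018,-535741,123467],[-16349184,8706048,-1566720,-423936,210944,0]⟩,
  ⟨-6969166,-40551880,[40899543,-7023408,2255587,-1936857,-238367,835085],[-41052908,-10862270,1154885,-1210296,1915196,177852],[-16349184,8706048,-1566720,-423936,210944,0]⟩]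

theorem j9_4_a0 : jok 192 46 9 26 8 6 tb_8_6 [-16349184,8706048,-1566720,-423936,210944,0] 9 0 c9_4a0 = true := by
  decide +kernel

def c9_4a1 : List Cert :=
  [⟨-4549644,-15642012,[30062002,2655980,388460,-563217,-419405,76968],[-16722513,-5319311,-1795047,-584995,-129466,-65819],[-16349184,8706048,-1566720,-423936,210944,0]⟩,
  ⟨-5594971,-4722606,[32673352,4419020,1783930,726570,312277,203557],[-5789323,-1640334,-834959,-509061,-324501,-118413],[-16349184,8706048,-1566720,-423936,210944,0]⟩]

theorem j9_4_a1 : jok 192 46 9 26 8 6 tb_8_6 [-16349184,8706048,-1566720,-423936,210944,0] 9 2 c9_4a1 = true := by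
  decide +kernel

def c9_4b0 : List Cert :=
  [⟨-14033224,-181091085,[93352666,-26913913,10579156,-358266,-1179619,-716544],[-242606819,-19953000,-2232625,2583610,-522903,254844],[-16349184,8706048,-1566720,-423936,210944,0]⟩,
  ⟨-8964117,-47191096,[45571194,-7371128,2298583,-1858996,-285660,1070910],[-47975078,-13328005,2672015,-2379984,2837372,-139240],[-16349184,8706048,-1566720,-423936,210944,0]⟩]

theorem j9_4_b0 : jok 192 46 9 26 8 6 tb_8_6 [-16349184,8706048,-1566720,-423936,210944,0] 9 0 c9_4b0 = true := by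
  decide +kernel

def c9_4b1 : List Cert :=
  [⟨-7501927,-18931751,[36337123,-11004,2652210,-2048674,210514,-262647],[-20617747,-5081192,-2648862,-113911,-455032,84560],[-16349184,8706048,-1566720,-423936,210944,0]⟩,
  ⟨-7633582,-5237715,[37895574,5582841,2203975,813032,431319,318015],[-6635447,-2264080,-689922,-928666,-266883,-305601],[-16349184,8706048,-1566720,-423936,210944,0]⟩]

theorem j9_4_b1 : jok 192 46 9 26 8 6 tb_8_6 [-16349184,8706048,-1566720,-423936,210944,0] 9 2 c9_4b1 = true := by
  decide +kernel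

theorem j9_4 : (JSeg.mk 24960 28288 [-16349184,8706048,-1566720,-423936,210944,0] (c9_4a0 ++ c9_4a1) (c9_4b0 ++ c9_4b1)).ok 192 46 9 26 8 5 9 tb_8_6 = true :=
  JSeg.ok_of (by decide +kernel) (jok_app j9_4_a0 rfl j9_4_a1) (jok_app j9_4_b0 rfl j9_4_b1)

end Pool.Agent.Lib_helper90d
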