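import Pool.Agent.Lib_helper90d.T00

/-!
Certificates for `N = 9`, part 4.
-/

set_option autoImplicit false
set_option maxRecDepth 100000

namespace Pool.Agent.Lib_helper90d

def c9_5a0 : List Cert :=
  [⟨-6680847,-98150736,[55206414,-11649280,5202104,-1199768,-148551,-336841],[-159510610,-15178772,-394479,1289497,-116345,-90843],[-5967872,5001216,-1056768,-163840,122880,0]⟩,
  ⟨-3804006,-27526945,[24200075,-1578926,1029108,-780712,-169988,459263],[-30487505,-7237460,727868,-899244,1249531,-24936],[-5967872,5001216,-1056768,-163840,122880,0]⟩]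

theorem j9_5_a0 : jok 192 46 9 26 8 6 tb_8_6 [-5967872,5001216,-1056768,-163840,122880,0] 9 0 c9_5a0 = true := by
  decide +kernel

def c9_5a1 : List Cert :=
  [⟨-2726557,-11484059,[18909243,2564807,471752,-196371,-98414,-11533],[-13204619,-2676156,-975883,-364072,-252159,-68391],[-5967872,5001216,-1056768,-163840,122880,0]⟩,
  ⟨-3896677,-3530288,[22789340,3303937,1037054,409107,171433,73251],[-4537870,-1017779,-475122,-278605,-164874,-43889],[-5967872,5001216,-1056768,-163840,122880,0]⟩]

theorem j9_5_a1 : jok 192 46 9 26 8 6 tb_8_6 [-5967872,5001216,-1056768,-163840,122880,0] 9 2 c9_5a1 = true := by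
  decide +kernel

def c9_5b0 : List Cert :=
  [⟨-8438448,-117130806,[59649780,-12612105,5923158,-1127396,-404943,-336619],[-178964969,-15720679,-883037,1333469,-130555,-29556],[-5967872,5001216,-1056768,-163840,122880,0]⟩,
  ⟨-4815812,-32293775,[26883909,-2019591,875105,-756269,-173043,549382],[-35375399,-7796773,953493,-985211,1365157,-2130],[-5967872,5001216,-1056768,-163840,122880,0]⟩]

theorem j9_5_b0 : jok 192 46 9 26 8 6 tb_8_6 [-5967872,5001216,-1056768,-163840,122880,0] 9 0 c9_5b0 = true := by
  decide +kernel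

def c9_5b1 : List Cert :=
  [⟨-3943481,-13748005,[21948856,1943932,842342,-679455,18311,-124136],[-15464725,-3051169,-1331692,-222962,-280631,13545],[-5967872,5001216,-1056768,-163840,122880,0]⟩,
  ⟨-5195354,-4001794,[26659114,4270784,1211615,541360,278875,121973],[-5347910,-1301061,-602762,-441086,-231042,-101983],[-5967872,5001216,-1056768,-163840,122880,0]⟩]

theorem j9_5_b1 : jok 192 46 9 26 8 6 tb_8_6 [-5967872,5001216,-1056768,-163840,122880,0] 9 2 c9_5b1 = true := by
  decide +kernel

theorem j9_5 : (JSeg.mk 21824 24960 [-5967872,5001216,-1056768,-163840,122880,0] (c9_5a0 ++ c9_5a1) (c9_5b0 ++ c9_5b1)).ok 192 46 9 26 8 5 9 tb_8_6 = true :=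
  JSeg.ok_of (by decide +kernel) (jok_app j9_5_a0 rfl j9_5_a1) (jok_app j9_5_b0 rfl j9_5_b1)

end Pool.Agent.Lib_helper90d
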