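import Pool.Agent.Lib_helper90d.T00

/-!
Certificates for `N = 9`, part 5.
-/

set_option autoImplicit false
set_option maxRecDepth 100000

namespace Pool.Agent.Lib_helper90d

def c9_6a0 : List Cert :=
  [⟨-4693345,-72525752,[45946563,-8375488,2804557,-502320,34722,-113543],[-131477411,-10216760,-477258,541222,-245893,-156055],[-4038656,3432448,-550912,-112640,102400,0]⟩,
  ⟨-2473003,-21078602,[19122837,-410607,674674,-553743,-204346,233637],[-24367908,-5094148,297213,-781086,677959,-29785],[-4038656,3432448,-550912,-112640,102400,0]⟩]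

theorem j9_6_a0 : jok 192 46 9 26 8 6 tb_8_6 [-4038656,3432448,-550912,-112640,102400,0] 9 0 c9_6a0 = true := by
  decide +kernel

def c9_6a1 : List Cert :=
  [⟨-1855344,-9037747,[15134232,2053098,385275,-54462,-54766,-14689],[-10515271,-1663663,-721672,-280755,-178340,-31689],[-4038656,3432448,-550912,-112640,102400,0]⟩,
  ⟨-2595558,-2915227,[17694401,2272840,668983,275064,80345,25545],[-3599938,-591214,-272372,-155213,-92837,-19467],[-4038656,3432448,-550912,-112640,102400,0]⟩]

theorem j9_6_a1 : jok 192 46 9 26 8 6 tb_8_6 [-4038656,3432448,-550912,-112640,102400,0] 9 2 c9_6a1 = true := by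
  decide +kernel

def c9_6b0 : List Cert :=
  [⟨-6116818,-88873157,[50167025,-9123858,3565085,-740275,-101850,-143742],[-148583132,-10812325,-909669,584740,-221959,-126883],[-4038656,3432448,-550912,-112640,102400,0]⟩,
  ⟨-3237259,-25619255,[21399385,-1129057,610393,-466271,-163043,304336],[-28507500,-5362596,454223,-758520,791017,7292],[-4038656,3432448,-550912,-112640,102400,0]⟩]

theorem j9_6_b0 : jok 192 46 9 26 8 6 tb_8_6 [-4038656,3432448,-550912,-112640,102400,0] 9 0 c9_6b0 = true := by
  decide +kernel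

def c9_6b1 : List Cert :=
  [⟨-2434025,-11191400,[16964363,1986101,351784,-194165,-74072,-60687],[-12451712,-1900428,-957425,-300273,-215069,4482],[-4038656,3432448,-550912,-112640,102400,0]⟩,
  ⟨-3626930,-3423943,[21242276,3040307,785177,421700,170170,53543],[-4374642,-829521,-454313,-277159,-152141,-38845],[-4038656,3432448,-550912,-112640,102400,0]⟩]

theorem j9_6_b1 : jok 192 46 9 26 8 6 tb_8_6 [-4038656,3432448,-550912,-112640,102400,0] 9 2 c9_6b1 = true := by
  decide +kernel

theorem j9_6 : (JSeg.mk 18624 21824 [-4038656,3432448,-550912,-112640,102400,0] (c9_6a0 ++ c9_6a1) (c9_6b0 ++ c9_6b1)).ok 192 46 9 26 8 5 9 tb_8_6 = true :=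
  JSeg.ok_of (by decide +kernel) (jok_app j9_6_a0 rfl j9_6_a1) (jok_app j9_6_b0 rfl j9_6_b1)

end Pool.Agent.Lib_helper90d
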