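import Pool.Agent.Lib_helper90d.T00

/-!
Certificates for `N = 9`, part 6.
-/

set_option autoImplicit false
set_option maxRecDepth 100000

namespace Pool.Agent.Lib_helper90d

def c9_7a0 : List Cert :=
  [⟨-2649466,-47220911,[39535971,-6504730,1419068,235832,165264,15678],[-102374097,-5886045,-996095,-100327,7857,-30406],[-4380672,2420736,-147456,-38912,2048,0]⟩,
  ⟨-1306578,-14547785,[15671325,116686,321592,-522674,-188841,21089],[-17651034,-3386012,1669,-805817,223569,-63593],[-4380672,2420736,-147456,-38912,2048,0]⟩]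

theorem j9_7_a0 : jok 192 46 9 26 8 6 tb_8_6 [-4380672,2420736,-147456,-38912,2048,0] 9 0 c9_7a0 = true := by
  decide +kernel

def c9_7a1 : List Cert :=
  [⟨-972689,-6030620,[12026421,1219494,230421,4676,-28265,-32547],[-7149495,-991323,-543462,-147712,-60571,-490],[-4380672,2420736,-147456,-38912,2048,0]⟩,
  ⟨-1229035,-2077051,[12414763,1131699,374472,139597,14735,-2267],[-2333922,-215399,-111505,-66912,-35689,-4188],[-4380672,2420736,-147456,-38912,2048,0]⟩]

theorem j9_7_a1 : jok 192 46 9 26 8 6 tb_8_6 [-4380672,2420736,-147456,-38912,2048,0] 9 2 c9_7a1 = true := by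
  decide +kernel

def c9_7b0 : List Cert :=
  [⟨-4346143,-69948155,[45993062,-7599749,1883188,-35416,123890,27091],[-126733452,-6209551,-1198449,-114200,65839,-29786],[-4380672,2420736,-147456,-38912,2048,0]⟩,
  ⟨-2221194,-20880090,[19073493,-908105,516076,-394104,-137749,118403],[-23403561,-3677436,134774,-722619,486082,10403],[-4380672,2420736,-147456,-38912,2048,0]⟩]

theorem j9_7_b0 : jok 192 46 9 26 8 6 tb_8_6 [-4380672,2420736,-147456,-38912,2048,0] 9 0 c9_7b0 = true := by
  decide +kernel

def c9_7b1 : List Cert :=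
  [⟨-1672425,-9142394,[14816424,1240124,162805,-104263,-115528,-108223],[-9872501,-1278956,-881279,-196756,-67795,57862],[-4380672,2420736,-147456,-38912,2048,0]⟩,
  ⟨-2400398,-2918294,[17296202,1854257,583350,342596,79626,-34652],[-3383632,-562748,-354347,-224248,-146846,-45397],[-4380672,2420736,-147456,-38912,2048,0]⟩]

theorem j9_7_b1 : jok 192 46 9 26 8 6 tb_8_6 [-4380672,2420736,-147456,-38912,2048,0] 9 2 c9_7b1 = true := by
  decide +kernel

theorem j9_7 : (JSeg.mk 13888 18624 [-4380672,2420736,-147456,-38912,2048,0] (c9_7a0 ++ c9_7a1) (c9_7b0 ++ c9_7b1)).ok 192 46 9 26 8 5 9 tb_8_6 = true :=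
  JSeg.ok_of (by decide +kernel) (jok_app j9_7_a0 rfl j9_7_a1) (jok_app j9_7_b0 rfl j9_7_b1)

end Pool.Agent.Lib_helper90d
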