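import Pool.Agent.Lib_helper90d.T00

/-!
Certificates for `N = 9`, part 7.
-/

set_option autoImplicit false
set_option maxRecDepth 100000

namespace Pool.Agent.Lib_helper90d

def c9_8a0 : List Cert :=
  [⟨-1489200,-31450982,[36698189,-5423603,710129,323827,151502,-22813],[-83877951,-2642663,-1113301,-637202,232044,15702],[-5625856,1701888,57344,88064,-69632,0]⟩,
  ⟨-700828,-10545063,[14262709,114257,131939,-339833,-90235,9522],[-13403918,-2201009,-163453,-720013,189271,-34049],[-5625856,1701888,57344,88064,-69632,0]⟩]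

theorem j9_8_a0 : jok 188 46 9 26 8 6 tb_8_6 [-5625856,1701888,57344,88064,-69632,0] 9 0 c9_8a0 = true := by
  decide +kernel

def c9_8a1 : List Cert :=
  [⟨-507354,-4010757,[10533562,715190,110309,20590,-19896,-33264],[-5062769,-599341,-446593,-125642,-16553,5044],[-5625856,1701888,57344,88064,-69632,0]⟩,
  ⟨-583793,-1400484,[9647714,573181,189435,85254,20936,-2711],[-1495661,-56323,-75478,-27589,5324,3260],[-5625856,1701888,57344,88064,-69632,0]⟩]

theorem j9_8_a1 : jok 188 46 9 26 8 6 tb_8_6 [-5625856,1701888,57344,88064,-69632,0] 9 2 c9_8a1 = true := by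
  decide +kernel

def c9_8b0 : List Cert :=
  [⟨-2463485,-47923519,[41689924,-6442633,942603,347082,277408,-648],[-101333427,-2298108,-1227164,-797875,263578,3381],[-5625856,1701888,57344,88064,-69632,0]⟩,
  ⟨-1215171,-14941234,[16856682,-587250,233056,-377907,-105294,42604],[-17461513,-2314858,-86493,-775223,341412,14098],[-5625856,1701888,57344,88064,-69632,0]⟩]

theorem j9_8_b0 : jok 188 46 9 26 8 6 tb_8_6 [-5625856,1701888,57344,88064,-69632,0] 9 0 c9_8b0 = true := by
  decide +kernel

def c9_8b1 : List Cert :=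
  [⟨-881365,-6192260,[12526313,672495,36629,-38794,-105600,-91138],[-6812496,-778859,-714534,-155199,-5546,27735],[-5625856,1701888,57344,88064,-69632,0]⟩,
  ⟨-1171403,-2076940,[12886926,937813,326676,190705,17465,-17220],[-2205343,-267840,-216053,-125847,-56536,-6545],[-5625856,1701888,57344,88064,-69632,0]⟩]

theorem j9_8_b1 : jok 188 46 9 26 8 6 tb_8_6 [-5625856,1701888,57344,88064,-69632,0] 9 2 c9_8b1 = true := by
  decide +kernel

theorem j9_8 : (JSeg.mk 10304 13888 [-5625856,1701888,57344,88064,-69632,0] (c9_8a0 ++ c9_8a1) (c9_8b0 ++ c9_8b1)).ok 188 46 9 26 8 5 9 tb_8_6 = true :=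
  JSeg.ok_of (by decide +kernel) (jok_app j9_8_a0 rfl j9_8_a1) (jok_app j9_8_b0 rfl j9_8_b1)

end Pool.Agent.Lib_helper90d
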