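import Pool.Agent.Lib_helper90d.T00

/-!
Certificates for `N = 9`, part 8.
-/

set_option autoImplicit false
set_option maxRecDepth 100000

namespace Pool.Agent.Lib_helper90d

theorem j9_9 : jsegsOK 164 46 9 26 6 2 9 7360
  tb_6_3 10304
  [⟨7360,12352,[-6361088,1167360,0],
    [⟨-809721,-19227866,[33784010,-3796345,-257989],[-69827601,-1293480,59448],[-6361088,1167360,0]⟩,⟨-354427,-7423309,[11869469,-497299,667307],[-8906559,-1245623,196145],[-6361088,1167360,0]⟩,⟨-279029,-2497371,[9459799,771416,132969],[-3807219,-257548,-86028],[-6361088,1167360,0]⟩,⟨-261479,-841014,[7676550,307518,47663],[-920916,-6254,9299],[-6361088,1167360,0]⟩],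
    [⟨-2035224,-41670943,[41102690,-6107412,-201825],[-93718876,668960,311980],[-6361088,1167360,0]⟩,⟨-967601,-13368414,[15402787,-1422480,915470],[-14032578,-1206023,182718],[-6361088,1167360,0]⟩,⟨-689364,-5149492,[12289578,1345168,229260],[-6219705,-340624,-139277],[-6361088,1167360,0]⟩,⟨-839657,-1734547,[11652244,789602,47185],[-1767417,-277115,-94305],[-6361088,1167360,0]⟩]⟩] = true := by decide +kernel

theorem j9_10 : jsegsOK 164 46 9 26 6 2 9 1536
  tb_6_3 7360
  [⟨1536,7360,[-9635840,509952,0],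
    [⟨-61860,-2068180,[30958101,-997473,-89976],[-46477746,-939766,18424],[-9635840,509952,0]⟩,⟨-52498,-2688818,[11441362,-38289,133730],[-4645004,-509230,79096],[-9635840,509952,0]⟩,⟨-15457,-284340,[8099723,6080,5912],[-1478189,-182375,-7751],[-9635840,509952,0]⟩,⟨-11242,-94316,[5864759,13402,4118],[-175696,-37663,-337],[-9635840,509952,0]⟩],
    [⟨-737695,-24339044,[40352567,-4589794,-717667],[-74090805,3053954,707970],[-9635840,509952,0]⟩,⟨-347524,-8241859,[14809682,-1178706,897003],[-8996606,-275312,319683],[-9635840,509952,0]⟩,⟨-215046,-2678336,[11269829,669293,67629],[-3678545,-13777,-30746],[-9635840,509952,0]⟩,⟨-241243,-880604,[9277548,229532,10750],[-861633,-80599,-27572],[-9635840,509952,0]⟩]⟩] = true := by decide +kernel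

theorem j9_11 : jsegsOK 164 46 9 26 6 2 9 320
  tb_6_3 1536
  [⟨320,1536,[-7137280,63488,0],
    [⟨-5124,-379774,[20478339,-275659,-26838],[-27598178,70938,15602],[-7137280,63488,0]⟩,⟨-8375,-901817,[8359114,123369,28042],[-3330854,-86656,17841],[-7137280,63488,0]⟩,⟨-1517,-34273,[5387223,-4801,101],[-731505,-24602,-174],[-7137280,63488,0]⟩,⟨-1417,-11211,[3905633,266,90],[-49798,-6197,-20],[-7137280,63488,0]⟩],
    [⟨-55580,-2052205,[23855477,-767901,-111892],[-36877161,591548,85234],[-7137280,63488,0]⟩,⟨-21109,-1964421,[9117652,49953,120983],[-4258103,-73111,61263],[-7137280,63488,0]⟩,⟨-13113,-233452,[6204451,-42435,-3078],[-1205354,-58101,-11752],[-7137280,63488,0]⟩,⟨-10475,-76318,[4548041,7623,683],[-164278,-12021,-1144],[-7137280,63488,0]⟩]⟩] = true := by decide +kernel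

end Pool.Agent.Lib_helper90d
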