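import Pool.Agent.Lib_helper90d.T00

/-!
Certificates for `N = 9`, part 9.
-/

set_option autoImplicit false
set_option maxRecDepth 100000

namespace Pool.Agent.Lib_helper90d

theorem j9_12 : jsegsOK 164 46 10 51 6 2 9 192
  tb_6_3 320
  [⟨192,1216,[-6402048,34816,0],
    [⟨-1807,-324401,[18174462,-167884,-17359],[-24220816,59126,10202],[-6402048,34816,0]⟩,⟨-3755,-604717,[7557240,88580,17773],[-3064181,-50721,11062],[-6402048,34816,0]⟩,⟨-463,-19197,[4762785,-5093,20],[-615862,-14788,-40],[-6402048,34816,0]⟩,⟨-410,-5467,[3450536,-5,25],[-35313,-3564,-5],[-6402048,34816,0]⟩],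
    [⟨-33614,-1315378,[20945214,-568459,-80710],[-31825442,494061,59624],[-6402048,34816,0]⟩,⟨-10995,-1416738,[8156708,62166,85110],[-3792170,-46582,44696],[-6402048,34816,0]⟩,⟨-8146,-157804,[5472712,-32197,-1940],[-1026521,-38445,-7833],[-6402048,34816,0]⟩,⟨-6268,-51583,[3996676,3944,447],[-132148,-9576,-806],[-6402048,34816,0]⟩]⟩] = true := by decide +kernel

end Pool.Agent.Lib_helper90d
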