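import Pool.Agent.Lib_helper90d.J09a
import Pool.Agent.Lib_helper90d.J09b
import Pool.Agent.Lib_helper90d.J09c
import Pool.Agent.Lib_helper90d.J09d
import Pool.Agent.Lib_helper90d.J09e
import Pool.Agent.Lib_helper90d.J09f
import Pool.Agent.Lib_helper90d.J09g
import Pool.Agent.Lib_helper90d.J09h
import Pool.Agent.Lib_helper90d.J09i

/-!
The case `N = 9`.
-/

set_option autoImplicit false
set_option maxRecDepth 100000

namespace Pool.Agent.Lib_helper90d

theorem u9 : fsegsOK 156 46 8 13 9 43000 65536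
  [⟨4,53795,65536,1,[(-470070841,-690087499,696621594,-948956699,-659180261)]⟩,
  ⟨4,43000,53795,3,[(-95690002,-322893557,201221646,-534050974,-107177357),(-49920523,-79702251,99883647,-106881917,-27851058),(-40749226,-29969988,82126929,-30083088,-19070546)]⟩] = true := by decide +kernel

theorem s9 : smallOK 9 192 4222 9830 false = true := by decide +kernel

theorem F9 (S : Sol 9) : S.F = 0 :=
  S.finish s9
    (S.jsegs_ok (by norm_num) symSum9 tb_6_3_eq _ _ j9_12
    (S.jsegs_ok (by norm_num) symSum9 tb_6_3_eq _ _ j9_11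
    (S.jsegs_ok (by norm_num) symSum9 tb_6_3_eq _ _ j9_10
    (S.jsegs_ok (by norm_num) symSum9 tb_6_3_eq _ _ j9_9
    (S.jstep (by norm_num) symSum9 tb_8_6_eq j9_8 (top := 13888) rfl
    (S.jstep (by norm_num) symSum9 tb_8_6_eq j9_7 (top := 18624) rfl
    (S.jstep (by norm_num) symSum9 tb_8_6_eq j9_6 (top := 21824) rfl
    (S.jstep (by norm_num) symSum9 tb_8_6_eq j9_5 (top := 24960) rfl
    (S.jstep (by norm_num) symSum9 tb_8_6_eq j9_4 (top := 28288) rfl
    (S.jstep (by norm_num) symSum9 tb_8_6_eq j9_3 (top := 31232) rfl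
    (S.jsegs_ok (by norm_num) symSum9 tb_6_3_eq _ _ j9_2
    (S.jsegs_ok (by norm_num) symSum9 tb_6_3_eq _ _ j9_1
    (S.jsegs_ok (by norm_num) symSum9 tb_6_3_eq _ _ j9_0
    (S.fsegs_ok _ _ u9 S.start))))))))))))))

end Pool.Agent.Lib_helper90d
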