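import Pool.Agent.Lib_helper90d.T00

/-!
Certificates for `N = 11`, part 2.
-/

set_option autoImplicit false
set_option maxRecDepth 100000

namespace Pool.Agent.Lib_helper90d

theorem j11_3 : jsegsOK 164 46 9 26 6 2 11 3968
  tb_6_3 16704
  [⟨3968,16704,[-13897728,1490944,0],
    [⟨-389467,-23006283,[58421036,-4329194,-505332],[-117013414,-2962072,224759],[-13897728,1490944,0]⟩,⟨-349860,-10090393,[22818015,-1030549,1057034],[-15481955,-1976496,50149],[-13897728,1490944,0]⟩,⟨-214307,-3819306,[14782386,373608,-149271],[-4823908,-1009106,-214093],[-13897728,1490944,0]⟩,⟨-90215,-1102990,[11571898,259452,63075],[-1925640,-262248,-32333],[-13897728,1490944,0]⟩,⟨-74114,-376648,[9361591,98631,30990],[-380301,-25816,4833],[-13897728,1490944,0]⟩],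
    [⟨-4329488,-116411849,[78752982,-14074911,-961379],[-200665811,12414376,1623193],[-13897728,1490944,0]⟩,⟨-2534167,-32485594,[33423589,-6727422,2593781],[-34316395,1154388,-368128],[-13897728,1490944,0]⟩,⟨-1589948,-15712609,[21568759,-1820223,164894],[-12704327,-1168921,81312],[-13897728,1490944,0]⟩,⟨-1265902,-7255911,[19397790,1591177,199793],[-7203314,-394158,-193151],[-13897728,1490944,0]⟩,⟨-1616271,-2416540,[19574876,1548773,92999],[-2310118,-295580,-132919],[-13897728,1490944,0]⟩]⟩] = true := by decide +kernel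

theorem j11_4 : jsegsOK 164 46 9 26 6 2 11 896
  tb_6_3 3968
  [⟨896,3968,[-12462080,272384,0],
    [⟨-29148,-1960669,[45530393,-943574,-132502],[-79785523,-210870,105433],[-12462080,272384,0]⟩,⟨-84162,-4242699,[18052467,-121041,116898],[-9944914,-398772,28486],[-12462080,272384,0]⟩,⟨-25938,-1240682,[11292952,128629,33710],[-2604211,-159704,61175],[-12462080,272384,0]⟩,⟨-5109,-145383,[8614959,-4648,1284],[-809048,-77662,-1214],[-12462080,272384,0]⟩,⟨-4433,-46044,[6893994,3544,1092],[-87050,-19209,-177],[-12462080,272384,0]⟩],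
    [⟨-328904,-15554900,[53170443,-3709019,-871956],[-106211300,3843570,973626],[-12462080,272384,0]⟩,⟨-224552,-9036944,[21149208,-873225,999441],[-15039573,36843,17773],[-12462080,272384,0]⟩,⟨-89837,-3202593,[13091051,215441,-48731],[-4270110,-170010,-61901],[-12462080,272384,0]⟩,⟨-63186,-962081,[10307283,151036,8581],[-1645260,-12755,-11997],[-12462080,272384,0]⟩,⟨-65778,-324099,[8565177,65797,3371],[-344336,-18771,-5290],[-12462080,272384,0]⟩]⟩] = true := by decide +kernel

theorem j11_5 : jsegsOK 164 46 10 51 6 2 11 192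
  tb_6_3 896
  [⟨192,1280,[-8026112,43008,0],
    [⟨-2178,-218670,[27885081,-253604,-39916],[-46456777,133770,34624],[-8026112,43008,0]⟩,⟨-8004,-1186164,[12050899,94735,34936],[-7180800,-111485,6396],[-8026112,43008,0]⟩,⟨-1184,-234671,[7487873,32639,5604],[-1885874,-20732,9036],[-8026112,43008,0]⟩,⟨-440,-18155,[5298623,-3106,35],[-405107,-13729,-44],[-8026112,43008,0]⟩,⟨-424,-5075,[4238090,9,34],[-26443,-3623,-7],[-8026112,43008,0]⟩],
    [⟨-47877,-2535090,[31660140,-929738,-162680],[-59299935,1119227,166305],[-8026112,43008,0]⟩,⟨-20431,-2655510,[13022313,-63724,179412],[-8720770,-33798,18232],[-8026112,43008,0]⟩,⟨-7318,-786432,[8083687,138370,-12639],[-2414011,-9819,-20174],[-8026112,43008,0]⟩,⟨-8066,-161438,[5977169,-13697,226],[-716500,-32088,-6558],[-8026112,43008,0]⟩,⟨-6886,-51965,[4813341,6609,301],[-109927,-3872,-457],[-8026112,43008,0]⟩]⟩] = true := by decide +kernel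

end Pool.Agent.Lib_helper90d
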