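import Pool.Agent.Lib_helper90d.J11a
import Pool.Agent.Lib_helper90d.J11b

/-!
The case `N = 11`.
-/

set_option autoImplicit false
set_option maxRecDepth 100000

namespace Pool.Agent.Lib_helper90d

theorem u11 : fsegsOK 156 46 8 13 11 43000 65536
  [⟨4,53638,65536,1,[(-541821732,-1046003921,813067336,-1554460843,-914649581)]⟩,
  ⟨4,43075,53638,3,[(-117824653,-469681381,249911246,-809894662,-162200681),(-57058919,-119828581,116693801,-172891780,-36862244),(-42991538,-48804853,86185923,-59483498,-21437937)]⟩,
  ⟨4,43000,43075,4,[(-64874741,-348651296,166515651,-600639592,-81425332),(-28923341,-91036914,71983678,-125714799,-17469585),(-23959817,-38897629,55916734,-46802539,-10850061),(-23170287,-18999324,54344133,-17786841,-10301983)]⟩] = true := by decide +kernel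

theorem s11 : smallOK 11 192 4572 9830 false = true := by decide +kernel

theorem F11 (S : Sol 11) : S.F = 0 :=
  S.finish s11
    (S.jsegs_ok (by norm_num) symSum11 tb_6_3_eq _ _ j11_5
    (S.jsegs_ok (by norm_num) symSum11 tb_6_3_eq _ _ j11_4
    (S.jsegs_ok (by norm_num) symSum11 tb_6_3_eq _ _ j11_3
    (S.jsegs_ok (by norm_num) symSum11 tb_6_3_eq _ _ j11_2
    (S.jsegs_ok (by norm_num) symSum11 tb_6_3_eq _ _ j11_1
    (S.jsegs_ok (by norm_num) symSum11 tb_6_3_eq _ _ j11_0
    (S.fsegs_ok _ _ u11 S.start)))))))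

end Pool.Agent.Lib_helper90d
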