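import Pool.Agent.Lib_helper90d.T00

/-!
Certificates for `N = 12`, part 2.
-/

set_option autoImplicit false
set_option maxRecDepth 100000

namespace Pool.Agent.Lib_helper90d

theorem j12_3 : jsegsOK 156 46 10 51 5 1 12 448
  tb_5_2 1088
  [⟨448,2304,[-10547200,0],
    [⟨-6700,-903554,[40395886,-274228],[-74711657,471941],[-10547200,0]⟩,⟨-25208,-2660103,[17382497,-111545],[-11775947,56197],[-10547200,0]⟩,⟨-21751,-1252228,[10246429,-66711],[-2746741,-8428],[-10547200,0]⟩,⟨-1315,-75902,[7927403,14899],[-1061685,7426],[-10547200,0]⟩,⟨-1072,-35331,[6071727,4586],[-164269,6317],[-10547200,0]⟩,⟨-1071,-85,[5505337,798],[1,0],[-10547200,0]⟩],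
    [⟨-127932,-6095199,[45194363,-1177958],[-92541126,1936892],[-10547200,0]⟩,⟨-90829,-6083939,[19188028,-1158096],[-14990724,742211],[-10547200,0]⟩,⟨-43652,-2539628,[11319753,-30587],[-3849627,477],[-10547200,0]⟩,⟨-23010,-516028,[9058569,88688],[-1732173,27167],[-10547200,0]⟩,⟨-20888,-244255,[7059274,43174],[-437614,34751],[-10547200,0]⟩,⟨-20576,-81,[6451288,19958],[5,-1],[-10547200,0]⟩]⟩] = true := by decide +kernel

end Pool.Agent.Lib_helper90d
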