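import Pool.Agent.Lib_helper90d.J12a
import Pool.Agent.Lib_helper90d.J12b

/-!
The case `N = 12`.
-/

set_option autoImplicit false
set_option maxRecDepth 100000

namespace Pool.Agent.Lib_helper90d

theorem u12 : fsegsOK 156 46 8 13 12 43000 65536
  [⟨4,53659,65536,1,[(-554760648,-1213613920,842408197,-1863620870,-1007667724)]⟩,
  ⟨4,43000,53659,3,[(-129902808,-552193823,275624868,-967370401,-195945723),(-62142611,-142795099,127859794,-212231472,-43484419),(-45314487,-60364793,90712140,-76969270,-23535916)]⟩] = true := by decide +kernel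

theorem s12 : smallOK 12 448 4743 9830 false = true := by decide +kernel

theorem F12 (S : Sol 12) : S.F = 0 :=
  S.finish s12
    (S.jsegs_ok (by norm_num) symSum12 tb_5_2_eq _ _ j12_3
    (S.jsegs_ok (by norm_num) symSum12 tb_5_2_eq _ _ j12_2
    (S.jsegs_ok (by norm_num) symSum12 tb_5_2_eq _ _ j12_1
    (S.jsegs_ok (by norm_num) symSum12 tb_5_2_eq _ _ j12_0
    (S.fsegs_ok _ _ u12 S.start)))))

end Pool.Agent.Lib_helper90d
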