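import Pool.Agent.Lib_helper90d.C00
import Pool.Agent.Lib_helper90d.C01
import Pool.Agent.Lib_helper90d.C02
import Pool.Agent.Lib_helper90d.C03
import Pool.Agent.Lib_helper90d.C04
import Pool.Agent.Lib_helper90d.C05
import Pool.Agent.Lib_helper90d.C06
import Pool.Agent.Lib_helper90d.C07
import Pool.Agent.Lib_helper90d.C08
import Pool.Agent.Lib_helper90d.C09
import Pool.Agent.Lib_helper90d.C10
import Pool.Agent.Lib_helper90d.C11
import Pool.Agent.Lib_helper90d.C12
import Pool.Agent.Lib_helper90d.C13
import Pool.Agent.Lib_helper90d.J09
import Pool.Agent.Lib_helper90d.J10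
import Pool.Agent.Lib_helper90d.J11
import Pool.Agent.Lib_helper90d.J12

/-!
For every `N ≥ 9` the resultant of a solution vanishes.
-/

set_option autoImplicit false

namespace Pool.Agent.Lib_helper90d

theorem Sol.F_zero_small {N : ℕ} (h1 : 9 ≤ N) (h2 : N < 236) (S : Sol N) : S.F = 0 := by
  interval_cases N
  · exact F9 S
  · exact F10 S
  · exact F11 S
  · exact F12 S
  · exact F13 S
  · exact F14 S
  · exact F15 S
  · exact F16 S
  · exact F17 S
  · exact F18 S
  · exact F19 S
  · exact F20 S
  · exact F21 S
  · exact F22 S
  · exact F23 S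
  · exact F24 S
  · exact F25 S
  · exact F26 S
  · exact F27 S
  · exact F28 S
  · exact F29 S
  · exact F30 S
  · exact F31 S
  · exact F32 S
  · exact F33 S
  · exact F34 S
  · exact F35 S
  · exact F36 S
  · exact F37 S
  · exact F38 S
  · exact F39 S
  · exact F40 S
  · exact F41 S
  · exact F42 S
  · exact F43 S
  · exact F44 S
  · exact F45 S
  · exact F46 S
  · exact F47 S
  · exact F48 S
  · exact F49 S
  · exact F50 S
  · exact F51 S
  · exact F52 S
  · exact F53 S
  · exact F54 S
  · exact F55 S
  · exact F56 S
  · exact F57 S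
  · exact F58 S
  · exact F59 S
  · exact F60 S
  · exact F61 S
  · exact F62 S
  · exact F63 S
  · exact F64 S
  · exact F65 S
  · exact F66 S
  · exact F67 S
  · exact F68 S
  · exact F69 S
  · exact F70 S
  · exact F71 S
  · exact F72 S
  · exact F73 S
  · exact F74 S
  · exact F75 S
  · exact F76 S
  · exact F77 S
  · exact F78 S
  · exact F79 S
  · exact F80 S
  · exact F81 S
  · exact F82 S
  · exact F83 S
  · exact F84 S
  · exact F85 S
  · exact F86 S
  · exact F87 S
  · exact F88 S
  · exact F89 S
  · exact F90 S
  · exact F91 S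
  · exact F92 S
  · exact F93 S
  · exact F94 S
  · exact F95 S
  · exact F96 S
  · exact F97 S
  · exact F98 S
  · exact F99 S
  · exact F100 S
  · exact F101 S
  · exact F102 S
  · exact F103 S
  · exact F104 S
  · exact F105 S
  · exact F106 S
  · exact F107 S
  · exact F108 S
  · exact F109 S
  · exact F110 S
  · exact F111 S
  · exact F112 S
  · exact F113 S
  · exact F114 S
  · exact F115 S
  · exact F116 S
  · exact F117 S
  · exact F118 S
  · exact F119 S
  · exact F120 S
  · exact F121 S
  · exact F122 S
  · exact F123 S
  · exact F124 S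
  · exact F125 S
  · exact F126 S
  · exact F127 S
  · exact F128 S
  · exact F129 S
  · exact F130 S
  · exact F131 S
  · exact F132 S
  · exact F133 S
  · exact F134 S
  · exact F135 S
  · exact F136 S
  · exact F137 S
  · exact F138 S
  · exact F139 S
  · exact F140 S
  · exact F141 S
  · exact F142 S
  · exact F143 S
  · exact F144 S
  · exact F145 S
  · exact F146 S
  · exact F147 S
  · exact F148 S
  · exact F149 S
  · exact F150 S
  · exact F151 S
  · exact F152 S
  · exact F153 S
  · exact F154 S
  · exact F155 S
  · exact F156 S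
  · exact F157 S
  · exact F158 S
  · exact F159 S
  · exact F160 S
  · exact F161 S
  · exact F162 S
  · exact F163 S
  · exact F164 S
  · exact F165 S
  · exact F166 S
  · exact F167 S
  · exact F168 S
  · exact F169 S
  · exact F170 S
  · exact F171 S
  · exact F172 S
  · exact F173 S
  · exact F174 S
  · exact F175 S
  · exact F176 S
  · exact F177 S
  · exact F178 S
  · exact F179 S
  · exact F180 S
  · exact F181 S
  · exact F182 S
  · exact F183 S
  · exact F184 S
  · exact F185 S
  · exact F186 S
  · exact F187 S
  · exact F188 S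
  · exact F189 S
  · exact F190 S
  · exact F191 S
  · exact F192 S
  · exact F193 S
  · exact F194 S
  · exact F195 S
  · exact F196 S
  · exact F197 S
  · exact F198 S
  · exact F199 S
  · exact F200 S
  · exact F201 S
  · exact F202 S
  · exact F203 S
  · exact F204 S
  · exact F205 S
  · exact F206 S
  · exact F207 S
  · exact F208 S
  · exact F209 S
  · exact F210 S
  · exact F211 S
  · exact F212 S
  · exact F213 S
  · exact F214 S
  · exact F215 S
  · exact F216 S
  · exact F217 S
  · exact F218 S
  · exact F219 S
  · exact F220 S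
  · exact F221 S
  · exact F222 S
  · exact F223 S
  · exact F224 S
  · exact F225 S
  · exact F226 S
  · exact F227 S
  · exact F228 S
  · exact F229 S
  · exact F230 S
  · exact F231 S
  · exact F232 S
  · exact F233 S
  · exact F234 S
  · exact F235 S

theorem Sol.F_zero {N : ℕ} (h1 : 9 ≤ N) (S : Sol N) : S.F = 0 := by
  rcases lt_or_ge N 236 with h | h
  · exact S.F_zero_small h1 h
  · exact S.F_zero_large h

end Pool.Agent.Lib_helper90d
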