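import Mathlib

set_option autoImplicit false

open Finset

namespace Pool.Agent.Lib_helper90d

theorem sum_shift {N : ℕ} {H : ℕ → ℝ} (hH : ∀ j, H (j + N) = H j) (m : ℕ) :
    ∑ j ∈ range N, H (j + m) = ∑ j ∈ range N, H j := by
  induction m with
  | zero => simp
  | succ m ih =>
    rw [← ih]
    have h1 := Finset.sum_range_succ (fun j => H (j + m)) N
    have h2 := Finset.sum_range_succ' (fun j => H (j + m)) N
    have h3 : H (N + m) = H m := by rw [add_comm]; exact hH m
    have h4 : ∀ j, H (j + 1 + m) = H (j + (m + 1)) := fun j => by congr 1; ring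
    simp only [h3, zero_add, h4] at h1 h2
    linarith

/-- the force between two small bodies at angular distance `x ∈ (0, 2π)` -/
noncomputable def Efun (x : ℝ) : ℝ :=
  Real.sin x - Real.cos (x / 2) / (4 * Real.sin (x / 2) ^ 2)

theorem Efun_refl (x : ℝ) : Efun (2 * Real.pi - x) = - Efun x := by
  unfold Efun
  have h1 : (2 * Real.pi - x) / 2 = Real.pi - x / 2 := by ring
  rw [h1, Real.cos_pi_sub, Real.sin_pi_sub]
  have h2 : Real.sin (2 * Real.pi - x) = - Real.sin x := by
    rw [Real.sin_two_pi_sub]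
  rw [h2]
  ring

/-- A solution of the limiting equations, in angular form (ordered, `N` bodies), rotated so
that the sum of the positions is real. `F` is that sum. -/
structure Sol (N : ℕ) where
  th : ℕ → ℝ
  mono : StrictMono th
  per : ∀ j, th (j + N) = th j + 2 * Real.pi
  eq : ∀ j, ∑ i ∈ range (N - 1), Efun (th (j + (i + 1)) - th j) = 0
  F : ℝ
  hF : 0 ≤ F
  cosF : ∑ j ∈ range N, Real.cos (th j) = F
  sinF : ∑ j ∈ range N, Real.sin (th j) = 0

variable {N : ℕ}

namespace Sol

variable (S : Sol N)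

/-- half of the angular distance between the bodies `j` and `j + m` -/
noncomputable def y (m j : ℕ) : ℝ := (S.th (j + m) - S.th j) / 2

/-- the direction halfway between the bodies `j` and `j + m` -/
noncomputable def ps (m j : ℕ) : ℝ := (S.th (j + m) + S.th j) / 2

theorem y_pos {m : ℕ} (hm : 0 < m) (j : ℕ) : 0 < S.y m j := by
  have := S.mono (show j < j + m by omega)
  unfold y; linarith

theorem y_lt {m : ℕ} (hm : m < N) (j : ℕ) : S.y m j < Real.pi := by
  have := S.mono (show j + m < j + N by omega)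
  have h2 := S.per j
  unfold y; linarith

/-- periodicity of `w`-type functions -/
theorem sum_mul_E (w : ℕ → ℝ) (hw : ∀ j, w (j + N) = w j) :
    ∑ i ∈ range (N - 1), ∑ j ∈ range N,
      (w (j + (i + 1)) - w j) * Efun (S.th (j + (i + 1)) - S.th j) = 0 := by
  have A : ∑ i ∈ range (N - 1), ∑ j ∈ range N,
      w j * Efun (S.th (j + (i + 1)) - S.th j) = 0 := by
    rw [Finset.sum_comm]
    refine Finset.sum_eq_zero fun j _ => ?_
    rw [← Finset.mul_sum, S.eq j, mul_zero]
  have B : ∀ i ∈ range (N - 1), ∑ j ∈ range N,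
      w (j + (i + 1)) * Efun (S.th (j + (i + 1)) - S.th j) =
      - ∑ j ∈ range N, w j * Efun (S.th (j + (N - 1 - 1 - i + 1)) - S.th j) := by
    intro i hi
    have hi' : i < N - 1 := Finset.mem_range.mp hi
    have hk : N - 1 - 1 - i + 1 + (i + 1) = N := by omega
    set k := N - 1 - 1 - i + 1 with hkdef
    have hper : ∀ j, (fun j => w j * Efun (2 * Real.pi - (S.th (j + k) - S.th j))) (j + N) =
        (fun j => w j * Efun (2 * Real.pi - (S.th (j + k) - S.th j))) j := by
      intro j
      simp only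
      rw [hw j]
      have e1 : S.th (j + N + k) = S.th (j + k) + 2 * Real.pi := by
        rw [show j + N + k = (j + k) + N by ring, S.per]
      rw [e1, S.per j]
      congr 2; ring
    have hs := sum_shift (H := fun j => w j * Efun (2 * Real.pi - (S.th (j + k) - S.th j))) hper (i + 1)
    beta_reduce at hs
    have hl : ∀ j ∈ range N, w (j + (i + 1)) * Efun (S.th (j + (i + 1)) - S.th j) =
        w (j + (i + 1)) * Efun (2 * Real.pi - (S.th (j + (i + 1) + k) - S.th (j + (i + 1)))) := by
      intro j _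
      have e1 : S.th (j + (i + 1) + k) = S.th j + 2 * Real.pi := by
        rw [show j + (i + 1) + k = j + N by omega, S.per]
      rw [e1]
      congr 2; ring
    rw [Finset.sum_congr rfl hl, hs, ← Finset.sum_neg_distrib]
    refine Finset.sum_congr rfl fun j _ => ?_
    rw [Efun_refl]; ring
  have C : ∑ i ∈ range (N - 1), ∑ j ∈ range N,
      w (j + (i + 1)) * Efun (S.th (j + (i + 1)) - S.th j) = 0 := by
    rw [Finset.sum_congr rfl B, Finset.sum_neg_distrib,
      Finset.sum_range_reflect (fun i => ∑ j ∈ range N, w j * Efun (S.th (j + (i + 1)) - S.th j))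
        (N - 1), A, neg_zero]
  have : ∀ i ∈ range (N - 1), ∑ j ∈ range N,
      (w (j + (i + 1)) - w j) * Efun (S.th (j + (i + 1)) - S.th j) =
      ∑ j ∈ range N, w (j + (i + 1)) * Efun (S.th (j + (i + 1)) - S.th j) -
      ∑ j ∈ range N, w j * Efun (S.th (j + (i + 1)) - S.th j) := by
    intro i _
    rw [← Finset.sum_sub_distrib]
    exact Finset.sum_congr rfl fun j _ => by ring
  rw [Finset.sum_congr rfl this, Finset.sum_sub_distrib, C, A, sub_zero]

/-- `∑ y = π m` -/
theorem sum_y (m : ℕ) : ∑ j ∈ range N, S.y m j = Real.pi * m := by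
  have hper : ∀ j, (fun j : ℕ => S.th j - 2 * Real.pi * (j : ℝ) / N) (j + N) =
      (fun j : ℕ => S.th j - 2 * Real.pi * (j : ℝ) / N) j := by
    intro j
    simp only
    rcases Nat.eq_zero_or_pos N with h0 | h0
    · subst h0
      exfalso
      have h1 := S.per 0
      simp at h1
    · have hN : (N : ℝ) ≠ 0 := by positivity
      rw [S.per]
      push_cast
      field_simp
      ring
  have hs := sum_shift (H := fun j : ℕ => S.th j - 2 * Real.pi * (j : ℝ) / N) hper m
  beta_reduce at hs
  have e : ∀ j ∈ range N, S.y m j = ((S.th (j + m) - 2 * Real.pi * ((j + m : ℕ) : ℝ) / N) -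
      (S.th j - 2 * Real.pi * (j : ℝ) / N)) / 2 + Real.pi * m / N := by
    intro j _
    unfold y
    push_cast
    ring
  rw [Finset.sum_congr rfl e, Finset.sum_add_distrib, ← Finset.sum_div, Finset.sum_sub_distrib, hs]
  rcases Nat.eq_zero_or_pos N with h0 | h0
  · subst h0
    exfalso
    have h1 := S.per 0
    simp at h1
  · have hN : (N : ℝ) ≠ 0 := by positivity
    simp
    field_simp

theorem N_pos (S : Sol N) : 0 < N := by
  rcases Nat.eq_zero_or_pos N with h0 | h0
  · subst h0
    exfalso
    have h1 := S.per 0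
    simp at h1
  · exact h0

theorem sum_cos_shift (k m : ℕ) : ∑ j ∈ range N, Real.cos (k * S.th (j + m)) =
    ∑ j ∈ range N, Real.cos (k * S.th j) := by
  have hper : ∀ j, (fun j : ℕ => Real.cos (k * S.th j)) (j + N) =
      (fun j : ℕ => Real.cos (k * S.th j)) j := by
    intro j
    simp only
    rw [S.per, show (k : ℝ) * (S.th j + 2 * Real.pi) = k * S.th j + k * (2 * Real.pi) by ring,
      Real.cos_add_nat_mul_two_pi]
  exact sum_shift (H := fun j : ℕ => Real.cos (k * S.th j)) hper m

theorem sum_sin_shift (k m : ℕ) : ∑ j ∈ range N, Real.sin (k * S.th (j + m)) =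
    ∑ j ∈ range N, Real.sin (k * S.th j) := by
  have hper : ∀ j, (fun j : ℕ => Real.sin (k * S.th j)) (j + N) =
      (fun j : ℕ => Real.sin (k * S.th j)) j := by
    intro j
    simp only
    rw [S.per, show (k : ℝ) * (S.th j + 2 * Real.pi) = k * S.th j + k * (2 * Real.pi) by ring,
      Real.sin_add_nat_mul_two_pi]
  exact sum_shift (H := fun j : ℕ => Real.sin (k * S.th j)) hper m

/-- `∑ sin(k y) cos(k ψ) = 0` -/
theorem sum_sin_cos (k m : ℕ) :
    ∑ j ∈ range N, Real.sin (k * S.y m j) * Real.cos (k * S.ps m j) = 0 := by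
  have h := S.sum_sin_shift k m
  have e : ∀ j ∈ range N, Real.sin (k * S.y m j) * Real.cos (k * S.ps m j) =
      (Real.sin (k * S.th (j + m)) - Real.sin (k * S.th j)) / 2 := by
    intro j _
    rw [Real.sin_sub_sin]
    unfold y ps
    rw [show (k * S.th (j + m) - k * S.th j) / 2 = k * ((S.th (j + m) - S.th j) / 2) by ring,
      show (k * S.th (j + m) + k * S.th j) / 2 = k * ((S.th (j + m) + S.th j) / 2) by ring]
    ring
  rw [Finset.sum_congr rfl e, ← Finset.sum_div, Finset.sum_sub_distrib, h]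
  simp

/-- `∑ cos(k y) cos(k ψ) = ∑ cos (k θ)` -/
theorem sum_cos_cos (k m : ℕ) :
    ∑ j ∈ range N, Real.cos (k * S.y m j) * Real.cos (k * S.ps m j) =
    ∑ j ∈ range N, Real.cos (k * S.th j) := by
  have h := S.sum_cos_shift k m
  have e : ∀ j ∈ range N, Real.cos (k * S.y m j) * Real.cos (k * S.ps m j) =
      (Real.cos (k * S.th (j + m)) + Real.cos (k * S.th j)) / 2 := by
    intro j _
    rw [Real.cos_add_cos]
    unfold y ps
    rw [show (k * S.th (j + m) - k * S.th j) / 2 = k * ((S.th (j + m) - S.th j) / 2) by ring,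
      show (k * S.th (j + m) + k * S.th j) / 2 = k * ((S.th (j + m) + S.th j) / 2) by ring]
    ring
  rw [Finset.sum_congr rfl e, ← Finset.sum_div, Finset.sum_add_distrib, h]
  ring

/-- `F² = N + ∑_m ∑_j cos (2 y)` -/
theorem F_sq : S.F ^ 2 = N + ∑ i ∈ range (N - 1), ∑ j ∈ range N, Real.cos (2 * S.y (i + 1) j) := by
  have h1 : S.F ^ 2 = ∑ j ∈ range N, ∑ k ∈ range N, Real.cos (S.th k - S.th j) := by
    have : ∀ j ∈ range N, ∑ k ∈ range N, Real.cos (S.th k - S.th j) =
        S.F * Real.cos (S.th j) := by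
      intro j _
      have : ∀ k ∈ range N, Real.cos (S.th k - S.th j) =
          Real.cos (S.th k) * Real.cos (S.th j) + Real.sin (S.th k) * Real.sin (S.th j) :=
        fun k _ => Real.cos_sub _ _
      rw [Finset.sum_congr rfl this, Finset.sum_add_distrib, ← Finset.sum_mul, ← Finset.sum_mul,
        S.cosF, S.sinF]
      ring
    rw [Finset.sum_congr rfl this, ← Finset.mul_sum, S.cosF]
    ring
  have h2 : ∀ j ∈ range N, ∑ k ∈ range N, Real.cos (S.th k - S.th j) =
      ∑ k ∈ range N, Real.cos (2 * S.y k j) := by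
    intro j _
    have hper : ∀ k, (fun k : ℕ => Real.cos (S.th k - S.th j)) (k + N) =
        (fun k : ℕ => Real.cos (S.th k - S.th j)) k := by
      intro k
      simp only
      rw [S.per, show S.th k + 2 * Real.pi - S.th j = (S.th k - S.th j) + 2 * Real.pi by ring,
        Real.cos_add_two_pi]
    rw [← sum_shift hper j]
    refine Finset.sum_congr rfl fun k _ => ?_
    unfold y
    rw [add_comm k j]
    congr 1; ring
  rw [h1, Finset.sum_congr rfl h2, Finset.sum_comm]
  have hN : N = (N - 1) + 1 := by have := S.N_pos; omega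
  have h3 : ∑ k ∈ range N, ∑ j ∈ range N, Real.cos (2 * S.y k j) =
      ∑ k ∈ range ((N - 1) + 1), ∑ j ∈ range N, Real.cos (2 * S.y k j) := by
    rw [← hN]
  rw [h3, Finset.sum_range_succ']
  have h4 : ∑ j ∈ range N, Real.cos (2 * S.y 0 j) = N := by
    have : ∀ j ∈ range N, Real.cos (2 * S.y 0 j) = 1 := by
      intro j _; unfold y; simp
    rw [Finset.sum_congr rfl this]; simp
  rw [h4]; ring

end Sol

theorem sum_cos_roots {N : ℕ} (hN : 2 ≤ N) :
    ∑ i ∈ range (N - 1), Real.cos (2 * (Real.pi * ((i + 1 : ℕ) : ℝ) / N)) = -1 := by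
  have hN0 : (N : ℂ) ≠ 0 := by exact_mod_cast (show N ≠ 0 by omega)
  have h := (Complex.isPrimitiveRoot_exp N (by omega)).geom_sum_eq_zero (by omega)
  have h2 : ∑ i ∈ range N, Real.cos (2 * (Real.pi * (i : ℝ) / N)) = 0 := by
    have h3 := congrArg Complex.re h
    rw [Complex.re_sum] at h3
    rw [Complex.zero_re] at h3
    rw [← h3]
    refine Finset.sum_congr rfl fun i _ => ?_
    rw [← Complex.exp_nat_mul]
    rw [show (i : ℂ) * (2 * Real.pi * Complex.I / N) = ((2 * (Real.pi * (i : ℝ) / N) : ℝ) : ℂ) * Complex.I by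
      push_cast; ring]
    rw [Complex.exp_ofReal_mul_I_re]
  have hN1 : N = (N - 1) + 1 := by omega
  have h3 : ∑ i ∈ range N, Real.cos (2 * (Real.pi * (i : ℝ) / N)) =
      ∑ i ∈ range ((N - 1) + 1), Real.cos (2 * (Real.pi * (i : ℝ) / N)) := by
    rw [← hN1]
  rw [h3, Finset.sum_range_succ'] at h2
  simp only [Nat.cast_zero, mul_zero, zero_div, Real.cos_zero] at h2
  linarith

end Pool.Agent.Lib_helper90d
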