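import Mathlib

set_option autoImplicit false

namespace Pool.Agent.Lib_helper90d

/-- one-sided interpolation bound -/
theorem interp_upper {f f' f'' : ℝ → ℝ} (h1 : ∀ x, HasDerivAt f (f' x) x)
    (h2 : ∀ x, HasDerivAt f' (f'' x) x) {u v M : ℝ} (huv : u < v) (hM0 : 0 ≤ M)
    (hM : ∀ x, u ≤ x → x ≤ v → -M ≤ f'' x) {x : ℝ} (hx1 : u ≤ x) (hx2 : x ≤ v) :
    f x - ((v - x) / (v - u) * f u + (x - u) / (v - u) * f v) ≤ M * (v - u) ^ 2 / 8 := by
  have hconv : ConvexOn ℝ (Set.Icc u v) (fun t => f t + M / 2 * t ^ 2) := by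
    apply convexOn_of_hasDerivWithinAt2_nonneg (convex_Icc u v)
      (f' := fun t => f' t + M / 2 * (2 * t)) (f'' := fun t => f'' t + M / 2 * 2)
    · exact fun t _ => ((h1 t).continuousAt.add (by fun_prop)).continuousWithinAt
    · intro t _
      have h3 : HasDerivAt (fun t : ℝ => t ^ 2) (2 * t) t := by simpa using hasDerivAt_pow 2 t
      exact ((h1 t).add (h3.const_mul (M / 2))).hasDerivWithinAt
    · intro t _
      have h3 : HasDerivAt (fun t : ℝ => 2 * t) 2 t := by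
        simpa using (hasDerivAt_id t).const_mul 2
      exact ((h2 t).add (h3.const_mul (M / 2))).hasDerivWithinAt
    · intro t ht
      have ht' := interior_subset ht
      have := hM t ht'.1 ht'.2
      linarith
  have hvu : 0 < v - u := by linarith
  have hc := hconv.2 (Set.left_mem_Icc.mpr huv.le) (Set.right_mem_Icc.mpr huv.le)
    (show 0 ≤ (v - x) / (v - u) by apply div_nonneg <;> linarith)
    (show 0 ≤ (x - u) / (v - u) by apply div_nonneg <;> linarith)
    (by field_simp; ring)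
  simp only [smul_eq_mul] at hc
  have hx : (v - x) / (v - u) * u + (x - u) / (v - u) * v = x := by
    field_simp; ring
  rw [hx] at hc
  have hid : (v - x) / (v - u) * u ^ 2 + (x - u) / (v - u) * v ^ 2 - x ^ 2 = (v - x) * (x - u) := by
    field_simp; ring
  have hprod : (v - x) * (x - u) ≤ (v - u) ^ 2 / 4 := by nlinarith [sq_nonneg ((v - x) - (x - u))]
  have hkey : f x - ((v - x) / (v - u) * f u + (x - u) / (v - u) * f v) ≤
      M / 2 * ((v - x) * (x - u)) := by
    rw [← hid]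
    linarith
  refine hkey.trans ?_
  calc M / 2 * ((v - x) * (x - u)) ≤ M / 2 * ((v - u) ^ 2 / 4) := by gcongr
      _ = _ := by ring

theorem interp_abs {f f' f'' : ℝ → ℝ} (h1 : ∀ x, HasDerivAt f (f' x) x)
    (h2 : ∀ x, HasDerivAt f' (f'' x) x) {u v M : ℝ} (huv : u < v)
    (hM : ∀ x, u ≤ x → x ≤ v → |f'' x| ≤ M) {x : ℝ} (hx1 : u ≤ x) (hx2 : x ≤ v) :
    |f x - ((v - x) / (v - u) * f u + (x - u) / (v - u) * f v)| ≤ M * (v - u) ^ 2 / 8 := by
  have hM0 : 0 ≤ M := (abs_nonneg _).trans (hM x hx1 hx2)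
  rw [abs_le]
  constructor
  · have := interp_upper (f := fun t => - f t) (f' := fun t => - f' t) (f'' := fun t => - f'' t)
      (fun t => (h1 t).neg) (fun t => (h2 t).neg) huv hM0
      (fun t ht1 ht2 => by have := (abs_le.mp (hM t ht1 ht2)).2; linarith) hx1 hx2
    linarith
  · exact interp_upper h1 h2 huv hM0
      (fun t ht1 ht2 => (abs_le.mp (hM t ht1 ht2)).1) hx1 hx2

/-- linear interpolation error bound on cells of `[0, ∞)` -/
def LI (f : ℝ → ℝ) (u0 u1 : ℝ) : Prop :=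
  ∀ u v x, 0 ≤ u → u < v → u ≤ x → x ≤ v →
    |f x - ((v - x) / (v - u) * f u + (x - u) / (v - u) * f v)| ≤ (u0 + u1 * v) * (v - u) ^ 2 / 8

theorem LI.of_deriv2 {f f' f'' : ℝ → ℝ} (h1 : ∀ x, HasDerivAt f (f' x) x)
    (h2 : ∀ x, HasDerivAt f' (f'' x) x) {u0 u1 : ℝ} (hu1 : 0 ≤ u1)
    (hb : ∀ x, 0 ≤ x → |f'' x| ≤ u0 + u1 * x) : LI f u0 u1 := by
  intro u v x hu huv hx1 hx2
  exact interp_abs h1 h2 huv (fun t ht1 ht2 => (hb t (by linarith)).trans (by gcongr)) hx1 hx2

theorem LI.add {f g : ℝ → ℝ} {u0 u1 v0 v1 : ℝ} (hf : LI f u0 u1) (hg : LI g v0 v1) :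
    LI (fun x => f x + g x) (u0 + v0) (u1 + v1) := by
  intro u v x hu huv hx1 hx2
  have h1 := hf u v x hu huv hx1 hx2
  have h2 := hg u v x hu huv hx1 hx2
  have e : f x + g x - ((v - x) / (v - u) * (f u + g u) + (x - u) / (v - u) * (f v + g v)) =
      (f x - ((v - x) / (v - u) * f u + (x - u) / (v - u) * f v)) +
      (g x - ((v - x) / (v - u) * g u + (x - u) / (v - u) * g v)) := by ring
  rw [e]
  refine (abs_add_le _ _).trans ?_
  calc _ ≤ (u0 + u1 * v) * (v - u) ^ 2 / 8 + (v0 + v1 * v) * (v - u) ^ 2 / 8 := add_le_add h1 h2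
    _ = _ := by ring

theorem LI.smul {f : ℝ → ℝ} {u0 u1 : ℝ} (c : ℝ) (hf : LI f u0 u1) :
    LI (fun x => c * f x) (|c| * u0) (|c| * u1) := by
  intro u v x hu huv hx1 hx2
  have h1 := hf u v x hu huv hx1 hx2
  have e : c * f x - ((v - x) / (v - u) * (c * f u) + (x - u) / (v - u) * (c * f v)) =
      c * (f x - ((v - x) / (v - u) * f u + (x - u) / (v - u) * f v)) := by ring
  rw [e, abs_mul]
  calc _ ≤ |c| * ((u0 + u1 * v) * (v - u) ^ 2 / 8) := by gcongr
    _ = _ := by ring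

theorem LI.mono {f : ℝ → ℝ} {u0 u1 v0 v1 : ℝ} (hf : LI f u0 u1) (h0 : u0 ≤ v0) (h1 : u1 ≤ v1) :
    LI f v0 v1 := by
  intro u v x hu huv hx1 hx2
  refine (hf u v x hu huv hx1 hx2).trans ?_
  have : 0 < v := by linarith
  gcongr

/-- lower bound from interpolation -/
theorem lower_of_interp {fx fu fv e u v x : ℝ} (huv : u < v) (hx1 : u ≤ x) (hx2 : x ≤ v)
    (h : |fx - ((v - x) / (v - u) * fu + (x - u) / (v - u) * fv)| ≤ e) {t : ℝ}
    (hu : t ≤ fu) (hv : t ≤ fv) : t - e ≤ fx := by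
  have h1 := (abs_le.mp h).1
  have hvu : 0 < v - u := by linarith
  have ha : 0 ≤ (v - x) / (v - u) := by apply div_nonneg <;> linarith
  have hb : 0 ≤ (x - u) / (v - u) := by apply div_nonneg <;> linarith
  have hab : (v - x) / (v - u) + (x - u) / (v - u) = 1 := by field_simp; ring
  have h2 := mul_le_mul_of_nonneg_left hu ha
  have h3 := mul_le_mul_of_nonneg_left hv hb
  have h4 : (v - x) / (v - u) * t + (x - u) / (v - u) * t = t := by rw [← add_mul, hab, one_mul]
  linarith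

end Pool.Agent.Lib_helper90d
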