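import Pool.Agent.Lib_helper90d.E9

set_option autoImplicit false

open Finset

namespace Pool.Agent.Lib_helper90d

/-- `∑_{k<n} f k` over the integers -/
def sz (f : ℕ → ℤ) : ℕ → ℤ
  | 0 => 0
  | n + 1 => sz f n + f n

theorem sz_eq (f : ℕ → ℤ) (n : ℕ) : sz f n = ∑ k ∈ range n, f k := by
  induction n with
  | zero => simp [sz]
  | succ n ih => rw [sz, ih, Finset.sum_range_succ]

/-- `r^k T_k(p/r)` -/
def tch (p r : ℤ) : ℕ → ℤ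
  | 0 => 1
  | 1 => p
  | k + 2 => 2 * p * tch p r (k + 1) - r ^ 2 * tch p r k

theorem tch_eq (p r : ℤ) (hr : 0 < r) (k : ℕ) : (tch p r k : ℝ) = (r : ℝ) ^ k * Tc k (p / r) := by
  have hr' : (r : ℝ) ≠ 0 := by exact_mod_cast hr.ne'
  induction k using Nat.twoStepInduction with
  | zero => simp [tch, Tc]
  | one => simp [tch, Tc]; field_simp
  | more k ih1 ih2 =>
    rw [tch, Tc]
    push_cast
    rw [ih1, ih2]
    field_simp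
    ring

/-- `k²(k²-1)/3` -/
def Dz (k : ℕ) : ℤ := (k : ℤ) ^ 2 * ((k : ℤ) ^ 2 - 1) / 3

theorem Dz_eq {k : ℕ} (hk : k ≤ 6) : (Dz k : ℝ) = Dk k := by
  unfold Dz Dk
  interval_cases k <;> norm_num

/-- data of one certificate, integers at scale `2^36` -/
structure CD where
  (w P q n1 s K : ℕ)
  (A X1 X2 X1m X2m : ℤ)
  (al b mu : ℕ → ℤ)

namespace CD

variable (d : CD)

def r : ℤ := ((2 ^ (d.s - 1) : ℕ) : ℤ)

def S1 : ℤ := ((2 ^ 36 : ℕ) : ℤ)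

def U0 : ℤ := 8 * S1 + (|d.A| + 1) + 4 * d.X1m + sz (fun k => 4 * |d.al k|) d.K

def U1 : ℤ := 27 * S1 + 80 * (|d.A| + 1) + 12 * d.X2m + sz (fun k =>
  (8 * ((k : ℤ) + 1) + 2 * ((k : ℤ) + 1) ^ 2) * |d.al k| +
  (12 * ((k : ℤ) + 1) + 2 * ((k : ℤ) + 1) ^ 2) * |d.b k| +
  (3 * ((k : ℤ) + 1) + ((k : ℤ) + 1) ^ 3) * |d.mu k|) d.K

def T1 : ℤ := sz (fun k => Dz (k + 1) * (((k : ℤ) + 1) * |d.mu k|)) d.K
def T2 : ℤ := sz (fun k => Dz (k + 1) * (|d.al k| + |d.b k|)) d.K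

def th2 : ℤ := d.T2 / ((2 ^ (2 * d.s + 1) : ℕ) : ℤ) + 1
def th1 : ℤ := d.U1 / ((2 ^ (2 * d.q + 3) : ℕ) : ℤ) + d.T1 / ((2 ^ (2 * d.s + 1) : ℕ) : ℤ) + 2

def G : ℤ := 40 * S1 + 8 * |d.A| + 4 * |d.X1 + d.th2| + 16 * |d.X2| + 2 * S1 + 8 * d.th1 +
  sz (fun k => 4 * |d.al k| + 4 * |d.b k| + 2 * |d.mu k|) d.K

def B : ℤ := 20 * S1 + 4 * |d.A| + 2 * |d.X1 + d.th2| + 8 * |d.X2| + S1 + 4 * d.th1 +
  sz (fun k => 2 * |d.al k| + 2 * |d.b k| + |d.mu k|) d.K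

def eh : ℤ := d.G / ((2 ^ (d.P - 10) : ℕ) : ℤ) + 1

def th0 : ℤ := (d.U0 * ((2 ^ d.q : ℕ) : ℤ) + d.U1) / ((2 ^ (3 * d.q + 3) : ℕ) : ℤ) + 1 + 4 + d.eh

/-- packed part without `T_k`, `k ≥ 1` -/
def N0 : ℤ :=
  (S1 * zR0 d.w d.P d.q d.n1 + d.A * zR1 d.w d.P d.q d.n1) +
  ((-(d.X1 + d.th2)) * zR2 d.w d.P d.q d.n1 + d.X2 * zR3 d.w d.P d.q d.n1) +
  ((-d.th0) * zO d.w d.P d.q d.n1 + (-d.th1) * zY d.w d.P d.q d.n1)

def NK (k : ℕ) : ℤ := (d.al k * zA d.w d.P d.q d.n1 (k + 1) + d.b k * zB d.w d.P d.q d.n1 (k + 1)) +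
  d.mu k * zM d.w d.P d.q d.n1 (k + 1)

/-- lanes -/
def l0 (i : ℕ) : ℤ :=
  (S1 * lR0 d.P d.q i + d.A * lR1 d.P d.q i) +
  ((-(d.X1 + d.th2)) * lR2 d.P d.q i + d.X2 * lR3 d.P d.q i) +
  ((-d.th0) * lO d.P d.q i + (-d.th1) * lY d.P d.q i)

def lK (k i : ℕ) : ℤ := (d.al k * lA d.P d.q (k + 1) i + d.b k * lB d.P d.q (k + 1) i) +
  d.mu k * lM d.P d.q (k + 1) i

/-- coefficient of `T_{k+1}` at the node `j` -/
def tau (j k : ℕ) : ℤ := tch ((j : ℤ) - d.r) d.r (k + 1) * d.r ^ (d.K - (k + 1))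

def TT (j : ℕ) : ℤ := d.r ^ d.K * d.N0 + (-1) * sz (fun k => d.tau j k * d.NK k) d.K

def tl (j i : ℕ) : ℤ := d.r ^ d.K * d.l0 i + (-1) * ∑ k ∈ range d.K, d.tau j k * d.lK k i

theorem l0_fun : d.l0 = fun i => (S1 * lR0 d.P d.q i + d.A * lR1 d.P d.q i) +
  ((-(d.X1 + d.th2)) * lR2 d.P d.q i + d.X2 * lR3 d.P d.q i) +
  ((-d.th0) * lO d.P d.q i + (-d.th1) * lY d.P d.q i) := by
  funext i; unfold l0; rfl

theorem lK_fun (k : ℕ) : d.lK k = fun i => (d.al k * lA d.P d.q (k + 1) i +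
    d.b k * lB d.P d.q (k + 1) i) + d.mu k * lM d.P d.q (k + 1) i := by
  funext i; unfold lK; rfl

theorem tl_fun (j : ℕ) : d.tl j = fun i => d.r ^ d.K * d.l0 i +
    (-1) * ∑ k ∈ range d.K, d.tau j k * d.lK k i := by
  funext i; unfold tl; rfl

theorem N0_eq : d.N0 = pk (2 ^ d.w) d.l0 (64 * d.n1) := by
  rw [l0_fun]
  unfold N0
  rw [zR0_eq, zR1_eq, zR2_eq, zR3_eq, zO_eq, zY_eq]
  generalize S1 = S1'
  simp only [pk_smul, pk_add]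

theorem NK_eq (k : ℕ) : d.NK k = pk (2 ^ d.w) (d.lK k) (64 * d.n1) := by
  rw [lK_fun]
  unfold NK
  rw [zA_eq, zB_eq, zM_eq]
  simp only [pk_smul, pk_add]

theorem TT_eq (j : ℕ) : d.TT j = pk (2 ^ d.w) (d.tl j) (64 * d.n1) := by
  unfold TT
  have hs : sz (fun k => d.tau j k * d.NK k) d.K =
      pk (2 ^ d.w) (fun i => ∑ k ∈ range d.K, d.tau j k * d.lK k i) (64 * d.n1) := by
    rw [sz_eq]
    simp only [NK_eq, pk_eq, Finset.mul_sum, Finset.sum_mul]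
    rw [Finset.sum_comm]
    exact Finset.sum_congr rfl fun i _ => Finset.sum_congr rfl fun k _ => by ring
  rw [N0_eq, hs, tl_fun]
  simp only [pk_smul, pk_add]

attribute [local irreducible] laneOK TT

/-- all nodes `j < n` pass the lane test -/
def loop (H : ℕ) : ℕ → Bool
  | 0 => true
  | n + 1 => laneOK H (d.TT n) && loop H n

theorem loop_sound {H n : ℕ} (h : d.loop H n = true) : ∀ j < n, laneOK H (d.TT j) = true := by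
  induction n with
  | zero => intro j hj; omega
  | succ n ih =>
    intro j hj
    rw [loop, Bool.and_eq_true] at h
    rcases Nat.lt_succ_iff_lt_or_eq.mp hj with h1 | h1
    · exact ih h.2 j h1
    · rw [h1]; exact h.1

/-- side conditions -/
def side : Bool :=
  Nat.ble 20 d.P && Nat.ble d.P 70 && Nat.ble 8 d.q && Nat.ble d.n1 256 &&
  Nat.ble (64 * d.n1) (4 * 2 ^ d.q) && Nat.ble 1 d.n1 &&
  Nat.ble (31416 * 2 ^ d.q) (10000 * (64 * d.n1 - 1)) && Nat.ble d.K 6 && Nat.ble 1 d.s &&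
  Nat.ble 1 d.w && decide (d.th0 ≤ S1) && decide (0 ≤ d.X1m) && decide (0 ≤ d.X2m) &&
  decide (d.r ^ d.K * (((2 ^ (2 * d.P + d.q + 1) : ℕ) : ℤ) * d.B +
    ((2 ^ (d.P + d.q + 11) : ℕ) : ℤ) * d.G) < ((2 ^ (d.w - 1) : ℕ) : ℤ))

def check : Bool := d.side && d.loop (maskN d.w (64 * d.n1)) (2 ^ d.s + 1)

end CD

end Pool.Agent.Lib_helper90d
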