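import Pool.Agent.Lib_helper90d.E10

set_option autoImplicit false

open Finset

namespace Pool.Agent.Lib_helper90d

theorem Ap.sum {P q n : ℕ} (K : ℕ) (g B : ℕ → ℝ) (L : ℕ → ℕ → ℤ) (f : ℕ → ℝ → ℝ)
    (h : ∀ k < K, Ap P q n (g k) (B k) (L k) (f k)) :
    Ap P q n (∑ k ∈ range K, g k) (∑ k ∈ range K, B k) (fun i => ∑ k ∈ range K, L k i)
      (fun y => ∑ k ∈ range K, f k y) := by
  induction K with
  | zero =>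
    intro i hi
    simp
  | succ K ih =>
    have h1 := ih fun k hk => h k (by omega)
    have h2 := h K (by omega)
    refine ((h1.add h2).congr (fun i => ?_) (fun y => ?_)).mono ?_ ?_
    · rw [Finset.sum_range_succ]
    · rw [Finset.sum_range_succ]
    · rw [Finset.sum_range_succ]
    · rw [Finset.sum_range_succ]

namespace CD

variable (d : CD)

/-- real function behind the lanes `l0` -/
noncomputable def f0 (y : ℝ) : ℝ :=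
  ((S1 : ℝ) * R0 y + (d.A : ℝ) * R1 y) +
  (((-(d.X1 + d.th2) : ℤ) : ℝ) * R2 y + (d.X2 : ℝ) * R3 y) +
  (((-d.th0 : ℤ) : ℝ) * 1 + ((-d.th1 : ℤ) : ℝ) * y)

noncomputable def fK (k : ℕ) (y : ℝ) : ℝ :=
  ((d.al k : ℝ) * Ak (k + 1) y + (d.b k : ℝ) * Bk (k + 1) y) + (d.mu k : ℝ) * Mk (k + 1) y

noncomputable def g0 : ℝ := (|(S1 : ℝ)| * 40 + |(d.A : ℝ)| * 8) +
  (|((-(d.X1 + d.th2) : ℤ) : ℝ)| * 4 + |(d.X2 : ℝ)| * 16) +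
  (|((-d.th0 : ℤ) : ℝ)| * 2 + |((-d.th1 : ℤ) : ℝ)| * 8)

noncomputable def B0 : ℝ := (|(S1 : ℝ)| * 20 + |(d.A : ℝ)| * 4) +
  (|((-(d.X1 + d.th2) : ℤ) : ℝ)| * 2 + |(d.X2 : ℝ)| * 8) +
  (|((-d.th0 : ℤ) : ℝ)| * 1 + |((-d.th1 : ℤ) : ℝ)| * 4)

noncomputable def gK (k : ℕ) : ℝ := (|(d.al k : ℝ)| * 4 + |(d.b k : ℝ)| * 4) + |(d.mu k : ℝ)| * 2
noncomputable def BK (k : ℕ) : ℝ := (|(d.al k : ℝ)| * 2 + |(d.b k : ℝ)| * 2) + |(d.mu k : ℝ)| * 1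

theorem Ap_l0 (h : Good d.P d.q d.n1) : Ap d.P d.q (64 * d.n1) d.g0 d.B0 d.l0 d.f0 := by
  have H := (((Ap_lR0 h).smul S1).add ((Ap_lR1 h).smul d.A)).add
    (((Ap_lR2 h).smul (-(d.X1 + d.th2))).add ((Ap_lR3 h).smul d.X2))
  have H2 := H.add (((Ap_lO h).smul (-d.th0)).add ((Ap_lY h).smul (-d.th1)))
  refine (H2.congr (fun i => ?_) (fun y => ?_)).mono (le_of_eq ?_) (le_of_eq ?_)
  · rw [l0_fun]
  · unfold f0; rfl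
  · unfold g0; rfl
  · unfold B0; rfl

theorem Ap_lK (h : Good d.P d.q d.n1) {k : ℕ} (hk : k + 1 ≤ 6) :
    Ap d.P d.q (64 * d.n1) (d.gK k) (d.BK k) (d.lK k) (d.fK k) := by
  have H := (((Ap_lA h (Nat.succ_pos k) hk).smul (d.al k)).add
    ((Ap_lB h (Nat.succ_pos k) hk).smul (d.b k))).add ((Ap_lM h (Nat.succ_pos k) hk).smul (d.mu k))
  refine (H.congr (fun i => ?_) (fun y => ?_)).mono (le_of_eq ?_) (le_of_eq ?_)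
  · rw [lK_fun]
  · unfold fK; rfl
  · unfold gK; rfl
  · unfold BK; rfl

theorem Ap_tl (h : Good d.P d.q d.n1) (hK : d.K ≤ 6) (j : ℕ) :
    Ap d.P d.q (64 * d.n1)
      (|((d.r ^ d.K : ℤ) : ℝ)| * d.g0 + |((-1 : ℤ) : ℝ)| * ∑ k ∈ range d.K, |(d.tau j k : ℝ)| * d.gK k)
      (|((d.r ^ d.K : ℤ) : ℝ)| * d.B0 + |((-1 : ℤ) : ℝ)| * ∑ k ∈ range d.K, |(d.tau j k : ℝ)| * d.BK k)
      (d.tl j)
      (fun y => ((d.r ^ d.K : ℤ) : ℝ) * d.f0 y + ((-1 : ℤ) : ℝ) *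
        ∑ k ∈ range d.K, (d.tau j k : ℝ) * d.fK k y) := by
  have H := ((d.Ap_l0 h).smul (d.r ^ d.K)).add ((Ap.sum d.K _ _ _ _
    (fun k hk => (d.Ap_lK h (show k + 1 ≤ 6 by omega)).smul (d.tau j k))).smul (-1))
  refine (H.congr (fun i => ?_) (fun y => ?_))
  · rw [tl_fun]
  · rfl

theorem r_pos : 0 < d.r := by
  unfold r; positivity

theorem tau_eq (j : ℕ) {k : ℕ} (hk : k < d.K) : (d.tau j k : ℝ) =
    (d.r : ℝ) ^ d.K * Tc (k + 1) (((j : ℤ) - d.r : ℤ) / (d.r : ℝ)) := by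
  unfold tau
  push_cast
  rw [tch_eq _ _ d.r_pos]
  have : (d.r : ℝ) ^ d.K = (d.r : ℝ) ^ (k + 1) * (d.r : ℝ) ^ (d.K - (k + 1)) := by
    rw [← pow_add]; congr 1; omega
  rw [this]
  push_cast
  ring

theorem node_eq (hs : 1 ≤ d.s) (j : ℕ) : (((j : ℤ) - d.r : ℤ) : ℝ) / (d.r : ℝ) =
    -1 + (j : ℝ) * (2 / 2 ^ d.s) := by
  have hr : (d.r : ℝ) = 2 ^ (d.s - 1) := by unfold r; push_cast; ring
  have h2 : (2 : ℝ) ^ d.s = 2 * 2 ^ (d.s - 1) := by rw [← pow_succ']; congr 1; omega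
  push_cast
  rw [hr, h2]
  field_simp
  ring

theorem node_range (hs : 1 ≤ d.s) {j : ℕ} (hj : j ≤ 2 ^ d.s) :
    -1 ≤ -1 + (j : ℝ) * (2 / 2 ^ d.s) ∧ -1 + (j : ℝ) * (2 / 2 ^ d.s) ≤ 1 := by
  have h2 : (0 : ℝ) < 2 ^ d.s := by positivity
  constructor
  · have : 0 ≤ (j : ℝ) * (2 / 2 ^ d.s) := by positivity
    linarith
  · have hj' : (j : ℝ) ≤ 2 ^ d.s := by exact_mod_cast hj
    have : (j : ℝ) * (2 / 2 ^ d.s) ≤ 2 ^ d.s * (2 / 2 ^ d.s) := by gcongr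
    have e : (2 : ℝ) ^ d.s * (2 / 2 ^ d.s) = 2 := by field_simp
    linarith

theorem side_spec (h : d.side = true) : Good d.P d.q d.n1 ∧ 1 ≤ d.n1 ∧
    31416 * 2 ^ d.q ≤ 10000 * (64 * d.n1 - 1) ∧ d.K ≤ 6 ∧ 1 ≤ d.s ∧ 1 ≤ d.w ∧ d.th0 ≤ S1 ∧
    0 ≤ d.X1m ∧ 0 ≤ d.X2m ∧
    d.r ^ d.K * (((2 ^ (2 * d.P + d.q + 1) : ℕ) : ℤ) * d.B +
    ((2 ^ (d.P + d.q + 11) : ℕ) : ℤ) * d.G) < ((2 ^ (d.w - 1) : ℕ) : ℤ) := by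
  unfold side at h
  simp only [Bool.and_eq_true, Nat.ble_eq, decide_eq_true_eq] at h
  obtain ⟨⟨⟨⟨⟨⟨⟨⟨⟨⟨⟨⟨⟨h1, h2⟩, h3⟩, h4⟩, h5⟩, h6⟩, h7⟩, h8⟩, h9⟩, h10⟩, h11⟩, h12⟩, h13⟩, h14⟩ := h
  exact ⟨⟨h1, h2, h3, h4, h5⟩, h6, h7, h8, h9, h10, h11, h12, h13, h14⟩

end CD

end Pool.Agent.Lib_helper90d
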