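import Pool.Agent.Lib_helper90d.E11

set_option autoImplicit false

open Finset

namespace Pool.Agent.Lib_helper90d

theorem sz_cast (f : ℕ → ℤ) (n : ℕ) : ((sz f n : ℤ) : ℝ) = ∑ k ∈ range n, (f k : ℝ) := by
  rw [sz_eq]; push_cast; rfl

theorem sz_nonneg {f : ℕ → ℤ} {n : ℕ} (h : ∀ k < n, 0 ≤ f k) : 0 ≤ sz f n := by
  rw [sz_eq]
  exact Finset.sum_nonneg fun k hk => h k (Finset.mem_range.mp hk)

theorem ediv_lt_add_one (x : ℤ) {D : ℕ} (hD : 0 < D) :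
    (x : ℝ) / (D : ℝ) ≤ ((x / (D : ℤ) + 1 : ℤ) : ℝ) := by
  have hD' : (0 : ℤ) < (D : ℤ) := by exact_mod_cast hD
  have h := floor_err x (D : ℤ) hD'
  have := (abs_le.mp h).1
  push_cast at this ⊢
  linarith

theorem Dz_nonneg {k : ℕ} (hk : k ≤ 6) : 0 ≤ Dz k := by
  have : (0 : ℝ) ≤ (Dz k : ℝ) := by rw [Dz_eq hk]; exact Dk_nonneg k
  exact_mod_cast this

namespace CD

variable (d : CD)

theorem S1_pos : 0 < S1 := by unfold S1; positivity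

theorem S1_cast : (S1 : ℝ) = 2 ^ 36 := by norm_num [S1]

theorem U1_nonneg (h : 0 ≤ d.X2m) : 0 ≤ d.U1 := by
  unfold U1
  have := S1_pos
  have h2 : 0 ≤ sz (fun k =>
    (8 * ((k : ℤ) + 1) + 2 * ((k : ℤ) + 1) ^ 2) * |d.al k| +
    (12 * ((k : ℤ) + 1) + 2 * ((k : ℤ) + 1) ^ 2) * |d.b k| +
    (3 * ((k : ℤ) + 1) + ((k : ℤ) + 1) ^ 3) * |d.mu k|) d.K := sz_nonneg fun k _ => by positivity
  positivity

theorem U0_nonneg (h : 0 ≤ d.X1m) : 0 ≤ d.U0 := by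
  unfold U0
  have := S1_pos
  have h2 : 0 ≤ sz (fun k => 4 * |d.al k|) d.K := sz_nonneg fun k _ => by positivity
  positivity

theorem T1_nonneg (hK : d.K ≤ 6) : 0 ≤ d.T1 := by
  unfold T1
  refine sz_nonneg fun k hk => ?_
  have := Dz_nonneg (show k + 1 ≤ 6 by omega)
  positivity

theorem T2_nonneg (hK : d.K ≤ 6) : 0 ≤ d.T2 := by
  unfold T2
  refine sz_nonneg fun k hk => ?_
  have := Dz_nonneg (show k + 1 ≤ 6 by omega)
  positivity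

theorem th1_nonneg (h : 0 ≤ d.X2m) (hK : d.K ≤ 6) : 0 ≤ d.th1 := by
  unfold th1
  have h1 := Int.ediv_nonneg (d.U1_nonneg h) (show (0 : ℤ) ≤ ((2 ^ (2 * d.q + 3) : ℕ) : ℤ) by positivity)
  have h2 := Int.ediv_nonneg (d.T1_nonneg hK) (show (0 : ℤ) ≤ ((2 ^ (2 * d.s + 1) : ℕ) : ℤ) by positivity)
  linarith

theorem G_nonneg (h : 0 ≤ d.X2m) (hK : d.K ≤ 6) : 0 ≤ d.G := by
  unfold G
  have := S1_pos
  have h1 := d.th1_nonneg h hK
  have h2 : 0 ≤ sz (fun k => 4 * |d.al k| + 4 * |d.b k| + 2 * |d.mu k|) d.K :=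
    sz_nonneg fun k _ => by positivity
  positivity

theorem eh_pos (h : 0 ≤ d.X2m) (hK : d.K ≤ 6) : 0 < d.eh := by
  unfold eh
  have := Int.ediv_nonneg (d.G_nonneg h hK)
    (show (0 : ℤ) ≤ ((2 ^ (d.P - 10) : ℕ) : ℤ) by positivity)
  linarith

theorem th0_nonneg (h1 : 0 ≤ d.X1m) (h : 0 ≤ d.X2m) (hK : d.K ≤ 6) : 0 ≤ d.th0 := by
  unfold th0
  have h3 := d.U0_nonneg h1
  have h4 := d.U1_nonneg h
  have h5 := d.eh_pos h hK
  have h6 : 0 ≤ (d.U0 * ((2 ^ d.q : ℕ) : ℤ) + d.U1) / ((2 ^ (3 * d.q + 3) : ℕ) : ℤ) :=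
    Int.ediv_nonneg (by positivity) (by positivity)
  linarith

theorem g_le (h1 : 0 ≤ d.X1m) (h2 : 0 ≤ d.X2m) (hK : d.K ≤ 6) (h0 : d.th0 ≤ S1) :
    d.g0 + ∑ k ∈ range d.K, d.gK k ≤ (d.G : ℝ) := by
  have ht0 := d.th0_nonneg h1 h2 hK
  have ht1 := d.th1_nonneg h2 hK
  have hS : (0 : ℝ) < S1 := by exact_mod_cast S1_pos
  have a0 : |((-d.th0 : ℤ) : ℝ)| ≤ (S1 : ℝ) := by
    push_cast
    rw [abs_neg, abs_of_nonneg (by exact_mod_cast ht0)]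
    exact_mod_cast h0
  have a1 : |((-d.th1 : ℤ) : ℝ)| = (d.th1 : ℝ) := by
    push_cast
    rw [abs_neg, abs_of_nonneg (by exact_mod_cast ht1)]
  have a2 : |((-(d.X1 + d.th2) : ℤ) : ℝ)| = |((d.X1 + d.th2 : ℤ) : ℝ)| := by
    push_cast
    rw [abs_neg]
  have e : (d.G : ℝ) = 40 * (S1 : ℝ) + 8 * |(d.A : ℝ)| + 4 * |((d.X1 + d.th2 : ℤ) : ℝ)| +
      16 * |(d.X2 : ℝ)| + 2 * (S1 : ℝ) + 8 * (d.th1 : ℝ) + ∑ k ∈ range d.K, d.gK k := by
    unfold G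
    rw [Int.cast_add, sz_cast]
    have hs : ∑ k ∈ range d.K, ((4 * |d.al k| + 4 * |d.b k| + 2 * |d.mu k| : ℤ) : ℝ) =
        ∑ k ∈ range d.K, d.gK k := by
      refine Finset.sum_congr rfl fun k _ => ?_
      unfold gK
      push_cast
      ring
    rw [hs]
    push_cast
    ring
  rw [e]
  unfold g0
  rw [a1, a2, abs_of_pos hS]
  linarith

theorem B_le (h1 : 0 ≤ d.X1m) (h2 : 0 ≤ d.X2m) (hK : d.K ≤ 6) (h0 : d.th0 ≤ S1) :
    d.B0 + ∑ k ∈ range d.K, d.BK k ≤ (d.B : ℝ) := by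
  have ht0 := d.th0_nonneg h1 h2 hK
  have ht1 := d.th1_nonneg h2 hK
  have hS : (0 : ℝ) < S1 := by exact_mod_cast S1_pos
  have a0 : |((-d.th0 : ℤ) : ℝ)| ≤ (S1 : ℝ) := by
    push_cast
    rw [abs_neg, abs_of_nonneg (by exact_mod_cast ht0)]
    exact_mod_cast h0
  have a1 : |((-d.th1 : ℤ) : ℝ)| = (d.th1 : ℝ) := by
    push_cast
    rw [abs_neg, abs_of_nonneg (by exact_mod_cast ht1)]
  have a2 : |((-(d.X1 + d.th2) : ℤ) : ℝ)| = |((d.X1 + d.th2 : ℤ) : ℝ)| := by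
    push_cast
    rw [abs_neg]
  have e : (d.B : ℝ) = 20 * (S1 : ℝ) + 4 * |(d.A : ℝ)| + 2 * |((d.X1 + d.th2 : ℤ) : ℝ)| +
      8 * |(d.X2 : ℝ)| + (S1 : ℝ) + 4 * (d.th1 : ℝ) + ∑ k ∈ range d.K, d.BK k := by
    unfold B
    rw [Int.cast_add, sz_cast]
    have hs : ∑ k ∈ range d.K, ((2 * |d.al k| + 2 * |d.b k| + |d.mu k| : ℤ) : ℝ) =
        ∑ k ∈ range d.K, d.BK k := by
      refine Finset.sum_congr rfl fun k _ => ?_
      unfold BK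
      push_cast
      ring
    rw [hs]
    push_cast
    ring
  rw [e]
  unfold B0
  rw [a1, a2, abs_of_pos hS]
  linarith

/-- the real function behind the lanes -/
noncomputable def Rr (y c : ℝ) : ℝ := d.f0 y - ∑ k ∈ range d.K, Tc (k + 1) c * d.fK k y

theorem lane_real (h : d.check = true) {i j : ℕ} (hi : i < 64 * d.n1) (hj : j ≤ 2 ^ d.s) :
    -(d.eh : ℝ) ≤ d.Rr (i / 2 ^ d.q) (-1 + (j : ℝ) * (2 / 2 ^ d.s)) := by
  unfold check at h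
  rw [Bool.and_eq_true] at h
  obtain ⟨hside, hloop⟩ := h
  obtain ⟨hg, hn1, hpi, hK, hs, hw, ht0, hX1m, hX2m, hmag⟩ := d.side_spec hside
  have hlane := d.loop_sound hloop j (by omega)
  rw [TT_eq] at hlane
  have hap := d.Ap_tl hg hK j
  have hrK : (0 : ℝ) < (d.r : ℝ) ^ d.K := by
    have : (0 : ℝ) < d.r := by exact_mod_cast d.r_pos
    positivity
  have hc := d.node_range hs hj
  have htau : ∀ k < d.K, |(d.tau j k : ℝ)| ≤ (d.r : ℝ) ^ d.K := by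
    intro k hk
    rw [d.tau_eq j hk, d.node_eq hs, abs_mul, abs_of_pos hrK]
    exact mul_le_of_le_one_right hrK.le (Tc_abs_le _ hc.1 hc.2)
  have hgtot : |((d.r ^ d.K : ℤ) : ℝ)| * d.g0 + |((-1 : ℤ) : ℝ)| *
      ∑ k ∈ range d.K, |(d.tau j k : ℝ)| * d.gK k ≤ (d.r : ℝ) ^ d.K * d.G := by
    have h1 : ∑ k ∈ range d.K, |(d.tau j k : ℝ)| * d.gK k ≤
        ∑ k ∈ range d.K, (d.r : ℝ) ^ d.K * d.gK k := by
      refine Finset.sum_le_sum fun k hk => ?_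
      refine mul_le_mul_of_nonneg_right (htau k (Finset.mem_range.mp hk)) ?_
      unfold gK; positivity
    rw [← Finset.mul_sum] at h1
    have h2 := mul_le_mul_of_nonneg_left (d.g_le hX1m hX2m hK ht0) hrK.le
    push_cast
    rw [abs_of_pos hrK, abs_neg, abs_one, one_mul]
    linarith
  have hBtot : |((d.r ^ d.K : ℤ) : ℝ)| * d.B0 + |((-1 : ℤ) : ℝ)| *
      ∑ k ∈ range d.K, |(d.tau j k : ℝ)| * d.BK k ≤ (d.r : ℝ) ^ d.K * d.B := by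
    have h1 : ∑ k ∈ range d.K, |(d.tau j k : ℝ)| * d.BK k ≤
        ∑ k ∈ range d.K, (d.r : ℝ) ^ d.K * d.BK k := by
      refine Finset.sum_le_sum fun k hk => ?_
      refine mul_le_mul_of_nonneg_right (htau k (Finset.mem_range.mp hk)) ?_
      unfold BK; positivity
    rw [← Finset.mul_sum] at h1
    have h2 := mul_le_mul_of_nonneg_left (d.B_le hX1m hX2m hK ht0) hrK.le
    push_cast
    rw [abs_of_pos hrK, abs_neg, abs_one, one_mul]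
    linarith
  have hap2 := hap.mono hgtot hBtot
  have hmagR : (d.r : ℝ) ^ d.K * (2 ^ (2 * d.P + d.q + 1) * (d.B : ℝ) +
      2 ^ (d.P + d.q + 11) * (d.G : ℝ)) < 2 ^ (d.w - 1) := by exact_mod_cast hmag
  have hbound : ∀ i < 64 * d.n1, |d.tl j i| < 2 ^ (d.w - 1) := by
    intro i hi
    obtain ⟨h1, h2⟩ := hap2 i hi
    beta_reduce at h1 h2
    set f := ((d.r ^ d.K : ℤ) : ℝ) * d.f0 (i / 2 ^ d.q) + ((-1 : ℤ) : ℝ) *
        ∑ k ∈ range d.K, (d.tau j k : ℝ) * d.fK k (i / 2 ^ d.q) with hf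
    have h3 : |(d.tl j i : ℝ)| ≤ 2 ^ (2 * d.P + d.q + 1) * ((d.r : ℝ) ^ d.K * d.B) +
        (d.r : ℝ) ^ d.K * d.G * 2 ^ (d.P + d.q + 11) := by
      have e : (d.tl j i : ℝ) = ((d.tl j i : ℝ) - 2 ^ (2 * d.P + d.q + 1) * f) +
          2 ^ (2 * d.P + d.q + 1) * f := by ring
      rw [e]
      refine (abs_add_le _ _).trans ?_
      have h4 : |2 ^ (2 * d.P + d.q + 1) * f| ≤ 2 ^ (2 * d.P + d.q + 1) * ((d.r : ℝ) ^ d.K * d.B) := by
        rw [abs_mul, abs_of_pos (by positivity : (0:ℝ) < 2 ^ (2 * d.P + d.q + 1))]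
        exact mul_le_mul_of_nonneg_left h2 (by positivity)
      linarith
    have h5 : |(d.tl j i : ℝ)| < 2 ^ (d.w - 1) := by
      refine lt_of_le_of_lt h3 (lt_of_eq_of_lt ?_ hmagR)
      ring
    exact_mod_cast h5
  have hnn := laneOK_sound hw hbound hlane i hi
  obtain ⟨h1, _⟩ := hap2 i hi
  have hnnR : (0 : ℝ) ≤ (d.tl j i : ℝ) := by exact_mod_cast hnn
  have h6 := (abs_le.mp h1).2
  -- the real function equals r^K * Rr
  have hf : ((d.r ^ d.K : ℤ) : ℝ) * d.f0 (i / 2 ^ d.q) + ((-1 : ℤ) : ℝ) *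
        ∑ k ∈ range d.K, (d.tau j k : ℝ) * d.fK k (i / 2 ^ d.q) =
      (d.r : ℝ) ^ d.K * d.Rr (i / 2 ^ d.q) (-1 + (j : ℝ) * (2 / 2 ^ d.s)) := by
    unfold Rr
    have : ∑ k ∈ range d.K, (d.tau j k : ℝ) * d.fK k (i / 2 ^ d.q) =
        (d.r : ℝ) ^ d.K * ∑ k ∈ range d.K, (Tc (k + 1) (-1 + (j : ℝ) * (2 / 2 ^ d.s)) *
          d.fK k (i / 2 ^ d.q)) := by
      rw [Finset.mul_sum]
      refine Finset.sum_congr rfl fun k hk => ?_
      rw [d.tau_eq j (Finset.mem_range.mp hk), d.node_eq hs]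
      ring
    rw [this]
    push_cast
    ring
  beta_reduce at h6
  rw [hf] at h6
  set R := d.Rr (i / 2 ^ d.q) (-1 + (j : ℝ) * (2 / 2 ^ d.s)) with hR
  have hP10 : (2 : ℝ) ^ (2 * d.P + d.q + 1) = 2 ^ (d.P - 10) * 2 ^ (d.P + d.q + 11) := by
    rw [← pow_add]; congr 1; have := hg.hP0; omega
  have h7 : -((d.r : ℝ) ^ d.K * d.G * 2 ^ (d.P + d.q + 11)) ≤
      2 ^ (2 * d.P + d.q + 1) * ((d.r : ℝ) ^ d.K * R) := by linarith
  have h8 : -(d.G : ℝ) ≤ 2 ^ (d.P - 10) * R := by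
    have hpos : (0 : ℝ) < (d.r : ℝ) ^ d.K * 2 ^ (d.P + d.q + 11) := by positivity
    rw [hP10] at h7
    have e1 : -((d.r : ℝ) ^ d.K * d.G * 2 ^ (d.P + d.q + 11)) =
      (-(d.G : ℝ)) * ((d.r : ℝ) ^ d.K * 2 ^ (d.P + d.q + 11)) := by ring
    have e2 : (2 : ℝ) ^ (d.P - 10) * 2 ^ (d.P + d.q + 11) * ((d.r : ℝ) ^ d.K * R) =
      (2 ^ (d.P - 10) * R) * ((d.r : ℝ) ^ d.K * 2 ^ (d.P + d.q + 11)) := by ring
    rw [e1, e2] at h7
    exact le_of_mul_le_mul_right h7 hpos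
  have h9 := ediv_lt_add_one d.G (D := 2 ^ (d.P - 10)) (by positivity)
  have h10 : (d.G : ℝ) / 2 ^ (d.P - 10) ≤ (d.eh : ℝ) := by
    unfold eh
    push_cast at h9 ⊢
    exact h9
  rw [div_le_iff₀ (by positivity)] at h10
  have hpp : (0 : ℝ) < 2 ^ (d.P - 10) := by positivity
  nlinarith

end CD

end Pool.Agent.Lib_helper90d
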