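import Pool.Agent.Lib_helper90d.E12

set_option autoImplicit false

open Finset

namespace Pool.Agent.Lib_helper90d

theorem R1_abs_le (y : ℝ) : |R1 y| ≤ 4 := by
  unfold R1
  have h1 := abs_le.mp (Real.abs_cos_le_one y)
  have h2 := abs_le.mp (Real.abs_sin_le_one (2 * y))
  have h3 := abs_le.mp (Real.abs_sin_le_one (4 * y))
  rw [abs_le]
  constructor <;> linarith [h1.1, h1.2, h2.1, h2.2, h3.1, h3.2]

theorem R3_nonneg {y : ℝ} (hy : 0 ≤ y) : 0 ≤ R3 y := mul_nonneg hy (R2_nonneg y)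

namespace CD

variable (d : CD)

noncomputable def alr (k : ℕ) : ℝ := (d.al k : ℝ) / 2 ^ 36
noncomputable def br (k : ℕ) : ℝ := (d.b k : ℝ) / 2 ^ 36
noncomputable def mur (k : ℕ) : ℝ := (d.mu k : ℝ) / 2 ^ 36

theorem abs_div36 (x : ℝ) : |x / 2 ^ 36| * 2 ^ 36 = |x| := by
  rw [abs_div, abs_of_pos (by positivity : (0:ℝ) < 2 ^ 36)]
  field_simp

theorem UU0_le {a X1r : ℝ} (ha : |a * 2 ^ 36 - d.A| ≤ 1) (hX1m : |X1r| * 2 ^ 36 ≤ d.X1m) :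
    UU0 a X1r d.K d.alr * 2 ^ 36 ≤ (d.U0 : ℝ) := by
  have e : (d.U0 : ℝ) = 8 * 2 ^ 36 + (|(d.A : ℝ)| + 1) + 4 * (d.X1m : ℝ) +
      ∑ k ∈ range d.K, 4 * |(d.al k : ℝ)| := by
    unfold U0
    rw [Int.cast_add, sz_cast]
    push_cast
    rw [S1_cast]
  have h1 : UU0 a X1r d.K d.alr * 2 ^ 36 = 8 * 2 ^ 36 + |a| * 2 ^ 36 + 4 * (|X1r| * 2 ^ 36) +
      ∑ k ∈ range d.K, 4 * |(d.al k : ℝ)| := by
    unfold UU0
    rw [add_mul, add_mul, add_mul, Finset.sum_mul]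
    congr 1
    · ring
    · refine Finset.sum_congr rfl fun k _ => ?_
      unfold alr
      rw [mul_assoc, abs_div36]
  rw [e, h1]
  have h2 : |a| * 2 ^ 36 ≤ |(d.A : ℝ)| + 1 := by
    have : |a| * 2 ^ 36 = |a * 2 ^ 36| := by
      rw [abs_mul, abs_of_pos (by positivity : (0:ℝ) < 2 ^ 36)]
    rw [this]
    calc |a * 2 ^ 36| = |(a * 2 ^ 36 - d.A) + d.A| := by ring_nf
      _ ≤ |a * 2 ^ 36 - d.A| + |(d.A : ℝ)| := abs_add_le _ _
      _ ≤ _ := by linarith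
  linarith

theorem UU1_le {a X2r : ℝ} (ha : |a * 2 ^ 36 - d.A| ≤ 1) (hX2m : |X2r| * 2 ^ 36 ≤ d.X2m) :
    UU1 a X2r d.K d.alr d.br d.mur * 2 ^ 36 ≤ (d.U1 : ℝ) := by
  have e : (d.U1 : ℝ) = 27 * 2 ^ 36 + 80 * (|(d.A : ℝ)| + 1) + 12 * (d.X2m : ℝ) +
      ∑ k ∈ range d.K, ((8 * ((k : ℝ) + 1) + 2 * ((k : ℝ) + 1) ^ 2) * |(d.al k : ℝ)| +
      (12 * ((k : ℝ) + 1) + 2 * ((k : ℝ) + 1) ^ 2) * |(d.b k : ℝ)| +
      (3 * ((k : ℝ) + 1) + ((k : ℝ) + 1) ^ 3) * |(d.mu k : ℝ)|) := by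
    unfold U1
    rw [Int.cast_add, sz_cast]
    push_cast
    rw [S1_cast]
  have h1 : UU1 a X2r d.K d.alr d.br d.mur * 2 ^ 36 = 27 * 2 ^ 36 + 80 * (|a| * 2 ^ 36) +
      12 * (|X2r| * 2 ^ 36) +
      ∑ k ∈ range d.K, ((8 * ((k : ℝ) + 1) + 2 * ((k : ℝ) + 1) ^ 2) * |(d.al k : ℝ)| +
      (12 * ((k : ℝ) + 1) + 2 * ((k : ℝ) + 1) ^ 2) * |(d.b k : ℝ)| +
      (3 * ((k : ℝ) + 1) + ((k : ℝ) + 1) ^ 3) * |(d.mu k : ℝ)|) := by
    unfold UU1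
    rw [add_mul, add_mul, add_mul, Finset.sum_mul]
    congr 1
    · ring
    · refine Finset.sum_congr rfl fun k _ => ?_
      unfold alr br mur
      rw [add_mul, add_mul, mul_assoc, abs_div36, mul_assoc, abs_div36, mul_assoc, abs_div36]
      push_cast
      rfl
  rw [e, h1]
  have h2 : |a| * 2 ^ 36 ≤ |(d.A : ℝ)| + 1 := by
    have : |a| * 2 ^ 36 = |a * 2 ^ 36| := by
      rw [abs_mul, abs_of_pos (by positivity : (0:ℝ) < 2 ^ 36)]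
    rw [this]
    calc |a * 2 ^ 36| = |(a * 2 ^ 36 - d.A) + d.A| := by ring_nf
      _ ≤ |a * 2 ^ 36 - d.A| + |(d.A : ℝ)| := abs_add_le _ _
      _ ≤ _ := by linarith
  linarith

theorem TT1_eq (hK : d.K ≤ 6) : TT1 d.K d.mur * 2 ^ 36 = (d.T1 : ℝ) := by
  unfold TT1 T1
  rw [sz_cast, Finset.sum_mul]
  refine Finset.sum_congr rfl fun k hk => ?_
  have := Finset.mem_range.mp hk
  unfold mur
  push_cast
  rw [Dz_eq (by omega), mul_assoc, mul_assoc, abs_div36]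

theorem TT2_eq (hK : d.K ≤ 6) : TT2 d.K d.alr d.br * 2 ^ 36 = (d.T2 : ℝ) := by
  unfold TT2 T2
  rw [sz_cast, Finset.sum_mul]
  refine Finset.sum_congr rfl fun k hk => ?_
  have := Finset.mem_range.mp hk
  unfold alr br
  push_cast
  rw [Dz_eq (by omega), mul_assoc, add_mul, abs_div36, abs_div36]

theorem Pf_ge {a X1r X2r : ℝ} (ha : |a * 2 ^ 36 - d.A| ≤ 1) (hX1 : X1r * 2 ^ 36 ≤ d.X1)
    (hX2 : (d.X2 : ℝ) ≤ X2r * 2 ^ 36) {y : ℝ} (hy : 0 ≤ y) (c : ℝ) :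
    d.Rr y c - 4 + d.th0 + d.th1 * y + d.th2 * R2 y ≤
      Pf a X1r X2r d.K d.alr d.br d.mur y c * 2 ^ 36 := by
  have e : Pf a X1r X2r d.K d.alr d.br d.mur y c * 2 ^ 36 =
      2 ^ 36 * R0 y + (a * 2 ^ 36) * R1 y - (X1r * 2 ^ 36) * R2 y + (X2r * 2 ^ 36) * R3 y -
      ∑ k ∈ range d.K, Tc (k + 1) c * d.fK k y := by
    unfold Pf
    rw [sub_mul, Finset.sum_mul]
    congr 1
    · ring
    · refine Finset.sum_congr rfl fun k _ => ?_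
      unfold fK alr br mur
      field_simp
  rw [e]
  unfold Rr f0
  rw [S1_cast]
  have h1 : -4 ≤ (a * 2 ^ 36 - d.A) * R1 y := by
    have h2 : |(a * 2 ^ 36 - d.A) * R1 y| ≤ 1 * 4 := by
      rw [abs_mul]
      exact mul_le_mul ha (R1_abs_le y) (abs_nonneg _) (by norm_num)
    have := (abs_le.mp h2).1
    linarith
  have h3 := mul_le_mul_of_nonneg_right hX1 (R2_nonneg y)
  have h4 := mul_le_mul_of_nonneg_right hX2 (R3_nonneg hy)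
  push_cast
  linarith

theorem check_sound (h : d.check = true) {a X1r X2r : ℝ} (ha : |a * 2 ^ 36 - d.A| ≤ 1)
    (hX1 : X1r * 2 ^ 36 ≤ d.X1) (hX2 : (d.X2 : ℝ) ≤ X2r * 2 ^ 36)
    (hX1m : |X1r| * 2 ^ 36 ≤ d.X1m) (hX2m : |X2r| * 2 ^ 36 ≤ d.X2m) {y c : ℝ} (hy0 : 0 ≤ y)
    (hy1 : y ≤ Real.pi) (hc0 : -1 ≤ c) (hc1 : c ≤ 1) :
    0 ≤ Pf a X1r X2r d.K d.alr d.br d.mur y c := by
  have hside : d.side = true := by
    unfold check at h
    rw [Bool.and_eq_true] at h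
    exact h.1
  obtain ⟨hg, hn1, hpi, hK, hs, hw, ht0, hX1m0, hX2m0, hmag⟩ := d.side_spec hside
  have h2q : (0 : ℝ) < 2 ^ d.q := by positivity
  have h2s : (0 : ℝ) < 2 ^ d.s := by positivity
  refine grid_pos hK (h := 1 / 2 ^ d.q) (D := 2 / 2 ^ d.s) (n := 64 * d.n1 - 1) (J := 2 ^ d.s)
    (by positivity) ?_ ?_ ?_ hy0 hy1 hc0 hc1
  · rw [mul_one_div, le_div_iff₀ h2q]
    have h1 : (31416 : ℝ) * 2 ^ d.q ≤ 10000 * ((64 * d.n1 - 1 : ℕ) : ℝ) := by exact_mod_cast hpi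
    have h2 := Real.pi_lt_d4
    have h3 : Real.pi * 2 ^ d.q ≤ 3.1416 * 2 ^ d.q := by gcongr
    linarith
  · push_cast
    field_simp
  · intro i hi j hj
    have hi' : i < 64 * d.n1 := by omega
    have hl := d.lane_real h hi' hj
    have hyi : (0 : ℝ) ≤ i / 2 ^ d.q := by positivity
    have hP := d.Pf_ge ha hX1 hX2 hyi (-1 + (j : ℝ) * (2 / 2 ^ d.s))
    have hUU0 := d.UU0_le ha hX1m
    have hUU1 := d.UU1_le ha hX2m
    have hT1 := d.TT1_eq hK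
    have hT2 := d.TT2_eq hK
    have hih : (i : ℝ) * (1 / 2 ^ d.q) = i / 2 ^ d.q := by ring
    rw [hih]
    set y := (i : ℝ) / 2 ^ d.q with hy
    -- thresholds
    have hA0 : (1 / 2 ^ d.q : ℝ) ^ 2 / 8 * (UU0 a X1r d.K d.alr +
        UU1 a X2r d.K d.alr d.br d.mur * (1 / 2 ^ d.q)) * 2 ^ 36 ≤ d.th0 - 4 - d.eh := by
      have h3 := ediv_lt_add_one (d.U0 * ((2 ^ d.q : ℕ) : ℤ) + d.U1) (D := 2 ^ (3 * d.q + 3))
        (by positivity)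
      have h4 : (d.th0 : ℝ) - 4 - d.eh = (((d.U0 * ((2 ^ d.q : ℕ) : ℤ) + d.U1) /
          ((2 ^ (3 * d.q + 3) : ℕ) : ℤ) + 1 : ℤ) : ℝ) := by
        unfold th0
        push_cast
        ring
      rw [h4]
      refine le_trans ?_ h3
      push_cast
      rw [le_div_iff₀ (by positivity)]
      have e : (1 / 2 ^ d.q : ℝ) ^ 2 / 8 * (UU0 a X1r d.K d.alr +
        UU1 a X2r d.K d.alr d.br d.mur * (1 / 2 ^ d.q)) * 2 ^ 36 * 2 ^ (3 * d.q + 3) =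
        (UU0 a X1r d.K d.alr * 2 ^ 36) * 2 ^ d.q + UU1 a X2r d.K d.alr d.br d.mur * 2 ^ 36 := by
        rw [show 3 * d.q + 3 = d.q + d.q + d.q + 3 by ring, pow_add, pow_add, pow_add]
        field_simp
        ring
      rw [e]
      gcongr
    have hA1 : ((1 / 2 ^ d.q : ℝ) ^ 2 / 8 * UU1 a X2r d.K d.alr d.br d.mur +
        (2 / 2 ^ d.s) ^ 2 / 8 * TT1 d.K d.mur) * 2 ^ 36 ≤ d.th1 := by
      have h3 := ediv_lt_add_one d.U1 (D := 2 ^ (2 * d.q + 3)) (by positivity)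
      have h4 := ediv_lt_add_one d.T1 (D := 2 ^ (2 * d.s + 1)) (by positivity)
      have h5 : (d.th1 : ℝ) = ((d.U1 / ((2 ^ (2 * d.q + 3) : ℕ) : ℤ) + 1 : ℤ) : ℝ) +
          ((d.T1 / ((2 ^ (2 * d.s + 1) : ℕ) : ℤ) + 1 : ℤ) : ℝ) := by
        unfold th1; push_cast; ring
      rw [h5, add_mul]
      refine add_le_add (le_trans ?_ h3) (le_trans ?_ h4)
      · push_cast
        rw [le_div_iff₀ (by positivity)]
        refine le_trans (le_of_eq ?_) hUU1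
        rw [show 2 * d.q + 3 = d.q + d.q + 3 by ring, pow_add, pow_add]
        field_simp
        ring
      · push_cast
        rw [le_div_iff₀ (by positivity), ← hT1]
        apply le_of_eq
        rw [show 2 * d.s + 1 = d.s + d.s + 1 by ring, pow_add, pow_add]
        field_simp
        ring
    have hA2 : (2 / 2 ^ d.s : ℝ) ^ 2 / 8 * TT2 d.K d.alr d.br * 2 ^ 36 ≤ d.th2 := by
      have h4 := ediv_lt_add_one d.T2 (D := 2 ^ (2 * d.s + 1)) (by positivity)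
      have h5 : (d.th2 : ℝ) = ((d.T2 / ((2 ^ (2 * d.s + 1) : ℕ) : ℤ) + 1 : ℤ) : ℝ) := by
        unfold th2; rfl
      rw [h5]
      refine le_trans ?_ h4
      push_cast
      rw [le_div_iff₀ (by positivity), ← hT2]
      apply le_of_eq
      rw [show 2 * d.s + 1 = d.s + d.s + 1 by ring, pow_add, pow_add]
      field_simp
      ring
    have hB1 := mul_le_mul_of_nonneg_right hA1 hyi
    have hB2 := mul_le_mul_of_nonneg_right hA2 (R2_nonneg y)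
    have hS : (0 : ℝ) < 2 ^ 36 := by positivity
    refine le_of_mul_le_mul_right ?_ hS
    generalize Pf a X1r X2r d.K d.alr d.br d.mur y (-1 + (j : ℝ) * (2 / 2 ^ d.s)) = V at hP ⊢
    generalize (1 / 2 ^ d.q : ℝ) ^ 2 / 8 * (UU0 a X1r d.K d.alr +
        UU1 a X2r d.K d.alr d.br d.mur * (1 / 2 ^ d.q)) = a0 at hA0 ⊢
    generalize ((1 / 2 ^ d.q : ℝ) ^ 2 / 8 * UU1 a X2r d.K d.alr d.br d.mur +
        (2 / 2 ^ d.s) ^ 2 / 8 * TT1 d.K d.mur) = a1 at hB1 ⊢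
    generalize (2 / 2 ^ d.s : ℝ) ^ 2 / 8 * TT2 d.K d.alr d.br = a2 at hB2 ⊢
    linarith

end CD

end Pool.Agent.Lib_helper90d
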