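import Pool.Agent.Lib_helper90d.Func3

set_option autoImplicit false

open Finset

namespace Pool.Agent.Lib_helper90d

theorem al_pos {N m : ℕ} (hm : 0 < m) (hN : 0 < N) : 0 < al N m := by
  unfold al
  have := Real.pi_pos
  positivity

theorem al_le_half {N m : ℕ} (hN : 0 < N) (hm : 2 * m ≤ N) : al N m ≤ Real.pi / 2 := by
  unfold al
  have hN' : (0 : ℝ) < N := by exact_mod_cast hN
  rw [div_le_div_iff₀ hN' (by norm_num)]
  have : (2 : ℝ) * m ≤ N := by exact_mod_cast hm
  nlinarith [Real.pi_pos]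

namespace Sol

variable {N : ℕ} (S : Sol N)

theorem SS_nonneg' {m : ℕ} (h0 : 0 < m) (h1 : 2 * m ≤ N) : 0 ≤ S.SS m := by
  refine Finset.sum_nonneg fun j _ => ?_
  have ha := al_pos h0 S.N_pos
  have ha2 := al_le_half S.N_pos h1
  have hy := S.y_pos h0 j
  have hy2 := S.y_lt (show m < N by omega) j
  have h2 := Psi_ge ha ha2 hy hy2
  have h3 := Phi_nonneg ha (by linarith [Real.pi_pos]) hy hy2
  linarith

theorem SS_nonneg {m : ℕ} (h0 : 0 < m) (h1 : m < N) : 0 ≤ S.SS m := by
  rcases le_or_gt (2 * m) N with h | h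
  · exact S.SS_nonneg' h0 h
  · rw [← S.SS_symm h1.le]
    exact S.SS_nonneg' (by omega) (by omega)

theorem Phi_sum_ge {m : ℕ} (h0 : 0 < m) (h1 : m < N) (ha : al N m ≤ 1 / 5) :
    S.F ^ 2 ≤ (∑ j ∈ range N, Phi (al N m) (S.y m j)) * (Real.pi * m) := by
  have ha0 := al_pos h0 S.N_pos
  have hs := Real.sin_pos_of_pos_of_lt_pi ha0 (by linarith [Real.pi_gt_three])
  have hcs := S.cs_bound h0
  have hle : (∑ j ∈ range N, Real.sin (S.y m j - al N m) ^ 2 /
      (S.y m j + Real.sin (S.y m j) * Real.cos (S.y m j))) ≤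
      (∑ j ∈ range N, Phi (al N m) (S.y m j)) * Real.sin (al N m) ^ 2 := by
    rw [Finset.sum_mul]
    refine Finset.sum_le_sum fun j _ => ?_
    have hy := S.y_pos h0 j
    have hy2 := S.y_lt h1 j
    rw [div_le_iff₀ (y_add_pos hy)]
    have := P1 ha0 ha hy hy2
    linarith
  have hpm : 0 ≤ Real.pi * m := by have := Real.pi_pos; positivity
  have h2 := hcs.trans (mul_le_mul_of_nonneg_right hle hpm)
  have h3 : (∑ j ∈ range N, Phi (al N m) (S.y m j)) * Real.sin (al N m) ^ 2 * (Real.pi * m) =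
      (∑ j ∈ range N, Phi (al N m) (S.y m j)) * (Real.pi * m) * Real.sin (al N m) ^ 2 := by ring
  rw [h3] at h2
  exact le_of_mul_le_mul_right h2 (by positivity)

theorem SS_ge_small {m : ℕ} (h0 : 0 < m) (h1 : m < N) (ha : al N m ≤ 1 / 5) :
    (1 - 7 * Real.sin (al N m) ^ 2) / (Real.pi * m) * S.F ^ 2 ≤ S.SS m := by
  have ha0 := al_pos h0 S.N_pos
  have hs := Real.sin_pos_of_pos_of_lt_pi ha0 (by linarith [Real.pi_gt_three])
  have hs2 : Real.sin (al N m) ≤ 1 / 5 := (Real.sin_le ha0.le).trans ha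
  have hs3 : Real.sin (al N m) ^ 2 ≤ (1 / 5) ^ 2 := by gcongr
  have hpos : 0 ≤ 1 - 7 * Real.sin (al N m) ^ 2 := by linarith
  have hpm : 0 < Real.pi * m := by have := Real.pi_pos; positivity
  have h2 := S.Phi_sum_ge h0 h1 ha
  have h3 : (1 - 7 * Real.sin (al N m) ^ 2) * ∑ j ∈ range N, Phi (al N m) (S.y m j) ≤ S.SS m := by
    unfold SS
    rw [Finset.mul_sum]
    refine Finset.sum_le_sum fun j _ => ?_
    exact Psi_ge_small ha0 ha (S.y_pos h0 j) (S.y_lt h1 j)
  refine le_trans ?_ h3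
  rw [div_mul_eq_mul_div, div_le_iff₀ hpm, mul_assoc]
  exact mul_le_mul_of_nonneg_left h2 hpos

/-- if `F = 0` then the configuration is regular -/
theorem regular_of_F (hN : 2 ≤ N) (hF : S.F = 0) (j : ℕ) :
    S.th (j + 1) - S.th j = 2 * Real.pi / N := by
  have hN0 : (0 : ℝ) < N := by exact_mod_cast (show 0 < N by omega)
  have h1 := S.identK hN
  rw [hF] at h1
  have h2 : S.SS 1 ≤ ∑ i ∈ range (N - 1), S.SS (i + 1) := by
    refine Finset.single_le_sum (f := fun i => S.SS (i + 1)) (fun i hi => ?_)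
      (Finset.mem_range.mpr (show 0 < N - 1 by omega))
    have := Finset.mem_range.mp hi
    exact S.SS_nonneg (by omega) (by omega)
  have h3 : S.SS 1 ≤ 0 := by rw [h1] at h2; simpa using h2
  -- reduce j modulo N
  have key : ∀ i ∈ range N, S.y 1 i = al N 1 := by
    intro i hi
    by_contra hne
    have ha := al_pos (show 0 < 1 by norm_num) S.N_pos
    have ha2 := al_le_half S.N_pos (show 2 * 1 ≤ N by omega)
    have hnn : ∀ k ∈ range N, 0 ≤ Psi (al N 1) (S.y 1 k) := by
      intro k _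
      have hy := S.y_pos (show 0 < 1 by norm_num) k
      have hy2 := S.y_lt (show 1 < N by omega) k
      have h4 := Psi_ge ha ha2 hy hy2
      have h5 := Phi_nonneg ha (by linarith [Real.pi_pos]) hy hy2
      linarith
    have h6 : Psi (al N 1) (S.y 1 i) ≤ S.SS 1 :=
      Finset.single_le_sum (f := fun k => Psi (al N 1) (S.y 1 k)) hnn hi
    have hy := S.y_pos (show 0 < 1 by norm_num) i
    have hy2 := S.y_lt (show 1 < N by omega) i
    have h4 := Psi_ge ha ha2 hy hy2
    have h5 := Phi_pos ha (by linarith [Real.pi_pos]) hy hy2 hne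
    linarith
  have hper : ∀ k, S.y 1 (k + N) = S.y 1 k := by
    intro k
    unfold y
    rw [show k + N + 1 = k + 1 + N by ring, S.per, S.per]; ring
  have hall : S.y 1 j = al N 1 := by
    have h7 : ∀ q i, S.y 1 (i + N * q) = S.y 1 i := by
      intro q
      induction q with
      | zero => intro i; simp
      | succ q ih => intro i; rw [Nat.mul_succ, ← add_assoc, hper, ih]
    have h8 : j = j % N + N * (j / N) := (Nat.mod_add_div j N).symm
    rw [h8, h7]
    exact key _ (Finset.mem_range.mpr (Nat.mod_lt _ S.N_pos))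
  unfold y al at hall
  push_cast at hall
  field_simp at hall ⊢
  linarith

theorem th_eq (hN : 2 ≤ N) (hF : S.F = 0) (j : ℕ) :
    S.th j = S.th 0 + 2 * Real.pi * j / N := by
  induction j with
  | zero => simp
  | succ j ih =>
    have := S.regular_of_F hN hF j
    rw [show S.th (j + 1) = S.th j + 2 * Real.pi / N by linarith, ih]
    push_cast
    ring

/-- for `N ≥ 236` we have `F = 0` -/
theorem F_zero_large (hN : 236 ≤ N) : S.F = 0 := by
  have hpi := Real.pi_gt_d4
  have hpi2 := Real.pi_lt_d4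
  have hpi0 := Real.pi_pos
  have hN' : (236 : ℝ) ≤ N := by exact_mod_cast hN
  have hN0 : (0 : ℝ) < N := by linarith
  have h := S.F_sq_ge (by omega) (fun m h0 h1 => S.SS_nonneg h0 h1)
    ((range 15).image (fun i => i + 1)) (by
      intro m hm
      obtain ⟨i, hi, him⟩ := Finset.mem_image.mp hm
      have := Finset.mem_range.mp hi
      omega)
  rw [Finset.sum_image (by intro a _ b _ hab; simpa using hab)] at h
  have hterm : ∀ i ∈ range 15, (1 / ((i + 1 : ℕ) : ℝ) - 7 * (Real.pi / 236) ^ 2 * ((i + 1 : ℕ) : ℝ)) / Real.pi * S.F ^ 2 ≤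
      S.SS (i + 1) := by
    intro i hi
    have hi' := Finset.mem_range.mp hi
    have him : ((i + 1 : ℕ) : ℝ) ≤ 15 := by exact_mod_cast (show i + 1 ≤ 15 by omega)
    have him0 : (0 : ℝ) < ((i + 1 : ℕ) : ℝ) := by exact_mod_cast (show 0 < i + 1 by omega)
    have hal : al N (i + 1) ≤ Real.pi / 236 * ((i + 1 : ℕ) : ℝ) := by
      unfold al
      rw [div_mul_eq_mul_div]
      gcongr
    have hal5 : al N (i + 1) ≤ 1 / 5 := by
      refine hal.trans ?_
      have : Real.pi / 236 * ((i + 1 : ℕ) : ℝ) ≤ 3.1416 / 236 * 15 := by gcongr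
      refine this.trans (by norm_num)
    refine le_trans ?_ (S.SS_ge_small (by omega) (by omega) hal5)
    apply mul_le_mul_of_nonneg_right _ (sq_nonneg _)
    have hal0 := al_pos (show 0 < i + 1 by omega) S.N_pos
    have hs0 := Real.sin_nonneg_of_nonneg_of_le_pi hal0.le (by linarith)
    have hs : Real.sin (al N (i + 1)) ≤ Real.pi / 236 * ((i + 1 : ℕ) : ℝ) :=
      (Real.sin_le hal0.le).trans hal
    have hs2 : Real.sin (al N (i + 1)) ^ 2 ≤ (Real.pi / 236 * ((i + 1 : ℕ) : ℝ)) ^ 2 := by gcongr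
    have e : (1 / ((i + 1 : ℕ) : ℝ) - 7 * (Real.pi / 236) ^ 2 * ((i + 1 : ℕ) : ℝ)) / Real.pi =
        (1 - 7 * (Real.pi / 236 * ((i + 1 : ℕ) : ℝ)) ^ 2) / (Real.pi * ((i + 1 : ℕ) : ℝ)) := by
      field_simp
    rw [e]
    gcongr
  have h2 := (Finset.sum_le_sum hterm).trans h
  rw [← Finset.sum_mul, ← Finset.sum_div] at h2
  simp only [Finset.sum_range_succ, Finset.sum_range_zero] at h2
  by_contra hne
  have hF : 0 < S.F ^ 2 := by
    have := S.hF
    positivity
  have h3 : (1 : ℝ) < ((1041 / 1000 : ℝ) * 3.05) / 3.1416 := by norm_num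
  have hpisq : (Real.pi / 236) ^ 2 ≤ (3.1416 / 236) ^ 2 := by gcongr
  have h4 := (mul_le_iff_le_one_left hF).mp h2
  rw [div_le_one hpi0] at h4
  push_cast at h4
  nlinarith
end Sol

end Pool.Agent.Lib_helper90d
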