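import Pool.Agent.Lib_helper90d.E3
import Pool.Agent.Lib_helper90d.Large

set_option autoImplicit false

open Finset

namespace Pool.Agent.Lib_helper90d

noncomputable def A1r (a : ℝ) : ℝ :=
  a * Real.cos a / (2 * Real.sin a ^ 2) + 2 * Real.cos (2 * a) + 2 * a * Real.sin (2 * a)

noncomputable def A2r (a : ℝ) : ℝ := Real.cos a / (2 * Real.sin a ^ 2) + 2 * Real.sin (2 * a)

theorem P0_eq {a y be nu : ℝ} (ha : Real.sin a ≠ 0) (hy : Real.sin y ≠ 0) :
    R0 y + a * R1 y - (A1r a + be - nu * a) * R2 y + (A2r a - nu) * R3 y =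
    2 * Real.sin y ^ 2 * (Psi a y - be - nu * (y - a)) := by
  have h2 : Real.cos (2 * y) = 1 - 2 * Real.sin y ^ 2 := by
    rw [Real.cos_two_mul, Real.cos_sq']; ring
  have h4 : Real.cos (4 * y) = 2 * (1 - 2 * Real.sin y ^ 2) ^ 2 - 1 := by
    rw [show 4 * y = 2 * (2 * y) by ring, Real.cos_two_mul, h2]
  have h4s : Real.sin (4 * y) = 2 * Real.sin (2 * y) * (1 - 2 * Real.sin y ^ 2) := by
    rw [show 4 * y = 2 * (2 * y) by ring, Real.sin_two_mul, h2]
  unfold R0 R1 R2 R3 A1r A2r Psi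
  rw [h4, h4s, h2]
  field_simp
  ring

namespace Sol

variable {N : ℕ} (S : Sol N)

/-- power sums -/
noncomputable def Z (k : ℕ) : ℝ := ∑ j ∈ range N, Real.cos (k * S.th j)

/-- multiplier sums -/
noncomputable def MM (m k : ℕ) : ℝ := ∑ j ∈ range N,
  Real.cos (S.y m j) * Real.sin (k * S.y m j) * Real.cos (k * S.ps m j) /
    (2 * Real.sin (S.y m j) ^ 2)

theorem Z_zero : S.Z 0 = N := by simp [Z]

theorem Z_one : S.Z 1 = S.F := by
  unfold Z
  rw [← S.cosF]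
  simp

theorem abs_Z_le (k : ℕ) : |S.Z k| ≤ N := by
  unfold Z
  refine (Finset.abs_sum_le_sum_abs _ _).trans ?_
  refine (Finset.sum_le_sum fun j _ => Real.abs_cos_le_one _).trans ?_
  simp

theorem SS_lower {m : ℕ} (hm0 : 0 < m) (hmN : m < N) {be nu : ℝ} {K : ℕ} {al' b mu : ℕ → ℝ}
    (hP : ∀ y c : ℝ, 0 ≤ y → y ≤ Real.pi → -1 ≤ c → c ≤ 1 →
      0 ≤ Pf (al N m) (A1r (al N m) + be - nu * al N m) (A2r (al N m) - nu) K al' b mu y c) :
    N * be + ∑ k ∈ range K, (al' k * S.Z (k + 1) + mu k * S.MM m (k + 1)) ≤ S.SS m := by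
  have ha0 := al_pos hm0 S.N_pos
  have haπ : al N m < Real.pi := by
    unfold al
    have hN : (0 : ℝ) < N := by exact_mod_cast S.N_pos
    rw [div_lt_iff₀ hN]
    have : (m : ℝ) < N := by exact_mod_cast hmN
    exact mul_lt_mul_of_pos_left this Real.pi_pos
  have hsa : Real.sin (al N m) ≠ 0 := (Real.sin_pos_of_pos_of_lt_pi ha0 haπ).ne'
  have hpt : ∀ j ∈ range N, be + nu * (S.y m j - al N m) + ∑ k ∈ range K,
      (al' k * (Real.cos (((k + 1 : ℕ) : ℝ) * S.y m j) * Real.cos (((k + 1 : ℕ) : ℝ) * S.ps m j)) +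
       b k * (Real.sin (((k + 1 : ℕ) : ℝ) * S.y m j) * Real.cos (((k + 1 : ℕ) : ℝ) * S.ps m j)) +
       mu k * (Real.cos (S.y m j) * Real.sin (((k + 1 : ℕ) : ℝ) * S.y m j) *
        Real.cos (((k + 1 : ℕ) : ℝ) * S.ps m j) / (2 * Real.sin (S.y m j) ^ 2))) ≤
      Psi (al N m) (S.y m j) := by
    intro j _
    have hy0 := S.y_pos hm0 j
    have hyπ := S.y_lt hmN j
    have hsy := Real.sin_pos_of_pos_of_lt_pi hy0 hyπ
    have h := hP (S.y m j) (Real.cos (S.ps m j)) hy0.le hyπ.le (Real.neg_one_le_cos _)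
      (Real.cos_le_one _)
    unfold Pf at h
    rw [P0_eq hsa hsy.ne'] at h
    have hs2 : 0 < 2 * Real.sin (S.y m j) ^ 2 := by positivity
    have e : ∑ k ∈ range K, Tc (k + 1) (Real.cos (S.ps m j)) * (al' k * Ak (k + 1) (S.y m j) +
        b k * Bk (k + 1) (S.y m j) + mu k * Mk (k + 1) (S.y m j)) =
        2 * Real.sin (S.y m j) ^ 2 * ∑ k ∈ range K,
      (al' k * (Real.cos (((k + 1 : ℕ) : ℝ) * S.y m j) * Real.cos (((k + 1 : ℕ) : ℝ) * S.ps m j)) +
       b k * (Real.sin (((k + 1 : ℕ) : ℝ) * S.y m j) * Real.cos (((k + 1 : ℕ) : ℝ) * S.ps m j)) +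
       mu k * (Real.cos (S.y m j) * Real.sin (((k + 1 : ℕ) : ℝ) * S.y m j) *
        Real.cos (((k + 1 : ℕ) : ℝ) * S.ps m j) / (2 * Real.sin (S.y m j) ^ 2))) := by
      rw [Finset.mul_sum]
      refine Finset.sum_congr rfl fun k _ => ?_
      rw [Tc_cos]
      unfold Ak Bk Mk
      have h2 : 1 - Real.cos (2 * S.y m j) = 2 * Real.sin (S.y m j) ^ 2 := by
        rw [Real.cos_two_mul, Real.cos_sq']; ring
      rw [h2]
      field_simp
    rw [e, ← mul_sub] at h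
    have := (mul_nonneg_iff_of_pos_left hs2).mp h
    linarith
  have hsum := Finset.sum_le_sum hpt
  unfold SS
  refine le_trans (le_of_eq ?_) hsum
  have e1 : ∑ j ∈ range N, (be + nu * (S.y m j - al N m)) = N * be := by
    rw [Finset.sum_add_distrib, ← Finset.mul_sum, S.sum_dl, mul_zero, add_zero]
    simp
  conv_rhs => rw [Finset.sum_add_distrib, e1, Finset.sum_comm]
  congr 1
  refine Finset.sum_congr rfl fun k _ => ?_
  have e2 := S.sum_cos_cos (k + 1) m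
  have e3 := S.sum_sin_cos (k + 1) m
  rw [Finset.sum_add_distrib, Finset.sum_add_distrib, ← Finset.mul_sum, ← Finset.mul_sum,
    ← Finset.mul_sum, e2, e3]
  unfold Z MM
  ring

/-- the multiplier identity -/
theorem sum_MM (k : ℕ) : ∑ i ∈ range (N - 1), S.MM (i + 1) (k + 1) =
    S.F * (S.Z k - S.Z (k + 2)) := by
  have h := S.sum_mul_E (fun j => Real.sin (((k + 1 : ℕ) : ℝ) * S.th j)) (by
    intro j
    rw [S.per, show ((k + 1 : ℕ) : ℝ) * (S.th j + 2 * Real.pi) =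
      ((k + 1 : ℕ) : ℝ) * S.th j + ((k + 1 : ℕ) : ℝ) * (2 * Real.pi) by ring,
      Real.sin_add_nat_mul_two_pi])
  have e1 : ∀ i ∈ range (N - 1), ∑ j ∈ range N,
      (Real.sin (((k + 1 : ℕ) : ℝ) * S.th (j + (i + 1))) - Real.sin (((k + 1 : ℕ) : ℝ) * S.th j)) *
        Efun (S.th (j + (i + 1)) - S.th j) =
      ∑ j ∈ range N, (Real.sin (((k + 1 : ℕ) : ℝ) * S.th (j + (i + 1))) -
        Real.sin (((k + 1 : ℕ) : ℝ) * S.th j)) * Real.sin (S.th (j + (i + 1)) - S.th j) -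
      S.MM (i + 1) (k + 1) := by
    intro i _
    unfold MM
    rw [← Finset.sum_sub_distrib]
    refine Finset.sum_congr rfl fun j _ => ?_
    have e2 : Real.sin (((k + 1 : ℕ) : ℝ) * S.th (j + (i + 1))) -
        Real.sin (((k + 1 : ℕ) : ℝ) * S.th j) =
        2 * Real.sin (((k + 1 : ℕ) : ℝ) * S.y (i + 1) j) *
          Real.cos (((k + 1 : ℕ) : ℝ) * S.ps (i + 1) j) := by
      rw [Real.sin_sub_sin]
      unfold y ps
      rw [show (((k + 1 : ℕ) : ℝ) * S.th (j + (i + 1)) - ((k + 1 : ℕ) : ℝ) * S.th j) / 2 =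
        ((k + 1 : ℕ) : ℝ) * ((S.th (j + (i + 1)) - S.th j) / 2) by ring,
        show (((k + 1 : ℕ) : ℝ) * S.th (j + (i + 1)) + ((k + 1 : ℕ) : ℝ) * S.th j) / 2 =
        ((k + 1 : ℕ) : ℝ) * ((S.th (j + (i + 1)) + S.th j) / 2) by ring]
    rw [e2]
    unfold Efun
    rw [show (S.th (j + (i + 1)) - S.th j) / 2 = S.y (i + 1) j from rfl]
    rcases eq_or_ne (Real.sin (S.y (i + 1) j)) 0 with h0 | h0
    · rw [h0]; simp
    · field_simp
      ring
  rw [Finset.sum_congr rfl e1, Finset.sum_sub_distrib] at h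
  have h2 : ∑ i ∈ range (N - 1), ∑ j ∈ range N,
      (Real.sin (((k + 1 : ℕ) : ℝ) * S.th (j + (i + 1))) -
        Real.sin (((k + 1 : ℕ) : ℝ) * S.th j)) * Real.sin (S.th (j + (i + 1)) - S.th j) =
      ∑ j ∈ range N, ∑ l ∈ range N, (Real.sin (((k + 1 : ℕ) : ℝ) * S.th l) -
        Real.sin (((k + 1 : ℕ) : ℝ) * S.th j)) * Real.sin (S.th l - S.th j) := by
    rw [Finset.sum_comm]
    refine Finset.sum_congr rfl fun j _ => ?_
    have hper : ∀ l, (fun l : ℕ => (Real.sin (((k + 1 : ℕ) : ℝ) * S.th l) -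
        Real.sin (((k + 1 : ℕ) : ℝ) * S.th j)) * Real.sin (S.th l - S.th j)) (l + N) =
        (fun l : ℕ => (Real.sin (((k + 1 : ℕ) : ℝ) * S.th l) -
        Real.sin (((k + 1 : ℕ) : ℝ) * S.th j)) * Real.sin (S.th l - S.th j)) l := by
      intro l
      beta_reduce
      rw [S.per, show ((k + 1 : ℕ) : ℝ) * (S.th l + 2 * Real.pi) =
        ((k + 1 : ℕ) : ℝ) * S.th l + ((k + 1 : ℕ) : ℝ) * (2 * Real.pi) by ring,
        Real.sin_add_nat_mul_two_pi, show S.th l + 2 * Real.pi - S.th j =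
        (S.th l - S.th j) + 2 * Real.pi by ring, Real.sin_add_two_pi]
    have hs := sum_shift (H := fun l : ℕ => (Real.sin (((k + 1 : ℕ) : ℝ) * S.th l) -
        Real.sin (((k + 1 : ℕ) : ℝ) * S.th j)) * Real.sin (S.th l - S.th j)) hper j
    beta_reduce at hs
    rw [← hs]
    have hN : N = (N - 1) + 1 := by have := S.N_pos; omega
    have h3 : ∑ l ∈ range N, (Real.sin (((k + 1 : ℕ) : ℝ) * S.th (l + j)) -
        Real.sin (((k + 1 : ℕ) : ℝ) * S.th j)) * Real.sin (S.th (l + j) - S.th j) =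
        ∑ l ∈ range ((N - 1) + 1), (Real.sin (((k + 1 : ℕ) : ℝ) * S.th (l + j)) -
        Real.sin (((k + 1 : ℕ) : ℝ) * S.th j)) * Real.sin (S.th (l + j) - S.th j) := by
      rw [← hN]
    rw [h3, Finset.sum_range_succ']
    simp only [zero_add, sub_self, Real.sin_zero, mul_zero, add_zero]
    refine Finset.sum_congr rfl fun i _ => ?_
    rw [show j + (i + 1) = i + 1 + j by ring]
  have h4 : ∑ j ∈ range N, ∑ l ∈ range N, (Real.sin (((k + 1 : ℕ) : ℝ) * S.th l) -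
        Real.sin (((k + 1 : ℕ) : ℝ) * S.th j)) * Real.sin (S.th l - S.th j) =
        S.F * (S.Z k - S.Z (k + 2)) := by
    have h5 : ∀ j ∈ range N, ∑ l ∈ range N, (Real.sin (((k + 1 : ℕ) : ℝ) * S.th l) -
        Real.sin (((k + 1 : ℕ) : ℝ) * S.th j)) * Real.sin (S.th l - S.th j) =
        (∑ l ∈ range N, Real.sin (((k + 1 : ℕ) : ℝ) * S.th l) * Real.sin (S.th l)) *
          Real.cos (S.th j) -
        (∑ l ∈ range N, Real.sin (((k + 1 : ℕ) : ℝ) * S.th l) * Real.cos (S.th l)) *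
          Real.sin (S.th j) +
        S.F * (Real.sin (((k + 1 : ℕ) : ℝ) * S.th j) * Real.sin (S.th j)) := by
      intro j _
      have h6 : ∀ l ∈ range N, (Real.sin (((k + 1 : ℕ) : ℝ) * S.th l) -
        Real.sin (((k + 1 : ℕ) : ℝ) * S.th j)) * Real.sin (S.th l - S.th j) =
        (Real.sin (((k + 1 : ℕ) : ℝ) * S.th l) * Real.sin (S.th l)) * Real.cos (S.th j) -
        (Real.sin (((k + 1 : ℕ) : ℝ) * S.th l) * Real.cos (S.th l)) * Real.sin (S.th j) -
        (Real.sin (((k + 1 : ℕ) : ℝ) * S.th j) * Real.cos (S.th j)) * Real.sin (S.th l) +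
        (Real.sin (((k + 1 : ℕ) : ℝ) * S.th j) * Real.sin (S.th j)) * Real.cos (S.th l) := by
        intro l _
        rw [Real.sin_sub]; ring
      rw [Finset.sum_congr rfl h6, Finset.sum_add_distrib, Finset.sum_sub_distrib,
        Finset.sum_sub_distrib, ← Finset.sum_mul, ← Finset.sum_mul, ← Finset.mul_sum,
        ← Finset.mul_sum, S.sinF, S.cosF]
      ring
    rw [Finset.sum_congr rfl h5, Finset.sum_add_distrib, Finset.sum_sub_distrib,
      ← Finset.mul_sum, ← Finset.mul_sum, ← Finset.mul_sum, S.cosF, S.sinF]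
    have h7 : ∑ l ∈ range N, Real.sin (((k + 1 : ℕ) : ℝ) * S.th l) * Real.sin (S.th l) =
        (S.Z k - S.Z (k + 2)) / 2 := by
      unfold Z
      rw [← Finset.sum_sub_distrib, Finset.sum_div]
      refine Finset.sum_congr rfl fun l _ => ?_
      have e8 : (k : ℝ) * S.th l = ((k + 1 : ℕ) : ℝ) * S.th l - S.th l := by push_cast; ring
      have e9 : ((k + 2 : ℕ) : ℝ) * S.th l = ((k + 1 : ℕ) : ℝ) * S.th l + S.th l := by
        push_cast; ring
      rw [e8, e9, Real.cos_sub, Real.cos_add]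
      ring
    rw [h7]
    ring
  rw [h2, h4] at h
  linarith

end Sol

end Pool.Agent.Lib_helper90d
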