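import Pool.Agent.Lib_helper90d.E13
import Pool.Agent.Lib_helper90d.E4

set_option autoImplicit false

open Finset

namespace Pool.Agent.Lib_helper90d

/-- integer enclosures at scale `2^60` for `a = π m / N` -/
structure Enc where
  (aLo aHi cLo cHi sLo sHi : ℤ)

def p2 (n : ℕ) : ℤ := ((2 ^ n : ℕ) : ℤ)

theorem p2_cast (n : ℕ) : ((p2 n : ℤ) : ℝ) = 2 ^ n := by unfold p2; push_cast; rfl

theorem p2_pos (n : ℕ) : 0 < p2 n := by unfold p2; positivity

def encA (N m : ℕ) : ℤ × ℤ :=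
  (((314159265358979323846 * m * 2 ^ 60 / (10 ^ 20 * N) : ℕ) : ℤ),
   ((314159265358979323847 * m * 2 ^ 60 / (10 ^ 20 * N) + 1 : ℕ) : ℤ))

def enc (N m : ℕ) : Enc :=
  ⟨(encA N m).1, (encA N m).2,
    max 0 ((cis 60 (encA N m).1 (p2 60)).1 - ((encA N m).2 - (encA N m).1 + 2)),
    (cis 60 (encA N m).1 (p2 60)).1 + ((encA N m).2 - (encA N m).1 + 2),
    (cis 60 (encA N m).1 (p2 60)).2 - ((encA N m).2 - (encA N m).1 + 2),
    (cis 60 (encA N m).1 (p2 60)).2 + ((encA N m).2 - (encA N m).1 + 2)⟩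

theorem encA_spec {N m : ℕ} (hN : 0 < N) :
    ((encA N m).1 : ℝ) ≤ al N m * 2 ^ 60 ∧ al N m * 2 ^ 60 ≤ ((encA N m).2 : ℝ) := by
  have h1 := Real.pi_gt_d20
  have h2 := Real.pi_lt_d20
  have hN' : (0 : ℝ) < N := by exact_mod_cast hN
  constructor
  · have h3 : (((314159265358979323846 * m * 2 ^ 60 / (10 ^ 20 * N) : ℕ)) : ℝ) ≤
        ((314159265358979323846 * m * 2 ^ 60 : ℕ) : ℝ) / ((10 ^ 20 * N : ℕ) : ℝ) := Nat.cast_div_le
    unfold encA
    push_cast at h3 ⊢
    refine h3.trans ?_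
    unfold al
    rw [div_le_iff₀ (by positivity)]
    have e : Real.pi * m / N * 2 ^ 60 * (100000000000000000000 * N) =
        (Real.pi * 10 ^ 20) * (m * 2 ^ 60) := by
      field_simp
      norm_num
    rw [e]
    have h4 : (314159265358979323846 : ℝ) ≤ Real.pi * 10 ^ 20 := by
      have : (3.14159265358979323846 : ℝ) * 10 ^ 20 ≤ Real.pi * 10 ^ 20 := by gcongr
      norm_num at this ⊢
      linarith
    calc (314159265358979323846 : ℝ) * m * 1152921504606846976 =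
          314159265358979323846 * (m * 2 ^ 60) := by ring
      _ ≤ _ := by gcongr
  · have h3 : ((314159265358979323847 * m * 2 ^ 60 : ℕ) : ℝ) / ((10 ^ 20 * N : ℕ) : ℝ) ≤
        (((314159265358979323847 * m * 2 ^ 60 / (10 ^ 20 * N) + 1 : ℕ)) : ℝ) := by
      have := Nat.lt_floor_add_one (((314159265358979323847 * m * 2 ^ 60 : ℕ) : ℝ) /
        ((10 ^ 20 * N : ℕ) : ℝ))
      rw [Nat.floor_div_eq_div] at this
      push_cast at this ⊢
      exact this.le
    unfold encA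
    push_cast at h3 ⊢
    refine le_trans ?_ h3
    unfold al
    rw [le_div_iff₀ (by positivity)]
    have e : Real.pi * m / N * 2 ^ 60 * (100000000000000000000 * N) =
        (Real.pi * 10 ^ 20) * (m * 2 ^ 60) := by
      field_simp
      norm_num
    rw [e]
    have h4 : Real.pi * 10 ^ 20 ≤ (314159265358979323847 : ℝ) := by
      have : Real.pi * 10 ^ 20 ≤ (3.14159265358979323847 : ℝ) * 10 ^ 20 := by gcongr
      norm_num at this ⊢
      linarith
    calc Real.pi * 10 ^ 20 * (m * 2 ^ 60) ≤ 314159265358979323847 * (m * 2 ^ 60) := by gcongr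
      _ = _ := by ring

theorem enc_spec {N m : ℕ} (hm : 0 < m) (hmN : 2 * m ≤ N) :
    (((enc N m).aLo : ℝ) ≤ al N m * 2 ^ 60 ∧ al N m * 2 ^ 60 ≤ ((enc N m).aHi : ℝ)) ∧
    (((enc N m).cLo : ℝ) ≤ Real.cos (al N m) * 2 ^ 60 ∧
      Real.cos (al N m) * 2 ^ 60 ≤ ((enc N m).cHi : ℝ)) ∧
    (((enc N m).sLo : ℝ) ≤ Real.sin (al N m) * 2 ^ 60 ∧
      Real.sin (al N m) * 2 ^ 60 ≤ ((enc N m).sHi : ℝ)) := by
  have hN : 0 < N := by omega
  have hA := encA_spec (m := m) hN
  have ha0 := al_pos hm hN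
  have ha1 := al_le_half hN hmN
  refine ⟨hA, ?_⟩
  set A := (encA N m).1 with hAdef
  set A' := (encA N m).2 with hA'def
  have hA0 : 0 ≤ A := by rw [hAdef]; unfold encA; positivity
  have hA2 : A ≤ 2 * p2 60 := by
    have h1 : (A : ℝ) ≤ 2 * (p2 60 : ℝ) := by
      rw [p2_cast]
      refine hA.1.trans ?_
      have : al N m ≤ 2 := by linarith [Real.pi_lt_d4]
      gcongr
    exact_mod_cast h1
  have hc := cis_err (P := 60) (by norm_num) (p2_pos 60) hA0 hA2
  set x : ℝ := (A : ℝ) / 2 ^ 60 with hx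
  have hexp : Complex.exp (Complex.I * ((A : ℂ) / ((p2 60 : ℤ) : ℂ))) =
      Complex.exp ((x : ℂ) * Complex.I) := by
    congr 1
    have : ((p2 60 : ℤ) : ℂ) = ((2 ^ 60 : ℝ) : ℂ) := by
      rw [← p2_cast]; norm_cast
    rw [this, hx]
    push_cast
    ring
  rw [hexp] at hc
  have hre := (Complex.abs_re_le_norm _).trans hc
  have him := (Complex.abs_im_le_norm _).trans hc
  rw [Complex.sub_re, toC_re, Complex.exp_ofReal_mul_I_re] at hre
  rw [Complex.sub_im, toC_im, Complex.exp_ofReal_mul_I_im] at him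
  have h60 : (0 : ℝ) < 2 ^ 60 := by positivity
  have hax : |al N m - x| ≤ ((A' : ℝ) - A) / 2 ^ 60 := by
    rw [hx, abs_of_nonneg (by rw [sub_nonneg, div_le_iff₀ h60]; exact hA.1), le_div_iff₀ h60]
    rw [sub_mul, div_mul_cancel₀ _ h60.ne']
    linarith [hA.2]
  have hcos : |Real.cos (al N m) - Real.cos x| ≤ |al N m - x| := by
    have := Real.abs_cos_sub_cos_le (al N m) x
    exact this
  have hsin : |Real.sin (al N m) - Real.sin x| ≤ |al N m - x| := by
    have := Real.abs_sin_sub_sin_le (al N m) x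
    exact this
  have key : ∀ (t T X : ℝ), |t / 2 ^ 60 - X| ≤ 2 / 2 ^ 60 → |T - X| ≤ |al N m - x| →
      t - ((A' : ℝ) - A + 2) ≤ T * 2 ^ 60 ∧ T * 2 ^ 60 ≤ t + ((A' : ℝ) - A + 2) := by
    intro t T X h1 h2
    have h3 := h2.trans hax
    rw [abs_le] at h1 h3
    have e1 : (t / 2 ^ 60 - X) * 2 ^ 60 = t - X * 2 ^ 60 := by field_simp
    have a1 := mul_le_mul_of_nonneg_right h1.1 h60.le
    have a2 := mul_le_mul_of_nonneg_right h1.2 h60.le
    have a3 := mul_le_mul_of_nonneg_right h3.1 h60.le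
    have a4 := mul_le_mul_of_nonneg_right h3.2 h60.le
    have e2 : -(2 / 2 ^ 60) * (2 : ℝ) ^ 60 = -2 := by norm_num
    have e3 : (2 / 2 ^ 60) * (2 : ℝ) ^ 60 = 2 := by norm_num
    have e4 : -(((A' : ℝ) - A) / 2 ^ 60) * 2 ^ 60 = -((A' : ℝ) - A) := by field_simp
    have e5 : (((A' : ℝ) - A) / 2 ^ 60) * 2 ^ 60 = ((A' : ℝ) - A) := by field_simp
    rw [e1] at a1 a2
    rw [e2] at a1
    rw [e3] at a2
    rw [e4] at a3
    rw [e5] at a4
    constructor <;> linarith
  have kc := key _ _ _ hre hcos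
  have ks := key _ _ _ him hsin
  have hcos0 : 0 ≤ Real.cos (al N m) :=
    Real.cos_nonneg_of_neg_pi_div_two_le_of_le (by linarith [Real.pi_pos]) ha1
  refine ⟨⟨?_, ?_⟩, ⟨?_, ?_⟩⟩
  · unfold enc
    push_cast
    exact max_le (by positivity) kc.1
  · unfold enc
    push_cast
    exact kc.2
  · unfold enc
    push_cast
    exact ks.1
  · unfold enc
    push_cast
    exact ks.2

end Pool.Agent.Lib_helper90d
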