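import Pool.Agent.Lib_helper90d.E14

set_option autoImplicit false

open Finset

namespace Pool.Agent.Lib_helper90d

theorem ediv_le' (x : ℤ) {D : ℤ} (hD : 0 < D) : (((x / D : ℤ)) : ℝ) ≤ (x : ℝ) / D := by
  have h1 : (x / D) * D ≤ x := Int.ediv_mul_le x hD.ne'
  have hD' : (0 : ℝ) < D := by exact_mod_cast hD
  rw [le_div_iff₀ hD']
  exact_mod_cast h1

theorem le_ediv' (x : ℤ) {D : ℤ} (hD : 0 < D) : (x : ℝ) / D ≤ (((x / D + 1 : ℤ)) : ℝ) := by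
  have h1 : x < (x / D + 1) * D := Int.lt_ediv_add_one_mul_self x hD
  have hD' : (0 : ℝ) < D := by exact_mod_cast hD
  rw [div_le_iff₀ hD']
  exact_mod_cast h1.le

namespace Enc

variable (e : Enc)

def A1Hi : ℤ := (e.aHi * e.cHi * p2 36 / (2 * e.sLo ^ 2) + 1) + (4 * e.cHi ^ 2 / p2 84 + 1)
  - 2 * p2 36 + (4 * (e.aHi * e.sHi * e.cHi) / p2 144 + 1)
def A1Lo : ℤ := (e.aLo * e.cLo * p2 36 / (2 * e.sHi ^ 2)) + (4 * e.cLo ^ 2 / p2 84)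
  - 2 * p2 36 + (4 * (e.aLo * e.sLo * e.cLo) / p2 144)
def A2Hi : ℤ := (e.cHi * p2 96 / (2 * e.sLo ^ 2) + 1) + (4 * (e.sHi * e.cHi) / p2 84 + 1)
def A2Lo : ℤ := (e.cLo * p2 96 / (2 * e.sHi ^ 2)) + (4 * (e.sLo * e.cLo) / p2 84)

def ok : Bool := decide (0 < e.sLo) && decide (0 ≤ e.cLo) && decide (0 ≤ e.aLo) &&
  decide (e.aHi ≤ e.aLo + p2 22)

/-- `e` encloses `a` and its trigonometric functions -/
structure Has (a : ℝ) : Prop where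
  a1 : (e.aLo : ℝ) ≤ a * 2 ^ 60
  a2 : a * 2 ^ 60 ≤ (e.aHi : ℝ)
  c1 : (e.cLo : ℝ) ≤ Real.cos a * 2 ^ 60
  c2 : Real.cos a * 2 ^ 60 ≤ (e.cHi : ℝ)
  s1 : (e.sLo : ℝ) ≤ Real.sin a * 2 ^ 60
  s2 : Real.sin a * 2 ^ 60 ≤ (e.sHi : ℝ)

theorem A1r_eq' {a : ℝ} : A1r a * 2 ^ 36 =
    (a * 2 ^ 60) * (Real.cos a * 2 ^ 60) * 2 ^ 36 / (2 * (Real.sin a * 2 ^ 60) ^ 2) +
    4 * (Real.cos a * 2 ^ 60) ^ 2 / 2 ^ 84 - 2 * 2 ^ 36 +
    4 * ((a * 2 ^ 60) * (Real.sin a * 2 ^ 60) * (Real.cos a * 2 ^ 60)) / 2 ^ 144 := by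
  unfold A1r
  rw [Real.cos_two_mul, Real.sin_two_mul]
  have e1 : (a * 2 ^ 60) * (Real.cos a * 2 ^ 60) * 2 ^ 36 / (2 * (Real.sin a * 2 ^ 60) ^ 2) =
      a * Real.cos a / (2 * Real.sin a ^ 2) * 2 ^ 36 := by
    rw [show (a * 2 ^ 60) * (Real.cos a * 2 ^ 60) * 2 ^ 36 =
      (a * Real.cos a * 2 ^ 36) * 2 ^ 120 by ring,
      show 2 * (Real.sin a * 2 ^ 60) ^ 2 = (2 * Real.sin a ^ 2) * 2 ^ 120 by ring,
      mul_div_mul_right _ _ (by positivity)]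
    ring
  rw [e1]
  ring

theorem A2r_eq' {a : ℝ} : A2r a * 2 ^ 36 =
    (Real.cos a * 2 ^ 60) * 2 ^ 96 / (2 * (Real.sin a * 2 ^ 60) ^ 2) +
    4 * ((Real.sin a * 2 ^ 60) * (Real.cos a * 2 ^ 60)) / 2 ^ 84 := by
  unfold A2r
  rw [Real.sin_two_mul]
  have e1 : (Real.cos a * 2 ^ 60) * 2 ^ 96 / (2 * (Real.sin a * 2 ^ 60) ^ 2) =
      Real.cos a / (2 * Real.sin a ^ 2) * 2 ^ 36 := by
    rw [show (Real.cos a * 2 ^ 60) * 2 ^ 96 = (Real.cos a * 2 ^ 36) * 2 ^ 120 by ring,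
      show 2 * (Real.sin a * 2 ^ 60) ^ 2 = (2 * Real.sin a ^ 2) * 2 ^ 120 by ring,
      mul_div_mul_right _ _ (by positivity)]
    ring
  rw [e1]
  ring

variable {e} {a : ℝ}

theorem ok_spec (h : e.ok = true) : 0 < e.sLo ∧ 0 ≤ e.cLo ∧ 0 ≤ e.aLo ∧
    e.aHi ≤ e.aLo + p2 22 := by
  unfold ok at h
  simp only [Bool.and_eq_true, decide_eq_true_eq] at h
  exact ⟨h.1.1.1, h.1.1.2, h.1.2, h.2⟩

theorem A1_hi (h : e.ok = true) (H : e.Has a) : A1r a * 2 ^ 36 ≤ (e.A1Hi : ℝ) := by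
  obtain ⟨hs, hc, ha, _⟩ := ok_spec h
  have hs' : (0 : ℝ) < e.sLo := by exact_mod_cast hs
  have hc' : (0 : ℝ) ≤ e.cLo := by exact_mod_cast hc
  have ha' : (0 : ℝ) ≤ e.aLo := by exact_mod_cast ha
  have h1 := le_ediv' (e.aHi * e.cHi * p2 36) (show 0 < 2 * e.sLo ^ 2 by positivity)
  have h2 := le_ediv' (4 * e.cHi ^ 2) (p2_pos 84)
  have h3 := le_ediv' (4 * (e.aHi * e.sHi * e.cHi)) (p2_pos 144)
  have hcp : 0 ≤ Real.cos a * 2 ^ 60 := hc'.trans H.c1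
  have hap : 0 ≤ a * 2 ^ 60 := ha'.trans H.a1
  have hsp : 0 < Real.sin a * 2 ^ 60 := hs'.trans_le H.s1
  rw [A1r_eq']
  unfold A1Hi
  push_cast at h1 h2 h3 ⊢
  simp only [p2_cast] at h1 h2 h3 ⊢
  have g1 : (a * 2 ^ 60) * (Real.cos a * 2 ^ 60) * 2 ^ 36 / (2 * (Real.sin a * 2 ^ 60) ^ 2) ≤
      (e.aHi : ℝ) * e.cHi * 2 ^ 36 / (2 * (e.sLo : ℝ) ^ 2) := by
    have := H.a2; have := H.c2; have := H.s1
    have h5 : 0 ≤ (e.aHi : ℝ) := hap.trans H.a2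
    have h6 : 0 ≤ (e.cHi : ℝ) := hcp.trans H.c2
    gcongr
  have g2 : 4 * (Real.cos a * 2 ^ 60) ^ 2 / 2 ^ 84 ≤ 4 * (e.cHi : ℝ) ^ 2 / 2 ^ 84 := by
    have := H.c2
    gcongr
  have g3 : 4 * ((a * 2 ^ 60) * (Real.sin a * 2 ^ 60) * (Real.cos a * 2 ^ 60)) / 2 ^ 144 ≤
      4 * ((e.aHi : ℝ) * e.sHi * e.cHi) / 2 ^ 144 := by
    have := H.a2; have := H.c2; have := H.s2
    have h5 : 0 ≤ (e.aHi : ℝ) := hap.trans H.a2
    have h6 : 0 ≤ (e.sHi : ℝ) := hsp.le.trans H.s2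
    gcongr
  linarith

theorem A1_lo (h : e.ok = true) (H : e.Has a) : (e.A1Lo : ℝ) ≤ A1r a * 2 ^ 36 := by
  obtain ⟨hs, hc, ha, _⟩ := ok_spec h
  have hs' : (0 : ℝ) < e.sLo := by exact_mod_cast hs
  have hc' : (0 : ℝ) ≤ e.cLo := by exact_mod_cast hc
  have ha' : (0 : ℝ) ≤ e.aLo := by exact_mod_cast ha
  have hsp : 0 < Real.sin a * 2 ^ 60 := hs'.trans_le H.s1
  have hsH : 0 < e.sHi := by
    have : (0 : ℝ) < e.sHi := hsp.trans_le H.s2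
    exact_mod_cast this
  have h1 := ediv_le' (e.aLo * e.cLo * p2 36) (show 0 < 2 * e.sHi ^ 2 by positivity)
  have h2 := ediv_le' (4 * e.cLo ^ 2) (p2_pos 84)
  have h3 := ediv_le' (4 * (e.aLo * e.sLo * e.cLo)) (p2_pos 144)
  have hcp : 0 ≤ Real.cos a * 2 ^ 60 := hc'.trans H.c1
  have hap : 0 ≤ a * 2 ^ 60 := ha'.trans H.a1
  rw [A1r_eq']
  unfold A1Lo
  push_cast at h1 h2 h3 ⊢
  simp only [p2_cast] at h1 h2 h3 ⊢
  have g1 : (e.aLo : ℝ) * e.cLo * 2 ^ 36 / (2 * (e.sHi : ℝ) ^ 2) ≤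
      (a * 2 ^ 60) * (Real.cos a * 2 ^ 60) * 2 ^ 36 / (2 * (Real.sin a * 2 ^ 60) ^ 2) := by
    have := H.a1; have := H.c1; have := H.s2
    gcongr
  have g2 : 4 * (e.cLo : ℝ) ^ 2 / 2 ^ 84 ≤ 4 * (Real.cos a * 2 ^ 60) ^ 2 / 2 ^ 84 := by
    have := H.c1
    gcongr
  have g3 : 4 * ((e.aLo : ℝ) * e.sLo * e.cLo) / 2 ^ 144 ≤
      4 * ((a * 2 ^ 60) * (Real.sin a * 2 ^ 60) * (Real.cos a * 2 ^ 60)) / 2 ^ 144 := by
    have := H.a1; have := H.c1; have := H.s1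
    gcongr
  linarith

theorem A2_hi (h : e.ok = true) (H : e.Has a) : A2r a * 2 ^ 36 ≤ (e.A2Hi : ℝ) := by
  obtain ⟨hs, hc, ha, _⟩ := ok_spec h
  have hs' : (0 : ℝ) < e.sLo := by exact_mod_cast hs
  have hc' : (0 : ℝ) ≤ e.cLo := by exact_mod_cast hc
  have h1 := le_ediv' (e.cHi * p2 96) (show 0 < 2 * e.sLo ^ 2 by positivity)
  have h3 := le_ediv' (4 * (e.sHi * e.cHi)) (p2_pos 84)
  have hcp : 0 ≤ Real.cos a * 2 ^ 60 := hc'.trans H.c1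
  have hsp : 0 < Real.sin a * 2 ^ 60 := hs'.trans_le H.s1
  rw [A2r_eq']
  unfold A2Hi
  push_cast at h1 h3 ⊢
  simp only [p2_cast] at h1 h3 ⊢
  have g1 : (Real.cos a * 2 ^ 60) * 2 ^ 96 / (2 * (Real.sin a * 2 ^ 60) ^ 2) ≤
      (e.cHi : ℝ) * 2 ^ 96 / (2 * (e.sLo : ℝ) ^ 2) := by
    have := H.c2; have := H.s1
    have h5 : 0 ≤ (e.cHi : ℝ) := hcp.trans H.c2
    gcongr
  have g3 : 4 * ((Real.sin a * 2 ^ 60) * (Real.cos a * 2 ^ 60)) / 2 ^ 84 ≤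
      4 * ((e.sHi : ℝ) * e.cHi) / 2 ^ 84 := by
    have := H.c2; have := H.s2
    have h6 : 0 ≤ (e.sHi : ℝ) := hsp.le.trans H.s2
    gcongr
  linarith

theorem A2_lo (h : e.ok = true) (H : e.Has a) : (e.A2Lo : ℝ) ≤ A2r a * 2 ^ 36 := by
  obtain ⟨hs, hc, ha, _⟩ := ok_spec h
  have hs' : (0 : ℝ) < e.sLo := by exact_mod_cast hs
  have hc' : (0 : ℝ) ≤ e.cLo := by exact_mod_cast hc
  have hsp : 0 < Real.sin a * 2 ^ 60 := hs'.trans_le H.s1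
  have hsH : 0 < e.sHi := by
    have : (0 : ℝ) < e.sHi := hsp.trans_le H.s2
    exact_mod_cast this
  have h1 := ediv_le' (e.cLo * p2 96) (show 0 < 2 * e.sHi ^ 2 by positivity)
  have h3 := ediv_le' (4 * (e.sLo * e.cLo)) (p2_pos 84)
  have hcp : 0 ≤ Real.cos a * 2 ^ 60 := hc'.trans H.c1
  rw [A2r_eq']
  unfold A2Lo
  push_cast at h1 h3 ⊢
  simp only [p2_cast] at h1 h3 ⊢
  have g1 : (e.cLo : ℝ) * 2 ^ 96 / (2 * (e.sHi : ℝ) ^ 2) ≤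
      (Real.cos a * 2 ^ 60) * 2 ^ 96 / (2 * (Real.sin a * 2 ^ 60) ^ 2) := by
    have := H.c1; have := H.s2
    gcongr
  have g3 : 4 * ((e.sLo : ℝ) * e.cLo) / 2 ^ 84 ≤
      4 * ((Real.sin a * 2 ^ 60) * (Real.cos a * 2 ^ 60)) / 2 ^ 84 := by
    have := H.c1; have := H.s1
    gcongr
  linarith

end Enc

/-- a certificate: integers at scale `2^24` -/
structure Cert where
  (be nu : ℤ)
  (al b mu : List ℤ)

namespace Cert

variable (c : Cert)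

noncomputable def ber : ℝ := (c.be : ℝ) / 2 ^ 24
noncomputable def nur : ℝ := (c.nu : ℝ) / 2 ^ 24
noncomputable def alr (k : ℕ) : ℝ := ((c.al.getD k 0 : ℤ) : ℝ) / 2 ^ 24
noncomputable def br (k : ℕ) : ℝ := ((c.b.getD k 0 : ℤ) : ℝ) / 2 ^ 24
noncomputable def mur (k : ℕ) : ℝ := ((c.mu.getD k 0 : ℤ) : ℝ) / 2 ^ 24

def X1Hi (e : Enc) : ℤ := e.A1Hi + c.be * p2 12 - min (c.nu * e.aLo) (c.nu * e.aHi) / p2 48
def X1Lo (e : Enc) : ℤ := e.A1Lo + c.be * p2 12 - (max (c.nu * e.aLo) (c.nu * e.aHi) / p2 48 + 1)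
def X2Hi (e : Enc) : ℤ := e.A2Hi - c.nu * p2 12
def X2Lo (e : Enc) : ℤ := e.A2Lo - c.nu * p2 12

/-- engine data attached to a certificate -/
def mk' (w P q n1 s K : ℕ) (e : Enc) : CD :=
  ⟨w, P, q, n1, s, K, (e.aLo + p2 23) / p2 24, c.X1Hi e, c.X2Lo e,
    max |c.X1Lo e| |c.X1Hi e|, max |c.X2Lo e| |c.X2Hi e|,
    fun k => c.al.getD k 0 * p2 12, fun k => c.b.getD k 0 * p2 12, fun k => c.mu.getD k 0 * p2 12⟩

def valid (w P q n1 s K : ℕ) (e : Enc) : Bool := (c.mk' w P q n1 s K e).check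

theorem abs_between {x lo hi : ℝ} (h1 : lo ≤ x) (h2 : x ≤ hi) : |x| ≤ max |lo| |hi| := by
  rw [abs_le]
  constructor
  · have := neg_abs_le lo
    have := le_max_left |lo| |hi|
    linarith
  · have := le_abs_self hi
    have := le_max_right |lo| |hi|
    linarith

theorem nu_bounds {e : Enc} {a : ℝ} (H : e.Has a) :
    ((min (c.nu * e.aLo) (c.nu * e.aHi) : ℤ) : ℝ) ≤ (c.nu : ℝ) * (a * 2 ^ 60) ∧
    (c.nu : ℝ) * (a * 2 ^ 60) ≤ ((max (c.nu * e.aLo) (c.nu * e.aHi) : ℤ) : ℝ) := by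
  push_cast
  rcases le_total 0 (c.nu : ℝ) with h | h
  · exact ⟨(min_le_left _ _).trans (mul_le_mul_of_nonneg_left H.a1 h),
      (mul_le_mul_of_nonneg_left H.a2 h).trans (le_max_right _ _)⟩
  · exact ⟨(min_le_right _ _).trans (mul_le_mul_of_nonpos_left H.a2 h),
      (mul_le_mul_of_nonpos_left H.a1 h).trans (le_max_left _ _)⟩

theorem valid_sound {w P q n1 s K : ℕ} {e : Enc} {a : ℝ} (hok : e.ok = true) (H : e.Has a)
    (hv : c.valid w P q n1 s K e = true) (y cc : ℝ) (hy0 : 0 ≤ y) (hy1 : y ≤ Real.pi)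
    (hc0 : -1 ≤ cc) (hc1 : cc ≤ 1) :
    0 ≤ Pf a (A1r a + c.ber - c.nur * a) (A2r a - c.nur) K c.alr c.br c.mur y cc := by
  obtain ⟨hs, hc, ha, hd⟩ := Enc.ok_spec hok
  have hnu := c.nu_bounds H
  have h48 := p2_pos 48
  have m1 := ediv_le' (min (c.nu * e.aLo) (c.nu * e.aHi)) h48
  have m2 := le_ediv' (max (c.nu * e.aLo) (c.nu * e.aHi)) h48
  rw [p2_cast] at m1 m2
  have hna : c.nur * a * 2 ^ 36 = (c.nu : ℝ) * (a * 2 ^ 60) / 2 ^ 48 := by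
    unfold nur; ring
  have n1' : (((min (c.nu * e.aLo) (c.nu * e.aHi) / p2 48 : ℤ)) : ℝ) ≤ c.nur * a * 2 ^ 36 := by
    rw [hna]
    refine m1.trans ?_
    gcongr
    exact hnu.1
  have n2' : c.nur * a * 2 ^ 36 ≤ (((max (c.nu * e.aLo) (c.nu * e.aHi) / p2 48 + 1 : ℤ)) : ℝ) := by
    rw [hna]
    refine le_trans ?_ m2
    gcongr
    exact hnu.2
  have hbe : c.ber * 2 ^ 36 = (c.be : ℝ) * 2 ^ 12 := by unfold ber; ring
  have hnu' : c.nur * 2 ^ 36 = (c.nu : ℝ) * 2 ^ 12 := by unfold nur; ring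
  have x1hi : (A1r a + c.ber - c.nur * a) * 2 ^ 36 ≤ (c.X1Hi e : ℝ) := by
    have := Enc.A1_hi hok H
    unfold X1Hi
    push_cast at n1' ⊢
    rw [p2_cast] at *
    linarith
  have x1lo : (c.X1Lo e : ℝ) ≤ (A1r a + c.ber - c.nur * a) * 2 ^ 36 := by
    have := Enc.A1_lo hok H
    unfold X1Lo
    push_cast at n2' ⊢
    rw [p2_cast] at *
    linarith
  have x2hi : (A2r a - c.nur) * 2 ^ 36 ≤ (c.X2Hi e : ℝ) := by
    have := Enc.A2_hi hok H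
    unfold X2Hi
    push_cast
    rw [p2_cast] at *
    linarith
  have x2lo : (c.X2Lo e : ℝ) ≤ (A2r a - c.nur) * 2 ^ 36 := by
    have := Enc.A2_lo hok H
    unfold X2Lo
    push_cast
    rw [p2_cast] at *
    linarith
  have hA : |a * 2 ^ 36 - (((e.aLo + p2 23) / p2 24 : ℤ) : ℝ)| ≤ 1 := by
    have h1 := ediv_le' (e.aLo + p2 23) (p2_pos 24)
    have h2 := le_ediv' (e.aLo + p2 23) (p2_pos 24)
    push_cast at h1 h2
    rw [p2_cast] at h1 h2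
    rw [p2_cast] at h1 h2
    have h3 := H.a1
    have h4 := H.a2
    have h5 : (e.aHi : ℝ) ≤ e.aLo + 2 ^ 22 := by
      have : (e.aHi : ℝ) ≤ ((e.aLo + p2 22 : ℤ) : ℝ) := by exact_mod_cast hd
      push_cast at this
      rwa [p2_cast] at this
    have e1 : a * 2 ^ 36 = (a * 2 ^ 60) / 2 ^ 24 := by ring
    rw [e1]
    rw [abs_le]
    constructor
    · have : ((e.aLo : ℝ) + 2 ^ 23) / 2 ^ 24 = e.aLo / 2 ^ 24 + 1 / 2 := by ring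
      have h6 : (e.aLo : ℝ) / 2 ^ 24 ≤ (a * 2 ^ 60) / 2 ^ 24 := by gcongr
      linarith
    · have : ((e.aLo : ℝ) + 2 ^ 23) / 2 ^ 24 = e.aLo / 2 ^ 24 + 1 / 2 := by ring
      have h6 : (a * 2 ^ 60) / 2 ^ 24 ≤ (e.aLo + 2 ^ 22) / 2 ^ 24 := by gcongr; linarith
      have h7 : ((e.aLo : ℝ) + 2 ^ 22) / 2 ^ 24 = e.aLo / 2 ^ 24 + 1 / 4 := by ring
      linarith
  have habs : ∀ x : ℝ, |x| * 2 ^ 36 = |x * 2 ^ 36| := fun x => by
    rw [abs_mul, abs_of_pos (by positivity : (0:ℝ) < 2 ^ 36)]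
  have hfin := (c.mk' w P q n1 s K e).check_sound hv (a := a) (X1r := A1r a + c.ber - c.nur * a)
    (X2r := A2r a - c.nur) hA x1hi x2lo
    (by
      rw [habs]
      refine (abs_between x1lo x1hi).trans (le_of_eq ?_)
      show _ = (((max |c.X1Lo e| |c.X1Hi e| : ℤ)) : ℝ)
      push_cast; rfl)
    (by
      rw [habs]
      refine (abs_between x2lo x2hi).trans (le_of_eq ?_)
      show _ = (((max |c.X2Lo e| |c.X2Hi e| : ℤ)) : ℝ)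
      push_cast; rfl) hy0 hy1 hc0 hc1
  have hcoef : ∀ l : List ℤ, ∀ k, (((l.getD k 0 * p2 12 : ℤ)) : ℝ) / 2 ^ 36 =
      ((l.getD k 0 : ℤ) : ℝ) / 2 ^ 24 := by
    intro l k
    push_cast
    rw [p2_cast]
    ring
  have e1 : (c.mk' w P q n1 s K e).alr = c.alr := funext fun k => hcoef c.al k
  have e2 : (c.mk' w P q n1 s K e).br = c.br := funext fun k => hcoef c.b k
  have e3 : (c.mk' w P q n1 s K e).mur = c.mur := funext fun k => hcoef c.mu k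
  rw [e1, e2, e3] at hfin
  exact hfin

end Cert

theorem enc_has {N m : ℕ} (hm : 0 < m) (hmN : 2 * m ≤ N) : (enc N m).Has (al N m) := by
  obtain ⟨⟨h1, h2⟩, ⟨h3, h4⟩, ⟨h5, h6⟩⟩ := enc_spec hm hmN
  exact ⟨h1, h2, h3, h4, h5, h6⟩

/-- soundness of a certificate in terms of the sums `SS` -/
theorem Sol.cert_SS {N : ℕ} (S : Sol N) {m : ℕ} (hm : 0 < m) (hmN : 2 * m ≤ N) (c : Cert)
    {w P q n1 s K : ℕ} (hok : (enc N m).ok = true)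
    (hv : c.valid w P q n1 s K (enc N m) = true) :
    N * c.ber + ∑ k ∈ range K, (c.alr k * S.Z (k + 1) + c.mur k * S.MM m (k + 1)) ≤ S.SS m :=
  S.SS_lower hm (by omega) (fun y cc hy0 hy1 hc0 hc1 =>
    c.valid_sound hok (enc_has hm hmN) hv y cc hy0 hy1 hc0 hc1)

end Pool.Agent.Lib_helper90d
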