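import Pool.Agent.Lib_helper90d.E15

/-!
The certificate check with explicit parameters, so that the tables are shared by the kernel.
-/

set_option autoImplicit false

open Finset

namespace Pool.Agent.Lib_helper90d

/-- packed part without `T_k`, `k ≥ 1` -/
def N0x (w P q n1 : ℕ) (A X1 X2 t0 t1 : ℤ) : ℤ :=
  (CD.S1 * zR0 w P q n1 + A * zR1 w P q n1) +
  ((-X1) * zR2 w P q n1 + X2 * zR3 w P q n1) +
  ((-t0) * zO w P q n1 + (-t1) * zY w P q n1)

def NKx (w P q n1 k : ℕ) (al b mu : ℤ) : ℤ :=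
  (al * zA w P q n1 (k + 1) + b * zB w P q n1 (k + 1)) + mu * zM w P q n1 (k + 1)

def rx (s : ℕ) : ℤ := ((2 ^ (s - 1) : ℕ) : ℤ)

def taux (s K j k : ℕ) : ℤ := tch ((j : ℤ) - rx s) (rx s) (k + 1) * rx s ^ (K - (k + 1))

def TTx (w P q n1 s K : ℕ) (A X1 X2 t0 t1 : ℤ) (al b mu : ℕ → ℤ) (j : ℕ) : ℤ :=
  rx s ^ K * N0x w P q n1 A X1 X2 t0 t1 +
    (-1) * sz (fun k => taux s K j k * NKx w P q n1 k (al k) (b k) (mu k)) K

def loopx (H : ℕ) (w P q n1 s K : ℕ) (A X1 X2 t0 t1 : ℤ) (al b mu : ℕ → ℤ) : ℕ → Bool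
  | 0 => true
  | n + 1 => laneOK H (TTx w P q n1 s K A X1 X2 t0 t1 al b mu n) &&
    loopx H w P q n1 s K A X1 X2 t0 t1 al b mu n

theorem loopx_eq (d : CD) (H n : ℕ) : loopx H d.w d.P d.q d.n1 d.s d.K d.A (d.X1 + d.th2) d.X2
    d.th0 d.th1 d.al d.b d.mu n = d.loop H n := by
  induction n with
  | zero => rfl
  | succ n ih =>
    rw [loopx, CD.loop, ih]
    rfl

def chk (w P q n1 s K : ℕ) (c : Cert) (e : Enc) : Bool :=
  (c.mk' w P q n1 s K e).side &&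
  loopx (maskN w (64 * n1)) w P q n1 s K (c.mk' w P q n1 s K e).A
    ((c.mk' w P q n1 s K e).X1 + (c.mk' w P q n1 s K e).th2) (c.mk' w P q n1 s K e).X2
    (c.mk' w P q n1 s K e).th0 (c.mk' w P q n1 s K e).th1
    (fun k => c.al.getD k 0 * p2 12) (fun k => c.b.getD k 0 * p2 12)
    (fun k => c.mu.getD k 0 * p2 12) (2 ^ s + 1)

theorem chk_eq (w P q n1 s K : ℕ) (c : Cert) (e : Enc) :
    chk w P q n1 s K c e = c.valid w P q n1 s K e := by
  unfold chk Cert.valid CD.check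
  have h := loopx_eq (c.mk' w P q n1 s K e) (maskN w (64 * n1)) (2 ^ s + 1)
  have h2 : (c.mk' w P q n1 s K e).w = w := rfl
  have h3 : (c.mk' w P q n1 s K e).P = P := rfl
  have h4 : (c.mk' w P q n1 s K e).q = q := rfl
  have h5 : (c.mk' w P q n1 s K e).n1 = n1 := rfl
  have h6 : (c.mk' w P q n1 s K e).s = s := rfl
  have h7 : (c.mk' w P q n1 s K e).K = K := rfl
  have h8 : (c.mk' w P q n1 s K e).al = fun k => c.al.getD k 0 * p2 12 := rfl
  have h9 : (c.mk' w P q n1 s K e).b = fun k => c.b.getD k 0 * p2 12 := rfl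
  have h10 : (c.mk' w P q n1 s K e).mu = fun k => c.mu.getD k 0 * p2 12 := rfl
  rw [h2, h3, h4, h5, h6, h7, h8, h9, h10] at h
  rw [h, h2, h5, h6]

end Pool.Agent.Lib_helper90d
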