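import Pool.Agent.Lib_helper90d.E4

/-!
The case of small `F`.
-/

set_option autoImplicit false

open Finset

namespace Pool.Agent.Lib_helper90d

noncomputable def rr (a y : ℝ) : ℝ := Real.cos y / Real.sin y -
  Real.cos y * (1 + Real.cos a ^ 2) / Real.sin a + Real.sin y * Real.cos a ^ 3 / Real.sin a ^ 2

theorem Phi_refl (a y : ℝ) : Phi (Real.pi - a) (Real.pi - y) = Phi a y := by
  unfold Phi
  rw [Real.cos_pi_sub, Real.cos_pi_sub, Real.sin_pi_sub, Real.sin_pi_sub]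
  ring

theorem Psi_ge' {a y : ℝ} (ha0 : 0 < a) (hap : a < Real.pi) (hy0 : 0 < y) (hyp : y < Real.pi) :
    3 / 20 * Phi a y ≤ Psi a y := by
  rcases le_or_gt a (Real.pi / 2) with h | h
  · exact Psi_ge ha0 h hy0 hyp
  · rw [← Psi_refl, ← Phi_refl]
    exact Psi_ge (by linarith) (by linarith) (by linarith) (by linarith)

theorem two_sin_sq_half (x : ℝ) : 2 * Real.sin (x / 2) ^ 2 = 1 - Real.cos x := by
  have h2 := Real.cos_two_mul (x / 2)
  have h3 := Real.cos_sq' (x / 2)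
  rw [show 2 * (x / 2) = x by ring] at h2
  rw [h2, h3]; ring

theorem rr_eq {a y : ℝ} (ha : Real.sin a ≠ 0) (hy : Real.sin y ≠ 0) :
    rr a y * (Real.sin a ^ 2 * Real.sin y) = 2 * Real.sin ((y - a) / 2) ^ 2 *
      (Real.cos a + Real.cos y + Real.cos a * Real.sin a * Real.sin y) := by
  rw [two_sin_sq_half, Real.cos_sub]
  have e : rr a y * (Real.sin a ^ 2 * Real.sin y) = Real.cos y * Real.sin a ^ 2 -
      Real.cos y * (1 + Real.cos a ^ 2) * Real.sin a * Real.sin y +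
      Real.sin y ^ 2 * Real.cos a ^ 3 := by
    unfold rr
    field_simp
  rw [e]
  have h1 := Real.sin_sq a
  have h2 := Real.sin_sq y
  generalize Real.sin a = s at *
  generalize Real.sin y = t at *
  generalize Real.cos a = c at *
  generalize Real.cos y = d at *
  have e2 : d * s ^ 2 - d * (1 + c ^ 2) * s * t + t ^ 2 * c ^ 3 -
      (1 - (d * c + t * s)) * (c + d + c * s * t) =
      (s ^ 2 - (1 - c ^ 2)) * (d + c * t ^ 2) + (t ^ 2 - (1 - d ^ 2)) * c := by ring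
  rw [h1, h2] at e2
  have e3 : d * (1 - c ^ 2) - d * (1 + c ^ 2) * s * t + (1 - d ^ 2) * c ^ 3 -
      (1 - (d * c + t * s)) * (c + d + c * s * t) = 0 := by rw [e2]; ring
  rw [h1, h2]
  linarith

theorem sin_le_two_sin {a y : ℝ} (ha0 : 0 < a) (hap : a < Real.pi) (hy0 : 0 < y)
    (hyp : y < Real.pi) : Real.sin y ≤ 2 * Real.sin ((a + y) / 2) := by
  have h1 : Real.sin a + Real.sin y = 2 * Real.sin ((a + y) / 2) * Real.cos ((a - y) / 2) :=
    Real.sin_add_sin a y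
  have h2 := Real.sin_pos_of_pos_of_lt_pi ha0 hap
  have h3 : 0 < Real.sin ((a + y) / 2) :=
    Real.sin_pos_of_pos_of_lt_pi (by linarith) (by linarith)
  have h4 : Real.cos ((a - y) / 2) ≤ 1 := Real.cos_le_one _
  nlinarith [mul_le_mul_of_nonneg_left h4 h3.le]

theorem sq_sin_half_le {x : ℝ} (h1 : -Real.pi < x) (h2 : x < Real.pi) :
    2 * Real.sin (x / 2) ^ 2 ≤ x * Real.sin (x / 2) := by
  rcases le_or_gt 0 x with h | h
  · have h3 : Real.sin (x / 2) ≤ x / 2 := Real.sin_le (by linarith)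
    have h4 : 0 ≤ Real.sin (x / 2) := Real.sin_nonneg_of_nonneg_of_le_pi (by linarith) (by linarith)
    nlinarith
  · have h3 : Real.sin (-(x / 2)) ≤ -(x / 2) := Real.sin_le (by linarith)
    have h4 : 0 ≤ Real.sin (-(x / 2)) :=
      Real.sin_nonneg_of_nonneg_of_le_pi (by linarith) (by linarith)
    rw [Real.sin_neg] at h3 h4
    nlinarith

theorem Phi_mul_ge {a y : ℝ} (ha0 : 0 < a) (hap : a < Real.pi) (hy0 : 0 < y) (hyp : y < Real.pi) :
    2 * Real.sin ((y - a) / 2) ^ 2 * Real.sin ((a + y) / 2) * (1 + Real.cos a * Real.cos y) ≤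
    Phi a y * (Real.sin a ^ 2 * Real.sin y ^ 2) := by
  have hsa := Real.sin_pos_of_pos_of_lt_pi ha0 hap
  have hsy := Real.sin_pos_of_pos_of_lt_pi hy0 hyp
  rw [Phi_eq hsa.ne' hsy.ne', div_mul_cancel₀ _ (by positivity)]
  have h1 : 0 < Real.sin ((a + y) / 2) :=
    Real.sin_pos_of_pos_of_lt_pi (by linarith) (by linarith)
  have h2 : 0 ≤ 1 + Real.cos a * Real.cos y := by
    rw [one_add_cos_mul_cos_eq]; positivity
  have h3 := sq_sin_half_le (x := y - a) (by linarith) (by linarith)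
  have h4 := mul_le_mul_of_nonneg_right (mul_le_mul_of_nonneg_right h3 h1.le) h2
  linarith

theorem abs_rr_le {a y : ℝ} (ha0 : 0 < a) (hap : a < Real.pi) (hy0 : 0 < y) (hyp : y < Real.pi) :
    |rr a y| ≤ 4 * Phi a y := by
  have hsa := Real.sin_pos_of_pos_of_lt_pi ha0 hap
  have hsy := Real.sin_pos_of_pos_of_lt_pi hy0 hyp
  have hP := Phi_mul_ge ha0 hap hy0 hyp
  have hE := rr_eq hsa.ne' hsy.ne'
  have h2 : 0 ≤ 1 + Real.cos a * Real.cos y := by
    rw [one_add_cos_mul_cos_eq]; positivity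
  have hb : |Real.cos a + Real.cos y + Real.cos a * Real.sin a * Real.sin y| ≤
      2 * (1 + Real.cos a * Real.cos y) := by
    have c1 := Real.cos_le_one a
    have c2 := Real.neg_one_le_cos a
    have c3 := Real.cos_le_one y
    have c4 := Real.neg_one_le_cos y
    have hss : Real.sin a * Real.sin y ≤ 1 + Real.cos a * Real.cos y := by
      rw [sin_mul_sin_eq, one_add_cos_mul_cos_eq]
      have := sq_nonneg (Real.cos ((a + y) / 2))
      linarith
    have hss0 : 0 ≤ Real.sin a * Real.sin y := by positivity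
    have u1 : Real.cos a * (Real.sin a * Real.sin y) ≤ Real.sin a * Real.sin y := by nlinarith
    have u2 : -(Real.sin a * Real.sin y) ≤ Real.cos a * (Real.sin a * Real.sin y) := by nlinarith
    rw [abs_le]
    constructor
    · nlinarith [mul_nonneg (show 0 ≤ 1 + Real.cos a by linarith) (show 0 ≤ 1 + Real.cos y by linarith)]
    · nlinarith [mul_nonneg (show 0 ≤ 1 - Real.cos a by linarith) (show 0 ≤ 1 - Real.cos y by linarith)]
  have hw : 0 ≤ Real.sin ((y - a) / 2) ^ 2 := sq_nonneg _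
  have hs2 := sin_le_two_sin ha0 hap hy0 hyp
  have key : |rr a y| * (Real.sin a ^ 2 * Real.sin y ^ 2) ≤
      4 * Phi a y * (Real.sin a ^ 2 * Real.sin y ^ 2) := by
    have e1 : |rr a y| * (Real.sin a ^ 2 * Real.sin y ^ 2) =
        |rr a y * (Real.sin a ^ 2 * Real.sin y)| * Real.sin y := by
      rw [abs_mul, abs_of_pos (show 0 < Real.sin a ^ 2 * Real.sin y by positivity)]
      ring
    rw [e1, hE, abs_mul, abs_of_nonneg (show 0 ≤ 2 * Real.sin ((y - a) / 2) ^ 2 by positivity)]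
    calc 2 * Real.sin ((y - a) / 2) ^ 2 *
        |Real.cos a + Real.cos y + Real.cos a * Real.sin a * Real.sin y| * Real.sin y
        ≤ 2 * Real.sin ((y - a) / 2) ^ 2 * (2 * (1 + Real.cos a * Real.cos y)) *
          (2 * Real.sin ((a + y) / 2)) := by gcongr
      _ = 4 * (2 * Real.sin ((y - a) / 2) ^ 2 * Real.sin ((a + y) / 2) *
          (1 + Real.cos a * Real.cos y)) := by ring
      _ ≤ 4 * (Phi a y * (Real.sin a ^ 2 * Real.sin y ^ 2)) := by gcongr
      _ = _ := by ring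
  exact le_of_mul_le_mul_right key (by positivity)

theorem sin_sq_two_delta_le {a y : ℝ} (ha0 : 0 < a) (hap : a < Real.pi) (hy0 : 0 < y)
    (hyp : y < Real.pi) : Real.sin (2 * (y - a)) ^ 2 ≤ 16 * Real.sin a ^ 2 * Phi a y := by
  have hsa := Real.sin_pos_of_pos_of_lt_pi ha0 hap
  have hsy := Real.sin_pos_of_pos_of_lt_pi hy0 hyp
  have hP := Phi_mul_ge ha0 hap hy0 hyp
  have h1 : 0 < Real.sin ((a + y) / 2) :=
    Real.sin_pos_of_pos_of_lt_pi (by linarith) (by linarith)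
  have hs2 := sin_le_two_sin ha0 hap hy0 hyp
  have hs1 := Real.sin_le_one y
  -- sin²(2δ) ≤ 4 sin² δ = 16 sin²(δ/2) cos²(δ/2)
  have h3 : Real.sin (2 * (y - a)) ^ 2 ≤ 16 * (Real.sin ((y - a) / 2) ^ 2 *
      Real.cos ((y - a) / 2) ^ 2) := by
    have e1 : Real.sin (2 * (y - a)) = 2 * Real.sin (y - a) * Real.cos (y - a) :=
      Real.sin_two_mul _
    have e2 : Real.sin (y - a) = 2 * Real.sin ((y - a) / 2) * Real.cos ((y - a) / 2) := by
      rw [← Real.sin_two_mul]; congr 1; ring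
    have e3 : Real.cos (y - a) ^ 2 ≤ 1 := Real.cos_sq_le_one _
    rw [e1]
    have e4 : 16 * (Real.sin ((y - a) / 2) ^ 2 * Real.cos ((y - a) / 2) ^ 2) =
        4 * Real.sin (y - a) ^ 2 := by rw [e2]; ring
    rw [e4]
    nlinarith [mul_nonneg (sq_nonneg (Real.sin (y - a))) (sub_nonneg.mpr e3)]
  have h4 : Real.cos ((y - a) / 2) ^ 2 ≤ 1 + Real.cos a * Real.cos y := by
    rw [one_add_cos_mul_cos_eq]
    have := sq_nonneg (Real.cos ((a + y) / 2))
    linarith
  have h5 : Real.sin y ^ 2 ≤ 2 * Real.sin ((a + y) / 2) := by nlinarith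
  have key : Real.sin (2 * (y - a)) ^ 2 * Real.sin y ^ 2 ≤
      16 * Real.sin a ^ 2 * Phi a y * Real.sin y ^ 2 := by
    calc Real.sin (2 * (y - a)) ^ 2 * Real.sin y ^ 2
        ≤ (16 * (Real.sin ((y - a) / 2) ^ 2 * (1 + Real.cos a * Real.cos y))) *
          (2 * Real.sin ((a + y) / 2)) := by
          have h6 : 16 * (Real.sin ((y - a) / 2) ^ 2 * Real.cos ((y - a) / 2) ^ 2) ≤
              16 * (Real.sin ((y - a) / 2) ^ 2 * (1 + Real.cos a * Real.cos y)) := by gcongr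
          exact mul_le_mul (h3.trans h6) h5 (sq_nonneg _)
            (by have := (sq_nonneg (Real.cos ((y - a) / 2))).trans h4; positivity)
      _ = 16 * (2 * Real.sin ((y - a) / 2) ^ 2 * Real.sin ((a + y) / 2) *
          (1 + Real.cos a * Real.cos y)) := by ring
      _ ≤ 16 * (Phi a y * (Real.sin a ^ 2 * Real.sin y ^ 2)) := by gcongr
      _ = _ := by ring
  exact le_of_mul_le_mul_right key (by positivity)

theorem al_lt_pi {N m : ℕ} (hmN : m < N) : al N m < Real.pi := by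
  unfold al
  have hN : (0 : ℝ) < N := by exact_mod_cast (by omega : 0 < N)
  rw [div_lt_iff₀ hN]
  have : (m : ℝ) < N := by exact_mod_cast hmN
  exact mul_lt_mul_of_pos_left this Real.pi_pos

namespace Sol

variable {N : ℕ} (S : Sol N)

noncomputable def PH (m : ℕ) : ℝ := ∑ j ∈ range N, Phi (al N m) (S.y m j)

theorem PH_le {m : ℕ} (h0 : 0 < m) (h1 : m < N) : 3 / 20 * S.PH m ≤ S.SS m := by
  unfold PH SS
  rw [Finset.mul_sum]
  exact Finset.sum_le_sum fun j _ => Psi_ge' (al_pos h0 S.N_pos) (al_lt_pi h1) (S.y_pos h0 j)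
    (S.y_lt h1 j)

theorem MM_one {m : ℕ} (h0 : 0 < m) (h1 : m < N) :
    S.F * ((1 + Real.cos (al N m) ^ 2) / (2 * Real.sin (al N m))) - 2 * S.PH m ≤ S.MM m 1 := by
  have ha0 := al_pos h0 S.N_pos
  have hap := al_lt_pi h1
  have hsa := Real.sin_pos_of_pos_of_lt_pi ha0 hap
  have e1 : S.MM m 1 = ∑ j ∈ range N, (rr (al N m) (S.y m j) * Real.cos (S.ps m j) / 2 +
      (Real.cos (((1 : ℕ) : ℝ) * S.y m j) * Real.cos (((1 : ℕ) : ℝ) * S.ps m j)) *
        ((1 + Real.cos (al N m) ^ 2) / (2 * Real.sin (al N m))) -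
      (Real.sin (((1 : ℕ) : ℝ) * S.y m j) * Real.cos (((1 : ℕ) : ℝ) * S.ps m j)) *
        (Real.cos (al N m) ^ 3 / (2 * Real.sin (al N m) ^ 2))) := by
    unfold MM
    refine Finset.sum_congr rfl fun j _ => ?_
    have hsy := Real.sin_pos_of_pos_of_lt_pi (S.y_pos h0 j) (S.y_lt h1 j)
    unfold rr
    push_cast
    simp only [one_mul]
    field_simp
    ring
  rw [e1, Finset.sum_sub_distrib, Finset.sum_add_distrib, ← Finset.sum_mul, ← Finset.sum_mul,
    S.sum_cos_cos 1 m, S.sum_sin_cos 1 m]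
  have e2 : ∑ j ∈ range N, Real.cos (((1 : ℕ) : ℝ) * S.th j) = S.F := by
    rw [← S.cosF]; simp
  rw [e2, zero_mul, sub_zero]
  have h3 : - (2 * S.PH m) ≤ ∑ j ∈ range N, rr (al N m) (S.y m j) * Real.cos (S.ps m j) / 2 := by
    unfold PH
    rw [Finset.mul_sum, ← Finset.sum_neg_distrib]
    refine Finset.sum_le_sum fun j _ => ?_
    have h4 := abs_rr_le ha0 hap (S.y_pos h0 j) (S.y_lt h1 j)
    have h5 := Real.abs_cos_le_one (S.ps m j)
    have h6 : |rr (al N m) (S.y m j) * Real.cos (S.ps m j)| ≤ 4 * Phi (al N m) (S.y m j) := by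
      rw [abs_mul]
      have := mul_le_mul_of_nonneg_left h5 (abs_nonneg (rr (al N m) (S.y m j)))
      linarith
    have := (abs_le.mp h6).1
    linarith
  linarith

/-- the multiplier identity gives an inequality for small `F` -/
theorem small_ineq (hN : 2 ≤ N) (hF : 0 < S.F) :
    ∑ i ∈ range (N - 1), (1 + Real.cos (al N (i + 1)) ^ 2) / (2 * Real.sin (al N (i + 1))) ≤
      N - S.Z 2 + 80 / 3 * S.F := by
  have h := S.sum_MM 0
  rw [S.Z_zero] at h
  have h1 : ∑ i ∈ range (N - 1),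
      (S.F * ((1 + Real.cos (al N (i + 1)) ^ 2) / (2 * Real.sin (al N (i + 1)))) -
        2 * S.PH (i + 1)) ≤ S.F * (N - S.Z 2) := by
    rw [← h]
    refine Finset.sum_le_sum fun i hi => ?_
    have := Finset.mem_range.mp hi
    exact S.MM_one (by omega) (by omega)
  rw [Finset.sum_sub_distrib, ← Finset.mul_sum, ← Finset.mul_sum] at h1
  have h2 : 3 / 20 * ∑ i ∈ range (N - 1), S.PH (i + 1) ≤ 2 * S.F ^ 2 := by
    rw [← S.identK hN, Finset.mul_sum]
    refine Finset.sum_le_sum fun i hi => ?_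
    have := Finset.mem_range.mp hi
    exact S.PH_le (by omega) (by omega)
  have h3 : S.F * (∑ i ∈ range (N - 1), (1 + Real.cos (al N (i + 1)) ^ 2) /
      (2 * Real.sin (al N (i + 1)))) ≤ S.F * (N - S.Z 2 + 80 / 3 * S.F) := by
    nlinarith
  exact le_of_mul_le_mul_left h3 hF

theorem SS_one_le (hN : 3 ≤ N) : S.SS 1 ≤ S.F ^ 2 := by
  have h := S.F_sq_ge (by omega) (fun m h0 h1 => S.SS_nonneg h0 h1) {1} (by
    intro m hm
    rw [Finset.mem_singleton] at hm
    omega)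
  simpa using h

theorem Z_two_sq (hN : 3 ≤ N) : S.Z 2 ^ 2 * Real.cos (al N 1) ^ 2 ≤ 4 * N * S.PH 1 := by
  have ha0 := al_pos (show 0 < 1 by norm_num) S.N_pos
  have hap := al_lt_pi (show 1 < N by omega)
  have hsa := Real.sin_pos_of_pos_of_lt_pi ha0 hap
  have h1 := S.sum_sin_cos 2 1
  have h2 := S.sum_cos_cos 2 1
  have e : S.Z 2 * Real.sin (2 * al N 1) =
      - ∑ j ∈ range N, Real.sin (2 * (S.y 1 j - al N 1)) * Real.cos (((2 : ℕ) : ℝ) * S.ps 1 j) := by
    have e1 : ∀ j ∈ range N, Real.sin (2 * (S.y 1 j - al N 1)) *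
        Real.cos (((2 : ℕ) : ℝ) * S.ps 1 j) =
        Real.cos (2 * al N 1) * (Real.sin (((2 : ℕ) : ℝ) * S.y 1 j) *
          Real.cos (((2 : ℕ) : ℝ) * S.ps 1 j)) -
        Real.sin (2 * al N 1) * (Real.cos (((2 : ℕ) : ℝ) * S.y 1 j) *
          Real.cos (((2 : ℕ) : ℝ) * S.ps 1 j)) := by
      intro j _
      rw [show 2 * (S.y 1 j - al N 1) = ((2 : ℕ) : ℝ) * S.y 1 j - 2 * al N 1 by push_cast; ring,
        Real.sin_sub]
      ring
    rw [Finset.sum_congr rfl e1, Finset.sum_sub_distrib, ← Finset.mul_sum, ← Finset.mul_sum, h1, h2]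
    unfold Z
    ring
  have h3 : |S.Z 2 * Real.sin (2 * al N 1)| ≤
      ∑ j ∈ range N, |Real.sin (2 * (S.y 1 j - al N 1))| := by
    rw [e, abs_neg]
    refine (Finset.abs_sum_le_sum_abs _ _).trans (Finset.sum_le_sum fun j _ => ?_)
    rw [abs_mul]
    have := mul_le_mul_of_nonneg_left (Real.abs_cos_le_one (((2 : ℕ) : ℝ) * S.ps 1 j))
      (abs_nonneg (Real.sin (2 * (S.y 1 j - al N 1))))
    linarith
  have h4 : (∑ j ∈ range N, |Real.sin (2 * (S.y 1 j - al N 1))|) ^ 2 ≤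
      N * ∑ j ∈ range N, |Real.sin (2 * (S.y 1 j - al N 1))| ^ 2 := by
    have := sq_sum_le_card_mul_sum_sq (s := range N)
      (f := fun j => |Real.sin (2 * (S.y 1 j - al N 1))|)
    simpa using this
  have h5 : ∑ j ∈ range N, |Real.sin (2 * (S.y 1 j - al N 1))| ^ 2 ≤
      16 * Real.sin (al N 1) ^ 2 * S.PH 1 := by
    unfold PH
    rw [Finset.mul_sum]
    refine Finset.sum_le_sum fun j _ => ?_
    rw [sq_abs]
    exact sin_sq_two_delta_le ha0 hap (S.y_pos (by norm_num) j) (S.y_lt (by omega) j)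
  have h6 : (S.Z 2 * Real.sin (2 * al N 1)) ^ 2 ≤ N * (16 * Real.sin (al N 1) ^ 2 * S.PH 1) := by
    rw [← sq_abs]
    refine (pow_le_pow_left₀ (abs_nonneg _) h3 2).trans (h4.trans ?_)
    exact mul_le_mul_of_nonneg_left h5 (Nat.cast_nonneg N)
  rw [Real.sin_two_mul] at h6
  have h7 : (4 * Real.sin (al N 1) ^ 2) * (S.Z 2 ^ 2 * Real.cos (al N 1) ^ 2) ≤
      (4 * Real.sin (al N 1) ^ 2) * (4 * N * S.PH 1) := by
    calc _ = (S.Z 2 * (2 * Real.sin (al N 1) * Real.cos (al N 1))) ^ 2 := by ring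
      _ ≤ _ := h6
      _ = _ := by ring
  exact le_of_mul_le_mul_left h7 (by positivity)

/-- if `0 < F` then `F` is not too small -/
theorem small_main (hN : 3 ≤ N) (hF : 0 < S.F) {kap z : ℝ} (hk : 0 < kap) (hz : 0 ≤ z)
    (hk2 : kap ≤ 3 / 20 ∨ (al N 1 ≤ 1 / 5 ∧ kap ≤ 1 - 7 * Real.sin (al N 1) ^ 2))
    (hzk : 4 * N ≤ z ^ 2 * (kap * Real.cos (al N 1) ^ 2)) :
    ∑ i ∈ range (N - 1), (1 + Real.cos (al N (i + 1)) ^ 2) / (2 * Real.sin (al N (i + 1))) ≤
      N + (z + 80 / 3) * S.F := by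
  have h1 := S.small_ineq (by omega) hF
  have ha0 := al_pos (show 0 < 1 by norm_num) S.N_pos
  have hap := al_lt_pi (show 1 < N by omega)
  have hPH0 : 0 ≤ S.PH 1 := Finset.sum_nonneg fun j _ =>
    Phi_nonneg ha0 hap (S.y_pos (by norm_num) j) (S.y_lt (by omega) j)
  have h2 : kap * S.PH 1 ≤ S.F ^ 2 := by
    refine le_trans ?_ (S.SS_one_le hN)
    rcases hk2 with h | ⟨h, h'⟩
    · exact (mul_le_mul_of_nonneg_right h hPH0).trans (S.PH_le (by norm_num) (by omega))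
    · refine (mul_le_mul_of_nonneg_right h' hPH0).trans ?_
      unfold PH SS
      rw [Finset.mul_sum]
      exact Finset.sum_le_sum fun j _ => Psi_ge_small ha0 h (S.y_pos (by norm_num) j)
        (S.y_lt (by omega) j)
  have h3 := S.Z_two_sq hN
  have hN0 : (0 : ℝ) < N := by exact_mod_cast S.N_pos
  have hcos : 0 < kap * Real.cos (al N 1) ^ 2 := by
    by_contra hcon
    have : z ^ 2 * (kap * Real.cos (al N 1) ^ 2) ≤ 0 :=
      mul_nonpos_of_nonneg_of_nonpos (sq_nonneg z) (not_lt.mp hcon)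
    linarith
  -- |Z 2| ≤ z F
  have h4 : S.Z 2 ^ 2 ≤ (z * S.F) ^ 2 := by
    have h5 : S.Z 2 ^ 2 * (kap * Real.cos (al N 1) ^ 2) ≤ (z * S.F) ^ 2 * (kap * Real.cos (al N 1) ^ 2) := by
      calc S.Z 2 ^ 2 * (kap * Real.cos (al N 1) ^ 2)
          = kap * (S.Z 2 ^ 2 * Real.cos (al N 1) ^ 2) := by ring
        _ ≤ kap * (4 * N * S.PH 1) := mul_le_mul_of_nonneg_left h3 hk.le
        _ = 4 * N * (kap * S.PH 1) := by ring
        _ ≤ 4 * N * S.F ^ 2 := mul_le_mul_of_nonneg_left h2 (by positivity)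
        _ ≤ z ^ 2 * (kap * Real.cos (al N 1) ^ 2) * S.F ^ 2 :=
            mul_le_mul_of_nonneg_right hzk (sq_nonneg _)
        _ = _ := by ring
    exact le_of_mul_le_mul_right h5 hcos
  have h5 : |S.Z 2| ≤ z * S.F := by
    have := sq_le_sq.mp h4
    rwa [abs_of_nonneg (show 0 ≤ z * S.F by positivity)] at this
  have := (abs_le.mp h5).1
  linarith

end Sol

end Pool.Agent.Lib_helper90d
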