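import Pool.Agent.Lib_helper90d.E16
import Pool.Agent.Lib_helper90d.E17

/-!
Kernel-checkable closure for small `F` and for segments of values of `F / N`.
-/

set_option autoImplicit false

open Finset

namespace Pool.Agent.Lib_helper90d

def gT (N m : ℕ) : ℤ := p2 100 / (enc N m).sHi - ((enc N m).sHi / p2 21 + 1)

theorem gT_le {N m : ℕ} (hm : 0 < m) (hmN : 2 * m ≤ N) (hok : (enc N m).ok = true) :
    (gT N m : ℝ) ≤ (1 + Real.cos (al N m) ^ 2) / (2 * Real.sin (al N m)) * 2 ^ 40 := by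
  have H := enc_has hm hmN
  obtain ⟨hs, _, _, _⟩ := Enc.ok_spec hok
  set e := enc N m with he
  set s := Real.sin (al N m) with hsdef
  have hs' : (0 : ℝ) < e.sLo := by exact_mod_cast hs
  have hs0 : 0 < s * 2 ^ 60 := hs'.trans_le H.s1
  have hs1 : 0 < s := by
    have : (0:ℝ) < 2 ^ 60 := by positivity
    exact (mul_pos_iff_of_pos_right this).mp hs0
  have hH0 : (0 : ℝ) < e.sHi := hs0.trans_le H.s2
  have hH0' : 0 < e.sHi := by exact_mod_cast hH0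
  have h1 := ediv_le' (p2 100) hH0'
  have h2 := le_ediv' e.sHi (p2_pos 21)
  rw [p2_cast] at h1 h2
  have e1 : (1 + Real.cos (al N m) ^ 2) / (2 * s) * 2 ^ 40 =
      2 ^ 100 / (s * 2 ^ 60) - (s * 2 ^ 60) / 2 ^ 21 := by
    rw [Real.cos_sq', ← hsdef]
    field_simp
    ring
  rw [e1]
  unfold gT
  rw [← he]
  push_cast at h2 ⊢
  have h3 : (2 : ℝ) ^ 100 / e.sHi ≤ 2 ^ 100 / (s * 2 ^ 60) := by
    have := H.s2
    gcongr
  have h4 : (s * 2 ^ 60) / 2 ^ 21 ≤ (e.sHi : ℝ) / 2 ^ 21 := by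
    have := H.s2
    gcongr
  linarith

def gS (N : ℕ) : ℕ → ℤ
  | 0 => 0
  | i + 1 => gS N i + gT N (min (i + 1) (N - (i + 1)))

def encsOK (N : ℕ) : ℕ → Bool
  | 0 => true
  | i + 1 => (enc N (i + 1)).ok && encsOK N i

theorem encsOK_spec {N n : ℕ} (h : encsOK N n = true) : ∀ m, 0 < m → m ≤ n →
    (enc N m).ok = true := by
  induction n with
  | zero => intro m h0 h1; omega
  | succ n ih =>
    intro m h0 h1
    rw [encsOK, Bool.and_eq_true] at h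
    rcases Nat.lt_or_ge n m with h2 | h2
    · have : m = n + 1 := by omega
      rw [this]; exact h.1
    · exact ih h.2 m h0 h2

theorem gS_le {N : ℕ} (hok : encsOK N (N / 2) = true) : ∀ n, n + 1 ≤ N →
    (gS N n : ℝ) ≤ (∑ i ∈ range n, (1 + Real.cos (al N (i + 1)) ^ 2) /
      (2 * Real.sin (al N (i + 1)))) * 2 ^ 40 := by
  intro n
  induction n with
  | zero => intro _; simp [gS]
  | succ n ih =>
    intro hn
    rw [gS, Finset.sum_range_succ, add_mul]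
    push_cast
    refine add_le_add (ih (by omega)) ?_
    rcases le_or_gt (2 * (n + 1)) N with h | h
    · rw [min_eq_left (by omega)]
      exact gT_le (by omega) h (encsOK_spec hok _ (by omega) (by omega))
    · rw [min_eq_right (by omega)]
      refine (gT_le (by omega) (by omega) (encsOK_spec hok _ (by omega) (by omega))).trans ?_
      have hN : (N : ℝ) ≠ 0 := by
        have : N ≠ 0 := by omega
        exact_mod_cast this
      have e : al N (N - (n + 1)) = Real.pi - al N (n + 1) := by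
        unfold al
        rw [Nat.cast_sub (by omega)]
        field_simp
      rw [e, Real.cos_pi_sub, Real.sin_pi_sub, neg_sq]

def kapOK (e : Enc) (kn : ℕ) : Bool → Bool
  | false => Nat.ble (20 * kn) 196608
  | true => decide (5 * e.aHi ≤ p2 60) && decide ((kn : ℤ) * p2 104 + 7 * e.sHi ^ 2 ≤ p2 120)

def smallOK (N lo zn kn : ℕ) (fl : Bool) : Bool :=
  Nat.ble 3 N && encsOK N (N / 2) && Nat.ble 1 kn &&
  kapOK (enc N 1) kn fl &&
  decide (4 * (N : ℤ) * p2 152 ≤ (zn : ℤ) ^ 2 * kn * (enc N 1).cLo ^ 2) &&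
  decide (3 * (N : ℤ) * p2 40 + (3 * (zn : ℤ) + 20480) * N * lo * p2 16 < 3 * gS N (N - 1))

theorem small_kap {e : Enc} {a : ℝ} (H : e.Has a) (hs : 0 < e.sLo) {kn : ℕ}
    (h1 : 5 * e.aHi ≤ p2 60) (h2 : (kn : ℤ) * p2 104 + 7 * e.sHi ^ 2 ≤ p2 120) :
    a ≤ 1 / 5 ∧ (kn : ℝ) / 2 ^ 16 ≤ 1 - 7 * Real.sin a ^ 2 := by
  have hs' : (0 : ℝ) < e.sLo := by exact_mod_cast hs
  constructor
  · have h7 : (5 : ℝ) * (e.aHi : ℝ) ≤ 2 ^ 60 := by
      have : ((5 * e.aHi : ℤ) : ℝ) ≤ ((p2 60 : ℤ) : ℝ) := by exact_mod_cast h1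
      rw [p2_cast] at this
      push_cast at this
      linarith
    have h8 := H.a2
    have h60 : (0 : ℝ) < 2 ^ 60 := by positivity
    have : a * 2 ^ 60 ≤ (1 / 5) * 2 ^ 60 := by linarith
    exact le_of_mul_le_mul_right this h60
  · have h7 : ((((kn : ℤ) * p2 104 + 7 * e.sHi ^ 2 : ℤ)) : ℝ) ≤ ((p2 120 : ℤ) : ℝ) := by
      exact_mod_cast h2
    push_cast at h7
    simp only [p2_cast] at h7
    have h8 := H.s2
    have h9 : 0 ≤ Real.sin a * 2 ^ 60 := hs'.le.trans H.s1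
    have h10 : (Real.sin a * 2 ^ 60) ^ 2 ≤ (e.sHi : ℝ) ^ 2 := by gcongr
    have h11 : ((kn : ℝ) / 2 ^ 16 + 7 * Real.sin a ^ 2) * 2 ^ 120 ≤ 1 * 2 ^ 120 := by
      have e1 : ((kn : ℝ) / 2 ^ 16 + 7 * Real.sin a ^ 2) * 2 ^ 120 =
          kn * 2 ^ 104 + 7 * (Real.sin a * 2 ^ 60) ^ 2 := by ring
      rw [e1]
      linarith
    have := le_of_mul_le_mul_right h11 (by positivity)
    linarith

theorem kapOK_spec {e : Enc} {a : ℝ} (H : e.Has a) (hs : 0 < e.sLo) {kn : ℕ} {fl : Bool}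
    (h : kapOK e kn fl = true) : (kn : ℝ) / 2 ^ 16 ≤ 3 / 20 ∨
      (a ≤ 1 / 5 ∧ (kn : ℝ) / 2 ^ 16 ≤ 1 - 7 * Real.sin a ^ 2) := by
  cases fl with
  | false =>
    left
    unfold kapOK at h
    have h7 : 20 * kn ≤ 196608 := Nat.le_of_ble_eq_true h
    have h8 : (20 : ℝ) * kn ≤ 196608 := by exact_mod_cast h7
    rw [div_le_iff₀ (by positivity)]
    linarith
  | true =>
    right
    unfold kapOK at h
    rw [Bool.and_eq_true, decide_eq_true_eq, decide_eq_true_eq] at h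
    exact small_kap H hs h.1 h.2

theorem small_zk {e : Enc} {a : ℝ} (H : e.Has a) (hc : 0 ≤ e.cLo) {kn zn N : ℕ}
    (h : 4 * (N : ℤ) * p2 152 ≤ (zn : ℤ) ^ 2 * kn * e.cLo ^ 2) :
    4 * (N : ℝ) ≤ ((zn : ℝ) / 2 ^ 8) ^ 2 * ((kn : ℝ) / 2 ^ 16 * Real.cos a ^ 2) := by
  have hc' : (0 : ℝ) ≤ e.cLo := by exact_mod_cast hc
  have h7 : ((4 * (N : ℤ) * p2 152 : ℤ) : ℝ) ≤
      (((zn : ℤ) ^ 2 * kn * e.cLo ^ 2 : ℤ) : ℝ) := by exact_mod_cast h
  push_cast at h7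
  simp only [p2_cast] at h7
  have h8 := H.c1
  have h9 : (e.cLo : ℝ) ^ 2 ≤ (Real.cos a * 2 ^ 60) ^ 2 := by gcongr
  have h10 : (4 * (N : ℝ)) * 2 ^ 152 ≤
      (((zn : ℝ) / 2 ^ 8) ^ 2 * ((kn : ℝ) / 2 ^ 16 * Real.cos a ^ 2)) * 2 ^ 152 := by
    have e1 : (((zn : ℝ) / 2 ^ 8) ^ 2 * ((kn : ℝ) / 2 ^ 16 * Real.cos a ^ 2)) * 2 ^ 152 =
        (zn : ℝ) ^ 2 * kn * (Real.cos a * 2 ^ 60) ^ 2 := by ring
    rw [e1]
    refine h7.trans ?_
    gcongr
  exact le_of_mul_le_mul_right h10 (by positivity)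

theorem small_fin {N lo zn : ℕ} {F G : ℝ} {gz : ℤ} (hlo : F * 2 ^ 16 ≤ N * lo)
    (hg : (gz : ℝ) ≤ G * 2 ^ 40) (hmain : G ≤ N + ((zn : ℝ) / 2 ^ 8 + 80 / 3) * F)
    (h6 : 3 * (N : ℤ) * p2 40 + (3 * (zn : ℤ) + 20480) * N * lo * p2 16 < 3 * gz) :
    False := by
  have h7 : (((3 * (N : ℤ) * p2 40 + (3 * (zn : ℤ) + 20480) * N * lo * p2 16 : ℤ)) : ℝ) <
      ((3 * gz : ℤ) : ℝ) := by exact_mod_cast h6
  push_cast at h7
  simp only [p2_cast] at h7
  have h8 := mul_le_mul_of_nonneg_right hmain (show (0:ℝ) ≤ 2 ^ 40 by positivity)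
  have h9 : ((zn : ℝ) / 2 ^ 8 + 80 / 3) * F * 2 ^ 40 ≤
      ((zn : ℝ) / 2 ^ 8 + 80 / 3) * (N * lo) * 2 ^ 24 := by
    calc ((zn : ℝ) / 2 ^ 8 + 80 / 3) * F * 2 ^ 40 =
          ((zn : ℝ) / 2 ^ 8 + 80 / 3) * (F * 2 ^ 16) * 2 ^ 24 := by ring
      _ ≤ _ := by gcongr
  have e2 : 3 * (((zn : ℝ) / 2 ^ 8 + 80 / 3) * (N * lo) * 2 ^ 24) =
      (3 * (zn : ℝ) + 20480) * N * lo * 2 ^ 16 := by ring
  linarith

theorem Sol.small_ok {N lo zn kn : ℕ} {fl : Bool} (h : smallOK N lo zn kn fl = true)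
    (S : Sol N) (hF : 0 < S.F) (hlo : S.F * 2 ^ 16 ≤ N * lo) : False := by
  unfold smallOK at h
  simp only [Bool.and_eq_true, decide_eq_true_eq] at h
  obtain ⟨⟨⟨⟨⟨h1, h2⟩, h3⟩, h4⟩, h5⟩, h6⟩ := h
  have hN3 : 3 ≤ N := Nat.le_of_ble_eq_true h1
  have hkn : 1 ≤ kn := Nat.le_of_ble_eq_true h3
  have hok := encsOK_spec h2 1 (by norm_num) (by omega)
  have H := enc_has (show 0 < 1 by norm_num) (show 2 * 1 ≤ N by omega)
  obtain ⟨hs, hc, ha, _⟩ := Enc.ok_spec hok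
  have hkn' : (0 : ℝ) < kn := by exact_mod_cast hkn
  have hk0 : 0 < (kn : ℝ) / 2 ^ 16 := by positivity
  have hz0 : 0 ≤ (zn : ℝ) / 2 ^ 8 := by positivity
  have hk2 := kapOK_spec H hs h4
  exact small_fin hlo (gS_le h2 (N - 1) (by omega))
    (S.small_main hN3 hF hk0 hz0 hk2 (small_zk H hc h5)) h6

/-! ### segments -/

/-- a certificate from five integers -/
def mkC (t : ℤ × ℤ × ℤ × ℤ × ℤ) : Cert := ⟨t.1, t.2.1, [t.2.2.1], [t.2.2.2.1, t.2.2.2.2], []⟩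

def certsOK (w P q n1 N s : ℕ) : ℕ → List (ℤ × ℤ × ℤ × ℤ × ℤ) → Bool
  | _, [] => true
  | m, c :: cs => ((enc N m).ok && chk w P q n1 s 2 (mkC c) (enc N m)) &&
    certsOK w P q n1 N s (m + 1) cs

def sumB : List (ℤ × ℤ × ℤ × ℤ × ℤ) → ℤ
  | [] => 0
  | c :: cs => c.1 + sumB cs

def sumA : List (ℤ × ℤ × ℤ × ℤ × ℤ) → ℤ
  | [] => 0
  | c :: cs => c.2.2.1 + sumA cs

theorem Sol.certs_sum {N : ℕ} (S : Sol N) {w P q n1 s : ℕ} :
    ∀ (cs : List (ℤ × ℤ × ℤ × ℤ × ℤ)) (m : ℕ), certsOK w P q n1 N s (m + 1) cs = true →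
      2 * (m + cs.length) ≤ N →
      N * ((sumB cs : ℤ) : ℝ) / 2 ^ 24 + ((sumA cs : ℤ) : ℝ) / 2 ^ 24 * S.F ≤
        ∑ i ∈ range cs.length, S.SS (m + (i + 1)) := by
  intro cs
  induction cs with
  | nil => intro m _ _; simp [sumB, sumA]
  | cons c cs ih =>
    intro m h hl
    rw [certsOK, Bool.and_eq_true, Bool.and_eq_true] at h
    rw [List.length_cons] at hl
    obtain ⟨⟨h1, h2⟩, h3⟩ := h
    have hi := ih (m + 1) h3 (by omega)
    rw [chk_eq] at h2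
    have hc := S.cert_SS (m := m + 1) (by omega) (by omega) (mkC c) h1 h2
    have e0 : (mkC c).ber = (c.1 : ℝ) / 2 ^ 24 := rfl
    have e1 : (mkC c).alr 0 = (c.2.2.1 : ℝ) / 2 ^ 24 := rfl
    have e2 : (mkC c).alr 1 = ((0 : ℤ) : ℝ) / 2 ^ 24 := rfl
    have e3 : (mkC c).mur 0 = ((0 : ℤ) : ℝ) / 2 ^ 24 := rfl
    have e4 : (mkC c).mur 1 = ((0 : ℤ) : ℝ) / 2 ^ 24 := rfl
    rw [Finset.sum_range_succ, Finset.sum_range_succ, Finset.sum_range_zero, e0, e1, e2, e3, e4,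
      show 0 + 1 = 1 from rfl, S.Z_one] at hc
    rw [List.length_cons, Finset.sum_range_succ', sumB, sumA]
    push_cast at hc ⊢
    have e5 : ∑ i ∈ range cs.length, S.SS (m + 1 + (i + 1)) =
        ∑ i ∈ range cs.length, S.SS (m + (i + 1 + 1)) :=
      Finset.sum_congr rfl fun i _ => by congr 1; ring
    rw [e5] at hi
    ring_nf at hc hi ⊢
    linarith

/-- lower bound for `2^24 (1 - 7 a²) / (π m)` -/
def rhoT (N m : ℕ) : ℤ :=
  p2 24 * (p2 120 - 7 * (enc N m).aHi ^ 2) * 10000 / (31416 * (m : ℤ) * p2 120)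

/-- sum over `M < m ≤ M + n` -/
def rhoS (N M : ℕ) : ℕ → ℤ
  | 0 => 0
  | n + 1 => rhoS N M n + rhoT N (M + n + 1)

def rhoOK (N M : ℕ) : ℕ → Bool
  | 0 => true
  | n + 1 => decide (5 * (enc N (M + n + 1)).aHi ≤ p2 60) && rhoOK N M n

theorem Sol.rho_term {N : ℕ} (S : Sol N) {m : ℕ} (hm : 0 < m) (hmN : 2 * m ≤ N) (hmN' : m < N)
    (h : 5 * (enc N m).aHi ≤ p2 60) : ((rhoT N m : ℤ) : ℝ) / 2 ^ 24 * S.F ^ 2 ≤ S.SS m := by
  have H := enc_has hm hmN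
  have ha0 := al_pos hm S.N_pos
  have h60 : (0 : ℝ) < 2 ^ 60 := by positivity
  have h7 : (5 : ℝ) * ((enc N m).aHi : ℝ) ≤ 2 ^ 60 := by
    have : ((5 * (enc N m).aHi : ℤ) : ℝ) ≤ ((p2 60 : ℤ) : ℝ) := by exact_mod_cast h
    rw [p2_cast] at this
    push_cast at this
    linarith
  have h8 := H.a2
  have ha5 : al N m ≤ 1 / 5 := by
    have : al N m * 2 ^ 60 ≤ (1 / 5) * 2 ^ 60 := by linarith
    exact le_of_mul_le_mul_right this h60
  have hpos : 0 < al N m * 2 ^ 60 := by positivity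
  have hm' : (0 : ℝ) < m := by exact_mod_cast hm
  refine le_trans ?_ (S.SS_ge_small hm hmN' ha5)
  apply mul_le_mul_of_nonneg_right _ (sq_nonneg _)
  rw [div_le_iff₀ (by positivity)]
  have hD : 0 < 31416 * (m : ℤ) * p2 120 := by
    have := p2_pos 120
    have : (0 : ℤ) < m := by exact_mod_cast hm
    positivity
  refine (ediv_le' _ hD).trans ?_
  push_cast
  simp only [p2_cast]
  have hs := Real.sin_le ha0.le
  have hs0 := Real.sin_nonneg_of_nonneg_of_le_pi ha0.le (by linarith [Real.pi_gt_three])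
  have h9 : (Real.sin (al N m) * 2 ^ 60) ^ 2 ≤ ((enc N m).aHi : ℝ) ^ 2 := by
    have h10 : Real.sin (al N m) * 2 ^ 60 ≤ ((enc N m).aHi : ℝ) := by
      refine le_trans ?_ h8
      gcongr
    gcongr
  have h11 : ((enc N m).aHi : ℝ) ^ 2 ≤ (2 ^ 60 / 5) ^ 2 := by
    have h12 : (0 : ℝ) ≤ (enc N m).aHi := hpos.le.trans h8
    have h13 : ((enc N m).aHi : ℝ) ≤ 2 ^ 60 / 5 := by linarith
    gcongr
  have hpi := Real.pi_lt_d4
  have hpi0 := Real.pi_pos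
  have h14 : 0 ≤ (2 : ℝ) ^ 120 - 7 * ((enc N m).aHi : ℝ) ^ 2 := by
    have : ((2 : ℝ) ^ 60 / 5) ^ 2 = 2 ^ 120 / 25 := by ring
    rw [this] at h11
    linarith
  have h15 : (2 : ℝ) ^ 120 - 7 * ((enc N m).aHi : ℝ) ^ 2 ≤
      (1 - 7 * Real.sin (al N m) ^ 2) * 2 ^ 120 := by
    have : (Real.sin (al N m) * 2 ^ 60) ^ 2 = Real.sin (al N m) ^ 2 * 2 ^ 120 := by ring
    rw [this] at h9
    linarith
  calc (2 : ℝ) ^ 24 * (2 ^ 120 - 7 * ((enc N m).aHi : ℝ) ^ 2) * 10000 / (31416 * m * 2 ^ 120)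
      = (2 ^ 120 - 7 * ((enc N m).aHi : ℝ) ^ 2) * (2 ^ 24 / 2 ^ 120) / (3.1416 * m) := by
        field_simp
        ring
    _ ≤ (2 ^ 120 - 7 * ((enc N m).aHi : ℝ) ^ 2) * (2 ^ 24 / 2 ^ 120) / (Real.pi * m) := by
        apply div_le_div_of_nonneg_left (mul_nonneg h14 (by positivity)) (by positivity)
        gcongr
    _ ≤ ((1 - 7 * Real.sin (al N m) ^ 2) * 2 ^ 120) * (2 ^ 24 / 2 ^ 120) / (Real.pi * m) := by
        gcongr
    _ = (1 - 7 * Real.sin (al N m) ^ 2) / (Real.pi * m) * 2 ^ 24 := by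
        field_simp

theorem Sol.rho_sum {N : ℕ} (S : Sol N) {M : ℕ} : ∀ n, rhoOK N M n = true → 2 * (M + n) ≤ N →
    M + n < N →
    ((rhoS N M n : ℤ) : ℝ) / 2 ^ 24 * S.F ^ 2 ≤ ∑ i ∈ range n, S.SS (M + i + 1) := by
  intro n
  induction n with
  | zero => intro _ _ _; simp [rhoS]
  | succ n ih =>
    intro h h2 h3
    rw [rhoOK, Bool.and_eq_true, decide_eq_true_eq] at h
    rw [rhoS, Finset.sum_range_succ]
    have := ih h.2 (by omega) (by omega)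
    have h4 := S.rho_term (m := M + n + 1) (by omega) (by omega) (by omega) h.1
    push_cast at this h4 ⊢
    ring_nf at this h4 ⊢
    linarith

structure Seg where
  (s lo hi Mx : ℕ)
  (cs : List (ℤ × ℤ × ℤ × ℤ × ℤ))

def endOK (N : ℕ) (B A R : ℤ) (t : ℕ) : Bool :=
  decide ((p2 24 - R) * (N * ((t : ℤ) * t)) < B * p2 32 + A * t * p2 16)

def Seg.ok (w P q n1 N : ℕ) (g : Seg) : Bool :=
  Nat.ble 2 N && Nat.ble (2 * g.Mx + 1) N && Nat.ble g.cs.length g.Mx &&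
  rhoOK N g.cs.length (g.Mx - g.cs.length) &&
  decide (rhoS N g.cs.length (g.Mx - g.cs.length) ≤ p2 24) &&
  endOK N (sumB g.cs) (sumA g.cs) (rhoS N g.cs.length (g.Mx - g.cs.length)) g.lo &&
  endOK N (sumB g.cs) (sumA g.cs) (rhoS N g.cs.length (g.Mx - g.cs.length)) g.hi &&
  certsOK w P q n1 N g.s 1 g.cs

theorem concave_pos {A B C lo hi t : ℝ} (hC : 0 ≤ C) (h1 : C * (lo * lo) < B + A * lo)
    (h2 : C * (hi * hi) < B + A * hi) (h3 : lo ≤ t) (h4 : t ≤ hi) : C * (t * t) < B + A * t := by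
  rcases eq_or_lt_of_le (h3.trans h4) with h | h
  · have : t = lo := by linarith
    rw [this]; exact h1
  · set l := (t - lo) / (hi - lo) with hl
    have h5 : 0 < hi - lo := by linarith
    have hl0 : 0 ≤ l := div_nonneg (by linarith) h5.le
    have hl1 : l ≤ 1 := by rw [hl, div_le_one h5]; linarith
    have ht : t = (1 - l) * lo + l * hi := by
      rw [hl]; field_simp; ring
    have h6 : t * t ≤ (1 - l) * (lo * lo) + l * (hi * hi) := by
      rw [ht]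
      nlinarith [mul_nonneg (mul_nonneg hl0 (sub_nonneg.mpr hl1)) (sq_nonneg (hi - lo))]
    have h7 : C * (t * t) ≤ C * ((1 - l) * (lo * lo) + l * (hi * hi)) :=
      mul_le_mul_of_nonneg_left h6 hC
    have h8 : B + A * t = (1 - l) * (B + A * lo) + l * (B + A * hi) := by rw [ht]; ring
    rw [h8]
    refine lt_of_le_of_lt h7 ?_
    rcases eq_or_lt_of_le hl0 with h9 | h9
    · rw [← h9]; linarith
    · have h10 := mul_lt_mul_of_pos_left h2 h9
      have h11 := mul_le_mul_of_nonneg_left h1.le (sub_nonneg.mpr hl1)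
      linarith

theorem Sol.seg_ok {N : ℕ} (S : Sol N) {w P q n1 : ℕ} {g : Seg} (h : g.ok w P q n1 N = true)
    (h1 : N * (g.lo : ℝ) ≤ S.F * 2 ^ 16) (h2 : S.F * 2 ^ 16 ≤ N * (g.hi : ℝ)) : False := by
  unfold Seg.ok at h
  simp only [Bool.and_eq_true, decide_eq_true_eq] at h
  obtain ⟨⟨⟨⟨⟨⟨⟨a0, a1⟩, a2⟩, a3⟩, a4⟩, a5⟩, a6⟩, a7⟩ := h
  have hN2 : 2 ≤ N := Nat.le_of_ble_eq_true a0
  have hM : 2 * g.Mx + 1 ≤ N := Nat.le_of_ble_eq_true a1
  have hL : g.cs.length ≤ g.Mx := Nat.le_of_ble_eq_true a2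
  set n := g.Mx - g.cs.length with hn
  set R := rhoS N g.cs.length n with hR
  have hN0 : (0 : ℝ) < N := by exact_mod_cast (by omega : 0 < N)
  have h3 := S.certs_sum g.cs 0 a7 (by omega)
  have h4 := S.rho_sum n a3 (by omega) (by omega)
  have h5 := S.F_sq_ge (by omega) (fun m h0 h1 => S.SS_nonneg h0 h1)
    ((range g.Mx).image (fun i => i + 1)) (by
      intro m hm
      obtain ⟨i, hi, him⟩ := Finset.mem_image.mp hm
      have := Finset.mem_range.mp hi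
      omega)
  rw [Finset.sum_image (by intro a _ b _ hab; simpa using hab)] at h5
  have h6 : ∑ i ∈ range g.Mx, S.SS (i + 1) = ∑ i ∈ range g.cs.length, S.SS (0 + (i + 1)) +
      ∑ i ∈ range n, S.SS (g.cs.length + i + 1) := by
    have : g.Mx = g.cs.length + n := by omega
    rw [this, Finset.sum_range_add]
    simp only [zero_add]
  rw [h6] at h5
  rw [← hR] at h4
  set B : ℝ := ((sumB g.cs : ℤ) : ℝ) with hB
  set A : ℝ := ((sumA g.cs : ℤ) : ℝ) with hA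
  have h7 : N * B / 2 ^ 24 + A / 2 ^ 24 * S.F + (R : ℝ) / 2 ^ 24 * S.F ^ 2 ≤ S.F ^ 2 := by linarith
  -- t = 2^16 F / N
  set t : ℝ := S.F * 2 ^ 16 / N with ht
  have hF : S.F = N * t / 2 ^ 16 := by rw [ht]; field_simp
  have hlo : (g.lo : ℝ) ≤ t := by rw [ht, le_div_iff₀ hN0]; linarith
  have hhi : t ≤ (g.hi : ℝ) := by rw [ht, div_le_iff₀ hN0]; linarith
  have hC : 0 ≤ (2 ^ 24 - (R : ℝ)) * N := by
    have : (R : ℝ) ≤ 2 ^ 24 := by
      have : (R : ℝ) ≤ ((p2 24 : ℤ) : ℝ) := by exact_mod_cast a4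
      rwa [p2_cast] at this
    have := sub_nonneg.mpr this
    positivity
  have hend : ∀ u : ℕ, endOK N (sumB g.cs) (sumA g.cs) R u = true →
      (2 ^ 24 - (R : ℝ)) * N * ((u : ℝ) * u) < B * 2 ^ 32 + (A * 2 ^ 16) * u := by
    intro u hu
    unfold endOK at hu
    rw [decide_eq_true_eq] at hu
    have : ((((p2 24 - R) * (N * ((u : ℤ) * u)) : ℤ)) : ℝ) <
        ((sumB g.cs * p2 32 + sumA g.cs * u * p2 16 : ℤ) : ℝ) := by exact_mod_cast hu
    push_cast at this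
    simp only [p2_cast] at this
    linarith
  have h8 := concave_pos hC (hend _ a5) (hend _ a6) hlo hhi
  have h9 : (2 ^ 24 - (R : ℝ)) * N * (t * t) ≥ B * 2 ^ 32 + (A * 2 ^ 16) * t := by
    rw [hF] at h7
    have e1 : (N * B / 2 ^ 24 + A / 2 ^ 24 * (N * t / 2 ^ 16) + (R : ℝ) / 2 ^ 24 * (N * t / 2 ^ 16) ^ 2) *
        (2 ^ 56 / N) = B * 2 ^ 32 + A * 2 ^ 16 * t + R * N * (t * t) := by
      field_simp
    have e2 : (N * t / 2 ^ 16) ^ 2 * (2 ^ 56 / N) = 2 ^ 24 * N * (t * t) := by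
      field_simp
    have h10 := mul_le_mul_of_nonneg_right h7 (show 0 ≤ (2:ℝ) ^ 56 / N by positivity)
    rw [e1, e2] at h10
    linarith
  linarith

/-- a chain of segments from `top` down to `bot` -/
def segsOK (w P q n1 N bot : ℕ) : ℕ → List Seg → Bool
  | top, [] => Nat.ble top bot
  | top, g :: gs => (Nat.ble top g.hi && g.ok w P q n1 N) && segsOK w P q n1 N bot g.lo gs

theorem Sol.segs_ok {N : ℕ} (S : Sol N) {w P q n1 bot : ℕ} : ∀ (gs : List Seg) (top : ℕ),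
    segsOK w P q n1 N bot top gs = true → S.F * 2 ^ 16 ≤ N * (top : ℝ) →
    S.F * 2 ^ 16 ≤ N * (bot : ℝ) := by
  intro gs
  induction gs with
  | nil =>
    intro top h h1
    have h2 : (top : ℝ) ≤ bot := by exact_mod_cast Nat.le_of_ble_eq_true h
    refine h1.trans ?_
    gcongr
  | cons g gs ih =>
    intro top h h1
    rw [segsOK, Bool.and_eq_true, Bool.and_eq_true] at h
    refine ih g.lo h.2 ?_
    by_contra hcon
    push Not at hcon
    have h2 : (top : ℝ) ≤ g.hi := by exact_mod_cast Nat.le_of_ble_eq_true h.1.1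
    refine S.seg_ok h.1.2 hcon.le (h1.trans ?_)
    gcongr

theorem Sol.start {N : ℕ} (S : Sol N) : S.F * 2 ^ 16 ≤ N * ((65536 : ℕ) : ℝ) := by
  have h := S.abs_Z_le 1
  rw [S.Z_one] at h
  have := (abs_le.mp h).2
  push_cast
  nlinarith

theorem Sol.finish {N lo zn kn : ℕ} {fl : Bool} (h : smallOK N lo zn kn fl = true)
    (S : Sol N) (hlo : S.F * 2 ^ 16 ≤ N * lo) : S.F = 0 := by
  by_contra hne
  exact S.small_ok h (lt_of_le_of_ne S.hF (Ne.symm hne)) hlo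

end Pool.Agent.Lib_helper90d
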