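import Pool.Agent.Lib_helper90d.E18

/-!
A faster form of the certificate check (natural number arithmetic, finite differences).
-/

set_option autoImplicit false

open Finset

namespace Pool.Agent.Lib_helper90d

/-! ### finite differences -/

def dlt (g : ℕ → ℤ) : ℕ → ℤ := fun j => g (j + 1) - g j

def Van : ℕ → (ℕ → ℤ) → Prop
  | 0, g => ∀ j, g j = 0
  | n + 1, g => Van n (dlt g)

theorem Van.congr {n : ℕ} : ∀ {g h : ℕ → ℤ}, (∀ j, g j = h j) → Van n g → Van n h := by
  intro g h e hg
  have : g = h := funext e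
  rw [← this]; exact hg

theorem Van.zero {n : ℕ} : Van n (fun _ => 0) := by
  induction n with
  | zero => intro j; rfl
  | succ n ih =>
    show Van n (dlt fun _ => 0)
    refine Van.congr (fun j => ?_) ih
    simp [dlt]

theorem Van.add {n : ℕ} : ∀ {g h : ℕ → ℤ}, Van n g → Van n h → Van n (fun j => g j + h j) := by
  induction n with
  | zero => intro g h hg hh j; have h1 := hg j; have h2 := hh j; simp [h1, h2]
  | succ n ih =>
    intro g h hg hh
    show Van n (dlt fun j => g j + h j)
    refine Van.congr (fun j => ?_) (ih (g := dlt g) (h := dlt h) hg hh)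
    simp only [dlt]; ring

theorem Van.smul {n : ℕ} (c : ℤ) : ∀ {g : ℕ → ℤ}, Van n g → Van n (fun j => c * g j) := by
  induction n with
  | zero => intro g hg j; have h1 := hg j; simp [h1]
  | succ n ih =>
    intro g hg
    show Van n (dlt fun j => c * g j)
    refine Van.congr (fun j => ?_) (ih (g := dlt g) hg)
    simp only [dlt]; ring

theorem Van.shift {n : ℕ} : ∀ {g : ℕ → ℤ}, Van n g → Van n (fun j => g (j + 1)) := by
  induction n with
  | zero => intro g hg j; exact hg _
  | succ n ih =>
    intro g hg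
    show Van n (dlt fun j => g (j + 1))
    refine Van.congr (fun j => ?_) (ih (g := dlt g) hg)
    simp only [dlt]

theorem Van.succ {n : ℕ} : ∀ {g : ℕ → ℤ}, Van n g → Van (n + 1) g := by
  induction n with
  | zero => intro g hg j; have h1 := hg j; have h2 := hg (j + 1); simp [dlt, h1, h2]
  | succ n ih => intro g hg; exact ih (g := dlt g) hg

theorem Van.mono {n m : ℕ} (h : n ≤ m) {g : ℕ → ℤ} (hg : Van n g) : Van m g := by
  induction m, h using Nat.le_induction with
  | base => exact hg
  | succ m _ ih => exact ih.succ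

theorem Van.const (c : ℤ) : Van 1 (fun _ => c) := by
  intro j; simp [dlt]

theorem Van.lin (r : ℤ) {n : ℕ} : ∀ {g : ℕ → ℤ}, Van n g → Van (n + 1) (fun j => ((j : ℤ) - r) * g j) := by
  induction n with
  | zero =>
    intro g hg j
    have h1 := hg j; have h2 := hg (j + 1)
    simp [dlt, h1, h2]
  | succ n ih =>
    intro g hg
    have h1 : Van n (dlt g) := hg
    have h2 := ih h1
    have h3 : Van (n + 1) (fun j => g (j + 1)) := Van.shift hg
    have h4 := Van.add h2 h3
    show Van (n + 1) (dlt fun j => ((j : ℤ) - r) * g j)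
    refine Van.congr (fun j => ?_) h4
    simp only [dlt]
    push_cast
    ring

theorem Van.tch (r : ℤ) (k : ℕ) : Van (k + 1) (fun j => tch ((j : ℤ) - r) r k) := by
  induction k using Nat.twoStepInduction with
  | zero => exact Van.congr (fun j => by simp [Pool.Agent.Lib_helper90d.tch]) (Van.const 1)
  | one =>
    exact Van.congr (fun j => by simp [Pool.Agent.Lib_helper90d.tch]) (Van.lin r (Van.const 1))
  | more k ih1 ih2 =>
    have h1 := (Van.lin r ih2).smul 2
    have h2 := ((ih1.succ).succ).smul (-r ^ 2)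
    refine Van.congr (fun j => ?_) (h1.add h2)
    simp only [Pool.Agent.Lib_helper90d.tch]
    ring

/-- iterated differences as a list -/
def stR : ℕ → (ℕ → ℤ) → ℕ → List ℤ
  | 0, g, j => [g j]
  | n + 1, g, j => g j :: stR n (dlt g) j

def stepL : List ℤ → List ℤ
  | [] => []
  | [x] => [x]
  | x :: y :: l => (x + y) :: stepL (y :: l)

def hd : List ℤ → ℤ
  | [] => 0
  | x :: _ => x

theorem stR_cons (n : ℕ) (g : ℕ → ℤ) (j : ℕ) : ∃ l, stR n g j = g j :: l := by
  cases n with
  | zero => exact ⟨[], rfl⟩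
  | succ n => exact ⟨_, rfl⟩

theorem hd_stR (n : ℕ) (g : ℕ → ℤ) (j : ℕ) : hd (stR n g j) = g j := by
  obtain ⟨l, hl⟩ := stR_cons n g j
  rw [hl]; rfl

theorem stepL_stR {n : ℕ} : ∀ {g : ℕ → ℤ}, Van (n + 1) g → ∀ j,
    stepL (stR n g j) = stR n g (j + 1) := by
  induction n with
  | zero =>
    intro g hg j
    have h : g (j + 1) - g j = 0 := hg j
    show [g j] = [g (j + 1)]
    rw [show g (j + 1) = g j by linarith]
  | succ n ih =>
    intro g hg j
    have h1 := ih (g := dlt g) hg j
    obtain ⟨l, hl⟩ := stR_cons n (dlt g) j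
    show stepL (g j :: stR n (dlt g) j) = g (j + 1) :: stR n (dlt g) (j + 1)
    rw [hl] at h1 ⊢
    rw [stepL, h1]
    congr 1
    simp only [dlt]
    ring

def loopF (H : ℕ) : ℕ → List ℤ → Bool
  | 0, _ => true
  | n + 1, st => laneOK H (hd st) && loopF H n (stepL st)

theorem loopF_sound {H K : ℕ} {g : ℕ → ℤ} (hg : Van (K + 1) g) : ∀ n j,
    loopF H n (stR K g j) = true → ∀ i < n, laneOK H (g (j + i)) = true := by
  intro n
  induction n with
  | zero => intro j _ i hi; omega
  | succ n ih =>
    intro j h i hi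
    rw [loopF, Bool.and_eq_true, hd_stR, stepL_stR hg] at h
    rcases Nat.eq_zero_or_pos i with h0 | h0
    · rw [h0]; exact h.1
    · have := ih (j + 1) h.2 (i - 1) (by omega)
      rwa [show j + 1 + (i - 1) = j + i by omega] at this

def addL : List ℤ → List ℤ → List ℤ
  | x :: l, y :: m => (x + y) :: addL l m
  | _, _ => []

def smL (c : ℤ) : List ℤ → List ℤ
  | [] => []
  | x :: l => (c * x) :: smL c l

theorem stR_add (n : ℕ) : ∀ (g h : ℕ → ℤ) (j : ℕ),
    stR n (fun j => g j + h j) j = addL (stR n g j) (stR n h j) := by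
  induction n with
  | zero => intro g h j; rfl
  | succ n ih =>
    intro g h j
    show (g j + h j) :: stR n (dlt fun j => g j + h j) j = (g j + h j) :: addL _ _
    congr 1
    rw [← ih]
    congr 1
    funext i
    simp only [dlt]
    ring

theorem stR_smul (c : ℤ) (n : ℕ) : ∀ (g : ℕ → ℤ) (j : ℕ),
    stR n (fun j => c * g j) j = smL c (stR n g j) := by
  induction n with
  | zero => intro g j; rfl
  | succ n ih =>
    intro g j
    show (c * g j) :: stR n (dlt fun j => c * g j) j = (c * g j) :: smL c _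
    congr 1
    rw [← ih]
    congr 1
    funext i
    simp only [dlt]
    ring

def zerosL : ℕ → List ℤ
  | 0 => [0]
  | n + 1 => 0 :: zerosL n

def constL (c : ℤ) : ℕ → List ℤ
  | 0 => [c]
  | n + 1 => c :: zerosL n

theorem stR_zero (n : ℕ) (j : ℕ) : stR n (fun _ => 0) j = zerosL n := by
  induction n with
  | zero => rfl
  | succ n ih =>
    show (0 : ℤ) :: stR n (dlt fun _ => 0) j = 0 :: zerosL n
    rw [← ih]
    congr 1

theorem stR_const (c : ℤ) (n : ℕ) (j : ℕ) : stR n (fun _ => c) j = constL c n := by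
  cases n with
  | zero => rfl
  | succ n =>
    show c :: stR n (dlt fun _ => c) j = c :: zerosL n
    rw [← stR_zero n j]
    congr 2
    funext i
    simp only [dlt, sub_self]

/-- negated coefficient of `T_{k+1}` -/
def tauN (s K k : ℕ) : ℕ → ℤ := fun j => - taux s K j k

theorem Van_tauN (s K k : ℕ) : Van (k + 2) (tauN s K k) := by
  have h := (Van.tch (rx s) (k + 1)).smul (-(rx s ^ (K - (k + 1))))
  refine Van.congr (fun j => ?_) h
  unfold tauN taux
  ring

/-- table of initial differences -/
def tabl (s K : ℕ) : ℕ → List (List ℤ)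
  | 0 => []
  | n + 1 => tabl s K n ++ [stR K (tauN s K n) 0]

/-- initial state from a table -/
def iniF (nk : ℕ → ℤ) : ℕ → List (List ℤ) → List ℤ → List ℤ
  | _, [], acc => acc
  | k, t :: ts, acc => iniF nk (k + 1) ts (addL acc (smL (nk k) t))

theorem iniF_append (nk : ℕ → ℤ) (l : List (List ℤ)) (t : List ℤ) : ∀ (k : ℕ) (acc : List ℤ),
    iniF nk k (l ++ [t]) acc = addL (iniF nk k l acc) (smL (nk (k + l.length)) t) := by
  induction l with
  | nil => intro k acc; rfl
  | cons u l ih =>
    intro k acc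
    show iniF nk (k + 1) (l ++ [t]) _ = _
    rw [ih, List.length_cons, show k + 1 + l.length = k + (l.length + 1) by ring]
    rfl

theorem tabl_length (s K n : ℕ) : (tabl s K n).length = n := by
  induction n with
  | zero => rfl
  | succ n ih => rw [tabl, List.length_append, ih]; rfl

theorem iniF_eq (s K : ℕ) (c : ℤ) (nk : ℕ → ℤ) (n : ℕ) :
    iniF nk 0 (tabl s K n) (constL c K) =
    stR K (fun j => c + ∑ k ∈ range n, nk k * tauN s K k j) 0 := by
  induction n with
  | zero =>
    simp only [Finset.range_zero, Finset.sum_empty, add_zero]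
    rw [stR_const]; rfl
  | succ n ih =>
    rw [tabl, iniF_append, ih, tabl_length, zero_add, ← stR_smul, ← stR_add]
    congr 1
    funext j
    rw [Finset.sum_range_succ]
    ring

theorem Van_sum (s K : ℕ) (c : ℤ) (nk : ℕ → ℤ) (n : ℕ) (hn : n ≤ K) :
    Van (K + 1) (fun j => c + ∑ k ∈ range n, nk k * tauN s K k j) := by
  induction n with
  | zero =>
    simp only [Finset.range_zero, Finset.sum_empty, add_zero]
    exact (Van.const c).mono (by omega)
  | succ n ih =>
    have h1 := ih (by omega)
    have h2 := ((Van_tauN s K n).smul (nk n)).mono (show n + 2 ≤ K + 1 by omega)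
    refine Van.congr (fun j => ?_) (h1.add h2)
    rw [Finset.sum_range_succ]
    ring

theorem TTx_eq (w P q n1 s K : ℕ) (A X1 X2 t0 t1 : ℤ) (al b mu : ℕ → ℤ) (j : ℕ) :
    TTx w P q n1 s K A X1 X2 t0 t1 al b mu j = rx s ^ K * N0x w P q n1 A X1 X2 t0 t1 +
      ∑ k ∈ range K, NKx w P q n1 k (al k) (b k) (mu k) * tauN s K k j := by
  unfold TTx
  rw [sz_eq, Finset.mul_sum]
  congr 1
  refine Finset.sum_congr rfl fun k _ => ?_
  unfold tauN
  ring

theorem loopF_loopx {H w P q n1 s K : ℕ} {A X1 X2 t0 t1 : ℤ} {al b mu : ℕ → ℤ}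
    {tb : List (List ℤ)} (htb : tabl s K K = tb) {c : ℤ}
    (hc : c = rx s ^ K * N0x w P q n1 A X1 X2 t0 t1) (n : ℕ)
    (h : loopF H n (iniF (fun k => NKx w P q n1 k (al k) (b k) (mu k)) 0 tb (constL c K)) = true) :
    loopx H w P q n1 s K A X1 X2 t0 t1 al b mu n = true := by
  rw [← htb, iniF_eq] at h
  have h2 := loopF_sound (Van_sum s K c _ K le_rfl) n 0 h
  have key : ∀ i < n, laneOK H (TTx w P q n1 s K A X1 X2 t0 t1 al b mu i) = true := by
    intro i hi
    have := h2 i hi
    rw [TTx_eq, ← hc]
    rwa [zero_add] at this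
  clear h h2
  induction n with
  | zero => rfl
  | succ n ih =>
    rw [loopx, Bool.and_eq_true]
    exact ⟨key n (by omega), ih fun i hi => key i (by omega)⟩

end Pool.Agent.Lib_helper90d
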