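import Pool.Agent.Lib_helper90d.E1

set_option autoImplicit false

namespace Pool.Agent.Lib_helper90d

/-- Chebyshev polynomials -/
noncomputable def Tc : ℕ → ℝ → ℝ
  | 0, _ => 1
  | 1, c => c
  | k + 2, c => 2 * c * Tc (k + 1) c - Tc k c

theorem Tc_cos (k : ℕ) (p : ℝ) : Tc k (Real.cos p) = Real.cos (k * p) := by
  induction k using Nat.twoStepInduction with
  | zero => simp [Tc]
  | one => simp [Tc]
  | more k ih1 ih2 =>
    rw [Tc, ih1, ih2]
    have h1 : ((k + 2 : ℕ) : ℝ) * p = ((k + 1 : ℕ) : ℝ) * p + p := by push_cast; ring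
    have h2 : (k : ℝ) * p = ((k + 1 : ℕ) : ℝ) * p - p := by push_cast; ring
    rw [h1, h2, Real.cos_add, Real.cos_sub]
    ring

theorem Tc_abs_le (k : ℕ) {c : ℝ} (h1 : -1 ≤ c) (h2 : c ≤ 1) : |Tc k c| ≤ 1 := by
  rw [← Real.cos_arccos h1 h2, Tc_cos]
  exact Real.abs_cos_le_one _

noncomputable def Dk (k : ℕ) : ℝ := (k : ℝ) ^ 2 * ((k : ℝ) ^ 2 - 1) / 3

theorem Tc_interp {k : ℕ} (hk : k ≤ 6) {u v c : ℝ} (hu : -1 ≤ u) (huv : u < v) (hv : v ≤ 1)
    (h1 : u ≤ c) (h2 : c ≤ v) :
    |Tc k c - ((v - c) / (v - u) * Tc k u + (c - u) / (v - u) * Tc k v)| ≤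
      Dk k * (v - u) ^ 2 / 8 := by
  have hvu : v - u ≠ 0 := by
    have : 0 < v - u := by linarith
    exact this.ne'
  have hsq : ∀ t : ℝ, u ≤ t → t ≤ v → t ^ 2 ≤ 1 := by
    intro t ht1 ht2
    nlinarith
  interval_cases k
  · have : (1 : ℝ) - ((v - c) / (v - u) * 1 + (c - u) / (v - u) * 1) = 0 := by field_simp; ring
    simp only [Tc, Dk]
    rw [this]; simp
  · have : (c : ℝ) - ((v - c) / (v - u) * u + (c - u) / (v - u) * v) = 0 := by field_simp; ring
    simp only [Tc, Dk]
    rw [this]; simp
  · have hf : (fun c => Tc 2 c) = fun c => 2 * c ^ 2 - 1 := by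
      funext c; simp only [Tc]; ring
    have h := interp_abs (f := fun c => Tc 2 c) (f' := fun c => 4 * c) (f'' := fun _ => 4)
      (fun x => by
        rw [hf]
        have := (((hasDerivAt_pow 2 x).const_mul 2).sub_const 1)
        exact this.congr_deriv (by push_cast; ring))
      (fun x => by simpa using (hasDerivAt_id x).const_mul 4) (M := Dk 2) huv
      (fun x _ _ => by simp only [Dk]; norm_num) h1 h2
    exact h
  · have hf : (fun c => Tc 3 c) = fun c => 4 * c ^ 3 - 3 * c := by
      funext c; simp only [Tc]; ring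
    have h := interp_abs (f := fun c => Tc 3 c) (f' := fun c => 12 * c ^ 2 - 3)
      (f'' := fun c => 24 * c)
      (fun x => by
        rw [hf]
        have := ((hasDerivAt_pow 3 x).const_mul 4).sub ((hasDerivAt_id x).const_mul 3)
        exact this.congr_deriv (by push_cast; ring))
      (fun x => by
        have := ((hasDerivAt_pow 2 x).const_mul 12).sub_const 3
        exact this.congr_deriv (by push_cast; ring)) (M := Dk 3) huv
      (fun x hx1 hx2 => by
        simp only [Dk]; norm_num
        exact abs_le.mpr ⟨by linarith, by linarith⟩) h1 h2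
    exact h
  · have hf : (fun c => Tc 4 c) = fun c => 8 * c ^ 4 - 8 * c ^ 2 + 1 := by
      funext c; simp only [Tc]; ring
    have h := interp_abs (f := fun c => Tc 4 c) (f' := fun c => 32 * c ^ 3 - 16 * c)
      (f'' := fun c => 96 * c ^ 2 - 16)
      (fun x => by
        rw [hf]
        have := (((hasDerivAt_pow 4 x).const_mul 8).sub ((hasDerivAt_pow 2 x).const_mul 8)).add_const 1
        exact this.congr_deriv (by push_cast; ring))
      (fun x => by
        have := ((hasDerivAt_pow 3 x).const_mul 32).sub ((hasDerivAt_id x).const_mul 16)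
        exact this.congr_deriv (by push_cast; ring)) (M := Dk 4) huv
      (fun x hx1 hx2 => by
        simp only [Dk]; norm_num
        have := hsq x hx1 hx2
        rw [abs_le]; constructor <;> nlinarith [sq_nonneg x]) h1 h2
    exact h
  · have hf : (fun c => Tc 5 c) = fun c => 16 * c ^ 5 - 20 * c ^ 3 + 5 * c := by
      funext c; simp only [Tc]; ring
    have h := interp_abs (f := fun c => Tc 5 c) (f' := fun c => 80 * c ^ 4 - 60 * c ^ 2 + 5)
      (f'' := fun c => 320 * c ^ 3 - 120 * c)
      (fun x => by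
        rw [hf]
        have := (((hasDerivAt_pow 5 x).const_mul 16).sub ((hasDerivAt_pow 3 x).const_mul 20)).add
          ((hasDerivAt_id x).const_mul 5)
        exact this.congr_deriv (by push_cast; ring))
      (fun x => by
        have := (((hasDerivAt_pow 4 x).const_mul 80).sub ((hasDerivAt_pow 2 x).const_mul 60)).add_const 5
        exact this.congr_deriv (by push_cast; ring)) (M := Dk 5) huv
      (fun x hx1 hx2 => by
        simp only [Dk]; norm_num
        have h3 := hsq x hx1 hx2
        have h4 : |x| ≤ 1 := abs_le.mpr ⟨by linarith, by linarith⟩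
        have e : 320 * x ^ 3 - 120 * x = x * (320 * x ^ 2 - 120) := by ring
        rw [e, abs_mul]
        have h5 : |320 * x ^ 2 - 120| ≤ 200 := by
          rw [abs_le]; constructor <;> nlinarith [sq_nonneg x]
        calc |x| * |320 * x ^ 2 - 120| ≤ 1 * 200 := by gcongr
          _ = 200 := by norm_num) h1 h2
    exact h
  · have hf : (fun c => Tc 6 c) = fun c => 32 * c ^ 6 - 48 * c ^ 4 + 18 * c ^ 2 - 1 := by
      funext c; simp only [Tc]; ring
    have h := interp_abs (f := fun c => Tc 6 c) (f' := fun c => 192 * c ^ 5 - 192 * c ^ 3 + 36 * c)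
      (f'' := fun c => 960 * c ^ 4 - 576 * c ^ 2 + 36)
      (fun x => by
        rw [hf]
        have := ((((hasDerivAt_pow 6 x).const_mul 32).sub ((hasDerivAt_pow 4 x).const_mul 48)).add
          ((hasDerivAt_pow 2 x).const_mul 18)).sub_const 1
        exact this.congr_deriv (by push_cast; ring))
      (fun x => by
        have := (((hasDerivAt_pow 5 x).const_mul 192).sub ((hasDerivAt_pow 3 x).const_mul 192)).add
          ((hasDerivAt_id x).const_mul 36)
        exact this.congr_deriv (by push_cast; ring)) (M := Dk 6) huv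
      (fun x hx1 hx2 => by
        simp only [Dk]; norm_num
        have h3 := hsq x hx1 hx2
        have h4 := sq_nonneg x
        have e : x ^ 4 = x ^ 2 * x ^ 2 := by ring
        rw [e, abs_le]
        constructor <;> nlinarith) h1 h2
    exact h

/-! ### the functions of `y` -/

noncomputable def R0 (y : ℝ) : ℝ :=
  -1 + 2 * Real.cos (2 * y) - Real.cos (4 * y) + 2 * (y * Real.sin (2 * y))
    - y * Real.sin (4 * y) - y * Real.cos y

noncomputable def R1 (y : ℝ) : ℝ := Real.cos y - 2 * Real.sin (2 * y) + Real.sin (4 * y)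

noncomputable def R2 (y : ℝ) : ℝ := 1 - Real.cos (2 * y)

noncomputable def R3 (y : ℝ) : ℝ := y * (1 - Real.cos (2 * y))

noncomputable def Ak (k : ℕ) (y : ℝ) : ℝ := (1 - Real.cos (2 * y)) * Real.cos (k * y)

noncomputable def Bk (k : ℕ) (y : ℝ) : ℝ := (1 - Real.cos (2 * y)) * Real.sin (k * y)

noncomputable def Mk (k : ℕ) (y : ℝ) : ℝ := Real.cos y * Real.sin (k * y)

theorem hd_cos (k y : ℝ) : HasDerivAt (fun y => Real.cos (k * y)) (-k * Real.sin (k * y)) y := by
  have := ((hasDerivAt_id y).const_mul k).cos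
  exact this.congr_deriv (by simp only [id, mul_one]; ring)

theorem hd_sin (k y : ℝ) : HasDerivAt (fun y => Real.sin (k * y)) (k * Real.cos (k * y)) y := by
  have := ((hasDerivAt_id y).const_mul k).sin
  exact this.congr_deriv (by simp only [id, mul_one]; ring)

theorem hd_mul_sin (k y : ℝ) : HasDerivAt (fun y => y * Real.sin (k * y))
    (Real.sin (k * y) + k * (y * Real.cos (k * y))) y := by
  have := (hasDerivAt_id y).mul (hd_sin k y)
  exact this.congr_deriv (by simp only [id, one_mul]; ring)

theorem hd_mul_cos (k y : ℝ) : HasDerivAt (fun y => y * Real.cos (k * y))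
    (Real.cos (k * y) - k * (y * Real.sin (k * y))) y := by
  have := (hasDerivAt_id y).mul (hd_cos k y)
  exact this.congr_deriv (by simp only [id, one_mul]; ring)

theorem abs_sin_mul_le {k y : ℝ} (hk : 0 ≤ k) (hy : 0 ≤ y) : |Real.sin (k * y)| ≤ k * y := by
  have h0 : 0 ≤ k * y := mul_nonneg hk hy
  have h1 := Real.abs_sin_le_abs (x := k * y)
  rwa [abs_of_nonneg h0] at h1

end Pool.Agent.Lib_helper90d
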