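import Pool.Agent.Lib_helper90d.E19

/-!
Thresholds with natural number arithmetic, and the fast certificate check.
-/

set_option autoImplicit false

open Finset

namespace Pool.Agent.Lib_helper90d

/-- `∑_{k<n} f k` over the natural numbers -/
def sn (f : ℕ → ℕ) : ℕ → ℕ
  | 0 => 0
  | n + 1 => sn f n + f n

theorem sn_cast (f : ℕ → ℕ) (g : ℕ → ℤ) (h : ∀ k, ((f k : ℕ) : ℤ) = g k) (n : ℕ) :
    ((sn f n : ℕ) : ℤ) = sz g n := by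
  induction n with
  | zero => rfl
  | succ n ih => rw [sn, sz]; push_cast; rw [ih, h]

def nD (k : ℕ) : ℕ := (k * k) * (k * k - 1) / 3

theorem nD_cast (k : ℕ) : ((nD (k + 1) : ℕ) : ℤ) = Dz (k + 1) := by
  unfold nD Dz
  rw [Int.natCast_div]
  have : 1 ≤ (k + 1) * (k + 1) := Nat.one_le_iff_ne_zero.mpr (by positivity)
  rw [Nat.cast_mul, Nat.cast_sub this]
  push_cast
  congr 1
  ring

section thr

variable (q s K P : ℕ) (A X1 X2 : ℤ) (x1m x2m : ℕ) (al b mu : ℕ → ℕ)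

def nU0 : ℕ := 8 * 2 ^ 36 + (A.natAbs + 1) + 4 * x1m + sn (fun k => 4 * al k) K

def nU1 : ℕ := 27 * 2 ^ 36 + 80 * (A.natAbs + 1) + 12 * x2m + sn (fun k =>
  (8 * (k + 1) + 2 * ((k + 1) * (k + 1))) * al k +
  (12 * (k + 1) + 2 * ((k + 1) * (k + 1))) * b k +
  (3 * (k + 1) + (k + 1) * ((k + 1) * (k + 1))) * mu k) K

def nT1 : ℕ := sn (fun k => nD (k + 1) * ((k + 1) * mu k)) K
def nT2 : ℕ := sn (fun k => nD (k + 1) * (al k + b k)) K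

def nth2 : ℕ := nT2 K al b / 2 ^ (2 * s + 1) + 1
def nth1 : ℕ := nU1 K A x2m al b mu / 2 ^ (2 * q + 3) + nT1 K mu / 2 ^ (2 * s + 1) + 2

def nG : ℕ := 40 * 2 ^ 36 + 8 * A.natAbs + 4 * (X1 + ((nth2 s K al b : ℕ) : ℤ)).natAbs +
  16 * X2.natAbs + 2 * 2 ^ 36 + 8 * nth1 q s K A x2m al b mu +
  sn (fun k => 4 * al k + 4 * b k + 2 * mu k) K

def nB : ℕ := 20 * 2 ^ 36 + 4 * A.natAbs + 2 * (X1 + ((nth2 s K al b : ℕ) : ℤ)).natAbs +
  8 * X2.natAbs + 2 ^ 36 + 4 * nth1 q s K A x2m al b mu +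
  sn (fun k => 2 * al k + 2 * b k + mu k) K

def nth0 : ℕ := (nU0 K A x1m al * 2 ^ q + nU1 K A x2m al b mu) / 2 ^ (3 * q + 3) + 1 + 4 +
  (nG q s K A X1 X2 x2m al b mu / 2 ^ (P - 10) + 1)

end thr

theorem two_pow_natCast (n : ℕ) : ((2 ^ n : ℕ) : ℤ) = 2 ^ n := by push_cast; rfl

section eqs

variable {d : CD} {x1m x2m : ℕ} {al b mu : ℕ → ℕ}

structure Rep (d : CD) (x1m x2m : ℕ) (al b mu : ℕ → ℕ) : Prop where
  h1 : d.X1m = x1m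
  h2 : d.X2m = x2m
  hal : ∀ k, ((al k : ℕ) : ℤ) = |d.al k|
  hb : ∀ k, ((b k : ℕ) : ℤ) = |d.b k|
  hmu : ∀ k, ((mu k : ℕ) : ℤ) = |d.mu k|

theorem nU0_eq (h : Rep d x1m x2m al b mu) : ((nU0 d.K d.A x1m al : ℕ) : ℤ) = d.U0 := by
  unfold nU0 CD.U0
  rw [Nat.cast_add, sn_cast _ (fun k => 4 * |d.al k|) (fun k => by
    rw [Nat.cast_mul, h.hal]; rfl), h.h1]
  unfold CD.S1
  rw [Nat.cast_add, Nat.cast_add, Nat.cast_add, Nat.cast_mul, Nat.cast_mul, Int.natCast_natAbs]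
  rfl

theorem nU1_eq (h : Rep d x1m x2m al b mu) :
    ((nU1 d.K d.A x2m al b mu : ℕ) : ℤ) = d.U1 := by
  unfold nU1 CD.U1
  rw [Nat.cast_add, sn_cast _ (fun k => (8 * ((k : ℤ) + 1) + 2 * ((k : ℤ) + 1) ^ 2) * |d.al k| +
    (12 * ((k : ℤ) + 1) + 2 * ((k : ℤ) + 1) ^ 2) * |d.b k| +
    (3 * ((k : ℤ) + 1) + ((k : ℤ) + 1) ^ 3) * |d.mu k|) (fun k => by
    rw [← h.hal, ← h.hb, ← h.hmu]; push_cast; ring), h.h2]
  unfold CD.S1
  rw [Nat.cast_add, Nat.cast_add, Nat.cast_mul, Nat.cast_mul, Nat.cast_mul, Nat.cast_add,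
    Int.natCast_natAbs]
  rfl

theorem nT1_eq (h : Rep d x1m x2m al b mu) : ((nT1 d.K mu : ℕ) : ℤ) = d.T1 := by
  unfold nT1 CD.T1
  exact sn_cast _ _ (fun k => by rw [← h.hmu, Nat.cast_mul, nD_cast]; push_cast; ring) _

theorem nT2_eq (h : Rep d x1m x2m al b mu) : ((nT2 d.K al b : ℕ) : ℤ) = d.T2 := by
  unfold nT2 CD.T2
  exact sn_cast _ _ (fun k => by rw [← h.hal, ← h.hb, Nat.cast_mul, nD_cast]; push_cast; ring) _

theorem nth2_eq (h : Rep d x1m x2m al b mu) : ((nth2 d.s d.K al b : ℕ) : ℤ) = d.th2 := by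
  unfold nth2 CD.th2
  rw [Nat.cast_add, Int.natCast_div, nT2_eq h]; rfl

theorem nth1_eq (h : Rep d x1m x2m al b mu) :
    ((nth1 d.q d.s d.K d.A x2m al b mu : ℕ) : ℤ) = d.th1 := by
  unfold nth1 CD.th1
  rw [Nat.cast_add, Nat.cast_add, Int.natCast_div, Int.natCast_div, nU1_eq h, nT1_eq h]; rfl

theorem nG_eq (h : Rep d x1m x2m al b mu) :
    ((nG d.q d.s d.K d.A d.X1 d.X2 x2m al b mu : ℕ) : ℤ) = d.G := by
  unfold nG CD.G
  rw [Nat.cast_add, sn_cast _ (fun k => 4 * |d.al k| + 4 * |d.b k| + 2 * |d.mu k|) (fun k => by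
    rw [← h.hal, ← h.hb, ← h.hmu]; push_cast; ring)]
  unfold CD.S1
  rw [Nat.cast_add, Nat.cast_add, Nat.cast_add, Nat.cast_add, Nat.cast_add]
  rw [Nat.cast_mul 8 (nth1 _ _ _ _ _ _ _ _), nth1_eq h, Nat.cast_mul 4, Nat.cast_mul 16,
    Nat.cast_mul 8, Int.natCast_natAbs, Int.natCast_natAbs, Int.natCast_natAbs, nth2_eq h]
  rfl

theorem nB_eq (h : Rep d x1m x2m al b mu) :
    ((nB d.q d.s d.K d.A d.X1 d.X2 x2m al b mu : ℕ) : ℤ) = d.B := by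
  unfold nB CD.B
  rw [Nat.cast_add, sn_cast _ (fun k => 2 * |d.al k| + 2 * |d.b k| + |d.mu k|) (fun k => by
    rw [← h.hal, ← h.hb, ← h.hmu]; push_cast; ring)]
  unfold CD.S1
  rw [Nat.cast_add, Nat.cast_add, Nat.cast_add, Nat.cast_add, Nat.cast_add]
  rw [Nat.cast_mul 4 (nth1 _ _ _ _ _ _ _ _), nth1_eq h, Nat.cast_mul 4, Nat.cast_mul 2,
    Nat.cast_mul 8, Int.natCast_natAbs, Int.natCast_natAbs, Int.natCast_natAbs, nth2_eq h]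
  rfl

theorem nth0_eq (h : Rep d x1m x2m al b mu) :
    ((nth0 d.q d.s d.K d.P d.A d.X1 d.X2 x1m x2m al b mu : ℕ) : ℤ) = d.th0 := by
  unfold nth0 CD.th0 CD.eh
  push_cast
  rw [nG_eq h, nU0_eq h, nU1_eq h]

end eqs

def fside (w P q n1 s K : ℕ) (t0 B G : ℕ) : Bool :=
  Nat.ble 20 P && Nat.ble P 70 && Nat.ble 8 q && Nat.ble n1 256 &&
  Nat.ble (64 * n1) (4 * 2 ^ q) && Nat.ble 1 n1 &&
  Nat.ble (31416 * 2 ^ q) (10000 * (64 * n1 - 1)) && Nat.ble K 6 && Nat.ble 1 s &&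
  Nat.ble 1 w && Nat.ble t0 (2 ^ 36) &&
  Nat.blt (2 ^ ((s - 1) * K) * (2 ^ (2 * P + q + 1) * B + 2 ^ (P + q + 11) * G)) (2 ^ (w - 1))

theorem rx_pow (s K : ℕ) : rx s ^ K = ((2 ^ ((s - 1) * K) : ℕ) : ℤ) := by
  unfold rx
  push_cast
  rw [← pow_mul]

theorem fside_side {d : CD} {x1m x2m : ℕ} {al b mu : ℕ → ℕ} (h : Rep d x1m x2m al b mu)
    (hf : fside d.w d.P d.q d.n1 d.s d.K
      (nth0 d.q d.s d.K d.P d.A d.X1 d.X2 x1m x2m al b mu)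
      (nB d.q d.s d.K d.A d.X1 d.X2 x2m al b mu)
      (nG d.q d.s d.K d.A d.X1 d.X2 x2m al b mu) = true) : d.side = true := by
  unfold fside at hf
  simp only [Bool.and_eq_true] at hf
  obtain ⟨⟨⟨⟨⟨⟨⟨⟨⟨⟨⟨a1, a2⟩, a3⟩, a4⟩, a5⟩, a6⟩, a7⟩, a8⟩, a9⟩, a10⟩, a11⟩, a12⟩ := hf
  unfold CD.side
  simp only [Bool.and_eq_true, decide_eq_true_eq]
  refine ⟨⟨⟨⟨⟨⟨⟨⟨⟨⟨⟨⟨⟨a1, a2⟩, a3⟩, a4⟩, a5⟩, a6⟩, a7⟩, a8⟩, a9⟩, a10⟩, ?_⟩, ?_⟩, ?_⟩, ?_⟩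
  · rw [← nth0_eq h]
    unfold CD.S1
    exact_mod_cast Nat.le_of_ble_eq_true a11
  · rw [h.h1]; exact Int.natCast_nonneg _
  · rw [h.h2]; exact Int.natCast_nonneg _
  · have h1 : d.r = rx d.s := rfl
    rw [h1, rx_pow, ← nB_eq h, ← nG_eq h]
    have := Nat.le_of_ble_eq_true a12
    have h2 : 2 ^ ((d.s - 1) * d.K) * (2 ^ (2 * d.P + d.q + 1) *
      nB d.q d.s d.K d.A d.X1 d.X2 x2m al b mu + 2 ^ (d.P + d.q + 11) *
      nG d.q d.s d.K d.A d.X1 d.X2 x2m al b mu) < 2 ^ (d.w - 1) := this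
    exact_mod_cast h2

/-! ### the certificate -/

def nuLo (nu lo hi : ℤ) : ℤ :=
  match nu with
  | Int.ofNat _ => nu * lo
  | Int.negSucc _ => nu * hi

def nuHi (nu lo hi : ℤ) : ℤ :=
  match nu with
  | Int.ofNat _ => nu * hi
  | Int.negSucc _ => nu * lo

theorem nu_bounds' {nu lo hi : ℤ} {x : ℝ} (h1 : (lo : ℝ) ≤ x) (h2 : x ≤ (hi : ℝ)) :
    ((nuLo nu lo hi : ℤ) : ℝ) ≤ (nu : ℝ) * x ∧ (nu : ℝ) * x ≤ ((nuHi nu lo hi : ℤ) : ℝ) := by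
  cases nu with
  | ofNat n =>
    have h0 : (0 : ℝ) ≤ ((Int.ofNat n : ℤ) : ℝ) := by
      have : (0 : ℤ) ≤ Int.ofNat n := Int.natCast_nonneg n
      exact_mod_cast this
    constructor
    · show (((Int.ofNat n * lo : ℤ)) : ℝ) ≤ _
      rw [Int.cast_mul]
      exact mul_le_mul_of_nonneg_left h1 h0
    · show _ ≤ (((Int.ofNat n * hi : ℤ)) : ℝ)
      rw [Int.cast_mul]
      exact mul_le_mul_of_nonneg_left h2 h0
  | negSucc n =>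
    have h0 : ((Int.negSucc n : ℤ) : ℝ) ≤ 0 := by
      have : Int.negSucc n ≤ (0 : ℤ) := (Int.negSucc_lt_zero n).le
      exact_mod_cast this
    constructor
    · show (((Int.negSucc n * hi : ℤ)) : ℝ) ≤ _
      rw [Int.cast_mul]
      exact mul_le_mul_of_nonpos_left h2 h0
    · show _ ≤ (((Int.negSucc n * lo : ℤ)) : ℝ)
      rw [Int.cast_mul]
      exact mul_le_mul_of_nonpos_left h1 h0

namespace Cert

variable (c : Cert)

def fX1Hi (e : Enc) : ℤ := e.A1Hi + c.be * p2 12 - nuLo c.nu e.aLo e.aHi / p2 48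
def fX1Lo (e : Enc) : ℤ := e.A1Lo + c.be * p2 12 - (nuHi c.nu e.aLo e.aHi / p2 48 + 1)
def fX2Hi (e : Enc) : ℤ := e.A2Hi - c.nu * p2 12
def fX2Lo (e : Enc) : ℤ := e.A2Lo - c.nu * p2 12
def x1m (e : Enc) : ℕ := (c.fX1Hi e).natAbs + (c.fX1Hi e - c.fX1Lo e).natAbs
def x2m (e : Enc) : ℕ := (c.fX2Lo e).natAbs + (c.fX2Hi e - c.fX2Lo e).natAbs

def na (l : List ℤ) (k : ℕ) : ℕ := (l.getD k 0).natAbs * 2 ^ 12

/-- engine data -/
def mkF (w P q n1 s K : ℕ) (e : Enc) : CD :=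
  ⟨w, P, q, n1, s, K, (e.aLo + p2 23) / p2 24, c.fX1Hi e, c.fX2Lo e,
    ((c.x1m e : ℕ) : ℤ), ((c.x2m e : ℕ) : ℤ),
    fun k => c.al.getD k 0 * p2 12, fun k => c.b.getD k 0 * p2 12, fun k => c.mu.getD k 0 * p2 12⟩

theorem na_eq (l : List ℤ) (k : ℕ) : ((na l k : ℕ) : ℤ) = |l.getD k 0 * p2 12| := by
  unfold na p2
  rw [abs_mul, Nat.cast_mul, Int.natCast_natAbs, Int.abs_eq_natAbs ((2 ^ 12 : ℕ) : ℤ),
    Int.natAbs_natCast]

theorem mkF_rep (w P q n1 s K : ℕ) (e : Enc) :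
    Rep (c.mkF w P q n1 s K e) (c.x1m e) (c.x2m e) (na c.al) (na c.b) (na c.mu) :=
  ⟨rfl, rfl, na_eq _, na_eq _, na_eq _⟩

theorem mkF_sound {w P q n1 s K : ℕ} {e : Enc} {a : ℝ} (hok : e.ok = true) (H : e.Has a)
    (hv : (c.mkF w P q n1 s K e).check = true) (y cc : ℝ) (hy0 : 0 ≤ y) (hy1 : y ≤ Real.pi)
    (hc0 : -1 ≤ cc) (hc1 : cc ≤ 1) :
    0 ≤ Pf a (A1r a + c.ber - c.nur * a) (A2r a - c.nur) K c.alr c.br c.mur y cc := by
  obtain ⟨hs, hc, ha, hd⟩ := Enc.ok_spec hok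
  have hnu := nu_bounds' (nu := c.nu) H.a1 H.a2
  have h48 := p2_pos 48
  have m1 := ediv_le' (nuLo c.nu e.aLo e.aHi) h48
  have m2 := le_ediv' (nuHi c.nu e.aLo e.aHi) h48
  rw [p2_cast] at m1 m2
  have hna : c.nur * a * 2 ^ 36 = (c.nu : ℝ) * (a * 2 ^ 60) / 2 ^ 48 := by
    unfold nur; ring
  have n1' : (((nuLo c.nu e.aLo e.aHi / p2 48 : ℤ)) : ℝ) ≤ c.nur * a * 2 ^ 36 := by
    rw [hna]
    refine m1.trans ?_
    gcongr
    exact hnu.1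
  have n2' : c.nur * a * 2 ^ 36 ≤ (((nuHi c.nu e.aLo e.aHi / p2 48 + 1 : ℤ)) : ℝ) := by
    rw [hna]
    refine le_trans ?_ m2
    gcongr
    exact hnu.2
  have hbe : c.ber * 2 ^ 36 = (c.be : ℝ) * 2 ^ 12 := by unfold ber; ring
  have hnu' : c.nur * 2 ^ 36 = (c.nu : ℝ) * 2 ^ 12 := by unfold nur; ring
  have x1hi : (A1r a + c.ber - c.nur * a) * 2 ^ 36 ≤ (c.fX1Hi e : ℝ) := by
    have := Enc.A1_hi hok H
    unfold fX1Hi
    push_cast at n1' ⊢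
    rw [p2_cast] at *
    linarith
  have x1lo : (c.fX1Lo e : ℝ) ≤ (A1r a + c.ber - c.nur * a) * 2 ^ 36 := by
    have := Enc.A1_lo hok H
    unfold fX1Lo
    push_cast at n2' ⊢
    rw [p2_cast] at *
    linarith
  have x2hi : (A2r a - c.nur) * 2 ^ 36 ≤ (c.fX2Hi e : ℝ) := by
    have := Enc.A2_hi hok H
    unfold fX2Hi
    push_cast
    rw [p2_cast] at *
    linarith
  have x2lo : (c.fX2Lo e : ℝ) ≤ (A2r a - c.nur) * 2 ^ 36 := by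
    have := Enc.A2_lo hok H
    unfold fX2Lo
    push_cast
    rw [p2_cast] at *
    linarith
  have hA : |a * 2 ^ 36 - (((e.aLo + p2 23) / p2 24 : ℤ) : ℝ)| ≤ 1 := by
    have h1 := ediv_le' (e.aLo + p2 23) (p2_pos 24)
    have h2 := le_ediv' (e.aLo + p2 23) (p2_pos 24)
    push_cast at h1 h2
    rw [p2_cast] at h1 h2
    rw [p2_cast] at h1 h2
    have h3 := H.a1
    have h4 := H.a2
    have h5 : (e.aHi : ℝ) ≤ e.aLo + 2 ^ 22 := by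
      have : (e.aHi : ℝ) ≤ ((e.aLo + p2 22 : ℤ) : ℝ) := by exact_mod_cast hd
      push_cast at this
      rwa [p2_cast] at this
    have e1 : a * 2 ^ 36 = (a * 2 ^ 60) / 2 ^ 24 := by ring
    rw [e1]
    rw [abs_le]
    constructor
    · have : ((e.aLo : ℝ) + 2 ^ 23) / 2 ^ 24 = e.aLo / 2 ^ 24 + 1 / 2 := by ring
      have h6 : (e.aLo : ℝ) / 2 ^ 24 ≤ (a * 2 ^ 60) / 2 ^ 24 := by gcongr
      linarith
    · have : ((e.aLo : ℝ) + 2 ^ 23) / 2 ^ 24 = e.aLo / 2 ^ 24 + 1 / 2 := by ring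
      have h6 : (a * 2 ^ 60) / 2 ^ 24 ≤ (e.aLo + 2 ^ 22) / 2 ^ 24 := by gcongr; linarith
      have h7 : ((e.aLo : ℝ) + 2 ^ 22) / 2 ^ 24 = e.aLo / 2 ^ 24 + 1 / 4 := by ring
      linarith
  have habs : ∀ x : ℝ, |x| * 2 ^ 36 = |x * 2 ^ 36| := fun x => by
    rw [abs_mul, abs_of_pos (by positivity : (0:ℝ) < 2 ^ 36)]
  have hn1 : ((c.x1m e : ℕ) : ℝ) = |(c.fX1Hi e : ℝ)| + |(c.fX1Hi e : ℝ) - (c.fX1Lo e : ℝ)| := by
    unfold x1m
    rw [Nat.cast_add, Nat.cast_natAbs, Nat.cast_natAbs]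
    push_cast
    rfl
  have hn2 : ((c.x2m e : ℕ) : ℝ) = |(c.fX2Lo e : ℝ)| + |(c.fX2Hi e : ℝ) - (c.fX2Lo e : ℝ)| := by
    unfold x2m
    rw [Nat.cast_add, Nat.cast_natAbs, Nat.cast_natAbs]
    push_cast
    rfl
  have hfin := (c.mkF w P q n1 s K e).check_sound hv (a := a) (X1r := A1r a + c.ber - c.nur * a)
    (X2r := A2r a - c.nur) hA x1hi x2lo
    (by
      rw [habs]
      show _ ≤ ((((c.x1m e : ℕ) : ℤ)) : ℝ)
      rw [Int.cast_natCast, hn1]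
      rw [abs_le]
      have g1 := neg_abs_le (c.fX1Hi e : ℝ)
      have g2 := le_abs_self (c.fX1Hi e : ℝ)
      have g3 := le_abs_self ((c.fX1Hi e : ℝ) - (c.fX1Lo e : ℝ))
      have g4 := abs_nonneg ((c.fX1Hi e : ℝ) - (c.fX1Lo e : ℝ))
      constructor <;> linarith)
    (by
      rw [habs]
      show _ ≤ ((((c.x2m e : ℕ) : ℤ)) : ℝ)
      rw [Int.cast_natCast, hn2]
      rw [abs_le]
      have g1 := neg_abs_le (c.fX2Lo e : ℝ)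
      have g2 := le_abs_self (c.fX2Lo e : ℝ)
      have g3 := le_abs_self ((c.fX2Hi e : ℝ) - (c.fX2Lo e : ℝ))
      have g4 := abs_nonneg ((c.fX2Hi e : ℝ) - (c.fX2Lo e : ℝ))
      constructor <;> linarith) hy0 hy1 hc0 hc1
  have hcoef : ∀ l : List ℤ, ∀ k, (((l.getD k 0 * p2 12 : ℤ)) : ℝ) / 2 ^ 36 =
      ((l.getD k 0 : ℤ) : ℝ) / 2 ^ 24 := by
    intro l k
    push_cast
    rw [p2_cast]
    ring
  have e1 : (c.mkF w P q n1 s K e).alr = c.alr := funext fun k => hcoef c.al k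
  have e2 : (c.mkF w P q n1 s K e).br = c.br := funext fun k => hcoef c.b k
  have e3 : (c.mkF w P q n1 s K e).mur = c.mur := funext fun k => hcoef c.mu k
  rw [e1, e2, e3] at hfin
  exact hfin

end Cert

/-- the part of the fast check with evaluated parameters -/
def fcore (w P q n1 s K : ℕ) (tb : List (List ℤ)) (A X1 X2 : ℤ) (x1m x2m : ℕ)
    (al b mu : List ℤ) : Bool :=
  fside w P q n1 s K (nth0 q s K P A X1 X2 x1m x2m (Cert.na al) (Cert.na b) (Cert.na mu))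
    (nB q s K A X1 X2 x2m (Cert.na al) (Cert.na b) (Cert.na mu))
    (nG q s K A X1 X2 x2m (Cert.na al) (Cert.na b) (Cert.na mu)) &&
  loopF (maskN w (64 * n1)) (2 ^ s + 1)
    (iniF (fun k => NKx w P q n1 k (al.getD k 0 * p2 12) (b.getD k 0 * p2 12)
      (mu.getD k 0 * p2 12)) 0 tb
      (constL (((2 ^ ((s - 1) * K) : ℕ) : ℤ) * N0x w P q n1 A
        (X1 + ((nth2 s K (Cert.na al) (Cert.na b) : ℕ) : ℤ)) X2
        ((nth0 q s K P A X1 X2 x1m x2m (Cert.na al) (Cert.na b) (Cert.na mu) : ℕ) : ℤ)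
        ((nth1 q s K A x2m (Cert.na al) (Cert.na b) (Cert.na mu) : ℕ) : ℤ)) K))

def fchk (w P q n1 s K : ℕ) (tb : List (List ℤ)) (c : Cert) (e : Enc) : Bool :=
  fcore w P q n1 s K tb ((e.aLo + p2 23) / p2 24) (c.fX1Hi e) (c.fX2Lo e) (c.x1m e) (c.x2m e)
    c.al c.b c.mu

theorem fchk_check {w P q n1 s K : ℕ} {tb : List (List ℤ)} {c : Cert} {e : Enc}
    (htb : tabl s K K = tb) (h : fchk w P q n1 s K tb c e = true) :
    (c.mkF w P q n1 s K e).check = true := by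
  unfold fchk fcore at h
  rw [Bool.and_eq_true] at h
  have hR := c.mkF_rep w P q n1 s K e
  unfold CD.check
  rw [Bool.and_eq_true]
  refine ⟨fside_side hR h.1, ?_⟩
  rw [← loopx_eq]
  have e0 := nth0_eq hR
  have e1 := nth1_eq hR
  have e2 := nth2_eq hR
  refine loopF_loopx htb ?_ _ h.2
  rw [← rx_pow]
  have e0' : ((nth0 q s K P ((e.aLo + p2 23) / p2 24) (c.fX1Hi e) (c.fX2Lo e) (c.x1m e) (c.x2m e)
    (Cert.na c.al) (Cert.na c.b) (Cert.na c.mu) : ℕ) : ℤ) = (c.mkF w P q n1 s K e).th0 := e0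
  have e1' : ((nth1 q s K ((e.aLo + p2 23) / p2 24) (c.x2m e)
    (Cert.na c.al) (Cert.na c.b) (Cert.na c.mu) : ℕ) : ℤ) = (c.mkF w P q n1 s K e).th1 := e1
  have e2' : ((nth2 s K (Cert.na c.al) (Cert.na c.b) : ℕ) : ℤ) =
    (c.mkF w P q n1 s K e).th2 := e2
  rw [e0', e1', e2']
  rfl

/-- soundness of the fast check in terms of the sums `SS` -/
theorem Sol.cert_SS' {N : ℕ} (S : Sol N) {m : ℕ} (hm : 0 < m) (hmN : 2 * m ≤ N) (c : Cert)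
    {w P q n1 s K : ℕ} {tb : List (List ℤ)} (htb : tabl s K K = tb)
    (hok : (enc N m).ok = true) (hv : fchk w P q n1 s K tb c (enc N m) = true) :
    N * c.ber + ∑ k ∈ range K, (c.alr k * S.Z (k + 1) + c.mur k * S.MM m (k + 1)) ≤ S.SS m :=
  S.SS_lower hm (by omega) (fun y cc hy0 hy1 hc0 hc1 =>
    c.mkF_sound hok (enc_has hm hmN) (fchk_check htb hv) y cc hy0 hy1 hc0 hc1)

end Pool.Agent.Lib_helper90d
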