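import Pool.Agent.Lib_helper90d.E20

/-!
Segments with the fast check, and a cheap lower bound for the sum `G`.
-/

set_option autoImplicit false

open Finset

namespace Pool.Agent.Lib_helper90d

def tb2 (s : ℕ) : List (List ℤ) :=
  [[rx s * rx s, - rx s, 0], [- (rx s * rx s), 4 * rx s - 2, -4]]

theorem tabl_tb2 (s : ℕ) : tabl s 2 2 = tb2 s := by
  simp only [tabl, tb2, stR, dlt, tauN, taux, tch, List.nil_append, List.cons_append]
  generalize rx s = r
  congr 1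
  · simp only [List.cons.injEq, and_true]
    push_cast
    refine ⟨by ring, by ring, by ring⟩
  · simp only [List.cons.injEq, and_true]
    push_cast
    refine ⟨by ring, by ring, by ring⟩

def fcertsOK (w P q n1 N s : ℕ) : ℕ → List (ℤ × ℤ × ℤ × ℤ × ℤ) → Bool
  | _, [] => true
  | m, c :: cs => ((enc N m).ok && fchk w P q n1 s 2 (tb2 s) (mkC c) (enc N m)) &&
    fcertsOK w P q n1 N s (m + 1) cs

theorem Sol.fcerts_sum {N : ℕ} (S : Sol N) {w P q n1 s : ℕ} :
    ∀ (cs : List (ℤ × ℤ × ℤ × ℤ × ℤ)) (m : ℕ), fcertsOK w P q n1 N s (m + 1) cs = true →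
      2 * (m + cs.length) ≤ N →
      N * ((sumB cs : ℤ) : ℝ) / 2 ^ 24 + ((sumA cs : ℤ) : ℝ) / 2 ^ 24 * S.F ≤
        ∑ i ∈ range cs.length, S.SS (m + (i + 1)) := by
  intro cs
  induction cs with
  | nil => intro m _ _; simp [sumB, sumA]
  | cons c cs ih =>
    intro m h hl
    rw [fcertsOK, Bool.and_eq_true, Bool.and_eq_true] at h
    rw [List.length_cons] at hl
    obtain ⟨⟨h1, h2⟩, h3⟩ := h
    have hi := ih (m + 1) h3 (by omega)
    have hc := S.cert_SS' (m := m + 1) (by omega) (by omega) (mkC c) (tabl_tb2 s) h1 h2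
    have e0 : (mkC c).ber = (c.1 : ℝ) / 2 ^ 24 := rfl
    have e1 : (mkC c).alr 0 = (c.2.2.1 : ℝ) / 2 ^ 24 := rfl
    have e2 : (mkC c).alr 1 = ((0 : ℤ) : ℝ) / 2 ^ 24 := rfl
    have e3 : (mkC c).mur 0 = ((0 : ℤ) : ℝ) / 2 ^ 24 := rfl
    have e4 : (mkC c).mur 1 = ((0 : ℤ) : ℝ) / 2 ^ 24 := rfl
    rw [Finset.sum_range_succ, Finset.sum_range_succ, Finset.sum_range_zero, e0, e1, e2, e3, e4,
      show 0 + 1 = 1 from rfl, S.Z_one] at hc
    rw [List.length_cons, Finset.sum_range_succ', sumB, sumA]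
    push_cast at hc ⊢
    have e5 : ∑ i ∈ range cs.length, S.SS (m + 1 + (i + 1)) =
        ∑ i ∈ range cs.length, S.SS (m + (i + 1 + 1)) :=
      Finset.sum_congr rfl fun i _ => by congr 1; ring
    rw [e5] at hi
    ring_nf at hc hi ⊢
    linarith

def Seg.okF (w P q n1 N : ℕ) (g : Seg) : Bool :=
  Nat.ble 2 N && Nat.ble (2 * g.Mx + 1) N && Nat.ble g.cs.length g.Mx &&
  rhoOK N g.cs.length (g.Mx - g.cs.length) &&
  decide (rhoS N g.cs.length (g.Mx - g.cs.length) ≤ p2 24) &&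
  endOK N (sumB g.cs) (sumA g.cs) (rhoS N g.cs.length (g.Mx - g.cs.length)) g.lo &&
  endOK N (sumB g.cs) (sumA g.cs) (rhoS N g.cs.length (g.Mx - g.cs.length)) g.hi &&
  fcertsOK w P q n1 N g.s 1 g.cs

theorem Sol.seg_okF {N : ℕ} (S : Sol N) {w P q n1 : ℕ} {g : Seg} (h : g.okF w P q n1 N = true)
    (h1 : N * (g.lo : ℝ) ≤ S.F * 2 ^ 16) (h2 : S.F * 2 ^ 16 ≤ N * (g.hi : ℝ)) : False := by
  unfold Seg.okF at h
  simp only [Bool.and_eq_true, decide_eq_true_eq] at h
  obtain ⟨⟨⟨⟨⟨⟨⟨a0, a1⟩, a2⟩, a3⟩, a4⟩, a5⟩, a6⟩, a7⟩ := h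
  have hN2 : 2 ≤ N := Nat.le_of_ble_eq_true a0
  have hM : 2 * g.Mx + 1 ≤ N := Nat.le_of_ble_eq_true a1
  have hL : g.cs.length ≤ g.Mx := Nat.le_of_ble_eq_true a2
  set n := g.Mx - g.cs.length with hn
  set R := rhoS N g.cs.length n with hR
  have hN0 : (0 : ℝ) < N := by exact_mod_cast (by omega : 0 < N)
  have h3 := S.fcerts_sum g.cs 0 a7 (by omega)
  have h4 := S.rho_sum n a3 (by omega) (by omega)
  have h5 := S.F_sq_ge (by omega) (fun m h0 h1 => S.SS_nonneg h0 h1)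
    ((range g.Mx).image (fun i => i + 1)) (by
      intro m hm
      obtain ⟨i, hi, him⟩ := Finset.mem_image.mp hm
      have := Finset.mem_range.mp hi
      omega)
  rw [Finset.sum_image (by intro a _ b _ hab; simpa using hab)] at h5
  have h6 : ∑ i ∈ range g.Mx, S.SS (i + 1) = ∑ i ∈ range g.cs.length, S.SS (0 + (i + 1)) +
      ∑ i ∈ range n, S.SS (g.cs.length + i + 1) := by
    have : g.Mx = g.cs.length + n := by omega
    rw [this, Finset.sum_range_add]
    simp only [zero_add]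
  rw [h6] at h5
  rw [← hR] at h4
  set B : ℝ := ((sumB g.cs : ℤ) : ℝ) with hB
  set A : ℝ := ((sumA g.cs : ℤ) : ℝ) with hA
  have h7 : N * B / 2 ^ 24 + A / 2 ^ 24 * S.F + (R : ℝ) / 2 ^ 24 * S.F ^ 2 ≤ S.F ^ 2 := by linarith
  -- t = 2^16 F / N
  set t : ℝ := S.F * 2 ^ 16 / N with ht
  have hF : S.F = N * t / 2 ^ 16 := by rw [ht]; field_simp
  have hlo : (g.lo : ℝ) ≤ t := by rw [ht, le_div_iff₀ hN0]; linarith
  have hhi : t ≤ (g.hi : ℝ) := by rw [ht, div_le_iff₀ hN0]; linarith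
  have hC : 0 ≤ (2 ^ 24 - (R : ℝ)) * N := by
    have : (R : ℝ) ≤ 2 ^ 24 := by
      have : (R : ℝ) ≤ ((p2 24 : ℤ) : ℝ) := by exact_mod_cast a4
      rwa [p2_cast] at this
    have := sub_nonneg.mpr this
    positivity
  have hend : ∀ u : ℕ, endOK N (sumB g.cs) (sumA g.cs) R u = true →
      (2 ^ 24 - (R : ℝ)) * N * ((u : ℝ) * u) < B * 2 ^ 32 + (A * 2 ^ 16) * u := by
    intro u hu
    unfold endOK at hu
    rw [decide_eq_true_eq] at hu
    have : ((((p2 24 - R) * (N * ((u : ℤ) * u)) : ℤ)) : ℝ) <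
        ((sumB g.cs * p2 32 + sumA g.cs * u * p2 16 : ℤ) : ℝ) := by exact_mod_cast hu
    push_cast at this
    simp only [p2_cast] at this
    linarith
  have h8 := concave_pos hC (hend _ a5) (hend _ a6) hlo hhi
  have h9 : (2 ^ 24 - (R : ℝ)) * N * (t * t) ≥ B * 2 ^ 32 + (A * 2 ^ 16) * t := by
    rw [hF] at h7
    have e1 : (N * B / 2 ^ 24 + A / 2 ^ 24 * (N * t / 2 ^ 16) + (R : ℝ) / 2 ^ 24 * (N * t / 2 ^ 16) ^ 2) *
        (2 ^ 56 / N) = B * 2 ^ 32 + A * 2 ^ 16 * t + R * N * (t * t) := by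
      field_simp
    have e2 : (N * t / 2 ^ 16) ^ 2 * (2 ^ 56 / N) = 2 ^ 24 * N * (t * t) := by
      field_simp
    have h10 := mul_le_mul_of_nonneg_right h7 (show 0 ≤ (2:ℝ) ^ 56 / N by positivity)
    rw [e1, e2] at h10
    linarith
  linarith

/-- a chain of segments from `top` down to `bot` -/
def fsegsOK (w P q n1 N bot : ℕ) : ℕ → List Seg → Bool
  | top, [] => Nat.ble top bot
  | top, g :: gs => (Nat.ble top g.hi && g.okF w P q n1 N) && fsegsOK w P q n1 N bot g.lo gs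

theorem Sol.fsegs_ok {N : ℕ} (S : Sol N) {w P q n1 bot : ℕ} : ∀ (gs : List Seg) (top : ℕ),
    fsegsOK w P q n1 N bot top gs = true → S.F * 2 ^ 16 ≤ N * (top : ℝ) →
    S.F * 2 ^ 16 ≤ N * (bot : ℝ) := by
  intro gs
  induction gs with
  | nil =>
    intro top h h1
    have h2 : (top : ℝ) ≤ bot := by exact_mod_cast Nat.le_of_ble_eq_true h
    refine h1.trans ?_
    gcongr
  | cons g gs ih =>
    intro top h h1
    rw [fsegsOK, Bool.and_eq_true, Bool.and_eq_true] at h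
    refine ih g.lo h.2 ?_
    by_contra hcon
    push Not at hcon
    have h2 : (top : ℝ) ≤ g.hi := by exact_mod_cast Nat.le_of_ble_eq_true h.1.1
    refine S.seg_okF h.1.2 hcon.le (h1.trans ?_)
    gcongr

/-- several values of `N` at once: `(N, bot, top, segments)` -/
def MOK (w P q n1 : ℕ) : List (ℕ × ℕ × ℕ × List Seg) → Bool
  | [] => true
  | x :: l => fsegsOK w P q n1 x.1 x.2.1 x.2.2.1 x.2.2.2 && MOK w P q n1 l

theorem MOK_get {w P q n1 : ℕ} {L : List (ℕ × ℕ × ℕ × List Seg)} (h : MOK w P q n1 L = true) :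
    ∀ (i : ℕ) {x : ℕ × ℕ × ℕ × List Seg}, L[i]? = some x →
      fsegsOK w P q n1 x.1 x.2.1 x.2.2.1 x.2.2.2 = true := by
  induction L with
  | nil => intro i x hx; simp at hx
  | cons a l ih =>
    intro i x hx
    rw [MOK, Bool.and_eq_true] at h
    cases i with
    | zero =>
      simp at hx
      rw [← hx]; exact h.1
    | succ i =>
      simp at hx
      exact ih h.2 i hx

/-! ### cheap bound -/

def gT2 (N m : ℕ) : ℕ :=
  max (2 ^ 39) (N * 10000 * 2 ^ 40 / (31416 * m) - (31416 * m * 2 ^ 40 / (30000 * N) + 1))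

theorem sin_mul_le {a : ℝ} (h0 : 0 ≤ a) (h1 : a ≤ 1.6) : Real.sin a * (1 + a ^ 2 / 6) ≤ a := by
  have h4 := cusa h0
  set x := a / 2 with hx
  have hax : a = 2 * x := by rw [hx]; ring
  have hx0 : 0 ≤ x := by positivity
  have hx1 : x ≤ 0.8 := by rw [hx]; linarith
  have h5 := Real.sin_ge_sub_cube hx0
  have h6 : Real.cos a = 1 - 2 * Real.sin x ^ 2 := by
    have := two_sin_sq_half a
    rw [← hx] at this
    linarith
  have h7 : 0 ≤ x - x ^ 3 / 6 := by
    have : x - x ^ 3 / 6 = x * (1 - x ^ 2 / 6) := by ring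
    rw [this]
    have : x ^ 2 ≤ 0.8 ^ 2 := by gcongr
    apply mul_nonneg hx0
    norm_num at this ⊢
    linarith
  have h8 : (x - x ^ 3 / 6) ^ 2 ≤ Real.sin x ^ 2 := by gcongr
  have h9 : 3 * Real.sin a ≤ a * (3 - 2 * (x - x ^ 3 / 6) ^ 2) := by
    refine h4.trans (mul_le_mul_of_nonneg_left ?_ h0)
    rw [h6]; linarith
  have hu : x ^ 2 ≤ 0.64 := by nlinarith
  have h10 : (3 - 2 * (x - x ^ 3 / 6) ^ 2) * (1 + a ^ 2 / 6) ≤ 3 := by
    have e : 3 - (3 - 2 * (x - x ^ 3 / 6) ^ 2) * (1 + a ^ 2 / 6) =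
        2 * x ^ 4 * (1 / 3 - 7 / 36 * x ^ 2 + x ^ 4 / 54) := by rw [hax]; ring
    have : 0 ≤ 2 * x ^ 4 * (1 / 3 - 7 / 36 * x ^ 2 + x ^ 4 / 54) := by
      apply mul_nonneg (by positivity)
      have : 0 ≤ x ^ 4 := by positivity
      linarith
    linarith
  have h11 : 3 * Real.sin a * (1 + a ^ 2 / 6) ≤ a * (3 - 2 * (x - x ^ 3 / 6) ^ 2) * (1 + a ^ 2 / 6) :=
    mul_le_mul_of_nonneg_right h9 (by positivity)
  have h12 := mul_le_mul_of_nonneg_left h10 h0
  linarith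

theorem gT2_le {N m : ℕ} (hm : 0 < m) (hmN : 2 * m ≤ N) :
    (gT2 N m : ℝ) ≤ (1 + Real.cos (al N m) ^ 2) / (2 * Real.sin (al N m)) * 2 ^ 40 := by
  have hN : 0 < N := by omega
  have ha0 := al_pos hm hN
  have ha1 := al_le_half hN hmN
  have hpi := Real.pi_lt_d4
  have hpi0 := Real.pi_pos
  have hsp := Real.sin_pos_of_pos_of_lt_pi ha0 (by linarith)
  have hs1 := Real.sin_le_one (al N m)
  have hcs := Real.sin_sq_add_cos_sq (al N m)
  have hN' : (0 : ℝ) < N := by exact_mod_cast hN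
  have hm' : (0 : ℝ) < m := by exact_mod_cast hm
  unfold gT2
  rw [Nat.cast_max]
  refine max_le ?_ ?_
  · have h1 : (1 : ℝ) / 2 ≤ (1 + Real.cos (al N m) ^ 2) / (2 * Real.sin (al N m)) := by
      rw [div_le_div_iff₀ (by norm_num) (by positivity)]
      nlinarith [sq_nonneg (Real.cos (al N m))]
    rw [Nat.cast_pow, Nat.cast_ofNat]
    have h2 := mul_le_mul_of_nonneg_right h1 (show (0:ℝ) ≤ 2 ^ 40 by positivity)
    linarith
  · -- 1/sin a - sin a / 2 ≥ 1/a - a/3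
    have key : 1 / al N m - al N m / 3 ≤ (1 + Real.cos (al N m) ^ 2) / (2 * Real.sin (al N m)) := by
      set a := al N m with ha
      have e : (1 + Real.cos a ^ 2) / (2 * Real.sin a) = 1 / Real.sin a - Real.sin a / 2 := by
        rw [Real.cos_sq']; field_simp; ring
      rw [e]
      have h2 : Real.sin a ≤ a := Real.sin_le ha0.le
      have h3 : Real.sin a * (1 + a ^ 2 / 6) ≤ a := sin_mul_le ha0.le (by linarith)
      have h7 : 1 / a + a / 6 ≤ 1 / Real.sin a := by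
        rw [le_div_iff₀ hsp]
        have : (1 / a + a / 6) * Real.sin a = (Real.sin a * (1 + a ^ 2 / 6)) / a := by
          field_simp
        rw [this, div_le_one ha0]; exact h3
      linarith
    have hA : N * 10000 / (31416 * m) ≤ 1 / al N m := by
      unfold al
      rw [one_div_div, div_le_div_iff₀ (by positivity) (by positivity)]
      nlinarith [mul_pos hN' hm']
    have hB : al N m / 3 ≤ 31416 * m / (30000 * N) := by
      unfold al
      rw [div_div, div_le_div_iff₀ (by positivity) (by positivity)]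
      nlinarith [mul_pos hN' hm']
    have h1 : ((N * 10000 * 2 ^ 40 / (31416 * m) : ℕ) : ℝ) ≤
        (N * 10000 / (31416 * m)) * 2 ^ 40 := by
      refine Nat.cast_div_le.trans (le_of_eq ?_)
      push_cast
      ring
    have h2 : (31416 * m / (30000 * N)) * (2 : ℝ) ^ 40 ≤
        ((31416 * m * 2 ^ 40 / (30000 * N) + 1 : ℕ) : ℝ) := by
      have := Nat.lt_floor_add_one (((31416 * m * 2 ^ 40 : ℕ) : ℝ) / ((30000 * N : ℕ) : ℝ))
      rw [Nat.floor_div_eq_div] at this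
      push_cast at this ⊢
      refine le_trans (le_of_eq ?_) this.le
      ring
    rcases le_total (N * 10000 * 2 ^ 40 / (31416 * m)) (31416 * m * 2 ^ 40 / (30000 * N) + 1) with h | h
    · rw [Nat.sub_eq_zero_of_le h]
      push_cast
      positivity
    · rw [Nat.cast_sub h]
      have h40 : (0 : ℝ) < 2 ^ 40 := by positivity
      have g1 := mul_le_mul_of_nonneg_right hA h40.le
      have g2 := mul_le_mul_of_nonneg_right hB h40.le
      have g3 := mul_le_mul_of_nonneg_right key h40.le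
      rw [sub_mul] at g3
      linarith

def gS2 (N : ℕ) : ℕ → ℕ
  | 0 => 0
  | i + 1 => gS2 N i + gT2 N (min (i + 1) (N - (i + 1)))

theorem gS2_le {N : ℕ} : ∀ n, n + 1 ≤ N →
    (gS2 N n : ℝ) ≤ (∑ i ∈ range n, (1 + Real.cos (al N (i + 1)) ^ 2) /
      (2 * Real.sin (al N (i + 1)))) * 2 ^ 40 := by
  intro n
  induction n with
  | zero => intro _; simp [gS2]
  | succ n ih =>
    intro hn
    rw [gS2, Finset.sum_range_succ, add_mul]
    rw [Nat.cast_add]
    refine add_le_add (ih (by omega)) ?_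
    rcases le_or_gt (2 * (n + 1)) N with h | h
    · rw [min_eq_left (by omega)]
      exact gT2_le (by omega) h
    · rw [min_eq_right (by omega)]
      refine (gT2_le (by omega) (by omega)).trans ?_
      have hN : (N : ℝ) ≠ 0 := by
        have : N ≠ 0 := by omega
        exact_mod_cast this
      have e : al N (N - (n + 1)) = Real.pi - al N (n + 1) := by
        unfold al
        rw [Nat.cast_sub (by omega)]
        field_simp
      rw [e, Real.cos_pi_sub, Real.sin_pi_sub, neg_sq]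

def smallOK2 (N lo zn kn : ℕ) : Bool :=
  Nat.ble 3 N && (enc N 1).ok && Nat.ble 1 kn && kapOK (enc N 1) kn true &&
  decide (4 * (N : ℤ) * p2 152 ≤ (zn : ℤ) ^ 2 * kn * (enc N 1).cLo ^ 2) &&
  decide (3 * (N : ℤ) * p2 40 + (3 * (zn : ℤ) + 20480) * N * lo * p2 16 <
    3 * ((gS2 N (N - 1) : ℕ) : ℤ))

theorem Sol.small_ok2 {N lo zn kn : ℕ} (h : smallOK2 N lo zn kn = true)
    (S : Sol N) (hF : 0 < S.F) (hlo : S.F * 2 ^ 16 ≤ N * lo) : False := by
  unfold smallOK2 at h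
  simp only [Bool.and_eq_true, decide_eq_true_eq] at h
  obtain ⟨⟨⟨⟨⟨h1, hok⟩, h3⟩, h4⟩, h5⟩, h6⟩ := h
  have hN3 : 3 ≤ N := Nat.le_of_ble_eq_true h1
  have hkn : 1 ≤ kn := Nat.le_of_ble_eq_true h3
  have H := enc_has (show 0 < 1 by norm_num) (show 2 * 1 ≤ N by omega)
  obtain ⟨hs, hc, ha, _⟩ := Enc.ok_spec hok
  have hkn' : (0 : ℝ) < kn := by exact_mod_cast hkn
  have hk0 : 0 < (kn : ℝ) / 2 ^ 16 := by positivity
  have hz0 : 0 ≤ (zn : ℝ) / 2 ^ 8 := by positivity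
  have hk2 := kapOK_spec H hs h4
  have hg : (((gS2 N (N - 1) : ℕ) : ℤ) : ℝ) ≤
      (∑ i ∈ range (N - 1), (1 + Real.cos (al N (i + 1)) ^ 2) /
      (2 * Real.sin (al N (i + 1)))) * 2 ^ 40 := by
    rw [Int.cast_natCast]
    exact gS2_le (N - 1) (by omega)
  exact small_fin hlo hg (S.small_main hN3 hF hk0 hz0 hk2 (small_zk H hc h5)) h6

theorem Sol.finish2 {N lo zn kn : ℕ} (h : smallOK2 N lo zn kn = true)
    (S : Sol N) (hlo : S.F * 2 ^ 16 ≤ N * lo) : S.F = 0 := by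
  by_contra hne
  exact S.small_ok2 h (lt_of_le_of_ne S.hF (Ne.symm hne)) hlo

end Pool.Agent.Lib_helper90d
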