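import Pool.Agent.Lib_helper90d.E21

/-!
Joint certificates with multipliers.
-/

set_option autoImplicit false

open Finset

namespace Pool.Agent.Lib_helper90d

/-- weight of the index `m` -/
def wt (N m : ℕ) : ℕ := if 2 * m = N then 1 else 2

theorem Sol.MM_symm {N : ℕ} (S : Sol N) {m : ℕ} (hm : m ≤ N) (k : ℕ) :
    S.MM (N - m) k = S.MM m k := by
  unfold Sol.MM
  have hper : ∀ j, (fun j => Real.cos (S.y (N - m) j) * Real.sin (k * S.y (N - m) j) *
      Real.cos (k * S.ps (N - m) j) / (2 * Real.sin (S.y (N - m) j) ^ 2)) (j + N) =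
      (fun j => Real.cos (S.y (N - m) j) * Real.sin (k * S.y (N - m) j) *
      Real.cos (k * S.ps (N - m) j) / (2 * Real.sin (S.y (N - m) j) ^ 2)) j := by
    intro j
    beta_reduce
    have h1 : S.y (N - m) (j + N) = S.y (N - m) j := by
      unfold Sol.y
      rw [show j + N + (N - m) = (j + (N - m)) + N by ring, S.per, S.per]
      ring
    have h2 : S.ps (N - m) (j + N) = S.ps (N - m) j + 2 * Real.pi := by
      unfold Sol.ps
      rw [show j + N + (N - m) = (j + (N - m)) + N by ring, S.per, S.per]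
      ring
    rw [h1, h2, show (k : ℝ) * (S.ps (N - m) j + 2 * Real.pi) =
      k * S.ps (N - m) j + k * (2 * Real.pi) by ring, Real.cos_add_nat_mul_two_pi]
  rw [← sum_shift (H := fun j => Real.cos (S.y (N - m) j) * Real.sin (k * S.y (N - m) j) *
      Real.cos (k * S.ps (N - m) j) / (2 * Real.sin (S.y (N - m) j) ^ 2)) hper m]
  refine Finset.sum_congr rfl fun j _ => ?_
  have e1 : S.y (N - m) (j + m) = Real.pi - S.y m j := by
    unfold Sol.y
    rw [show j + m + (N - m) = j + N by omega, S.per]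
    ring
  have e2 : S.ps (N - m) (j + m) = S.ps m j + Real.pi := by
    unfold Sol.ps
    rw [show j + m + (N - m) = j + N by omega, S.per]
    ring
  rw [e1, e2, Real.cos_pi_sub, Real.sin_pi_sub,
    show (k : ℝ) * (Real.pi - S.y m j) = k * Real.pi - k * S.y m j by ring,
    show (k : ℝ) * (S.ps m j + Real.pi) = k * S.ps m j + k * Real.pi by ring,
    Real.sin_sub, Real.cos_add, Real.sin_nat_mul_pi]
  have h3 : Real.cos (k * Real.pi) * Real.cos (k * Real.pi) = 1 := by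
    have := Real.sin_sq_add_cos_sq (k * Real.pi)
    rw [Real.sin_nat_mul_pi] at this
    nlinarith
  congr 1
  calc -Real.cos (S.y m j) * (0 * Real.cos (k * S.y m j) -
        Real.cos (k * Real.pi) * Real.sin (k * S.y m j)) *
        (Real.cos (k * S.ps m j) * Real.cos (k * Real.pi) - Real.sin (k * S.ps m j) * 0)
      = (Real.cos (k * Real.pi) * Real.cos (k * Real.pi)) * (Real.cos (S.y m j) *
        Real.sin (k * S.y m j) * Real.cos (k * S.ps m j)) := by ring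
    _ = _ := by rw [h3, one_mul]

/-- the symmetric sums -/
def SymSum (N : ℕ) : Prop := ∀ f : ℕ → ℝ, (∀ m, 0 < m → m < N → f (N - m) = f m) →
  ∑ i ∈ range (N - 1), f (i + 1) = ∑ i ∈ range (N / 2), (wt N (i + 1) : ℝ) * f (i + 1)

def jok (w P q n1 s K : ℕ) (tb : List (List ℤ)) (mu : List ℤ) (N : ℕ) : ℕ → List Cert → Bool
  | _, [] => true
  | m, c :: cs => ((enc N (m + 1)).ok && fchk w P q n1 s K tb c (enc N (m + 1)) &&
    decide (c.mu = mu)) && jok w P q n1 s K tb mu N (m + 1) cs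

def jB (N : ℕ) : ℕ → List Cert → ℤ
  | _, [] => 0
  | m, c :: cs => (wt N (m + 1) : ℤ) * c.be + jB N (m + 1) cs

def jA (N k : ℕ) : ℕ → List Cert → ℤ
  | _, [] => 0
  | m, c :: cs => (wt N (m + 1) : ℤ) * c.al.getD k 0 + jA N k (m + 1) cs

theorem Sol.jsum {N : ℕ} (S : Sol N) {w P q n1 s K : ℕ} {tb : List (List ℤ)} {mu : List ℤ}
    (htb : tabl s K K = tb) : ∀ (cs : List Cert) (m : ℕ),
    jok w P q n1 s K tb mu N m cs = true → 2 * (m + cs.length) ≤ N →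
      N * ((jB N m cs : ℤ) : ℝ) / 2 ^ 24 +
        ∑ k ∈ range K, ((jA N k m cs : ℤ) : ℝ) / 2 ^ 24 * S.Z (k + 1) +
        ∑ k ∈ range K, ((mu.getD k 0 : ℤ) : ℝ) / 2 ^ 24 *
          (∑ i ∈ range cs.length, (wt N (m + i + 1) : ℝ) * S.MM (m + i + 1) (k + 1)) ≤
        ∑ i ∈ range cs.length, (wt N (m + i + 1) : ℝ) * S.SS (m + i + 1) := by
  intro cs
  induction cs with
  | nil => intro m _ _; simp [jB, jA]
  | cons c cs ih =>
    intro m h hl
    rw [jok, Bool.and_eq_true, Bool.and_eq_true, Bool.and_eq_true, decide_eq_true_eq] at h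
    rw [List.length_cons] at hl
    obtain ⟨⟨⟨h1, h2⟩, h3⟩, h4⟩ := h
    have hi := ih (m + 1) h4 (by omega)
    have hc := S.cert_SS' (m := m + 1) (by omega) (by omega) c htb h1 h2
    have hw : (0 : ℝ) ≤ (wt N (m + 1) : ℝ) := Nat.cast_nonneg _
    have hc2 := mul_le_mul_of_nonneg_left hc hw
    rw [List.length_cons]
    have s1 : ∑ i ∈ range (cs.length + 1), (wt N (m + i + 1) : ℝ) * S.SS (m + i + 1) =
        (wt N (m + 1) : ℝ) * S.SS (m + 1) +
        ∑ i ∈ range cs.length, (wt N (m + 1 + i + 1) : ℝ) * S.SS (m + 1 + i + 1) := by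
      rw [Finset.sum_range_succ', add_zero, add_comm]
      congr 1
      refine Finset.sum_congr rfl fun i _ => ?_
      rw [show m + (i + 1) + 1 = m + 1 + i + 1 by ring]
    have s2 : ∀ k, ∑ i ∈ range (cs.length + 1), (wt N (m + i + 1) : ℝ) * S.MM (m + i + 1) (k + 1) =
        (wt N (m + 1) : ℝ) * S.MM (m + 1) (k + 1) +
        ∑ i ∈ range cs.length, (wt N (m + 1 + i + 1) : ℝ) * S.MM (m + 1 + i + 1) (k + 1) := by
      intro k
      rw [Finset.sum_range_succ', add_zero, add_comm]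
      congr 1
      refine Finset.sum_congr rfl fun i _ => ?_
      rw [show m + (i + 1) + 1 = m + 1 + i + 1 by ring]
    rw [s1]
    have e1 : ∑ k ∈ range K, ((jA N k m (c :: cs) : ℤ) : ℝ) / 2 ^ 24 * S.Z (k + 1) =
        (wt N (m + 1) : ℝ) * (∑ k ∈ range K, c.alr k * S.Z (k + 1)) +
        ∑ k ∈ range K, ((jA N k (m + 1) cs : ℤ) : ℝ) / 2 ^ 24 * S.Z (k + 1) := by
      rw [Finset.mul_sum, ← Finset.sum_add_distrib]
      refine Finset.sum_congr rfl fun k _ => ?_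
      rw [jA]
      unfold Cert.alr
      push_cast
      ring
    have e2 : ∑ k ∈ range K, ((mu.getD k 0 : ℤ) : ℝ) / 2 ^ 24 *
        (∑ i ∈ range (cs.length + 1), (wt N (m + i + 1) : ℝ) * S.MM (m + i + 1) (k + 1)) =
        (wt N (m + 1) : ℝ) * (∑ k ∈ range K, c.mur k * S.MM (m + 1) (k + 1)) +
        ∑ k ∈ range K, ((mu.getD k 0 : ℤ) : ℝ) / 2 ^ 24 *
        (∑ i ∈ range cs.length, (wt N (m + 1 + i + 1) : ℝ) * S.MM (m + 1 + i + 1) (k + 1)) := by
      rw [Finset.mul_sum, ← Finset.sum_add_distrib]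
      refine Finset.sum_congr rfl fun k _ => ?_
      rw [s2]
      unfold Cert.mur
      rw [h3]
      ring
    rw [e1, e2, jB]
    rw [Finset.sum_add_distrib] at hc2
    have e3 : c.ber = (c.be : ℝ) / 2 ^ 24 := rfl
    rw [e3] at hc2
    push_cast at hc2 hi ⊢
    ring_nf at hc2 hi ⊢
    linarith

/-- one family of certificates, written at `F` -/
theorem Sol.jfam {N : ℕ} (S : Sol N) (hN : 2 ≤ N) (hsym : SymSum N) {w P q n1 s K : ℕ}
    {tb : List (List ℤ)} {mu : List ℤ} (htb : tabl s K K = tb) {cs : List Cert}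
    (hcs : cs.length = N / 2) (h : jok w P q n1 s K tb mu N 0 cs = true) :
      N * ((jB N 0 cs : ℤ) : ℝ) / 2 ^ 24 +
        ∑ k ∈ range K, ((jA N k 0 cs : ℤ) : ℝ) / 2 ^ 24 * S.Z (k + 1) +
        ∑ k ∈ range K, ((mu.getD k 0 : ℤ) : ℝ) / 2 ^ 24 * (S.F * (S.Z k - S.Z (k + 2))) ≤
        2 * S.F ^ 2 := by
  have h1 := S.jsum htb cs 0 h (by omega)
  rw [← S.identK hN, hsym S.SS (fun m h0 h1 => S.SS_symm h1.le)]
  have e1 : ∀ k, S.F * (S.Z k - S.Z (k + 2)) =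
      ∑ i ∈ range cs.length, (wt N (0 + i + 1) : ℝ) * S.MM (0 + i + 1) (k + 1) := by
    intro k
    rw [← S.sum_MM k, hsym (fun m => S.MM m (k + 1)) (fun m h0 h1 => S.MM_symm h1.le (k + 1)), hcs]
    simp only [zero_add]
  have e2 : ∑ i ∈ range cs.length, (wt N (0 + i + 1) : ℝ) * S.SS (0 + i + 1) =
      ∑ i ∈ range (N / 2), (wt N (i + 1) : ℝ) * S.SS (i + 1) := by
    rw [hcs]; simp only [zero_add]
  rw [e2] at h1
  simp only [e1]
  exact h1

/-- cancellation of the `Z (k+2)` at `F = N t / 2^16` -/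
def canc (N t : ℕ) (mu : List ℤ) (cs : List Cert) : ℕ → Bool
  | 0 => true
  | k + 1 => decide (jA N (k + 1) 0 cs * 65536 + (N : ℤ) * t * (mu.getD (k + 2) 0 - mu.getD k 0) = 0) &&
    canc N t mu cs k

theorem canc_spec {N t : ℕ} {mu : List ℤ} {cs : List Cert} {n : ℕ}
    (h : canc N t mu cs n = true) : ∀ k < n, jA N (k + 1) 0 cs * 65536 +
      (N : ℤ) * t * (mu.getD (k + 2) 0 - mu.getD k 0) = 0 := by
  induction n with
  | zero => intro k hk; omega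
  | succ n ih =>
    intro k hk
    rw [canc, Bool.and_eq_true, decide_eq_true_eq] at h
    rcases Nat.lt_or_ge k n with h1 | h1
    · exact ih h.2 k h1
    · rw [show k = n by omega]; exact h.1

theorem reorder (K : ℕ) (F : ℝ) (A mu Z : ℕ → ℝ) (h1 : mu K = 0) (h2 : mu (K + 1) = 0) :
    ∑ k ∈ range (K + 1), A k * Z (k + 1) + ∑ k ∈ range (K + 1), mu k * (F * (Z k - Z (k + 2))) =
    mu 0 * F * Z 0 + (A 0 + F * mu 1) * Z 1 +
      ∑ k ∈ range K, (A (k + 1) + F * (mu (k + 2) - mu k)) * Z (k + 2) := by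
  have a1 : ∑ k ∈ range (K + 1), A k * Z (k + 1) =
      ∑ k ∈ range K, A (k + 1) * Z (k + 2) + A 0 * Z 1 := by
    rw [Finset.sum_range_succ']
  have a2 : ∑ k ∈ range (K + 1), mu k * (F * (Z k - Z (k + 2))) =
      F * ∑ k ∈ range (K + 1), mu k * Z k - F * ∑ k ∈ range (K + 1), mu k * Z (k + 2) := by
    rw [← mul_sub, ← Finset.sum_sub_distrib, Finset.mul_sum]
    exact Finset.sum_congr rfl fun k _ => by ring
  have a3 : ∑ k ∈ range (K + 1), mu k * Z (k + 2) = ∑ k ∈ range K, mu k * Z (k + 2) := by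
    rw [Finset.sum_range_succ, h1, zero_mul, add_zero]
  have a4 : ∑ k ∈ range (K + 1), mu k * Z k =
      ∑ k ∈ range K, mu (k + 2) * Z (k + 2) + mu 1 * Z 1 + mu 0 * Z 0 := by
    have b1 : ∑ k ∈ range (K + 2), mu k * Z k = ∑ k ∈ range (K + 1), mu k * Z k := by
      rw [Finset.sum_range_succ _ (K + 1), h2, zero_mul, add_zero]
    rw [← b1, Finset.sum_range_succ', Finset.sum_range_succ']
  have a5 : ∑ k ∈ range K, (A (k + 1) + F * (mu (k + 2) - mu k)) * Z (k + 2) =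
      ∑ k ∈ range K, A (k + 1) * Z (k + 2) + F * ∑ k ∈ range K, mu (k + 2) * Z (k + 2) -
      F * ∑ k ∈ range K, mu k * Z (k + 2) := by
    rw [Finset.mul_sum, Finset.mul_sum, ← Finset.sum_add_distrib, ← Finset.sum_sub_distrib]
    exact Finset.sum_congr rfl fun k _ => by ring
  rw [a1, a2, a3, a4, a5]
  ring

theorem bern {b0 b1 b2 l : ℝ} (h0 : 0 < b0) (h2 : 0 < b2) (h1 : 0 ≤ b1 ∨ b1 ^ 2 < 4 * b0 * b2)
    (hl0 : 0 ≤ l) (hl1 : l ≤ 1) : 0 < b0 * (1 - l) ^ 2 + b1 * (l * (1 - l)) + b2 * l ^ 2 := by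
  rcases h1 with h1 | h1
  · have hll : 0 ≤ l * (1 - l) := mul_nonneg hl0 (by linarith)
    have h3 := mul_nonneg h1 hll
    rcases lt_or_ge l (1 / 2) with h | h
    · have h4 : 0 < b0 * (1 - l) ^ 2 := mul_pos h0 (by nlinarith)
      have h5 : 0 ≤ b2 * l ^ 2 := by positivity
      linarith
    · have h4 : 0 < b2 * l ^ 2 := mul_pos h2 (by nlinarith)
      have h5 : 0 ≤ b0 * (1 - l) ^ 2 := by positivity
      linarith
  · -- 4 b0 * expr = (2 b0 (1-l) + b1 l)^2 + (4 b0 b2 - b1^2) l^2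
    have key : 4 * b0 * (b0 * (1 - l) ^ 2 + b1 * (l * (1 - l)) + b2 * l ^ 2) =
        (2 * b0 * (1 - l) + b1 * l) ^ 2 + (4 * b0 * b2 - b1 ^ 2) * l ^ 2 := by ring
    have hpos : 0 < (2 * b0 * (1 - l) + b1 * l) ^ 2 + (4 * b0 * b2 - b1 ^ 2) * l ^ 2 := by
      rcases eq_or_lt_of_le hl0 with h | h
      · rw [← h]
        have e : (2 * b0 * (1 - 0) + b1 * 0) ^ 2 + (4 * b0 * b2 - b1 ^ 2) * 0 ^ 2 =
            4 * b0 ^ 2 := by ring
        rw [e]
        positivity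
      · have : 0 < (4 * b0 * b2 - b1 ^ 2) * l ^ 2 := mul_pos (by linarith) (by positivity)
        have := sq_nonneg (2 * b0 * (1 - l) + b1 * l)
        linarith
    rw [← key] at hpos
    exact (mul_pos_iff_of_pos_left (by positivity)).mp hpos

structure JSeg where
  (ta tb : ℕ)
  (mu : List ℤ)
  (ca cb : List Cert)

def jb0 (N t : ℕ) (cs : List Cert) (mu : List ℤ) : ℤ :=
  jB N 0 cs * 4294967296 + (jA N 0 0 cs + N * mu.getD 0 0) * t * 65536 +
    (mu.getD 1 0 - 33554432) * N * (t * t)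

def jb1 (N ta tb : ℕ) (ca cb : List Cert) (mu : List ℤ) : ℤ :=
  jB N 0 ca * 4294967296 + (jA N 0 0 ca + N * mu.getD 0 0) * tb * 65536 +
  (jB N 0 cb * 4294967296 + (jA N 0 0 cb + N * mu.getD 0 0) * ta * 65536) +
    2 * ((mu.getD 1 0 - 33554432) * N * (ta * tb))

def JSeg.ok (w P q n1 s K N : ℕ) (tbl : List (List ℤ)) (g : JSeg) : Bool :=
  Nat.blt g.ta g.tb && Nat.beq g.ca.length (N / 2) && Nat.beq g.cb.length (N / 2) &&
  decide (g.mu.getD K 0 = 0) && decide (g.mu.getD (K + 1) 0 = 0) &&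
  canc N g.ta g.mu g.ca K && canc N g.tb g.mu g.cb K &&
  decide (0 < jb0 N g.ta g.ca g.mu) && decide (0 < jb0 N g.tb g.cb g.mu) &&
  (decide (0 ≤ jb1 N g.ta g.tb g.ca g.cb g.mu) ||
    decide (jb1 N g.ta g.tb g.ca g.cb g.mu ^ 2 <
      4 * jb0 N g.ta g.ca g.mu * jb0 N g.tb g.cb g.mu)) &&
  jok w P q n1 s (K + 1) tbl g.mu N 0 g.ca && jok w P q n1 s (K + 1) tbl g.mu N 0 g.cb


/-- the family inequality with the cancelled terms written out -/
theorem Sol.jfam2 {N : ℕ} (S : Sol N) (hN : 2 ≤ N) (hsym : SymSum N) {w P q n1 s K : ℕ}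
    {tb : List (List ℤ)} {mu : List ℤ} (htb : tabl s (K + 1) (K + 1) = tb) {cs : List Cert}
    (hcs : cs.length = N / 2) (h : jok w P q n1 s (K + 1) tb mu N 0 cs = true)
    (hm1 : mu.getD K 0 = 0) (hm2 : mu.getD (K + 1) 0 = 0) {t : ℕ}
    (hc : canc N t mu cs K = true) :
    (N * ((jB N 0 cs : ℤ) : ℝ) + ((mu.getD 0 0 : ℤ) : ℝ) * S.F * N +
      (((jA N 0 0 cs : ℤ) : ℝ) + S.F * ((mu.getD 1 0 : ℤ) : ℝ)) * S.F) / 2 ^ 24 +
      (S.F - N * t / 2 ^ 16) * (∑ k ∈ range K, (((mu.getD (k + 2) 0 : ℤ) : ℝ) -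
        ((mu.getD k 0 : ℤ) : ℝ)) * S.Z (k + 2)) / 2 ^ 24 ≤ 2 * S.F ^ 2 := by
  have h1 := S.jfam hN hsym htb hcs h
  have h2 := reorder K S.F (fun k => ((jA N k 0 cs : ℤ) : ℝ) / 2 ^ 24)
    (fun k => ((mu.getD k 0 : ℤ) : ℝ) / 2 ^ 24) S.Z
    (by rw [hm1]; simp) (by rw [hm2]; simp)
  beta_reduce at h2
  rw [add_assoc, h2, S.Z_zero, S.Z_one] at h1
  have h3 := canc_spec hc
  have h4 : ∑ k ∈ range K, (((jA N (k + 1) 0 cs : ℤ) : ℝ) / 2 ^ 24 + S.F *
      (((mu.getD (k + 2) 0 : ℤ) : ℝ) / 2 ^ 24 - ((mu.getD k 0 : ℤ) : ℝ) / 2 ^ 24)) * S.Z (k + 2) =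
      (S.F - N * t / 2 ^ 16) * (∑ k ∈ range K, (((mu.getD (k + 2) 0 : ℤ) : ℝ) -
        ((mu.getD k 0 : ℤ) : ℝ)) * S.Z (k + 2)) / 2 ^ 24 := by
    rw [Finset.mul_sum, Finset.sum_div]
    refine Finset.sum_congr rfl fun k hk => ?_
    have h5 := h3 k (Finset.mem_range.mp hk)
    have h6 : ((jA N (k + 1) 0 cs * 65536 +
      (N : ℤ) * t * (mu.getD (k + 2) 0 - mu.getD k 0) : ℤ) : ℝ) = ((0 : ℤ) : ℝ) := by rw [h5]
    push_cast at h6
    have h7 : ((jA N (k + 1) 0 cs : ℤ) : ℝ) = - (N * t / 2 ^ 16) *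
        (((mu.getD (k + 2) 0 : ℤ) : ℝ) - ((mu.getD k 0 : ℤ) : ℝ)) := by
      generalize ((mu.getD (k + 2) 0 : ℤ) : ℝ) = x at h6 ⊢
      generalize ((mu.getD k 0 : ℤ) : ℝ) = y at h6 ⊢
      generalize ((jA N (k + 1) 0 cs : ℤ) : ℝ) = z at h6 ⊢
      have e : -((N : ℝ) * t / 2 ^ 16) * (x - y) = -(N * t * (x - y)) / 65536 := by ring
      rw [e, eq_div_iff (by norm_num)]
      linarith
    rw [h7]
    ring
  rw [h4] at h1
  refine le_trans (le_of_eq ?_) h1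
  ring

theorem Sol.jseg_ok {N : ℕ} (S : Sol N) (hN : 2 ≤ N) (hsym : SymSum N) {w P q n1 s K : ℕ}
    {tbl : List (List ℤ)} {g : JSeg} (htb : tabl s (K + 1) (K + 1) = tbl)
    (h : g.ok w P q n1 s K N tbl = true)
    (h1 : N * (g.ta : ℝ) ≤ S.F * 2 ^ 16) (h2 : S.F * 2 ^ 16 ≤ N * (g.tb : ℝ)) : False := by
  unfold JSeg.ok at h
  simp only [Bool.and_eq_true, Bool.or_eq_true, decide_eq_true_eq] at h
  obtain ⟨⟨⟨⟨⟨⟨⟨⟨⟨⟨⟨a1, a2⟩, a3⟩, a4⟩, a5⟩, a6⟩, a7⟩, a8⟩, a9⟩, a10⟩, a11⟩, a12⟩ := h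
  have hlt : g.ta < g.tb := Nat.le_of_ble_eq_true a1
  have hla : g.ca.length = N / 2 := Nat.eq_of_beq_eq_true a2
  have hlb : g.cb.length = N / 2 := Nat.eq_of_beq_eq_true a3
  have hN0 : (0 : ℝ) < N := by exact_mod_cast (by omega : 0 < N)
  have fa := S.jfam2 hN hsym htb hla a11 a4 a5 a6
  have fb := S.jfam2 hN hsym htb hlb a12 a4 a5 a7
  set D := (∑ k ∈ range K, (((g.mu.getD (k + 2) 0 : ℤ) : ℝ) -
        ((g.mu.getD k 0 : ℤ) : ℝ)) * S.Z (k + 2)) with hD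
  set Ba : ℝ := ((jB N 0 g.ca : ℤ) : ℝ) with hBa
  set Bb : ℝ := ((jB N 0 g.cb : ℤ) : ℝ) with hBb
  set Aa : ℝ := ((jA N 0 0 g.ca : ℤ) : ℝ) with hAa
  set Ab : ℝ := ((jA N 0 0 g.cb : ℤ) : ℝ) with hAb
  set m0 : ℝ := ((g.mu.getD 0 0 : ℤ) : ℝ) with hm0
  set m1 : ℝ := ((g.mu.getD 1 0 : ℤ) : ℝ) with hm1
  -- normalise
  set t : ℝ := S.F * 2 ^ 16 / N with ht
  have hF : S.F = N * t / 2 ^ 16 := by rw [ht]; field_simp
  have hlo : (g.ta : ℝ) ≤ t := by rw [ht, le_div_iff₀ hN0]; linarith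
  have hhi : t ≤ (g.tb : ℝ) := by rw [ht, div_le_iff₀ hN0]; linarith
  have hlt' : (g.ta : ℝ) < g.tb := by exact_mod_cast hlt
  rw [hF] at fa fb
  have pa : Ba * 2 ^ 32 + (Aa + N * m0) * t * 2 ^ 16 + (m1 - 2 * 2 ^ 24) * N * (t * t) +
      (t - g.ta) * (D * 2 ^ 16) ≤ 0 := by
    have := mul_le_mul_of_nonneg_right fa (show 0 ≤ (2:ℝ) ^ 56 / N by positivity)
    have e1 : ((N * Ba + m0 * (N * t / 2 ^ 16) * N + (Aa + N * t / 2 ^ 16 * m1) * (N * t / 2 ^ 16)) /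
        2 ^ 24 + (N * t / 2 ^ 16 - N * g.ta / 2 ^ 16) * D / 2 ^ 24) * (2 ^ 56 / N) =
        Ba * 2 ^ 32 + (Aa + N * m0) * t * 2 ^ 16 + m1 * N * (t * t) + (t - g.ta) * (D * 2 ^ 16) := by
      field_simp
      ring
    have e2 : 2 * (N * t / 2 ^ 16) ^ 2 * (2 ^ 56 / N) = 2 * 2 ^ 24 * N * (t * t) := by
      field_simp
    rw [e1, e2] at this
    linarith
  have pb : Bb * 2 ^ 32 + (Ab + N * m0) * t * 2 ^ 16 + (m1 - 2 * 2 ^ 24) * N * (t * t) +
      (t - g.tb) * (D * 2 ^ 16) ≤ 0 := by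
    have := mul_le_mul_of_nonneg_right fb (show 0 ≤ (2:ℝ) ^ 56 / N by positivity)
    have e1 : ((N * Bb + m0 * (N * t / 2 ^ 16) * N + (Ab + N * t / 2 ^ 16 * m1) * (N * t / 2 ^ 16)) /
        2 ^ 24 + (N * t / 2 ^ 16 - N * g.tb / 2 ^ 16) * D / 2 ^ 24) * (2 ^ 56 / N) =
        Bb * 2 ^ 32 + (Ab + N * m0) * t * 2 ^ 16 + m1 * N * (t * t) + (t - g.tb) * (D * 2 ^ 16) := by
      field_simp
      ring
    have e2 : 2 * (N * t / 2 ^ 16) ^ 2 * (2 ^ 56 / N) = 2 * 2 ^ 24 * N * (t * t) := by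
      field_simp
    rw [e1, e2] at this
    linarith
  set l := (t - g.ta) / ((g.tb : ℝ) - g.ta) with hl
  have h5 : 0 < (g.tb : ℝ) - g.ta := by linarith
  have hl0 : 0 ≤ l := div_nonneg (by linarith) h5.le
  have hl1 : l ≤ 1 := by rw [hl, div_le_one h5]; linarith
  have htl : t = (1 - l) * g.ta + l * g.tb := by
    rw [hl]; field_simp; ring
  -- the three Bernstein coefficients
  have c0 : 0 < ((jb0 N g.ta g.ca g.mu : ℤ) : ℝ) := by exact_mod_cast a8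
  have c2 : 0 < ((jb0 N g.tb g.cb g.mu : ℤ) : ℝ) := by exact_mod_cast a9
  have c1 : 0 ≤ ((jb1 N g.ta g.tb g.ca g.cb g.mu : ℤ) : ℝ) ∨
      ((jb1 N g.ta g.tb g.ca g.cb g.mu : ℤ) : ℝ) ^ 2 <
        4 * ((jb0 N g.ta g.ca g.mu : ℤ) : ℝ) * ((jb0 N g.tb g.cb g.mu : ℤ) : ℝ) := by
    rcases a10 with h | h
    · left; exact_mod_cast h
    · right; exact_mod_cast h
  have hb := bern c0 c2 c1 hl0 hl1
  unfold jb0 jb1 at hb
  push_cast at hb
  rw [← hBa, ← hBb, ← hAa, ← hAb, ← hm0, ← hm1] at hb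
  have hsum : (1 - l) * (Ba * 2 ^ 32 + (Aa + N * m0) * t * 2 ^ 16 + (m1 - 2 * 2 ^ 24) * N * (t * t) +
      (t - g.ta) * (D * 2 ^ 16)) + l * (Bb * 2 ^ 32 + (Ab + N * m0) * t * 2 ^ 16 +
      (m1 - 2 * 2 ^ 24) * N * (t * t) + (t - g.tb) * (D * 2 ^ 16)) ≤ 0 := by
    have u1 := mul_nonpos_of_nonneg_of_nonpos (sub_nonneg.mpr hl1) pa
    have u2 := mul_nonpos_of_nonneg_of_nonpos hl0 pb
    linarith
  rw [htl] at hsum
  have hid : (1 - l) * (Ba * 2 ^ 32 + (Aa + N * m0) * ((1 - l) * g.ta + l * g.tb) * 2 ^ 16 +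
      (m1 - 2 * 2 ^ 24) * N * (((1 - l) * g.ta + l * g.tb) * ((1 - l) * g.ta + l * g.tb)) +
      (((1 - l) * g.ta + l * g.tb) - g.ta) * (D * 2 ^ 16)) + l * (Bb * 2 ^ 32 +
      (Ab + N * m0) * ((1 - l) * g.ta + l * g.tb) * 2 ^ 16 +
      (m1 - 2 * 2 ^ 24) * N * (((1 - l) * g.ta + l * g.tb) * ((1 - l) * g.ta + l * g.tb)) +
      (((1 - l) * g.ta + l * g.tb) - g.tb) * (D * 2 ^ 16)) =
      (Ba * 4294967296 + (Aa + N * m0) * g.ta * 65536 + (m1 - 33554432) * N * (g.ta * g.ta)) *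
        (1 - l) ^ 2 +
      (Ba * 4294967296 + (Aa + N * m0) * g.tb * 65536 +
        (Bb * 4294967296 + (Ab + N * m0) * g.ta * 65536) +
        2 * ((m1 - 33554432) * N * (g.ta * g.tb))) * (l * (1 - l)) +
      (Bb * 4294967296 + (Ab + N * m0) * g.tb * 65536 + (m1 - 33554432) * N * (g.tb * g.tb)) *
        l ^ 2 := by ring
  rw [hid] at hsum
  linarith

/-- a chain of joint segments from `top` down to `bot` -/
def jsegsOK (w P q n1 s K N bot : ℕ) (tbl : List (List ℤ)) : ℕ → List JSeg → Bool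
  | top, [] => Nat.ble top bot
  | top, g :: gs => (Nat.ble top g.tb && g.ok w P q n1 s K N tbl) &&
    jsegsOK w P q n1 s K N bot tbl g.ta gs

theorem Sol.jsegs_ok {N : ℕ} (S : Sol N) (hN : 2 ≤ N) (hsym : SymSum N) {w P q n1 s K bot : ℕ}
    {tbl : List (List ℤ)} (htb : tabl s (K + 1) (K + 1) = tbl) :
    ∀ (gs : List JSeg) (top : ℕ),
    jsegsOK w P q n1 s K N bot tbl top gs = true → S.F * 2 ^ 16 ≤ N * (top : ℝ) →
    S.F * 2 ^ 16 ≤ N * (bot : ℝ) := by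
  intro gs
  induction gs with
  | nil =>
    intro top h h1
    have h2 : (top : ℝ) ≤ bot := by exact_mod_cast Nat.le_of_ble_eq_true h
    refine h1.trans ?_
    gcongr
  | cons g gs ih =>
    intro top h h1
    rw [jsegsOK, Bool.and_eq_true, Bool.and_eq_true] at h
    refine ih g.ta h.2 ?_
    by_contra hcon
    push Not at hcon
    have h2 : (top : ℝ) ≤ g.tb := by exact_mod_cast Nat.le_of_ble_eq_true h.1.1
    refine S.jseg_ok hN hsym htb h.1.2 hcon.le (h1.trans ?_)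
    gcongr


theorem symSum9 : SymSum 9 := by
  intro f hf
  have h1 := hf 1 (by norm_num) (by norm_num)
  have h2 := hf 2 (by norm_num) (by norm_num)
  have h3 := hf 3 (by norm_num) (by norm_num)
  have h4 := hf 4 (by norm_num) (by norm_num)
  norm_num at h1 h2 h3 h4
  norm_num [Finset.sum_range_succ, wt]
  linarith

theorem symSum10 : SymSum 10 := by
  intro f hf
  have h1 := hf 1 (by norm_num) (by norm_num)
  have h2 := hf 2 (by norm_num) (by norm_num)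
  have h3 := hf 3 (by norm_num) (by norm_num)
  have h4 := hf 4 (by norm_num) (by norm_num)
  norm_num at h1 h2 h3 h4
  norm_num [Finset.sum_range_succ, wt]
  linarith

theorem symSum11 : SymSum 11 := by
  intro f hf
  have h1 := hf 1 (by norm_num) (by norm_num)
  have h2 := hf 2 (by norm_num) (by norm_num)
  have h3 := hf 3 (by norm_num) (by norm_num)
  have h4 := hf 4 (by norm_num) (by norm_num)
  have h5 := hf 5 (by norm_num) (by norm_num)
  norm_num at h1 h2 h3 h4 h5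
  norm_num [Finset.sum_range_succ, wt]
  linarith

theorem symSum12 : SymSum 12 := by
  intro f hf
  have h1 := hf 1 (by norm_num) (by norm_num)
  have h2 := hf 2 (by norm_num) (by norm_num)
  have h3 := hf 3 (by norm_num) (by norm_num)
  have h4 := hf 4 (by norm_num) (by norm_num)
  have h5 := hf 5 (by norm_num) (by norm_num)
  norm_num at h1 h2 h3 h4 h5
  norm_num [Finset.sum_range_succ, wt]
  linarith

end Pool.Agent.Lib_helper90d
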