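import Pool.Agent.Lib_helper90d.E22

/-!
Joint segments whose certificates are checked in several theorems.
-/

set_option autoImplicit false

open Finset

namespace Pool.Agent.Lib_helper90d

theorem jok_app {w P q n1 s K : ℕ} {tb : List (List ℤ)} {mu : List ℤ} {N : ℕ} {l2 : List Cert} :
    ∀ {l1 : List Cert} {m m' : ℕ}, jok w P q n1 s K tb mu N m l1 = true →
    m + l1.length = m' → jok w P q n1 s K tb mu N m' l2 = true →
    jok w P q n1 s K tb mu N m (l1 ++ l2) = true := by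
  intro l1
  induction l1 with
  | nil => intro m m' _ hm h2; subst hm; exact h2
  | cons c cs ih =>
    intro m m' h1 hm h2
    rw [jok, Bool.and_eq_true] at h1
    rw [List.cons_append, jok, Bool.and_eq_true]
    exact ⟨h1.1, ih h1.2 (by rw [← hm, List.length_cons]; omega) h2⟩

/-- the cheap part of `JSeg.ok` -/
def JSeg.rest (K N : ℕ) (g : JSeg) : Bool :=
  Nat.blt g.ta g.tb && Nat.beq g.ca.length (N / 2) && Nat.beq g.cb.length (N / 2) &&
  decide (g.mu.getD K 0 = 0) && decide (g.mu.getD (K + 1) 0 = 0) &&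
  canc N g.ta g.mu g.ca K && canc N g.tb g.mu g.cb K &&
  decide (0 < jb0 N g.ta g.ca g.mu) && decide (0 < jb0 N g.tb g.cb g.mu) &&
  (decide (0 ≤ jb1 N g.ta g.tb g.ca g.cb g.mu) ||
    decide (jb1 N g.ta g.tb g.ca g.cb g.mu ^ 2 <
      4 * jb0 N g.ta g.ca g.mu * jb0 N g.tb g.cb g.mu))

theorem JSeg.ok_of {w P q n1 s K N : ℕ} {tbl : List (List ℤ)} {g : JSeg}
    (h : g.rest K N = true) (ha : jok w P q n1 s (K + 1) tbl g.mu N 0 g.ca = true)
    (hb : jok w P q n1 s (K + 1) tbl g.mu N 0 g.cb = true) : g.ok w P q n1 s K N tbl = true := by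
  unfold JSeg.ok
  unfold JSeg.rest at h
  rw [Bool.and_eq_true, Bool.and_eq_true]
  exact ⟨⟨h, ha⟩, hb⟩

theorem Sol.jstep {N : ℕ} (S : Sol N) (hN : 2 ≤ N) (hsym : SymSum N) {w P q n1 s K : ℕ}
    {tbl : List (List ℤ)} (htb : tabl s (K + 1) (K + 1) = tbl) {g : JSeg} {top : ℕ}
    (hok : g.ok w P q n1 s K N tbl = true) (ht : Nat.ble top g.tb = true)
    (h1 : S.F * 2 ^ 16 ≤ N * (top : ℝ)) : S.F * 2 ^ 16 ≤ N * (g.ta : ℝ) := by
  by_contra hcon
  push Not at hcon
  have h2 : (top : ℝ) ≤ g.tb := by exact_mod_cast Nat.le_of_ble_eq_true ht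
  refine S.jseg_ok hN hsym htb hok hcon.le (h1.trans ?_)
  gcongr

end Pool.Agent.Lib_helper90d
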