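import Pool.Agent.Lib_helper90d.E2

set_option autoImplicit false

namespace Pool.Agent.Lib_helper90d

theorem abs_cos_le (x : ℝ) : |Real.cos x| ≤ 1 := Real.abs_cos_le_one x

theorem LI_R0 : LI R0 8 27 := by
  refine LI.of_deriv2 (f' := fun y => -2 * Real.sin (2 * y) + 3 * Real.sin (4 * y)
      + 4 * (y * Real.cos (2 * y)) - 4 * (y * Real.cos (4 * y)) - Real.cos (1 * y)
      + y * Real.sin (1 * y))
    (f'' := fun y => 8 * Real.cos (4 * y) - 8 * (y * Real.sin (2 * y)) +
      16 * (y * Real.sin (4 * y)) + 2 * Real.sin (1 * y) + y * Real.cos (1 * y)) ?_ ?_ (by norm_num) ?_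
  · intro y
    have h := ((((((hd_cos 2 y).const_mul 2).const_add (-1)).sub (hd_cos 4 y)).add
      ((hd_mul_sin 2 y).const_mul 2)).sub (hd_mul_sin 4 y)).sub (hd_mul_cos 1 y)
    have e : R0 = fun y => -1 + 2 * Real.cos (2 * y) - Real.cos (4 * y) +
        2 * (y * Real.sin (2 * y)) - y * Real.sin (4 * y) - y * Real.cos (1 * y) := by
      funext y; simp only [R0, one_mul]
    rw [e]
    exact h.congr_deriv (by ring)
  · intro y
    have h := ((((((hd_sin 2 y).const_mul (-2)).add ((hd_sin 4 y).const_mul 3)).add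
      ((hd_mul_cos 2 y).const_mul 4)).sub ((hd_mul_cos 4 y).const_mul 4)).sub (hd_cos 1 y)).add
      (hd_mul_sin 1 y)
    exact h.congr_deriv (by ring)
  · intro y hy
    have h1 := abs_cos_le (4 * y)
    have h2 := abs_sin_mul_le (show (0:ℝ) ≤ 1 by norm_num) hy
    have h3 : |y * Real.sin (2 * y)| ≤ y := by
      rw [abs_mul, abs_of_nonneg hy]
      exact mul_le_of_le_one_right hy (Real.abs_sin_le_one _)
    have h4 : |y * Real.sin (4 * y)| ≤ y := by
      rw [abs_mul, abs_of_nonneg hy]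
      exact mul_le_of_le_one_right hy (Real.abs_sin_le_one _)
    have h5 : |y * Real.cos (1 * y)| ≤ y := by
      rw [abs_mul, abs_of_nonneg hy]
      exact mul_le_of_le_one_right hy (Real.abs_cos_le_one _)
    rw [abs_le] at *
    constructor <;> linarith [h1.1, h1.2, h2.1, h2.2, h3.1, h3.2, h4.1, h4.2, h5.1, h5.2]

theorem LI_R1 : LI R1 1 80 := by
  refine LI.of_deriv2 (f' := fun y => - Real.sin (1 * y) - 4 * Real.cos (2 * y)
      + 4 * Real.cos (4 * y))
    (f'' := fun y => - Real.cos (1 * y) + 8 * Real.sin (2 * y) - 16 * Real.sin (4 * y))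
      ?_ ?_ (by norm_num) ?_
  · intro y
    have h := ((hd_cos 1 y).sub ((hd_sin 2 y).const_mul 2)).add (hd_sin 4 y)
    have e : R1 = fun y => Real.cos (1 * y) - 2 * Real.sin (2 * y) + Real.sin (4 * y) := by
      funext y; simp only [R1, one_mul]
    rw [e]
    exact h.congr_deriv (by ring)
  · intro y
    have h := (((hd_sin 1 y).neg).sub ((hd_cos 2 y).const_mul 4)).add ((hd_cos 4 y).const_mul 4)
    exact h.congr_deriv (by ring)
  · intro y hy
    have h1 := abs_cos_le (1 * y)
    have h2 := abs_sin_mul_le (show (0:ℝ) ≤ 2 by norm_num) hy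
    have h3 := abs_sin_mul_le (show (0:ℝ) ≤ 4 by norm_num) hy
    rw [abs_le] at *
    constructor <;> linarith [h1.1, h1.2, h2.1, h2.2, h3.1, h3.2]

theorem LI_R2 : LI R2 4 0 := by
  refine LI.of_deriv2 (f' := fun y => 2 * Real.sin (2 * y))
    (f'' := fun y => 4 * Real.cos (2 * y)) ?_ ?_ le_rfl ?_
  · intro y
    have h := (hd_cos 2 y).const_sub 1
    exact h.congr_deriv (by ring)
  · intro y
    have h := (hd_sin 2 y).const_mul 2
    exact h.congr_deriv (by ring)
  · intro y hy
    have h1 := abs_cos_le (2 * y)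
    rw [abs_le] at *
    constructor <;> linarith [h1.1, h1.2]

theorem LI_R3 : LI R3 0 12 := by
  refine LI.of_deriv2 (f' := fun y => 1 - Real.cos (2 * y) + 2 * (y * Real.sin (2 * y)))
    (f'' := fun y => 4 * Real.sin (2 * y) + 4 * (y * Real.cos (2 * y))) ?_ ?_ (by norm_num) ?_
  · intro y
    have h := (hasDerivAt_id y).sub (hd_mul_cos 2 y)
    have e : R3 = fun y => id y - y * Real.cos (2 * y) := by
      funext y; simp only [R3, id]; ring
    rw [e]
    exact h.congr_deriv (by ring)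
  · intro y
    have h := ((hd_cos 2 y).const_sub 1).add ((hd_mul_sin 2 y).const_mul 2)
    exact h.congr_deriv (by ring)
  · intro y hy
    have h2 := abs_sin_mul_le (show (0:ℝ) ≤ 2 by norm_num) hy
    have h5 : |y * Real.cos (2 * y)| ≤ y := by
      rw [abs_mul, abs_of_nonneg hy]
      exact mul_le_of_le_one_right hy (Real.abs_cos_le_one _)
    rw [abs_le] at *
    constructor <;> linarith [h2.1, h2.2, h5.1, h5.2]

theorem R2_nonneg (y : ℝ) : 0 ≤ R2 y := by
  have := Real.cos_le_one (2 * y)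
  unfold R2; linarith

theorem R2_le_two (y : ℝ) : R2 y ≤ 2 := by
  have := Real.neg_one_le_cos (2 * y)
  unfold R2; linarith

theorem R2_le {y : ℝ} (hy : 0 ≤ y) : R2 y ≤ 2 * y := by
  have h1 : R2 y = 2 * Real.sin y ^ 2 := by
    unfold R2; rw [Real.cos_two_mul, Real.cos_sq']; ring
  have h2 : |Real.sin y| ≤ y := by
    have := Real.abs_sin_le_abs (x := y)
    rwa [abs_of_nonneg hy] at this
  have h3 : |Real.sin y| ≤ 1 := Real.abs_sin_le_one _
  have h4 : Real.sin y ^ 2 = |Real.sin y| * |Real.sin y| := by rw [← sq, sq_abs]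
  rw [h1, h4]
  have := mul_le_mul h3 h2 (abs_nonneg _) zero_le_one
  linarith

theorem LI_Ak (k : ℕ) : LI (Ak k) 4 (8 * k + 2 * k ^ 2) := by
  refine LI.of_deriv2 (f' := fun y => 2 * Real.sin (2 * y) * Real.cos (k * y) +
      (1 - Real.cos (2 * y)) * (-k * Real.sin (k * y)))
    (f'' := fun y => 4 * (Real.cos (2 * y) * Real.cos (k * y)) -
      4 * (k * (Real.sin (2 * y) * Real.sin (k * y))) -
      (k ^ 2 * ((1 - Real.cos (2 * y)) * Real.cos (k * y)))) ?_ ?_ (by positivity) ?_
  · intro y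
    have h := ((hd_cos 2 y).const_sub 1).mul (hd_cos k y)
    exact h.congr_deriv (by ring)
  · intro y
    have h := (((hd_sin 2 y).const_mul 2).mul (hd_cos k y)).add
      (((hd_cos 2 y).const_sub 1).mul ((hd_sin k y).const_mul (-(k : ℝ))))
    exact h.congr_deriv (by ring)
  · intro y hy
    have hk : (0 : ℝ) ≤ k := Nat.cast_nonneg k
    have h1 : |Real.cos (2 * y) * Real.cos (k * y)| ≤ 1 := by
      rw [abs_mul]
      exact mul_le_one₀ (abs_cos_le _) (abs_nonneg _) (abs_cos_le _)
    have h2 : |k * (Real.sin (2 * y) * Real.sin (k * y))| ≤ k * (2 * y) := by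
      rw [abs_mul, abs_mul, abs_of_nonneg hk]
      apply mul_le_mul_of_nonneg_left _ hk
      calc |Real.sin (2 * y)| * |Real.sin (k * y)| ≤ 2 * y * 1 :=
            mul_le_mul (abs_sin_mul_le (by norm_num) hy) (Real.abs_sin_le_one _) (abs_nonneg _)
              (by linarith)
        _ = 2 * y := by ring
    have h3 : |(k : ℝ) ^ 2 * ((1 - Real.cos (2 * y)) * Real.cos (k * y))| ≤ k ^ 2 * (2 * y) := by
      rw [abs_mul, abs_mul, abs_of_nonneg (by positivity : (0:ℝ) ≤ (k:ℝ) ^ 2)]
      apply mul_le_mul_of_nonneg_left _ (by positivity)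
      have hR := R2_le hy
      have hR0 := R2_nonneg y
      unfold R2 at hR hR0
      rw [abs_of_nonneg hR0]
      calc (1 - Real.cos (2 * y)) * |Real.cos (k * y)| ≤ 2 * y * 1 :=
            mul_le_mul hR (abs_cos_le _) (abs_nonneg _) (by linarith)
        _ = 2 * y := by ring
    rw [abs_le] at *
    constructor <;> nlinarith [h1.1, h1.2, h2.1, h2.2, h3.1, h3.2]

theorem LI_Bk (k : ℕ) : LI (Bk k) 0 (12 * k + 2 * k ^ 2) := by
  refine LI.of_deriv2 (f' := fun y => 2 * Real.sin (2 * y) * Real.sin (k * y) +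
      (1 - Real.cos (2 * y)) * (k * Real.cos (k * y)))
    (f'' := fun y => 4 * (Real.cos (2 * y) * Real.sin (k * y)) +
      4 * (k * (Real.sin (2 * y) * Real.cos (k * y))) -
      (k ^ 2 * ((1 - Real.cos (2 * y)) * Real.sin (k * y)))) ?_ ?_ (by positivity) ?_
  · intro y
    have h := ((hd_cos 2 y).const_sub 1).mul (hd_sin k y)
    exact h.congr_deriv (by ring)
  · intro y
    have h := (((hd_sin 2 y).const_mul 2).mul (hd_sin k y)).add
      (((hd_cos 2 y).const_sub 1).mul ((hd_cos k y).const_mul (k : ℝ)))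
    exact h.congr_deriv (by ring)
  · intro y hy
    have hk : (0 : ℝ) ≤ k := Nat.cast_nonneg k
    have h1 : |Real.cos (2 * y) * Real.sin (k * y)| ≤ k * y := by
      rw [abs_mul]
      calc |Real.cos (2 * y)| * |Real.sin (k * y)| ≤ 1 * (k * y) :=
            mul_le_mul (abs_cos_le _) (abs_sin_mul_le hk hy) (abs_nonneg _) (by norm_num)
        _ = _ := by ring
    have h2 : |k * (Real.sin (2 * y) * Real.cos (k * y))| ≤ k * (2 * y) := by
      rw [abs_mul, abs_mul, abs_of_nonneg hk]
      apply mul_le_mul_of_nonneg_left _ hk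
      calc |Real.sin (2 * y)| * |Real.cos (k * y)| ≤ 2 * y * 1 :=
            mul_le_mul (abs_sin_mul_le (by norm_num) hy) (abs_cos_le _) (abs_nonneg _)
              (by linarith)
        _ = 2 * y := by ring
    have h3 : |(k : ℝ) ^ 2 * ((1 - Real.cos (2 * y)) * Real.sin (k * y))| ≤ k ^ 2 * (2 * y) := by
      rw [abs_mul, abs_mul, abs_of_nonneg (by positivity : (0:ℝ) ≤ (k:ℝ) ^ 2)]
      apply mul_le_mul_of_nonneg_left _ (by positivity)
      have hR := R2_le hy
      have hR0 := R2_nonneg y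
      unfold R2 at hR hR0
      rw [abs_of_nonneg hR0]
      calc (1 - Real.cos (2 * y)) * |Real.sin (k * y)| ≤ 2 * y * 1 :=
            mul_le_mul hR (Real.abs_sin_le_one _) (abs_nonneg _) (by linarith)
        _ = 2 * y := by ring
    rw [abs_le] at *
    constructor <;> nlinarith [h1.1, h1.2, h2.1, h2.2, h3.1, h3.2]

theorem LI_Mk (k : ℕ) : LI (Mk k) 0 (3 * k + k ^ 3) := by
  refine LI.of_deriv2 (f' := fun y => - Real.sin (1 * y) * Real.sin (k * y) +
      Real.cos (1 * y) * (k * Real.cos (k * y)))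
    (f'' := fun y => - (Real.cos (1 * y) * Real.sin (k * y)) -
      2 * (k * (Real.sin (1 * y) * Real.cos (k * y))) -
      k ^ 2 * (Real.cos (1 * y) * Real.sin (k * y))) ?_ ?_ (by positivity) ?_
  · intro y
    have h := (hd_cos 1 y).mul (hd_sin k y)
    have e : Mk k = fun y => Real.cos (1 * y) * Real.sin (k * y) := by
      funext y; simp only [Mk, one_mul]
    rw [e]
    exact h.congr_deriv (by ring)
  · intro y
    have h := (((hd_sin 1 y).neg).mul (hd_sin k y)).add
      ((hd_cos 1 y).mul ((hd_cos k y).const_mul (k : ℝ)))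
    exact h.congr_deriv (by simp only [Pi.neg_apply]; ring)
  · intro y hy
    have hk : (0 : ℝ) ≤ k := Nat.cast_nonneg k
    have h1 : |Real.cos (1 * y) * Real.sin (k * y)| ≤ k * y := by
      rw [abs_mul]
      calc |Real.cos (1 * y)| * |Real.sin (k * y)| ≤ 1 * (k * y) :=
            mul_le_mul (abs_cos_le _) (abs_sin_mul_le hk hy) (abs_nonneg _) (by norm_num)
        _ = _ := by ring
    have h2 : |k * (Real.sin (1 * y) * Real.cos (k * y))| ≤ k * (1 * y) := by
      rw [abs_mul, abs_mul, abs_of_nonneg hk]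
      apply mul_le_mul_of_nonneg_left _ hk
      calc |Real.sin (1 * y)| * |Real.cos (k * y)| ≤ 1 * y * 1 :=
            mul_le_mul (abs_sin_mul_le (by norm_num) hy) (abs_cos_le _) (abs_nonneg _)
              (by linarith)
        _ = 1 * y := by ring
    have h3 : |(k : ℝ) ^ 2 * (Real.cos (1 * y) * Real.sin (k * y))| ≤ k ^ 2 * (k * y) := by
      rw [abs_mul, abs_of_nonneg (by positivity : (0:ℝ) ≤ (k:ℝ) ^ 2)]
      exact mul_le_mul_of_nonneg_left h1 (by positivity)
    rw [abs_le] at *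
    constructor <;> nlinarith [h1.1, h1.2, h2.1, h2.2, h3.1, h3.2]

theorem Ak_abs_le (k : ℕ) (y : ℝ) : |Ak k y| ≤ R2 y := by
  unfold Ak
  have h0 := R2_nonneg y
  rw [abs_mul, show (1 - Real.cos (2 * y)) = R2 y from rfl, abs_of_nonneg h0]
  exact mul_le_of_le_one_right h0 (abs_cos_le _)

theorem Bk_abs_le (k : ℕ) (y : ℝ) : |Bk k y| ≤ R2 y := by
  unfold Bk
  have h0 := R2_nonneg y
  rw [abs_mul, show (1 - Real.cos (2 * y)) = R2 y from rfl, abs_of_nonneg h0]
  exact mul_le_of_le_one_right h0 (Real.abs_sin_le_one _)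

theorem Mk_abs_le (k : ℕ) {y : ℝ} (hy : 0 ≤ y) : |Mk k y| ≤ k * y := by
  unfold Mk
  rw [abs_mul]
  calc |Real.cos y| * |Real.sin (k * y)| ≤ 1 * (k * y) :=
        mul_le_mul (abs_cos_le _) (abs_sin_mul_le (Nat.cast_nonneg k) hy) (abs_nonneg _)
          (by norm_num)
    _ = _ := by ring

end Pool.Agent.Lib_helper90d
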