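import Pool.Agent.Lib_helper90d.E2b

set_option autoImplicit false

open Finset

namespace Pool.Agent.Lib_helper90d

/-- the function checked on the grid -/
noncomputable def Pf (a X1 X2 : ℝ) (K : ℕ) (al b mu : ℕ → ℝ) (y c : ℝ) : ℝ :=
  R0 y + a * R1 y - X1 * R2 y + X2 * R3 y -
    ∑ k ∈ range K, Tc (k + 1) c * (al k * Ak (k + 1) y + b k * Bk (k + 1) y + mu k * Mk (k + 1) y)

noncomputable def UU0 (a X1 : ℝ) (K : ℕ) (al : ℕ → ℝ) : ℝ :=
  8 + |a| + 4 * |X1| + ∑ k ∈ range K, 4 * |al k|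

noncomputable def UU1 (a X2 : ℝ) (K : ℕ) (al b mu : ℕ → ℝ) : ℝ :=
  27 + 80 * |a| + 12 * |X2| + ∑ k ∈ range K,
    ((8 * ((k + 1 : ℕ) : ℝ) + 2 * ((k + 1 : ℕ) : ℝ) ^ 2) * |al k| +
     (12 * ((k + 1 : ℕ) : ℝ) + 2 * ((k + 1 : ℕ) : ℝ) ^ 2) * |b k| +
     (3 * ((k + 1 : ℕ) : ℝ) + ((k + 1 : ℕ) : ℝ) ^ 3) * |mu k|)

noncomputable def TT2 (K : ℕ) (al b : ℕ → ℝ) : ℝ := ∑ k ∈ range K, Dk (k + 1) * (|al k| + |b k|)

noncomputable def TT1 (K : ℕ) (mu : ℕ → ℝ) : ℝ :=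
  ∑ k ∈ range K, Dk (k + 1) * (((k + 1 : ℕ) : ℝ) * |mu k|)

theorem Dk_nonneg (k : ℕ) : 0 ≤ Dk k := by
  unfold Dk
  rcases Nat.eq_zero_or_pos k with h | h
  · subst h; simp
  · have : (1 : ℝ) ≤ k := by exact_mod_cast h
    have h2 : (1 : ℝ) ≤ (k : ℝ) ^ 2 := by nlinarith
    apply div_nonneg _ (by norm_num)
    apply mul_nonneg (by positivity); linarith

theorem LI.sum {ι : Type} (s : Finset ι) (f : ι → ℝ → ℝ) (u0 u1 : ι → ℝ)
    (h : ∀ i ∈ s, LI (f i) (u0 i) (u1 i)) :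
    LI (fun x => ∑ i ∈ s, f i x) (∑ i ∈ s, u0 i) (∑ i ∈ s, u1 i) := by
  classical
  induction s using Finset.induction_on with
  | empty =>
    simp only [Finset.sum_empty]
    intro u v x _ _ _ _
    simp
  | insert i s hi ih =>
    simp only [Finset.sum_insert hi]
    exact (h i (Finset.mem_insert_self i s)).add
      (ih fun j hj => h j (Finset.mem_insert_of_mem hj))

theorem LI_Pf (a X1 X2 : ℝ) (K : ℕ) (al b mu : ℕ → ℝ) {c : ℝ} (h1 : -1 ≤ c) (h2 : c ≤ 1) :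
    LI (fun y => Pf a X1 X2 K al b mu y c) (UU0 a X1 K al) (UU1 a X2 K al b mu) := by
  have hA := ((LI_R0.add (LI_R1.smul a)).add (LI_R2.smul (-X1))).add (LI_R3.smul X2)
  have hS := LI.sum (range K) (fun k y => (- Tc (k + 1) c) *
      (al k * Ak (k + 1) y + b k * Bk (k + 1) y + mu k * Mk (k + 1) y))
      (fun k => |-Tc (k + 1) c| * ((|al k| * 4 + |b k| * 0) + |mu k| * 0))
      (fun k => |-Tc (k + 1) c| * ((|al k| * (8 * ((k + 1 : ℕ) : ℝ) + 2 * ((k + 1 : ℕ) : ℝ) ^ 2) +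
        |b k| * (12 * ((k + 1 : ℕ) : ℝ) + 2 * ((k + 1 : ℕ) : ℝ) ^ 2)) +
        |mu k| * (3 * ((k + 1 : ℕ) : ℝ) + ((k + 1 : ℕ) : ℝ) ^ 3)))
      (fun k _ => ((((LI_Ak (k + 1)).smul (al k)).add ((LI_Bk (k + 1)).smul (b k))).add
        ((LI_Mk (k + 1)).smul (mu k))).smul _)
  have h := hA.add hS
  have e : (fun y => Pf a X1 X2 K al b mu y c) = fun x => R0 x + a * R1 x + -X1 * R2 x + X2 * R3 x +
      ∑ k ∈ range K, (- Tc (k + 1) c) *
      (al k * Ak (k + 1) x + b k * Bk (k + 1) x + mu k * Mk (k + 1) x) := by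
    funext y
    unfold Pf
    simp only [neg_mul, Finset.sum_neg_distrib]
    ring
  rw [e]
  have hT : ∀ k, |-Tc (k + 1) c| ≤ 1 := fun k => by rw [abs_neg]; exact Tc_abs_le _ h1 h2
  refine h.mono ?_ ?_
  · unfold UU0
    have : ∑ k ∈ range K, |-Tc (k + 1) c| * ((|al k| * 4 + |b k| * 0) + |mu k| * 0) ≤
        ∑ k ∈ range K, 4 * |al k| := by
      refine Finset.sum_le_sum fun k _ => ?_
      have h0 : 0 ≤ |al k| := abs_nonneg _
      nlinarith [mul_le_mul_of_nonneg_right (hT k) h0]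
    rw [abs_neg]
    linarith
  · unfold UU1
    have : ∑ k ∈ range K, |-Tc (k + 1) c| * ((|al k| * (8 * ((k + 1 : ℕ) : ℝ) + 2 * ((k + 1 : ℕ) : ℝ) ^ 2) +
        |b k| * (12 * ((k + 1 : ℕ) : ℝ) + 2 * ((k + 1 : ℕ) : ℝ) ^ 2)) +
        |mu k| * (3 * ((k + 1 : ℕ) : ℝ) + ((k + 1 : ℕ) : ℝ) ^ 3)) ≤
        ∑ k ∈ range K, ((8 * ((k + 1 : ℕ) : ℝ) + 2 * ((k + 1 : ℕ) : ℝ) ^ 2) * |al k| +
     (12 * ((k + 1 : ℕ) : ℝ) + 2 * ((k + 1 : ℕ) : ℝ) ^ 2) * |b k| +
     (3 * ((k + 1 : ℕ) : ℝ) + ((k + 1 : ℕ) : ℝ) ^ 3) * |mu k|) := by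
      refine Finset.sum_le_sum fun k _ => ?_
      refine (mul_le_mul_of_nonneg_right (hT k) (by positivity)).trans (le_of_eq (by ring))
    rw [abs_neg]
    linarith

/-- find a cell -/
theorem exists_cell {J : ℕ} (hJ : 0 < J) {x : ℝ} (h0 : 0 ≤ x) (h1 : x ≤ J) :
    ∃ j < J, (j : ℝ) ≤ x ∧ x ≤ (j : ℝ) + 1 := by
  rcases lt_or_eq_of_le h1 with h | h
  · refine ⟨⌊x⌋₊, ?_, Nat.floor_le h0, (Nat.lt_floor_add_one x).le⟩
    exact (Nat.floor_lt h0).mpr h
  · refine ⟨J - 1, by omega, ?_, ?_⟩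
    · rw [h, Nat.cast_sub (by omega)]; simp
    · rw [h, Nat.cast_sub (by omega)]; simp

theorem grid_pos {a X1 X2 : ℝ} {K : ℕ} (hK : K ≤ 6) {al b mu : ℕ → ℝ} {h D : ℝ} (hh : 0 < h)
    {n J : ℕ} (hn : Real.pi ≤ n * h) (hJ : (J : ℝ) * D = 2)
    (hgrid : ∀ i ≤ n, ∀ j ≤ J,
      h ^ 2 / 8 * (UU0 a X1 K al + UU1 a X2 K al b mu * h) +
      (h ^ 2 / 8 * UU1 a X2 K al b mu + D ^ 2 / 8 * TT1 K mu) * (i * h) +
      D ^ 2 / 8 * TT2 K al b * R2 (i * h) ≤ Pf a X1 X2 K al b mu (i * h) (-1 + j * D))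
    {y c : ℝ} (hy0 : 0 ≤ y) (hy1 : y ≤ Real.pi) (hc0 : -1 ≤ c) (hc1 : c ≤ 1) :
    0 ≤ Pf a X1 X2 K al b mu y c := by
  have hJ0 : 0 < J := by
    rcases Nat.eq_zero_or_pos J with h0 | h0
    · rw [h0] at hJ; simp at hJ
    · exact h0
  have hJ' : (0 : ℝ) < J := by exact_mod_cast hJ0
  have hD : 0 < D := by
    by_contra hcon
    have : (J : ℝ) * D ≤ 0 := mul_nonpos_of_nonneg_of_nonpos hJ'.le (not_lt.mp hcon)
    linarith
  have hn0 : 0 < n := by
    rcases Nat.eq_zero_or_pos n with h0 | h0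
    · rw [h0] at hn; simp at hn; linarith [Real.pi_pos]
    · exact h0
  have hU1 : 0 ≤ UU1 a X2 K al b mu := by unfold UU1; positivity
  -- the `c` direction
  have hcdir : ∀ i ≤ n, h ^ 2 / 8 * (UU0 a X1 K al + UU1 a X2 K al b mu * h) +
      h ^ 2 / 8 * UU1 a X2 K al b mu * (i * h) ≤ Pf a X1 X2 K al b mu (i * h) c := by
    intro i hi
    obtain ⟨j, hj, hj1, hj2⟩ := exists_cell hJ0 (x := (c + 1) / D)
      (by apply div_nonneg <;> linarith)
      (by rw [div_le_iff₀ hD]; linarith)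
    rw [le_div_iff₀ hD] at hj1
    rw [div_le_iff₀ hD] at hj2
    set u : ℝ := -1 + j * D with hu
    set v : ℝ := -1 + ((j + 1 : ℕ) : ℝ) * D with hv
    have hvu : v - u = D := by rw [hu, hv]; push_cast; ring
    have huv : u < v := by linarith
    have hyi : (0 : ℝ) ≤ i * h := by positivity
    have hv1 : v ≤ 1 := by
      have : ((j + 1 : ℕ) : ℝ) ≤ J := by exact_mod_cast hj
      have := mul_le_mul_of_nonneg_right this hD.le
      rw [hv]; linarith
    have hu1 : -1 ≤ u := by rw [hu]; have : (0:ℝ) ≤ j * D := by positivity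
                            linarith
    have hcu : u ≤ c := by rw [hu]; linarith
    have hcv : c ≤ v := by rw [hv]; push_cast; linarith
    have hT : ∀ k < K, |Tc (k + 1) c - ((v - c) / (v - u) * Tc (k + 1) u +
        (c - u) / (v - u) * Tc (k + 1) v)| ≤ Dk (k + 1) * D ^ 2 / 8 := by
      intro k hk
      have := Tc_interp (k := k + 1) (by omega) hu1 huv hv1 hcu hcv
      rw [hvu] at this ⊢
      exact this
    have hint : |Pf a X1 X2 K al b mu (i * h) c - ((v - c) / (v - u) * Pf a X1 X2 K al b mu (i * h) u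
        + (c - u) / (v - u) * Pf a X1 X2 K al b mu (i * h) v)| ≤
        D ^ 2 / 8 * TT1 K mu * (i * h) + D ^ 2 / 8 * TT2 K al b * R2 (i * h) := by
      have hone : (v - c) / (v - u) + (c - u) / (v - u) = 1 := by
        rw [hvu]; field_simp; linarith
      have e : Pf a X1 X2 K al b mu (i * h) c - ((v - c) / (v - u) * Pf a X1 X2 K al b mu (i * h) u
        + (c - u) / (v - u) * Pf a X1 X2 K al b mu (i * h) v) =
        - ∑ k ∈ range K, (Tc (k + 1) c - ((v - c) / (v - u) * Tc (k + 1) u +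
        (c - u) / (v - u) * Tc (k + 1) v)) *
        (al k * Ak (k + 1) (i * h) + b k * Bk (k + 1) (i * h) + mu k * Mk (k + 1) (i * h)) := by
        have e1 : ∑ k ∈ range K, (Tc (k + 1) c - ((v - c) / (v - u) * Tc (k + 1) u +
          (c - u) / (v - u) * Tc (k + 1) v)) *
          (al k * Ak (k + 1) (i * h) + b k * Bk (k + 1) (i * h) + mu k * Mk (k + 1) (i * h)) =
          ∑ k ∈ range K, Tc (k + 1) c * (al k * Ak (k + 1) (i * h) + b k * Bk (k + 1) (i * h) +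
            mu k * Mk (k + 1) (i * h)) - ((v - c) / (v - u) * ∑ k ∈ range K, Tc (k + 1) u *
            (al k * Ak (k + 1) (i * h) + b k * Bk (k + 1) (i * h) + mu k * Mk (k + 1) (i * h)) +
            (c - u) / (v - u) * ∑ k ∈ range K, Tc (k + 1) v *
            (al k * Ak (k + 1) (i * h) + b k * Bk (k + 1) (i * h) + mu k * Mk (k + 1) (i * h))) := by
          rw [Finset.mul_sum, Finset.mul_sum, ← Finset.sum_add_distrib, ← Finset.sum_sub_distrib]
          exact Finset.sum_congr rfl fun k _ => by ring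
        rw [e1]
        unfold Pf
        linear_combination (-(R0 (i * h) + a * R1 (i * h) - X1 * R2 (i * h) + X2 * R3 (i * h))) * hone
      rw [e, abs_neg]
      refine (Finset.abs_sum_le_sum_abs _ _).trans ?_
      have : D ^ 2 / 8 * TT1 K mu * (i * h) + D ^ 2 / 8 * TT2 K al b * R2 (i * h) =
          ∑ k ∈ range K, (Dk (k + 1) * D ^ 2 / 8) * (|al k| * R2 (i * h) + |b k| * R2 (i * h) +
            |mu k| * (((k + 1 : ℕ) : ℝ) * (i * h))) := by
        unfold TT1 TT2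
        rw [Finset.mul_sum, Finset.mul_sum, Finset.sum_mul, Finset.sum_mul,
          ← Finset.sum_add_distrib]
        exact Finset.sum_congr rfl fun k _ => by ring
      rw [this]
      refine Finset.sum_le_sum fun k hk => ?_
      rw [abs_mul]
      refine mul_le_mul (hT k (Finset.mem_range.mp hk)) ?_ (abs_nonneg _) ?_
      · refine (abs_add_le _ _).trans (add_le_add ((abs_add_le _ _).trans (add_le_add ?_ ?_)) ?_)
        · rw [abs_mul]; exact mul_le_mul_of_nonneg_left (Ak_abs_le _ _) (abs_nonneg _)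
        · rw [abs_mul]; exact mul_le_mul_of_nonneg_left (Bk_abs_le _ _) (abs_nonneg _)
        · rw [abs_mul]; exact mul_le_mul_of_nonneg_left (Mk_abs_le _ hyi) (abs_nonneg _)
      · have := Dk_nonneg (k + 1)
        positivity
    have hlow := lower_of_interp huv hcu hcv hint (hgrid i hi j hj.le) (hgrid i hi (j + 1) hj)
    refine le_trans (le_of_eq ?_) hlow
    ring
  -- the `y` direction
  obtain ⟨i, hi, hi1, hi2⟩ := exists_cell hn0 (x := y / h) (by positivity)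
    (by rw [div_le_iff₀ hh]; linarith)
  rw [le_div_iff₀ hh] at hi1
  rw [div_le_iff₀ hh] at hi2
  have hint := LI_Pf a X1 X2 K al b mu hc0 hc1 (i * h) (((i + 1 : ℕ) : ℝ) * h) y (by positivity)
    (by push_cast; linarith) hi1 (by push_cast; linarith)
  have hvu : ((i + 1 : ℕ) : ℝ) * h - i * h = h := by push_cast; ring
  have h1 := hcdir i hi.le
  have h2 := hcdir (i + 1) hi
  have hle : h ^ 2 / 8 * (UU0 a X1 K al + UU1 a X2 K al b mu * (((i + 1 : ℕ) : ℝ) * h)) ≤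
      Pf a X1 X2 K al b mu (((i + 1 : ℕ) : ℝ) * h) c := by
    refine le_trans ?_ h2
    have : 0 ≤ h ^ 2 / 8 * (UU1 a X2 K al b mu * h) := by positivity
    linarith
  have hle1 : h ^ 2 / 8 * (UU0 a X1 K al + UU1 a X2 K al b mu * (((i + 1 : ℕ) : ℝ) * h)) ≤
      Pf a X1 X2 K al b mu (i * h) c := by
    refine le_trans (le_of_eq ?_) h1
    push_cast; ring
  have hlow := lower_of_interp (by push_cast; linarith) hi1 (by push_cast; linarith) hint hle1 hle
  refine le_trans (le_of_eq ?_) hlow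
  rw [hvu]; ring

end Pool.Agent.Lib_helper90d
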