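import Mathlib

set_option autoImplicit false

open Finset

namespace Pool.Agent.Lib_helper90d

/-- packing of lanes: `∑_{i<n} f i * B ^ i` -/
def pk (B : ℤ) (f : ℕ → ℤ) : ℕ → ℤ
  | 0 => 0
  | n + 1 => pk B f n + f n * B ^ n

theorem pk_eq (B : ℤ) (f : ℕ → ℤ) (n : ℕ) : pk B f n = ∑ i ∈ range n, f i * B ^ i := by
  induction n with
  | zero => simp [pk]
  | succ n ih => rw [pk, ih, Finset.sum_range_succ]

theorem pk_add (B : ℤ) (f g : ℕ → ℤ) (n : ℕ) :
    pk B f n + pk B g n = pk B (fun i => f i + g i) n := by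
  simp only [pk_eq, ← Finset.sum_add_distrib]
  exact Finset.sum_congr rfl fun i _ => by ring

theorem pk_sub (B : ℤ) (f g : ℕ → ℤ) (n : ℕ) :
    pk B f n - pk B g n = pk B (fun i => f i - g i) n := by
  simp only [pk_eq, ← Finset.sum_sub_distrib]
  exact Finset.sum_congr rfl fun i _ => by ring

theorem pk_smul (B c : ℤ) (f : ℕ → ℤ) (n : ℕ) : c * pk B f n = pk B (fun i => c * f i) n := by
  simp only [pk_eq, Finset.mul_sum]
  exact Finset.sum_congr rfl fun i _ => by ring

theorem pk_neg (B : ℤ) (f : ℕ → ℤ) (n : ℕ) : - pk B f n = pk B (fun i => - f i) n := by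
  simp only [pk_eq, ← Finset.sum_neg_distrib]
  exact Finset.sum_congr rfl fun i _ => by ring

theorem pk_congr (B : ℤ) {f g : ℕ → ℤ} {n : ℕ} (h : ∀ i < n, f i = g i) : pk B f n = pk B g n := by
  simp only [pk_eq]
  exact Finset.sum_congr rfl fun i hi => by rw [h i (Finset.mem_range.mp hi)]

theorem pk_outer (B : ℤ) {m : ℕ} (hm : 0 < m) (n : ℕ) (U u : ℕ → ℤ) :
    pk (B ^ m) U n * pk B u m = pk B (fun i => U (i / m) * u (i % m)) (m * n) := by
  simp only [pk_eq]
  induction n with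
  | zero => simp
  | succ n ih =>
    rw [Finset.sum_range_succ, add_mul, ih, Nat.mul_succ, Finset.sum_range_add]
    congr 1
    rw [Finset.mul_sum]
    refine Finset.sum_congr rfl fun i hi => ?_
    have hi' := Finset.mem_range.mp hi
    have h1 : (m * n + i) / m = n := by
      rw [Nat.mul_add_div hm, Nat.div_eq_of_lt hi', add_zero]
    have h2 : (m * n + i) % m = i := by
      rw [Nat.mul_add_mod, Nat.mod_eq_of_lt hi']
    rw [h1, h2, pow_add, pow_mul]
    ring

def maskN (w n : ℕ) : ℕ := (2 ^ (w * n) - 1) / (2 ^ w - 1) * 2 ^ (w - 1)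

theorem maskN_eq {w : ℕ} (hw : 0 < w) (n : ℕ) :
    maskN w n = ∑ i ∈ range n, 2 ^ (w - 1) * (2 ^ w) ^ i := by
  unfold maskN
  rw [pow_mul, ← Nat.geomSum_eq (m := 2 ^ w) (Nat.le_self_pow (by omega) 2), ← Finset.mul_sum,
    mul_comm]

theorem maskN_succ {w : ℕ} (hw : 0 < w) (n : ℕ) :
    maskN w (n + 1) = 2 ^ (w - 1) + 2 ^ w * maskN w n := by
  rw [maskN_eq hw, maskN_eq hw, Finset.sum_range_succ', Finset.mul_sum, pow_zero, mul_one,
    add_comm]
  congr 1
  refine Finset.sum_congr rfl fun i _ => ?_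
  ring

theorem lt_of_and_zero {w x : ℕ} (hw : 0 < w) (hx : x < 2 ^ w) (h : x &&& 2 ^ (w - 1) = 0) :
    x < 2 ^ (w - 1) := by
  by_contra hcon
  push Not at hcon
  have h1 : x.testBit (w - 1) = true := by
    rw [Nat.testBit_eq_decide_div_mod_eq]
    have h2 : x / 2 ^ (w - 1) < 2 := by
      rw [Nat.div_lt_iff_lt_mul (by positivity)]
      have : 2 * 2 ^ (w - 1) = 2 ^ w := by rw [← pow_succ']; congr 1; omega
      omega
    have h3 : 1 ≤ x / 2 ^ (w - 1) := by
      rw [Nat.one_le_div_iff (by positivity)]; exact hcon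
    have h4 : x / 2 ^ (w - 1) = 1 := by omega
    rw [h4]; rfl
  have h5 : (x &&& 2 ^ (w - 1)).testBit (w - 1) = true := by
    rw [Nat.testBit_and, h1, Nat.testBit_two_pow_self]; rfl
  rw [h] at h5
  simp at h5

theorem lanes_nonneg {w : ℕ} (hw : 0 < w) : ∀ (n : ℕ) (v : ℕ → ℤ),
    (∀ i < n, |v i| < 2 ^ (w - 1)) → ∀ t : ℕ, (t : ℤ) = ∑ i ∈ range n, v i * (2 ^ w) ^ i →
    t &&& maskN w n = 0 → ∀ i < n, 0 ≤ v i := by
  intro n
  induction n with
  | zero => intro v _ t _ _ i hi; omega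
  | succ n ih =>
    intro v hv t ht hm
    rw [Finset.sum_range_succ', pow_zero, mul_one] at ht
    have hpow : (2 : ℕ) ^ w = 2 * 2 ^ (w - 1) := by rw [← pow_succ']; congr 1; omega
    have hP : 0 < 2 ^ (w - 1) := by positivity
    have hsum : ∑ k ∈ range n, v (k + 1) * (2 ^ w : ℤ) ^ (k + 1) =
        2 ^ w * ∑ k ∈ range n, v (k + 1) * (2 ^ w : ℤ) ^ k := by
      rw [Finset.mul_sum]
      exact Finset.sum_congr rfl fun k _ => by ring
    rw [hsum] at ht
    set T := ∑ k ∈ range n, v (k + 1) * (2 ^ w : ℤ) ^ k with hT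
    -- the low lane
    have hlow : (t % 2 ^ w) &&& 2 ^ (w - 1) = 0 := by
      have h1 : (t &&& maskN w (n + 1)) % 2 ^ w = 0 := by rw [hm]; simp
      rw [Nat.and_mod_two_pow, maskN_succ hw, Nat.add_mul_mod_self_left,
        Nat.mod_eq_of_lt (show 2 ^ (w - 1) < 2 ^ w by omega)] at h1
      exact h1
    have hlt := lt_of_and_zero hw (Nat.mod_lt t (by positivity)) hlow
    have hv0 := hv 0 (by omega)
    have hpowZ : (2 : ℤ) ^ w = 2 * 2 ^ (w - 1) := by exact_mod_cast hpow
    have hmodZ : ((t % 2 ^ w : ℕ) : ℤ) = v 0 % 2 ^ w := by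
      rw [Int.natCast_mod, ht]
      push_cast
      rw [Int.mul_add_emod_self_left]
    have hv0n : 0 ≤ v 0 := by
      by_contra hcon
      push Not at hcon
      have h1 : v 0 % 2 ^ w = v 0 + 2 ^ w := by
        rw [← Int.add_emod_right (v 0) (2 ^ w)]
        apply Int.emod_eq_of_lt
        · have := (abs_lt.mp hv0).1; linarith
        · linarith
      rw [h1] at hmodZ
      have h2 := (abs_lt.mp hv0).1
      have h3 : ((t % 2 ^ w : ℕ) : ℤ) < 2 ^ (w - 1) := by exact_mod_cast hlt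
      linarith
    have hv0lt : v 0 < 2 ^ w := by
      have := (abs_lt.mp hv0).2
      have : (0 : ℤ) < 2 ^ (w - 1) := by positivity
      linarith
    have hmod2 : v 0 % 2 ^ w = v 0 := Int.emod_eq_of_lt hv0n hv0lt
    have hdiv : ((t / 2 ^ w : ℕ) : ℤ) = T := by
      rw [Int.natCast_div, ht]
      push_cast
      rw [Int.mul_add_ediv_left]
      · rw [Int.ediv_eq_zero_of_lt hv0n hv0lt, add_zero]
      · positivity
    have hm' : (t / 2 ^ w) &&& maskN w n = 0 := by
      have h1 : (t &&& maskN w (n + 1)) / 2 ^ w = 0 := by rw [hm]; simp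
      rw [Nat.and_div_two_pow, maskN_succ hw, Nat.add_mul_div_left _ _ (by positivity),
        Nat.div_eq_of_lt (show 2 ^ (w - 1) < 2 ^ w by omega), zero_add] at h1
      exact h1
    have := ih (fun k => v (k + 1)) (fun i hi => hv (i + 1) (by omega)) (t / 2 ^ w) hdiv hm'
    intro i hi
    rcases Nat.eq_zero_or_pos i with h0 | h0
    · rw [h0]; exact hv0n
    · have h1 := this (i - 1) (by omega)
      rwa [show i - 1 + 1 = i by omega] at h1

/-- the lane test -/
def laneOK (H : ℕ) : ℤ → Bool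
  | Int.ofNat t => Nat.beq (Nat.land t H) 0
  | Int.negSucc _ => false

theorem laneOK_sound {w : ℕ} (hw : 0 < w) {n : ℕ} {v : ℕ → ℤ}
    (hv : ∀ i < n, |v i| < 2 ^ (w - 1)) (h : laneOK (maskN w n) (pk (2 ^ w) v n) = true) :
    ∀ i < n, 0 ≤ v i := by
  generalize hT : pk (2 ^ w) v n = T at h
  cases T with
  | ofNat t =>
    have h1 : t &&& maskN w n = 0 := Nat.eq_of_beq_eq_true h
    exact lanes_nonneg hw n v hv t (by rw [← pk_eq]; exact hT.symm) h1
  | negSucc t => simp [laneOK] at h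

end Pool.Agent.Lib_helper90d
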