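import Pool.Agent.Lib_helper90d.E5

set_option autoImplicit false

open Finset

namespace Pool.Agent.Lib_helper90d

/-- Horner scheme: (Re, Im, Den) of `∑_{m ≤ M} (i A/D)^m k!/(k+m)!` -/
def hor (A D : ℤ) : ℕ → ℕ → ℤ × ℤ × ℤ
  | 0, _ => (1, 0, 1)
  | M + 1, k =>
    (D * ((k : ℤ) + 1) * (hor A D M (k + 1)).2.2 - A * (hor A D M (k + 1)).2.1,
      A * (hor A D M (k + 1)).1, D * ((k : ℤ) + 1) * (hor A D M (k + 1)).2.2)

noncomputable def Hs (x : ℂ) (M k : ℕ) : ℂ :=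
  ∑ m ∈ range (M + 1), x ^ m * ((k.factorial : ℂ) / ((k + m).factorial : ℂ))

theorem Hs_succ (x : ℂ) (M k : ℕ) : Hs x (M + 1) k = 1 + x / (k + 1) * Hs x M (k + 1) := by
  unfold Hs
  rw [Finset.sum_range_succ', Finset.mul_sum, add_comm]
  congr 1
  · have : (k.factorial : ℂ) ≠ 0 := by exact_mod_cast Nat.factorial_ne_zero k
    simp [this]
  · refine Finset.sum_congr rfl fun m _ => ?_
    have h1 : ((k + 1).factorial : ℂ) = (k + 1) * (k.factorial : ℂ) := by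
      rw [Nat.factorial_succ]; push_cast; ring
    have h2 : k + 1 + m = k + (m + 1) := by ring
    rw [h1, h2]
    have h3 : ((k : ℂ) + 1) ≠ 0 := by exact_mod_cast Nat.succ_ne_zero k
    have h4 : ((k + (m + 1)).factorial : ℂ) ≠ 0 := by exact_mod_cast Nat.factorial_ne_zero _
    field_simp
    ring

theorem hor_den_pos {A D : ℤ} (hD : 0 < D) (M k : ℕ) : 0 < (hor A D M k).2.2 := by
  induction M generalizing k with
  | zero => simp [hor]
  | succ M ih =>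
    rw [hor]
    have := ih (k + 1)
    positivity

theorem hor_eq {A D : ℤ} (hD : 0 < D) (M k : ℕ) :
    ((hor A D M k).1 : ℂ) + ((hor A D M k).2.1 : ℂ) * Complex.I =
    ((hor A D M k).2.2 : ℂ) * Hs (Complex.I * ((A : ℂ) / (D : ℂ))) M k := by
  induction M generalizing k with
  | zero =>
    have : (k.factorial : ℂ) ≠ 0 := by exact_mod_cast Nat.factorial_ne_zero k
    simp [hor, Hs, this]
  | succ M ih =>
    have h := ih (k + 1)
    rw [Hs_succ]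
    rw [hor]
    have hD' : (D : ℂ) ≠ 0 := by exact_mod_cast hD.ne'
    have h3 : ((k : ℂ) + 1) ≠ 0 := by exact_mod_cast Nat.succ_ne_zero k
    have e : (((D * ((k : ℤ) + 1) * (hor A D M (k + 1)).2.2 : ℤ)) : ℂ) *
        (1 + Complex.I * ((A : ℂ) / (D : ℂ)) / (k + 1) *
          Hs (Complex.I * ((A : ℂ) / (D : ℂ))) M (k + 1)) =
        (D : ℂ) * (k + 1) * ((hor A D M (k + 1)).2.2 : ℂ) + Complex.I * A *
          (((hor A D M (k + 1)).2.2 : ℂ) * Hs (Complex.I * ((A : ℂ) / (D : ℂ))) M (k + 1)) := by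
      push_cast
      field_simp
    rw [e, ← h]
    push_cast
    ring_nf
    rw [Complex.I_sq]
    ring

/-- fixed point value of `exp (i A/D)` -/
def cis (P : ℕ) (A D : ℤ) : ℤ × ℤ :=
  ((hor A D 30 0).1 * ((2 ^ P : ℕ) : ℤ) / (hor A D 30 0).2.2,
    (hor A D 30 0).2.1 * ((2 ^ P : ℕ) : ℤ) / (hor A D 30 0).2.2)

/-- complex number attached to a pair at scale `2^P` -/
noncomputable def toC (P : ℕ) (z : ℤ × ℤ) : ℂ :=
  ((z.1 : ℂ) + (z.2 : ℂ) * Complex.I) / ((2 ^ P : ℝ) : ℂ)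

theorem toC_re (P : ℕ) (z : ℤ × ℤ) : (toC P z).re = (z.1 : ℝ) / 2 ^ P := by
  unfold toC
  rw [Complex.div_ofReal_re]
  simp

theorem toC_im (P : ℕ) (z : ℤ × ℤ) : (toC P z).im = (z.2 : ℝ) / 2 ^ P := by
  unfold toC
  rw [Complex.div_ofReal_im]
  simp

theorem norm_le_of_re_im {z : ℂ} {r : ℝ} (h1 : |z.re| ≤ r) (h2 : |z.im| ≤ r) :
    ‖z‖ ≤ 3 / 2 * r := by
  have hr : 0 ≤ r := (abs_nonneg _).trans h1
  have h3 : ‖z‖ ^ 2 ≤ (3 / 2 * r) ^ 2 := by
    rw [← Complex.normSq_eq_norm_sq, Complex.normSq_apply]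
    have := abs_le.mp h1
    have := abs_le.mp h2
    nlinarith
  exact le_of_sq_le_sq h3 (by positivity)

theorem floor_err (x D : ℤ) (hD : 0 < D) : |(((x / D : ℤ)) : ℝ) - (x : ℝ) / D| ≤ 1 := by
  have hD' : (0 : ℝ) < D := by exact_mod_cast hD
  have h1 : (x / D) * D ≤ x := Int.ediv_mul_le x hD.ne'
  have h2 : x < (x / D + 1) * D := Int.lt_ediv_add_one_mul_self x hD
  have h1' : (((x / D : ℤ)) : ℝ) * D ≤ x := by exact_mod_cast h1
  have h2' : (x : ℝ) < ((((x / D : ℤ)) : ℝ) + 1) * D := by exact_mod_cast h2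
  have e : (x : ℝ) = (x : ℝ) / D * D := by field_simp
  rw [abs_le]
  constructor
  · have : (x : ℝ) / D < (((x / D : ℤ)) : ℝ) + 1 := by rw [div_lt_iff₀ hD']; exact h2'
    linarith
  · have : (((x / D : ℤ)) : ℝ) ≤ (x : ℝ) / D := by rw [le_div_iff₀ hD']; exact h1'
    linarith

theorem toC_err {P : ℕ} {z : ℤ × ℤ} {w : ℂ} {r : ℝ}
    (h1 : |(z.1 : ℝ) - w.re * 2 ^ P| ≤ r) (h2 : |(z.2 : ℝ) - w.im * 2 ^ P| ≤ r) :
    ‖toC P z - w‖ ≤ 3 / 2 * r / 2 ^ P := by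
  have hP : (0 : ℝ) < 2 ^ P := by positivity
  have h3 : ‖toC P z - w‖ ≤ 3 / 2 * (r / 2 ^ P) := by
    apply norm_le_of_re_im
    · rw [Complex.sub_re, toC_re]
      have e : (z.1 : ℝ) / 2 ^ P - w.re = ((z.1 : ℝ) - w.re * 2 ^ P) / 2 ^ P := by field_simp
      rw [e, abs_div, abs_of_pos hP]
      gcongr
    · rw [Complex.sub_im, toC_im]
      have e : (z.2 : ℝ) / 2 ^ P - w.im = ((z.2 : ℝ) - w.im * 2 ^ P) / 2 ^ P := by field_simp
      rw [e, abs_div, abs_of_pos hP]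
      gcongr
  rwa [← mul_div_assoc] at h3

theorem cis_err {P : ℕ} (hP : P ≤ 70) {A D : ℤ} (hD : 0 < D) (hA0 : 0 ≤ A) (hA : A ≤ 2 * D) :
    ‖toC P (cis P A D) - Complex.exp (Complex.I * ((A : ℂ) / (D : ℂ)))‖ ≤ 2 / 2 ^ P := by
  set x : ℂ := Complex.I * ((A : ℂ) / (D : ℂ)) with hx
  have hD' : (0 : ℝ) < D := by exact_mod_cast hD
  have hxn : ‖x‖ ≤ 2 := by
    rw [hx, norm_mul, Complex.norm_I, one_mul, norm_div]
    simp only [Complex.norm_intCast]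
    rw [abs_of_pos hD', abs_of_nonneg (by exact_mod_cast hA0), div_le_iff₀ hD']
    exact_mod_cast hA
  have hexp := Complex.exp_bound' (x := x) (n := 31) (by
    have : ‖x‖ / ((31 + 1 : ℕ) : ℝ) ≤ 2 / ((31 + 1 : ℕ) : ℝ) := by gcongr
    refine this.trans (by norm_num))
  have hfac : ‖x‖ ^ 31 / ((31).factorial : ℝ) * 2 ≤ 1 / 2 ^ 80 := by
    have : ‖x‖ ^ 31 / ((31).factorial : ℝ) * 2 ≤ 2 ^ 31 / ((31).factorial : ℝ) * 2 := by gcongr
    refine this.trans ?_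
    have h31 : ((31).factorial : ℝ) = 8222838654177922817725562880000000 := by
      norm_num [Nat.factorial]
    rw [h31]; norm_num
  have hH : Hs x 30 0 = ∑ m ∈ range 31, x ^ m / (m.factorial : ℂ) := by
    unfold Hs
    refine Finset.sum_congr rfl fun m _ => ?_
    simp [div_eq_mul_inv]
  have hden := hor_den_pos (A := A) hD 30 0
  have hdenR : (0 : ℝ) < ((hor A D 30 0).2.2 : ℝ) := by exact_mod_cast hden
  have heq := hor_eq (A := A) hD 30 0
  rw [← hx] at heq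
  have hre : ((hor A D 30 0).1 : ℝ) = ((hor A D 30 0).2.2 : ℝ) * (Hs x 30 0).re := by
    have := congrArg Complex.re heq
    simpa using this
  have him : ((hor A D 30 0).2.1 : ℝ) = ((hor A D 30 0).2.2 : ℝ) * (Hs x 30 0).im := by
    have := congrArg Complex.im heq
    simpa using this
  have h1 : ‖toC P (cis P A D) - Hs x 30 0‖ ≤ 3 / 2 * 1 / 2 ^ P := by
    apply toC_err
    · have := floor_err ((hor A D 30 0).1 * ((2 ^ P : ℕ) : ℤ)) _ hden
      have e : (((hor A D 30 0).1 * ((2 ^ P : ℕ) : ℤ) : ℤ) : ℝ) / ((hor A D 30 0).2.2 : ℝ) =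
          (Hs x 30 0).re * 2 ^ P := by
        push_cast
        rw [hre]
        field_simp
      rw [e] at this
      exact this
    · have := floor_err ((hor A D 30 0).2.1 * ((2 ^ P : ℕ) : ℤ)) _ hden
      have e : (((hor A D 30 0).2.1 * ((2 ^ P : ℕ) : ℤ) : ℤ) : ℝ) / ((hor A D 30 0).2.2 : ℝ) =
          (Hs x 30 0).im * 2 ^ P := by
        push_cast
        rw [him]
        field_simp
      rw [e] at this
      exact this
  have h2 : ‖Hs x 30 0 - Complex.exp x‖ ≤ 1 / 2 ^ 80 := by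
    rw [hH, norm_sub_rev]
    exact hexp.trans hfac
  have h3 : (1 : ℝ) / 2 ^ 80 ≤ 1 / 2 * (1 / 2 ^ P) := by
    have : (2 : ℝ) ^ P ≤ 2 ^ 70 := pow_le_pow_right₀ (by norm_num) hP
    rw [div_le_iff₀ (by positivity)]
    calc (1 : ℝ) = 1 / 2 * (1 / 2 ^ 70) * 2 ^ 71 := by norm_num
      _ ≤ 1 / 2 * (1 / 2 ^ P) * 2 ^ 80 := by gcongr <;> norm_num
  calc ‖toC P (cis P A D) - Complex.exp x‖ =
        ‖(toC P (cis P A D) - Hs x 30 0) + (Hs x 30 0 - Complex.exp x)‖ := by ring_nf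
    _ ≤ ‖toC P (cis P A D) - Hs x 30 0‖ + ‖Hs x 30 0 - Complex.exp x‖ := norm_add_le _ _
    _ ≤ 3 / 2 * 1 / 2 ^ P + 1 / 2 * (1 / 2 ^ P) := add_le_add h1 (h2.trans h3)
    _ = 2 / 2 ^ P := by ring

end Pool.Agent.Lib_helper90d
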