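import Pool.Agent.Lib_helper90d.E6

set_option autoImplicit false

open Finset

namespace Pool.Agent.Lib_helper90d

/-- iterated rotation by the angle `A/D`, at scale `2^P` -/
def rotF (P : ℕ) (A D : ℤ) : ℕ → ℤ × ℤ
  | 0 => (((2 ^ P : ℕ) : ℤ), 0)
  | n + 1 =>
    (((rotF P A D n).1 * (cis P A D).1 - (rotF P A D n).2 * (cis P A D).2) / ((2 ^ P : ℕ) : ℤ),
     ((rotF P A D n).1 * (cis P A D).2 + (rotF P A D n).2 * (cis P A D).1) / ((2 ^ P : ℕ) : ℤ))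

theorem rotF_err {P : ℕ} (hP0 : 20 ≤ P) (hP : P ≤ 70) {A D : ℤ} (hD : 0 < D) (hA0 : 0 ≤ A)
    (hA : A ≤ 2 * D) (n : ℕ) (hn : n ≤ 1024) :
    ‖toC P (rotF P A D n) - Complex.exp (Complex.I * (((n : ℝ) * ((A : ℝ) / (D : ℝ)) : ℝ) : ℂ))‖ ≤
      4 * n / 2 ^ P := by
  have h2P : (0 : ℝ) < 2 ^ P := by positivity
  have h2P20 : (2 : ℝ) ^ 20 ≤ 2 ^ P := pow_le_pow_right₀ (by norm_num) hP0
  induction n with
  | zero =>
    have : toC P (rotF P A D 0) = 1 := by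
      simp [toC, rotF]
    rw [this]; simp
  | succ n ih =>
    have ih' := ih (by omega)
    have hcis := cis_err hP hD hA0 hA
    set Z := toC P (rotF P A D n) with hZ
    set z := Complex.exp (Complex.I * (((n : ℝ) * ((A : ℝ) / (D : ℝ)) : ℝ) : ℂ)) with hz
    set W := toC P (cis P A D) with hW
    set w := Complex.exp (Complex.I * ((A : ℂ) / (D : ℂ))) with hw
    have hzn : ‖z‖ = 1 := by
      rw [hz, mul_comm, Complex.norm_exp_ofReal_mul_I]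
    have hwn : ‖w‖ = 1 := by
      rw [hw, mul_comm, show (A : ℂ) / (D : ℂ) = ((A / D : ℝ) : ℂ) by push_cast; ring,
        Complex.norm_exp_ofReal_mul_I]
    have hzw : Complex.exp (Complex.I * ((((n + 1 : ℕ) : ℝ) * ((A : ℝ) / (D : ℝ)) : ℝ) : ℂ)) =
        z * w := by
      rw [hz, hw, ← Complex.exp_add]
      congr 1
      push_cast
      ring
    rw [hzw]
    have hWn : ‖W‖ ≤ 1 + 2 / 2 ^ P := by
      calc ‖W‖ = ‖w + (W - w)‖ := by ring_nf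
        _ ≤ ‖w‖ + ‖W - w‖ := norm_add_le _ _
        _ ≤ 1 + 2 / 2 ^ P := by rw [hwn]; gcongr
    have hfl : ‖toC P (rotF P A D (n + 1)) - Z * W‖ ≤ 3 / 2 * 1 / 2 ^ P := by
      have hpos : (0 : ℤ) < ((2 ^ P : ℕ) : ℤ) := by positivity
      have hpc : ((((2 ^ P : ℕ) : ℤ)) : ℝ) = 2 ^ P := by push_cast; ring
      apply toC_err
      · have := floor_err ((rotF P A D n).1 * (cis P A D).1 - (rotF P A D n).2 * (cis P A D).2)
          ((2 ^ P : ℕ) : ℤ) hpos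
        rw [hpc] at this
        have e : ((((rotF P A D n).1 * (cis P A D).1 - (rotF P A D n).2 * (cis P A D).2 : ℤ)) : ℝ) /
            2 ^ P = (Z * W).re * 2 ^ P := by
          rw [Complex.mul_re, hZ, hW, toC_re, toC_re, toC_im, toC_im]
          push_cast
          field_simp
        rw [e] at this
        exact this
      · have := floor_err ((rotF P A D n).1 * (cis P A D).2 + (rotF P A D n).2 * (cis P A D).1)
          ((2 ^ P : ℕ) : ℤ) hpos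
        rw [hpc] at this
        have e : ((((rotF P A D n).1 * (cis P A D).2 + (rotF P A D n).2 * (cis P A D).1 : ℤ)) : ℝ) /
            2 ^ P = (Z * W).im * 2 ^ P := by
          rw [Complex.mul_im, hZ, hW, toC_re, toC_re, toC_im, toC_im]
          push_cast
          field_simp
        rw [e] at this
        exact this
    have hprod : ‖Z * W - z * w‖ ≤ 4 * n / 2 ^ P * (1 + 2 / 2 ^ P) + 2 / 2 ^ P := by
      calc ‖Z * W - z * w‖ = ‖(Z - z) * W + z * (W - w)‖ := by ring_nf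
        _ ≤ ‖(Z - z) * W‖ + ‖z * (W - w)‖ := norm_add_le _ _
        _ = ‖Z - z‖ * ‖W‖ + ‖W - w‖ := by rw [norm_mul, norm_mul, hzn, one_mul]
        _ ≤ 4 * n / 2 ^ P * (1 + 2 / 2 ^ P) + 2 / 2 ^ P := by gcongr
    have hn' : (n : ℝ) ≤ 1024 := by exact_mod_cast (show n ≤ 1024 by omega)
    calc ‖toC P (rotF P A D (n + 1)) - z * w‖ =
          ‖(toC P (rotF P A D (n + 1)) - Z * W) + (Z * W - z * w)‖ := by ring_nf
      _ ≤ ‖toC P (rotF P A D (n + 1)) - Z * W‖ + ‖Z * W - z * w‖ := norm_add_le _ _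
      _ ≤ 3 / 2 * 1 / 2 ^ P + (4 * n / 2 ^ P * (1 + 2 / 2 ^ P) + 2 / 2 ^ P) := add_le_add hfl hprod
      _ = (7 / 2 + 4 * n + 8 * n / 2 ^ P) / 2 ^ P := by field_simp; ring
      _ ≤ 4 * ((n + 1 : ℕ) : ℝ) / 2 ^ P := by
        apply div_le_div_of_nonneg_right _ h2P.le
        have : 8 * (n : ℝ) / 2 ^ P ≤ 1 / 2 := by
          rw [div_le_iff₀ h2P]
          linarith
        push_cast
        linarith

/-- lanes of `cos (j y_i)` and `sin (j y_i)`, `y_i = i / 2^q`, at scale `2^(2P)` -/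
def cosL (P q j i : ℕ) : ℤ :=
  (rotF P (64 * j) ((2 ^ q : ℕ) : ℤ) (i / 64)).1 * (rotF P j ((2 ^ q : ℕ) : ℤ) (i % 64)).1 -
  (rotF P (64 * j) ((2 ^ q : ℕ) : ℤ) (i / 64)).2 * (rotF P j ((2 ^ q : ℕ) : ℤ) (i % 64)).2

def sinL (P q j i : ℕ) : ℤ :=
  (rotF P (64 * j) ((2 ^ q : ℕ) : ℤ) (i / 64)).1 * (rotF P j ((2 ^ q : ℕ) : ℤ) (i % 64)).2 +
  (rotF P (64 * j) ((2 ^ q : ℕ) : ℤ) (i / 64)).2 * (rotF P j ((2 ^ q : ℕ) : ℤ) (i % 64)).1

theorem cosL_sinL_err {P q j i : ℕ} (hP0 : 20 ≤ P) (hP : P ≤ 70) (hq : 8 ≤ q) (hj : j ≤ 8)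
    (hi : i < 64 * 256) :
    |(cosL P q j i : ℝ) - 2 ^ (2 * P) * Real.cos (j * (i / 2 ^ q))| ≤ 2 ^ (P + 11) ∧
    |(sinL P q j i : ℝ) - 2 ^ (2 * P) * Real.sin (j * (i / 2 ^ q))| ≤ 2 ^ (P + 11) := by
  have h2P : (0 : ℝ) < 2 ^ P := by positivity
  have h2P20 : (2 : ℝ) ^ 20 ≤ 2 ^ P := pow_le_pow_right₀ (by norm_num) hP0
  have h2q : (2 : ℤ) ^ 8 ≤ 2 ^ q := pow_le_pow_right₀ (by norm_num) hq
  have hjZ : (j : ℤ) ≤ 8 := by exact_mod_cast hj
  have hjZ0 : (0 : ℤ) ≤ j := by positivity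
  have hD : (0 : ℤ) < ((2 ^ q : ℕ) : ℤ) := by positivity
  have hDc : ((2 ^ q : ℕ) : ℤ) = 2 ^ q := by push_cast; ring
  have hA1 : (64 * j : ℤ) ≤ 2 * ((2 ^ q : ℕ) : ℤ) := by rw [hDc]; norm_num at h2q; linarith
  have hA2 : (j : ℤ) ≤ 2 * ((2 ^ q : ℕ) : ℤ) := by rw [hDc]; norm_num at h2q; linarith
  have hi64 : i / 64 ≤ 255 := by omega
  have him : i % 64 ≤ 63 := by omega
  have E1 := rotF_err hP0 hP hD (by positivity) hA1 (i / 64) (by omega)
  have E2 := rotF_err hP0 hP hD hjZ0 hA2 (i % 64) (by omega)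
  set Z := toC P (rotF P (64 * j) ((2 ^ q : ℕ) : ℤ) (i / 64)) with hZ
  set z := toC P (rotF P j ((2 ^ q : ℕ) : ℤ) (i % 64)) with hz
  set A := Complex.exp (Complex.I * (((((i / 64 : ℕ) : ℝ) * (((64 * j : ℤ) : ℝ) /
    (((2 ^ q : ℕ) : ℤ) : ℝ)) : ℝ)) : ℂ)) with hA
  set a := Complex.exp (Complex.I * (((((i % 64 : ℕ) : ℝ) * (((j : ℤ) : ℝ) /
    (((2 ^ q : ℕ) : ℤ) : ℝ)) : ℝ)) : ℂ)) with ha
  have hAn : ‖A‖ = 1 := by rw [hA, mul_comm, Complex.norm_exp_ofReal_mul_I]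
  have han : ‖a‖ = 1 := by rw [ha, mul_comm, Complex.norm_exp_ofReal_mul_I]
  have hAa : A * a = Complex.exp (((j * (i / 2 ^ q) : ℝ) : ℂ) * Complex.I) := by
    rw [hA, ha, ← Complex.exp_add]
    congr 1
    have hdm : (i : ℂ) = 64 * ((i / 64 : ℕ) : ℂ) + ((i % 64 : ℕ) : ℂ) := by
      exact_mod_cast (Nat.div_add_mod i 64).symm
    push_cast
    rw [hdm]
    ring
  have e1 : ‖Z - A‖ ≤ 1020 / 2 ^ P := by
    refine E1.trans ?_
    gcongr
    have : ((i / 64 : ℕ) : ℝ) ≤ 255 := by exact_mod_cast hi64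
    linarith
  have e2 : ‖z - a‖ ≤ 252 / 2 ^ P := by
    refine E2.trans ?_
    gcongr
    have : ((i % 64 : ℕ) : ℝ) ≤ 63 := by exact_mod_cast him
    linarith
  have hzn : ‖z‖ ≤ 1 + 252 / 2 ^ P := by
    calc ‖z‖ = ‖a + (z - a)‖ := by ring_nf
      _ ≤ ‖a‖ + ‖z - a‖ := norm_add_le _ _
      _ ≤ 1 + 252 / 2 ^ P := by rw [han]; gcongr
  have hfin : ‖Z * z - A * a‖ ≤ 2 ^ 11 / 2 ^ P := by
    calc ‖Z * z - A * a‖ = ‖(Z - A) * z + A * (z - a)‖ := by ring_nf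
      _ ≤ ‖(Z - A) * z‖ + ‖A * (z - a)‖ := norm_add_le _ _
      _ = ‖Z - A‖ * ‖z‖ + ‖z - a‖ := by rw [norm_mul, norm_mul, hAn, one_mul]
      _ ≤ 1020 / 2 ^ P * (1 + 252 / 2 ^ P) + 252 / 2 ^ P := by gcongr
      _ = (1272 + 1020 * 252 / 2 ^ P) / 2 ^ P := by field_simp; ring
      _ ≤ 2 ^ 11 / 2 ^ P := by
        apply div_le_div_of_nonneg_right _ h2P.le
        have : (1020 : ℝ) * 252 / 2 ^ P ≤ 700 := by
          rw [div_le_iff₀ h2P]
          linarith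
        linarith
  have hre : (Z * z).re = (cosL P q j i : ℝ) / 2 ^ (2 * P) := by
    rw [Complex.mul_re, hZ, hz, toC_re, toC_re, toC_im, toC_im]
    unfold cosL
    push_cast
    rw [show 2 * P = P + P by ring, pow_add]
    field_simp
  have him' : (Z * z).im = (sinL P q j i : ℝ) / 2 ^ (2 * P) := by
    rw [Complex.mul_im, hZ, hz, toC_re, toC_re, toC_im, toC_im]
    unfold sinL
    push_cast
    rw [show 2 * P = P + P by ring, pow_add]
    field_simp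
  have h22 : (0 : ℝ) < 2 ^ (2 * P) := by positivity
  have hscale : (2 : ℝ) ^ 11 / 2 ^ P * 2 ^ (2 * P) = 2 ^ (P + 11) := by
    rw [show 2 * P = P + P by ring, pow_add, pow_add]
    field_simp
  constructor
  · have h1 := (Complex.abs_re_le_norm (Z * z - A * a)).trans hfin
    rw [Complex.sub_re, hre, hAa, Complex.exp_ofReal_mul_I_re] at h1
    have e : (cosL P q j i : ℝ) - 2 ^ (2 * P) * Real.cos (j * (i / 2 ^ q)) =
      ((cosL P q j i : ℝ) / 2 ^ (2 * P) - Real.cos (j * (i / 2 ^ q))) * 2 ^ (2 * P) := by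
      field_simp
    rw [e, abs_mul, abs_of_pos h22, ← hscale]
    gcongr
  · have h1 := (Complex.abs_im_le_norm (Z * z - A * a)).trans hfin
    rw [Complex.sub_im, him', hAa, Complex.exp_ofReal_mul_I_im] at h1
    have e : (sinL P q j i : ℝ) - 2 ^ (2 * P) * Real.sin (j * (i / 2 ^ q)) =
      ((sinL P q j i : ℝ) / 2 ^ (2 * P) - Real.sin (j * (i / 2 ^ q))) * 2 ^ (2 * P) := by
      field_simp
    rw [e, abs_mul, abs_of_pos h22, ← hscale]
    gcongr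

end Pool.Agent.Lib_helper90d
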