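import Pool.Agent.Lib_helper90d.E7

set_option autoImplicit false

open Finset

namespace Pool.Agent.Lib_helper90d

/-- packing with fast powers of two -/
def pkS (w : ℕ) (f : ℕ → ℤ) : ℕ → ℤ
  | 0 => 0
  | n + 1 => pkS w f n + f n * ((2 ^ (w * n) : ℕ) : ℤ)

theorem pkS_eq (w : ℕ) (f : ℕ → ℤ) (n : ℕ) : pkS w f n = pk (2 ^ w) f n := by
  induction n with
  | zero => rfl
  | succ n ih =>
    rw [pkS, pk, ih]
    push_cast
    rw [pow_mul]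

theorem pkS_eq64 (w : ℕ) (f : ℕ → ℤ) (n : ℕ) : pkS (w * 64) f n = pk ((2 ^ w) ^ 64) f n := by
  rw [pkS_eq, pow_mul]

/-- coarse and fine packed tables -/
def cG (w P q n1 j : ℕ) : ℤ := pkS (w * 64) (fun i => (rotF P (64 * j) ((2 ^ q : ℕ) : ℤ) i).1) n1
def sG (w P q n1 j : ℕ) : ℤ := pkS (w * 64) (fun i => (rotF P (64 * j) ((2 ^ q : ℕ) : ℤ) i).2) n1
def cGi (w P q n1 j : ℕ) : ℤ :=
  pkS (w * 64) (fun i => 64 * (i : ℤ) * (rotF P (64 * j) ((2 ^ q : ℕ) : ℤ) i).1) n1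
def sGi (w P q n1 j : ℕ) : ℤ :=
  pkS (w * 64) (fun i => 64 * (i : ℤ) * (rotF P (64 * j) ((2 ^ q : ℕ) : ℤ) i).2) n1
def cF (w P q j : ℕ) : ℤ := pkS w (fun i => (rotF P j ((2 ^ q : ℕ) : ℤ) i).1) 64
def sF (w P q j : ℕ) : ℤ := pkS w (fun i => (rotF P j ((2 ^ q : ℕ) : ℤ) i).2) 64
def cFi (w P q j : ℕ) : ℤ := pkS w (fun i => (i : ℤ) * (rotF P j ((2 ^ q : ℕ) : ℤ) i).1) 64
def sFi (w P q j : ℕ) : ℤ := pkS w (fun i => (i : ℤ) * (rotF P j ((2 ^ q : ℕ) : ℤ) i).2) 64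

def TC (w P q n1 j : ℕ) : ℤ :=
  ((2 ^ q : ℕ) : ℤ) * (cG w P q n1 j * cF w P q j - sG w P q n1 j * sF w P q j)
def TS (w P q n1 j : ℕ) : ℤ :=
  ((2 ^ q : ℕ) : ℤ) * (cG w P q n1 j * sF w P q j + sG w P q n1 j * cF w P q j)
def TYC (w P q n1 j : ℕ) : ℤ :=
  (cGi w P q n1 j * cF w P q j + cG w P q n1 j * cFi w P q j) -
  (sGi w P q n1 j * sF w P q j + sG w P q n1 j * sFi w P q j)
def TYS (w P q n1 j : ℕ) : ℤ :=
  (cGi w P q n1 j * sF w P q j + cG w P q n1 j * sFi w P q j) +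
  (sGi w P q n1 j * cF w P q j + sG w P q n1 j * cFi w P q j)

/-- lanes -/
def LC (P q j : ℕ) (i : ℕ) : ℤ := ((2 ^ q : ℕ) : ℤ) * cosL P q j i
def LS (P q j : ℕ) (i : ℕ) : ℤ := ((2 ^ q : ℕ) : ℤ) * sinL P q j i
def LYC (P q j : ℕ) (i : ℕ) : ℤ := (i : ℤ) * cosL P q j i
def LYS (P q j : ℕ) (i : ℕ) : ℤ := (i : ℤ) * sinL P q j i

theorem TC_eq (w P q n1 j : ℕ) : TC w P q n1 j = pk (2 ^ w) (LC P q j) (64 * n1) := by
  unfold TC cG cF sG sF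
  simp only [pkS_eq, pow_mul]
  rw [pk_outer _ (by norm_num), pk_outer _ (by norm_num), pk_sub, pk_smul]
  rfl

theorem TS_eq (w P q n1 j : ℕ) : TS w P q n1 j = pk (2 ^ w) (LS P q j) (64 * n1) := by
  unfold TS cG cF sG sF
  simp only [pkS_eq, pow_mul]
  rw [pk_outer _ (by norm_num), pk_outer _ (by norm_num), pk_add, pk_smul]
  rfl

theorem TYC_eq (w P q n1 j : ℕ) : TYC w P q n1 j = pk (2 ^ w) (LYC P q j) (64 * n1) := by
  unfold TYC cG cF sG sF cGi sGi cFi sFi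
  simp only [pkS_eq, pow_mul]
  rw [pk_outer _ (by norm_num), pk_outer _ (by norm_num), pk_outer _ (by norm_num),
    pk_outer _ (by norm_num), pk_add, pk_add, pk_sub]
  apply pk_congr
  intro i _
  have h : (i : ℤ) = 64 * ((i / 64 : ℕ) : ℤ) + ((i % 64 : ℕ) : ℤ) := by
    exact_mod_cast (Nat.div_add_mod i 64).symm
  unfold LYC cosL
  generalize (rotF P (64 * j) ((2 ^ q : ℕ) : ℤ) (i / 64)) = a
  generalize (rotF P j ((2 ^ q : ℕ) : ℤ) (i % 64)) = b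
  rw [h]
  push_cast
  ring

theorem TYS_eq (w P q n1 j : ℕ) : TYS w P q n1 j = pk (2 ^ w) (LYS P q j) (64 * n1) := by
  unfold TYS cG cF sG sF cGi sGi cFi sFi
  simp only [pkS_eq, pow_mul]
  rw [pk_outer _ (by norm_num), pk_outer _ (by norm_num), pk_outer _ (by norm_num),
    pk_outer _ (by norm_num), pk_add, pk_add, pk_add]
  apply pk_congr
  intro i _
  have h : (i : ℤ) = 64 * ((i / 64 : ℕ) : ℤ) + ((i % 64 : ℕ) : ℤ) := by
    exact_mod_cast (Nat.div_add_mod i 64).symm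
  unfold LYS sinL
  generalize (rotF P (64 * j) ((2 ^ q : ℕ) : ℤ) (i / 64)) = a
  generalize (rotF P j ((2 ^ q : ℕ) : ℤ) (i % 64)) = b
  rw [h]
  push_cast
  ring

/-- an integer lane function `L` approximates the real function `f` at scale `2^(2P+q+1)` -/
def Ap (P q n : ℕ) (g B : ℝ) (L : ℕ → ℤ) (f : ℝ → ℝ) : Prop :=
  ∀ i < n, |(L i : ℝ) - 2 ^ (2 * P + q + 1) * f (i / 2 ^ q)| ≤ g * 2 ^ (P + q + 11) ∧
    |f (i / 2 ^ q)| ≤ B

theorem Ap.add {P q n : ℕ} {g B g' B' : ℝ} {L L' : ℕ → ℤ} {f f' : ℝ → ℝ} (h : Ap P q n g B L f)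
    (h' : Ap P q n g' B' L' f') :
    Ap P q n (g + g') (B + B') (fun i => L i + L' i) (fun y => f y + f' y) := by
  intro i hi
  obtain ⟨h1, h2⟩ := h i hi
  obtain ⟨h3, h4⟩ := h' i hi
  constructor
  · have e : (((L i + L' i : ℤ)) : ℝ) - 2 ^ (2 * P + q + 1) * (f (i / 2 ^ q) + f' (i / 2 ^ q)) =
      ((L i : ℝ) - 2 ^ (2 * P + q + 1) * f (i / 2 ^ q)) +
      ((L' i : ℝ) - 2 ^ (2 * P + q + 1) * f' (i / 2 ^ q)) := by push_cast; ring
    beta_reduce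
    rw [e]
    refine (abs_add_le _ _).trans ?_
    linarith
  · exact (abs_add_le _ _).trans (add_le_add h2 h4)

theorem Ap.smul {P q n : ℕ} {g B : ℝ} {L : ℕ → ℤ} {f : ℝ → ℝ} (c : ℤ) (h : Ap P q n g B L f) :
    Ap P q n (|(c : ℝ)| * g) (|(c : ℝ)| * B) (fun i => c * L i) (fun y => c * f y) := by
  intro i hi
  obtain ⟨h1, h2⟩ := h i hi
  constructor
  · have e : (((c * L i : ℤ)) : ℝ) - 2 ^ (2 * P + q + 1) * (c * f (i / 2 ^ q)) =
      c * ((L i : ℝ) - 2 ^ (2 * P + q + 1) * f (i / 2 ^ q)) := by push_cast; ring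
    beta_reduce
    rw [e, abs_mul, mul_assoc]
    exact mul_le_mul_of_nonneg_left h1 (abs_nonneg _)
  · beta_reduce
    rw [abs_mul]
    exact mul_le_mul_of_nonneg_left h2 (abs_nonneg _)

theorem Ap.mono {P q n : ℕ} {g B g' B' : ℝ} {L : ℕ → ℤ} {f : ℝ → ℝ} (h : Ap P q n g B L f)
    (hg : g ≤ g') (hB : B ≤ B') : Ap P q n g' B' L f := by
  intro i hi
  obtain ⟨h1, h2⟩ := h i hi
  refine ⟨h1.trans ?_, h2.trans hB⟩
  gcongr

/-- lane functions at half scale -/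
theorem Ap_C {P q n j : ℕ} (hP0 : 20 ≤ P) (hP : P ≤ 70) (hq : 8 ≤ q) (hj : j ≤ 8)
    (hn : n ≤ 64 * 256) : Ap P q n 1 (1 / 2) (LC P q j) (fun y => Real.cos (j * y) / 2) := by
  intro i hi
  obtain ⟨h1, h2⟩ := cosL_sinL_err hP0 hP hq hj (show i < 64 * 256 by omega)
  constructor
  · have e : ((LC P q j i : ℤ) : ℝ) - 2 ^ (2 * P + q + 1) * (Real.cos (j * (i / 2 ^ q)) / 2) =
        2 ^ q * ((cosL P q j i : ℝ) - 2 ^ (2 * P) * Real.cos (j * (i / 2 ^ q))) := by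
      unfold LC
      push_cast
      rw [pow_add, pow_add]
      ring
    beta_reduce
    rw [e, abs_mul, abs_of_pos (by positivity : (0:ℝ) < 2 ^ q)]
    calc (2:ℝ) ^ q * |(cosL P q j i : ℝ) - 2 ^ (2 * P) * Real.cos (j * (i / 2 ^ q))| ≤
          2 ^ q * 2 ^ (P + 11) := by gcongr
      _ = 1 * 2 ^ (P + q + 11) := by rw [pow_add, pow_add, pow_add]; ring
  · beta_reduce
    rw [abs_div, abs_of_pos (by norm_num : (0:ℝ) < 2)]
    have := Real.abs_cos_le_one ((j : ℝ) * (i / 2 ^ q))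
    linarith

theorem Ap_S {P q n j : ℕ} (hP0 : 20 ≤ P) (hP : P ≤ 70) (hq : 8 ≤ q) (hj : j ≤ 8)
    (hn : n ≤ 64 * 256) : Ap P q n 1 (1 / 2) (LS P q j) (fun y => Real.sin (j * y) / 2) := by
  intro i hi
  obtain ⟨h1, h2⟩ := cosL_sinL_err hP0 hP hq hj (show i < 64 * 256 by omega)
  constructor
  · have e : ((LS P q j i : ℤ) : ℝ) - 2 ^ (2 * P + q + 1) * (Real.sin (j * (i / 2 ^ q)) / 2) =
        2 ^ q * ((sinL P q j i : ℝ) - 2 ^ (2 * P) * Real.sin (j * (i / 2 ^ q))) := by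
      unfold LS
      push_cast
      rw [pow_add, pow_add]
      ring
    beta_reduce
    rw [e, abs_mul, abs_of_pos (by positivity : (0:ℝ) < 2 ^ q)]
    calc (2:ℝ) ^ q * |(sinL P q j i : ℝ) - 2 ^ (2 * P) * Real.sin (j * (i / 2 ^ q))| ≤
          2 ^ q * 2 ^ (P + 11) := by gcongr
      _ = 1 * 2 ^ (P + q + 11) := by rw [pow_add, pow_add, pow_add]; ring
  · beta_reduce
    rw [abs_div, abs_of_pos (by norm_num : (0:ℝ) < 2)]
    have := Real.abs_sin_le_one ((j : ℝ) * (i / 2 ^ q))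
    linarith

theorem Ap_YC {P q n j : ℕ} (hP0 : 20 ≤ P) (hP : P ≤ 70) (hq : 8 ≤ q) (hj : j ≤ 8)
    (hn : n ≤ 64 * 256) (hnq : n ≤ 4 * 2 ^ q) :
    Ap P q n 4 2 (LYC P q j) (fun y => y * Real.cos (j * y) / 2) := by
  intro i hi
  obtain ⟨h1, h2⟩ := cosL_sinL_err hP0 hP hq hj (show i < 64 * 256 by omega)
  have hi4 : (i : ℝ) ≤ 4 * 2 ^ q := by exact_mod_cast (show i ≤ 4 * 2 ^ q by omega)
  have h2q : (0 : ℝ) < 2 ^ q := by positivity
  constructor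
  · have e : ((LYC P q j i : ℤ) : ℝ) - 2 ^ (2 * P + q + 1) * ((i / 2 ^ q) *
        Real.cos (j * (i / 2 ^ q)) / 2) =
        i * ((cosL P q j i : ℝ) - 2 ^ (2 * P) * Real.cos (j * (i / 2 ^ q))) := by
      unfold LYC
      push_cast
      rw [pow_add, pow_add]
      field_simp
    beta_reduce
    rw [e, abs_mul, abs_of_nonneg (by positivity : (0:ℝ) ≤ i)]
    calc (i : ℝ) * |(cosL P q j i : ℝ) - 2 ^ (2 * P) * Real.cos (j * (i / 2 ^ q))| ≤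
          (4 * 2 ^ q) * 2 ^ (P + 11) := by gcongr
      _ = 4 * 2 ^ (P + q + 11) := by rw [pow_add, pow_add, pow_add]; ring
  · beta_reduce
    have h3 : (i : ℝ) / 2 ^ q ≤ 4 := by rw [div_le_iff₀ h2q]; exact hi4
    rw [abs_div, abs_mul, abs_of_pos (by norm_num : (0:ℝ) < 2),
      abs_of_nonneg (by positivity : (0:ℝ) ≤ (i:ℝ) / 2 ^ q)]
    have := mul_le_mul h3 (Real.abs_cos_le_one ((j : ℝ) * (i / 2 ^ q))) (abs_nonneg _) (by norm_num)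
    linarith

theorem Ap_YS {P q n j : ℕ} (hP0 : 20 ≤ P) (hP : P ≤ 70) (hq : 8 ≤ q) (hj : j ≤ 8)
    (hn : n ≤ 64 * 256) (hnq : n ≤ 4 * 2 ^ q) :
    Ap P q n 4 2 (LYS P q j) (fun y => y * Real.sin (j * y) / 2) := by
  intro i hi
  obtain ⟨h1, h2⟩ := cosL_sinL_err hP0 hP hq hj (show i < 64 * 256 by omega)
  have hi4 : (i : ℝ) ≤ 4 * 2 ^ q := by exact_mod_cast (show i ≤ 4 * 2 ^ q by omega)
  have h2q : (0 : ℝ) < 2 ^ q := by positivity
  constructor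
  · have e : ((LYS P q j i : ℤ) : ℝ) - 2 ^ (2 * P + q + 1) * ((i / 2 ^ q) *
        Real.sin (j * (i / 2 ^ q)) / 2) =
        i * ((sinL P q j i : ℝ) - 2 ^ (2 * P) * Real.sin (j * (i / 2 ^ q))) := by
      unfold LYS
      push_cast
      rw [pow_add, pow_add]
      field_simp
    beta_reduce
    rw [e, abs_mul, abs_of_nonneg (by positivity : (0:ℝ) ≤ i)]
    calc (i : ℝ) * |(sinL P q j i : ℝ) - 2 ^ (2 * P) * Real.sin (j * (i / 2 ^ q))| ≤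
          (4 * 2 ^ q) * 2 ^ (P + 11) := by gcongr
      _ = 4 * 2 ^ (P + q + 11) := by rw [pow_add, pow_add, pow_add]; ring
  · beta_reduce
    have h3 : (i : ℝ) / 2 ^ q ≤ 4 := by rw [div_le_iff₀ h2q]; exact hi4
    rw [abs_div, abs_mul, abs_of_pos (by norm_num : (0:ℝ) < 2),
      abs_of_nonneg (by positivity : (0:ℝ) ≤ (i:ℝ) / 2 ^ q)]
    have := mul_le_mul h3 (Real.abs_sin_le_one ((j : ℝ) * (i / 2 ^ q))) (abs_nonneg _) (by norm_num)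
    linarith

end Pool.Agent.Lib_helper90d
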