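import Pool.Agent.Lib_helper90d.E3
import Pool.Agent.Lib_helper90d.E8

set_option autoImplicit false

open Finset

namespace Pool.Agent.Lib_helper90d

theorem Ap.congr {P q n : ℕ} {g B : ℝ} {L L' : ℕ → ℤ} {f f' : ℝ → ℝ} (h : Ap P q n g B L f)
    (hL : ∀ i, L' i = L i) (hf : ∀ y, f' y = f y) : Ap P q n g B L' f' := by
  intro i hi
  rw [hL, hf]
  exact h i hi

/-- parameters are in range -/
structure Good (P q n1 : ℕ) : Prop where
  hP0 : 20 ≤ P
  hP : P ≤ 70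
  hq : 8 ≤ q
  hn : n1 ≤ 256
  hnq : 64 * n1 ≤ 4 * 2 ^ q

section lanes

variable (P q : ℕ)

def lR0 (i : ℕ) : ℤ := (4 * LC P q 2 i + 4 * LYS P q 2 i) +
  (-2) * (LC P q 0 i + LC P q 4 i + LYS P q 4 i + LYC P q 1 i)
def lR1 (i : ℕ) : ℤ := 2 * LC P q 1 i + (-4) * LS P q 2 i + 2 * LS P q 4 i
def lR2 (i : ℕ) : ℤ := 2 * LC P q 0 i + (-2) * LC P q 2 i
def lR3 (i : ℕ) : ℤ := 2 * LYC P q 0 i + (-2) * LYC P q 2 i
def lO (i : ℕ) : ℤ := 2 * LC P q 0 i
def lY (i : ℕ) : ℤ := 2 * LYC P q 0 i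
def kk (k : ℕ) : ℕ := if k = 1 then 1 else k - 2
def sg (k : ℕ) : ℤ := if k = 1 then 1 else -1
def lA (k i : ℕ) : ℤ := 2 * LC P q k i + (-1) * LC P q (k + 2) i + (-1) * LC P q (kk k) i
def lB (k i : ℕ) : ℤ := 2 * LS P q k i + (-1) * LS P q (k + 2) i + sg k * LS P q (kk k) i
def lM (k i : ℕ) : ℤ := LS P q (k + 1) i + LS P q (k - 1) i

variable {P q} {n1 : ℕ}

theorem Ap_lR0 (h : Good P q n1) : Ap P q (64 * n1) 40 20 (lR0 P q) R0 := by
  have hn : 64 * n1 ≤ 64 * 256 := by have := h.hn; omega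
  have h0 := Ap_C (j := 0) h.hP0 h.hP h.hq (by norm_num) hn
  have h2 := Ap_C (j := 2) h.hP0 h.hP h.hq (by norm_num) hn
  have h4 := Ap_C (j := 4) h.hP0 h.hP h.hq (by norm_num) hn
  have s2 := Ap_YS (j := 2) h.hP0 h.hP h.hq (by norm_num) hn h.hnq
  have s4 := Ap_YS (j := 4) h.hP0 h.hP h.hq (by norm_num) hn h.hnq
  have c1 := Ap_YC (j := 1) h.hP0 h.hP h.hq (by norm_num) hn h.hnq
  have H := ((h2.smul 4).add (s2.smul 4)).add ((((h0.add h4).add s4).add c1).smul (-2))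
  refine (H.congr (fun i => rfl) (fun y => ?_)).mono ?_ ?_
  · unfold R0
    push_cast
    simp only [zero_mul, Real.cos_zero, one_mul]
    ring
  · norm_num
  · norm_num

theorem Ap_lR1 (h : Good P q n1) : Ap P q (64 * n1) 8 4 (lR1 P q) R1 := by
  have hn : 64 * n1 ≤ 64 * 256 := by have := h.hn; omega
  have h1 := Ap_C (j := 1) h.hP0 h.hP h.hq (by norm_num) hn
  have s2 := Ap_S (j := 2) h.hP0 h.hP h.hq (by norm_num) hn
  have s4 := Ap_S (j := 4) h.hP0 h.hP h.hq (by norm_num) hn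
  have H := ((h1.smul 2).add (s2.smul (-4))).add (s4.smul 2)
  refine (H.congr (fun i => rfl) (fun y => ?_)).mono ?_ ?_
  · unfold R1
    push_cast
    simp only [one_mul]
    ring
  · norm_num
  · norm_num

theorem Ap_lR2 (h : Good P q n1) : Ap P q (64 * n1) 4 2 (lR2 P q) R2 := by
  have hn : 64 * n1 ≤ 64 * 256 := by have := h.hn; omega
  have h0 := Ap_C (j := 0) h.hP0 h.hP h.hq (by norm_num) hn
  have h2 := Ap_C (j := 2) h.hP0 h.hP h.hq (by norm_num) hn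
  have H := (h0.smul 2).add (h2.smul (-2))
  refine (H.congr (fun i => rfl) (fun y => ?_)).mono ?_ ?_
  · unfold R2
    push_cast
    simp only [zero_mul, Real.cos_zero]
    ring
  · norm_num
  · norm_num

theorem Ap_lR3 (h : Good P q n1) : Ap P q (64 * n1) 16 8 (lR3 P q) R3 := by
  have hn : 64 * n1 ≤ 64 * 256 := by have := h.hn; omega
  have h0 := Ap_YC (j := 0) h.hP0 h.hP h.hq (by norm_num) hn h.hnq
  have h2 := Ap_YC (j := 2) h.hP0 h.hP h.hq (by norm_num) hn h.hnq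
  have H := (h0.smul 2).add (h2.smul (-2))
  refine (H.congr (fun i => rfl) (fun y => ?_)).mono ?_ ?_
  · unfold R3
    push_cast
    simp only [zero_mul, Real.cos_zero]
    ring
  · norm_num
  · norm_num

theorem Ap_lO (h : Good P q n1) : Ap P q (64 * n1) 2 1 (lO P q) (fun _ => 1) := by
  have hn : 64 * n1 ≤ 64 * 256 := by have := h.hn; omega
  have h0 := Ap_C (j := 0) h.hP0 h.hP h.hq (by norm_num) hn
  refine ((h0.smul 2).congr (fun i => rfl) (fun y => ?_)).mono ?_ ?_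
  · push_cast
    simp only [zero_mul, Real.cos_zero]
    ring
  · norm_num
  · norm_num

theorem Ap_lY (h : Good P q n1) : Ap P q (64 * n1) 8 4 (lY P q) (fun y => y) := by
  have hn : 64 * n1 ≤ 64 * 256 := by have := h.hn; omega
  have h0 := Ap_YC (j := 0) h.hP0 h.hP h.hq (by norm_num) hn h.hnq
  refine ((h0.smul 2).congr (fun i => rfl) (fun y => ?_)).mono ?_ ?_
  · push_cast
    simp only [zero_mul, Real.cos_zero]
    ring
  · norm_num
  · norm_num

theorem kk_cos {k : ℕ} (hk : 0 < k) (y : ℝ) : Real.cos ((kk k : ℕ) * y) =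
    Real.cos ((k : ℝ) * y - 2 * y) := by
  unfold kk
  split_ifs with h
  · subst h
    rw [← Real.cos_neg]
    congr 1
    push_cast; ring
  · rw [Nat.cast_sub (by omega)]
    congr 1
    push_cast; ring

theorem kk_sin {k : ℕ} (hk : 0 < k) (y : ℝ) : (sg k : ℝ) * Real.sin ((kk k : ℕ) * y) =
    - Real.sin ((k : ℝ) * y - 2 * y) := by
  unfold kk sg
  split_ifs with h
  · subst h
    rw [← Real.sin_neg]
    push_cast
    rw [one_mul]
    congr 1; ring
  · rw [Nat.cast_sub (by omega)]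
    push_cast
    rw [neg_one_mul]
    congr 2; ring

theorem kk_le {k : ℕ} (hk : k ≤ 6) : kk k ≤ 8 := by
  unfold kk; split_ifs <;> omega

theorem sg_abs (k : ℕ) : |(sg k : ℝ)| = 1 := by
  unfold sg; split_ifs <;> simp

theorem Ap_lA (h : Good P q n1) {k : ℕ} (hk0 : 0 < k) (hk : k ≤ 6) :
    Ap P q (64 * n1) 4 2 (lA P q k) (Ak k) := by
  have hn : 64 * n1 ≤ 64 * 256 := by have := h.hn; omega
  have h0 := Ap_C (j := k) h.hP0 h.hP h.hq (by omega) hn
  have h2 := Ap_C (j := k + 2) h.hP0 h.hP h.hq (by omega) hn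
  have h3 := Ap_C (j := kk k) h.hP0 h.hP h.hq (kk_le hk) hn
  have H := ((h0.smul 2).add (h2.smul (-1))).add (h3.smul (-1))
  refine (H.congr (fun i => rfl) (fun y => ?_)).mono ?_ ?_
  · unfold Ak
    rw [kk_cos hk0]
    push_cast
    rw [show ((k : ℝ) + 2) * y = k * y + 2 * y by ring, Real.cos_add, Real.cos_sub]
    ring
  · norm_num
  · norm_num

theorem Ap_lB (h : Good P q n1) {k : ℕ} (hk0 : 0 < k) (hk : k ≤ 6) :
    Ap P q (64 * n1) 4 2 (lB P q k) (Bk k) := by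
  have hn : 64 * n1 ≤ 64 * 256 := by have := h.hn; omega
  have h0 := Ap_S (j := k) h.hP0 h.hP h.hq (by omega) hn
  have h2 := Ap_S (j := k + 2) h.hP0 h.hP h.hq (by omega) hn
  have h3 := Ap_S (j := kk k) h.hP0 h.hP h.hq (kk_le hk) hn
  have H := ((h0.smul 2).add (h2.smul (-1))).add (h3.smul (sg k))
  refine (H.congr (fun i => rfl) (fun y => ?_)).mono ?_ ?_
  · unfold Bk
    have h4 := kk_sin hk0 y
    have h5 : (sg k : ℝ) * (Real.sin ((kk k : ℕ) * y) / 2) = - Real.sin ((k : ℝ) * y - 2 * y) / 2 := by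
      rw [← h4]; ring
    rw [h5]
    push_cast
    rw [show ((k : ℝ) + 2) * y = k * y + 2 * y by ring, Real.sin_add, Real.sin_sub]
    ring
  · rw [sg_abs]; norm_num
  · rw [sg_abs]; norm_num

theorem Ap_lM (h : Good P q n1) {k : ℕ} (hk0 : 0 < k) (hk : k ≤ 6) :
    Ap P q (64 * n1) 2 1 (lM P q k) (Mk k) := by
  have hn : 64 * n1 ≤ 64 * 256 := by have := h.hn; omega
  have h0 := Ap_S (j := k + 1) h.hP0 h.hP h.hq (by omega) hn
  have h2 := Ap_S (j := k - 1) h.hP0 h.hP h.hq (by omega) hn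
  refine ((h0.add h2).congr (fun i => rfl) (fun y => ?_)).mono ?_ ?_
  · unfold Mk
    rw [Nat.cast_sub (by omega)]
    push_cast
    rw [show ((k : ℝ) + 1) * y = k * y + y by ring, show ((k : ℝ) - 1) * y = k * y - y by ring,
      Real.sin_add, Real.sin_sub]
    ring
  · norm_num
  · norm_num

end lanes

section packed

variable (w P q n1 : ℕ)

def zR0 : ℤ := (4 * TC w P q n1 2 + 4 * TYS w P q n1 2) +
  (-2) * (TC w P q n1 0 + TC w P q n1 4 + TYS w P q n1 4 + TYC w P q n1 1)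
def zR1 : ℤ := 2 * TC w P q n1 1 + (-4) * TS w P q n1 2 + 2 * TS w P q n1 4
def zR2 : ℤ := 2 * TC w P q n1 0 + (-2) * TC w P q n1 2
def zR3 : ℤ := 2 * TYC w P q n1 0 + (-2) * TYC w P q n1 2
def zO : ℤ := 2 * TC w P q n1 0
def zY : ℤ := 2 * TYC w P q n1 0
def zA (k : ℕ) : ℤ := 2 * TC w P q n1 k + (-1) * TC w P q n1 (k + 2) + (-1) * TC w P q n1 (kk k)
def zB (k : ℕ) : ℤ := 2 * TS w P q n1 k + (-1) * TS w P q n1 (k + 2) + sg k * TS w P q n1 (kk k)
def zM (k : ℕ) : ℤ := TS w P q n1 (k + 1) + TS w P q n1 (k - 1)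

theorem zR0_eq : zR0 w P q n1 = pk (2 ^ w) (lR0 P q) (64 * n1) := by
  simp only [zR0, TC_eq, TYS_eq, TYC_eq, pk_smul, pk_add]; rfl
theorem zR1_eq : zR1 w P q n1 = pk (2 ^ w) (lR1 P q) (64 * n1) := by
  simp only [zR1, TC_eq, TS_eq, pk_smul, pk_add]; rfl
theorem zR2_eq : zR2 w P q n1 = pk (2 ^ w) (lR2 P q) (64 * n1) := by
  simp only [zR2, TC_eq, pk_smul, pk_add]; rfl
theorem zR3_eq : zR3 w P q n1 = pk (2 ^ w) (lR3 P q) (64 * n1) := by
  simp only [zR3, TYC_eq, pk_smul, pk_add]; rfl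
theorem zO_eq : zO w P q n1 = pk (2 ^ w) (lO P q) (64 * n1) := by
  simp only [zO, TC_eq, pk_smul]; rfl
theorem zY_eq : zY w P q n1 = pk (2 ^ w) (lY P q) (64 * n1) := by
  simp only [zY, TYC_eq, pk_smul]; rfl
theorem zA_eq (k : ℕ) : zA w P q n1 k = pk (2 ^ w) (lA P q k) (64 * n1) := by
  simp only [zA, TC_eq, pk_smul, pk_add]; rfl
theorem zB_eq (k : ℕ) : zB w P q n1 k = pk (2 ^ w) (lB P q k) (64 * n1) := by
  simp only [zB, TS_eq, pk_smul, pk_add]; rfl
theorem zM_eq (k : ℕ) : zM w P q n1 k = pk (2 ^ w) (lM P q k) (64 * n1) := by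
  simp only [zM, TS_eq, pk_add]; rfl

end packed

end Pool.Agent.Lib_helper90d
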