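import Pool.Agent.Lib_helper90d.Ident

set_option autoImplicit false

namespace Pool.Agent.Lib_helper90d

/-- the Cusa–Huygens inequality -/
theorem cusa {x : ℝ} (hx : 0 ≤ x) : 3 * Real.sin x ≤ x * (2 + Real.cos x) := by
  rcases le_or_gt x Real.pi with hxp | hxp
  · -- monotonicity on [0, π]
    have hmono : MonotoneOn (fun t : ℝ => t * (2 + Real.cos t) - 3 * Real.sin t)
        (Set.Icc 0 Real.pi) := by
      refine monotoneOn_of_deriv_nonneg (convex_Icc _ _) ?_ ?_ ?_
      · fun_prop
      · fun_prop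
      · intro t ht
        rw [interior_Icc] at ht
        have hd : HasDerivAt (fun t : ℝ => t * (2 + Real.cos t) - 3 * Real.sin t)
            (1 * (2 + Real.cos t) + t * (- Real.sin t) - 3 * Real.cos t) t := by
          refine HasDerivAt.sub (HasDerivAt.mul (hasDerivAt_id t)
            ((Real.hasDerivAt_cos t).const_add 2)) ((Real.hasDerivAt_sin t).const_mul 3)
        rw [hd.deriv]
        -- 2 - 2 cos t - t sin t = 2 sin(t/2) (2 sin (t/2) - t cos (t/2))
        have h1 : Real.cos t = 1 - 2 * Real.sin (t / 2) ^ 2 := by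
          have := Real.cos_sq' (t / 2)
          have h2 := Real.cos_two_mul (t / 2)
          rw [show 2 * (t / 2) = t by ring] at h2
          rw [h2, this]; ring
        have h2 : Real.sin t = 2 * Real.sin (t / 2) * Real.cos (t / 2) := by
          have h2 := Real.sin_two_mul (t / 2)
          rwa [show 2 * (t / 2) = t by ring] at h2
        have hs : 0 < Real.sin (t / 2) :=
          Real.sin_pos_of_pos_of_lt_pi (by linarith [ht.1]) (by linarith [ht.2, Real.pi_pos])
        have hc : 0 < Real.cos (t / 2) :=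
          Real.cos_pos_of_mem_Ioo ⟨by linarith [ht.1, Real.pi_pos], by linarith [ht.2]⟩
        have ht2 : t / 2 < Real.tan (t / 2) :=
          Real.lt_tan (by linarith [ht.1]) (by linarith [ht.2])
        rw [Real.tan_eq_sin_div_cos, lt_div_iff₀ hc] at ht2
        have : 1 * (2 + Real.cos t) + t * (- Real.sin t) - 3 * Real.cos t =
            4 * Real.sin (t / 2) * (Real.sin (t / 2) - t / 2 * Real.cos (t / 2)) := by
          rw [h1, h2]; ring
        rw [this]
        have : 0 ≤ Real.sin (t / 2) - t / 2 * Real.cos (t / 2) := by linarith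
        positivity
    have := hmono (Set.left_mem_Icc.mpr Real.pi_pos.le) ⟨hx, hxp⟩ hx
    simp at this
    linarith
  · have h1 := Real.sin_le_one x
    have h2 := Real.neg_one_le_cos x
    have h3 := Real.pi_gt_three
    nlinarith

theorem sin_sub_mul_cos_le {x : ℝ} (hx : 0 ≤ x) :
    Real.sin x - x * Real.cos x ≤ 4 / 3 * x * Real.sin (x / 2) ^ 2 := by
  have h := cusa hx
  have h1 : Real.cos x = 1 - 2 * Real.sin (x / 2) ^ 2 := by
    have := Real.cos_sq' (x / 2)
    have h2 := Real.cos_two_mul (x / 2)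
    rw [show 2 * (x / 2) = x by ring] at h2
    rw [h2, this]; ring
  rw [h1] at h ⊢
  nlinarith

/-- `sin x - x cos x ≥ 0` on `[0, π]` -/
theorem sin_sub_mul_cos_nonneg {x : ℝ} (hx : 0 ≤ x) (hxp : x ≤ Real.pi) :
    0 ≤ Real.sin x - x * Real.cos x := by
  rcases lt_or_ge x (Real.pi / 2) with h | h
  · rcases eq_or_lt_of_le hx with h0 | h0
    · rw [← h0]; simp
    · have := Real.lt_tan h0 h
      have hc : 0 < Real.cos x := Real.cos_pos_of_mem_Ioo ⟨by linarith [Real.pi_pos], h⟩
      rw [Real.tan_eq_sin_div_cos, lt_div_iff₀ hc] at this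
      linarith
  · have h1 : Real.cos x ≤ 0 := Real.cos_nonpos_of_pi_div_two_le_of_le h (by linarith [Real.pi_pos])
    have h2 : 0 ≤ Real.sin x := Real.sin_nonneg_of_nonneg_of_le_pi hx hxp
    nlinarith

noncomputable def Phi (a y : ℝ) : ℝ :=
  (y - a) / 2 * (Real.cos a / Real.sin a ^ 2 - Real.cos y / Real.sin y ^ 2)

theorem Psi_eq (a y : ℝ) : Psi a y = Phi a y -
    4 * Real.sin (a + y) * (Real.sin (y - a) - (y - a) * Real.cos (y - a)) := by
  have h1 : Real.cos (2 * a) - Real.cos (2 * y) = 2 * Real.sin (a + y) * Real.sin (y - a) := by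
    rw [Real.cos_sub_cos, show (2 * a + 2 * y) / 2 = a + y by ring,
      show (2 * a - 2 * y) / 2 = -(y - a) by ring, Real.sin_neg]
    ring
  have h2 : Real.sin (2 * a) + Real.sin (2 * y) = 2 * Real.sin (a + y) * Real.cos (y - a) := by
    rw [Real.sin_add_sin, show (2 * a + 2 * y) / 2 = a + y by ring,
      show (2 * a - 2 * y) / 2 = -(y - a) by ring, Real.cos_neg]
  unfold Psi Phi
  rw [h1, h2]
  ring

theorem Phi_eq {a y : ℝ} (ha : Real.sin a ≠ 0) (hy : Real.sin y ≠ 0) :
    Phi a y = (y - a) * Real.sin ((y - a) / 2) * Real.sin ((a + y) / 2) *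
      (1 + Real.cos a * Real.cos y) / (Real.sin a ^ 2 * Real.sin y ^ 2) := by
  have h1 : Real.cos a - Real.cos y = 2 * Real.sin ((a + y) / 2) * Real.sin ((y - a) / 2) := by
    rw [Real.cos_sub_cos, show (a - y) / 2 = -((y - a) / 2) by ring, Real.sin_neg]
    ring
  have h2 : Real.cos a * Real.sin y ^ 2 - Real.cos y * Real.sin a ^ 2 =
      (Real.cos a - Real.cos y) * (1 + Real.cos a * Real.cos y) := by
    rw [Real.sin_sq, Real.sin_sq]; ring
  unfold Phi
  have h3 : Real.cos a / Real.sin a ^ 2 - Real.cos y / Real.sin y ^ 2 =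
      (Real.cos a * Real.sin y ^ 2 - Real.cos y * Real.sin a ^ 2) /
      (Real.sin a ^ 2 * Real.sin y ^ 2) := by
    field_simp
  rw [h3, h2, h1]
  ring

/-- `sin a sin y = cos² d - cos² σ` -/
theorem sin_mul_sin_eq (a y : ℝ) : Real.sin a * Real.sin y =
    Real.cos ((y - a) / 2) ^ 2 - Real.cos ((a + y) / 2) ^ 2 := by
  have ha : a = (a + y) / 2 - (y - a) / 2 := by ring
  have hy : y = (a + y) / 2 + (y - a) / 2 := by ring
  have e1 : Real.sin a = Real.sin ((a + y) / 2 - (y - a) / 2) := by rw [← ha]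
  have e2 : Real.sin y = Real.sin ((a + y) / 2 + (y - a) / 2) := by rw [← hy]
  rw [e1, e2, Real.sin_sub, Real.sin_add]
  have h1 := Real.sin_sq ((a + y) / 2)
  have h2 := Real.sin_sq ((y - a) / 2)
  nlinarith

theorem one_add_cos_mul_cos_eq (a y : ℝ) : 1 + Real.cos a * Real.cos y =
    Real.cos ((y - a) / 2) ^ 2 + Real.cos ((a + y) / 2) ^ 2 := by
  have ha : a = (a + y) / 2 - (y - a) / 2 := by ring
  have hy : y = (a + y) / 2 + (y - a) / 2 := by ring
  have e1 : Real.cos a = Real.cos ((a + y) / 2 - (y - a) / 2) := by rw [← ha]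
  have e2 : Real.cos y = Real.cos ((a + y) / 2 + (y - a) / 2) := by rw [← hy]
  rw [e1, e2, Real.cos_sub, Real.cos_add]
  have h1 := Real.sin_sq ((a + y) / 2)
  have h2 := Real.sin_sq ((y - a) / 2)
  nlinarith

theorem Phi_nonneg {a y : ℝ} (ha0 : 0 < a) (hap : a < Real.pi) (hy0 : 0 < y) (hyp : y < Real.pi) :
    0 ≤ Phi a y := by
  have hsa := Real.sin_pos_of_pos_of_lt_pi ha0 hap
  have hsy := Real.sin_pos_of_pos_of_lt_pi hy0 hyp
  rw [Phi_eq hsa.ne' hsy.ne']
  have h1 : 0 < Real.sin ((a + y) / 2) :=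
    Real.sin_pos_of_pos_of_lt_pi (by linarith) (by linarith)
  have h2 : 0 ≤ 1 + Real.cos a * Real.cos y := by
    rw [one_add_cos_mul_cos_eq]; positivity
  have h3 : 0 ≤ (y - a) * Real.sin ((y - a) / 2) := by
    rcases le_total a y with h | h
    · have : 0 ≤ Real.sin ((y - a) / 2) :=
        Real.sin_nonneg_of_nonneg_of_le_pi (by linarith) (by linarith)
      have : 0 ≤ y - a := by linarith
      positivity
    · have : 0 ≤ Real.sin ((a - y) / 2) :=
        Real.sin_nonneg_of_nonneg_of_le_pi (by linarith) (by linarith)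
      rw [show (y - a) / 2 = -((a - y) / 2) by ring, Real.sin_neg]
      have : 0 ≤ a - y := by linarith
      nlinarith
  positivity

/-- polynomial inequality 1 -/
theorem poly1 {c k : ℝ} (hk : 0 ≤ k) (hkc : k ≤ c) :
    k * (c ^ 2 - k ^ 2) ^ 2 ≤ 61 / 250 * c ^ 3 * (c ^ 2 + k ^ 2) := by
  rcases eq_or_lt_of_le (hk.trans hkc) with h0 | hc
  · have : k = 0 := by linarith
    rw [this, ← h0]; simp
  · -- normalise
    set x := k / c with hx
    have hx0 : 0 ≤ x := by positivity
    have hx1 : x ≤ 1 := (div_le_one hc).mpr hkc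
    have hk' : k = x * c := by rw [hx]; field_simp
    have key : x * (1 - x ^ 2) ^ 2 ≤ 61 / 250 * (1 + x ^ 2) := by
      nlinarith [mul_nonneg hx0 (sq_nonneg (x - 39/100)), mul_nonneg (sub_nonneg.mpr hx1) (sq_nonneg (x - 39/100)), sq_nonneg (x - 39/100), mul_nonneg (mul_nonneg hx0 (sub_nonneg.mpr hx1)) (sq_nonneg (x - 39/100)), mul_nonneg (mul_nonneg hx0 hx0) (sq_nonneg (x - 39/100)), mul_nonneg (mul_nonneg (mul_nonneg hx0 hx0) (sub_nonneg.mpr hx1)) (sq_nonneg (x - 39/100))]
    rw [hk']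
    have e : x * c * (c ^ 2 - (x * c) ^ 2) ^ 2 = c ^ 5 * (x * (1 - x ^ 2) ^ 2) := by ring
    have e2 : 61 / 250 * c ^ 3 * (c ^ 2 + (x * c) ^ 2) = c ^ 5 * (61 / 250 * (1 + x ^ 2)) := by ring
    rw [e, e2]
    exact mul_le_mul_of_nonneg_left key (by positivity)

theorem poly2 {t : ℝ} : t * (1 - t) ^ 3 ≤ 27 / 256 := by
  nlinarith [mul_nonneg (sq_nonneg (t - 1/4)) (show 0 ≤ t ^ 2 - 5/2 * t + 27/16 by nlinarith [sq_nonneg (t - 5/4)])]

/-- `Ψ ≥ (3/20) Φ` -/
theorem Psi_ge {a y : ℝ} (ha0 : 0 < a) (hap : a ≤ Real.pi / 2) (hy0 : 0 < y) (hyp : y < Real.pi) :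
    3 / 20 * Phi a y ≤ Psi a y := by
  have hpi := Real.pi_pos
  have hPhi := Phi_nonneg ha0 (by linarith) hy0 hyp
  have hsa := Real.sin_pos_of_pos_of_lt_pi ha0 (by linarith)
  have hsy := Real.sin_pos_of_pos_of_lt_pi hy0 hyp
  rw [Psi_eq]
  rcases le_or_gt y a with h | h
  · -- y ≤ a
    have h1 : 0 ≤ Real.sin (a + y) := Real.sin_nonneg_of_nonneg_of_le_pi (by linarith) (by linarith)
    have h2 := sin_sub_mul_cos_nonneg (show 0 ≤ a - y by linarith) (by linarith)
    have h3 : Real.sin (y - a) - (y - a) * Real.cos (y - a) =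
        -(Real.sin (a - y) - (a - y) * Real.cos (a - y)) := by
      rw [show y - a = -(a - y) by ring, Real.sin_neg, Real.cos_neg]; ring
    rw [h3]
    nlinarith
  · rcases le_or_gt Real.pi (a + y) with h4 | h4
    · have h1 : Real.sin (a + y) ≤ 0 := by
        have : Real.sin (a + y) = - Real.sin (a + y - Real.pi) := by
          rw [Real.sin_sub_pi]; ring
        rw [this]
        have := Real.sin_nonneg_of_nonneg_of_le_pi (show 0 ≤ a + y - Real.pi by linarith)
          (by linarith)
        linarith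
      have h2 := sin_sub_mul_cos_nonneg (show 0 ≤ y - a by linarith) (by linarith)
      nlinarith
    · -- main case
      have hd0 : 0 < (y - a) / 2 := by linarith
      have hs0 : 0 < Real.sin ((a + y) / 2) :=
        Real.sin_pos_of_pos_of_lt_pi (by linarith) (by linarith)
      have hk0 : 0 < Real.cos ((a + y) / 2) :=
        Real.cos_pos_of_mem_Ioo ⟨by linarith, by linarith⟩
      have hw0 : 0 < Real.sin ((y - a) / 2) :=
        Real.sin_pos_of_pos_of_lt_pi (by linarith) (by linarith)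
      have hc0 : 0 < Real.cos ((y - a) / 2) :=
        Real.cos_pos_of_mem_Ioo ⟨by linarith, by linarith⟩
      have hkc : Real.cos ((a + y) / 2) ≤ Real.cos ((y - a) / 2) := by
        apply Real.cos_le_cos_of_nonneg_of_le_pi (by linarith) (by linarith) (by linarith)
      have h5 := sin_sub_mul_cos_le (show 0 ≤ y - a by linarith)
      have h6 : Real.sin (a + y) = 2 * Real.sin ((a + y) / 2) * Real.cos ((a + y) / 2) := by
        have := Real.sin_two_mul ((a + y) / 2)
        rwa [show 2 * ((a + y) / 2) = a + y by ring] at this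
      have h7 := poly1 hk0.le hkc
      set k := Real.cos ((a + y) / 2) with hk
      set c := Real.cos ((y - a) / 2) with hc
      set w := Real.sin ((y - a) / 2) with hw
      set s := Real.sin ((a + y) / 2) with hs
      have hwc : w ^ 2 = 1 - c ^ 2 := Real.sin_sq _
      have h8 : w * c ^ 3 ≤ 13 / 40 := by
        have h9 := poly2 (t := w ^ 2)
        have h10 : 1 - w ^ 2 = c ^ 2 := by linarith
        rw [h10] at h9
        have h11 : (w * c ^ 3) ^ 2 ≤ (13 / 40) ^ 2 := by nlinarith
        exact abs_le_of_sq_le_sq' h11 (by norm_num) |>.2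
      have hlhs : 4 * Real.sin (a + y) * (Real.sin (y - a) - (y - a) * Real.cos (y - a)) ≤
          (y - a) * w * s * (32 / 3 * k * w) := by
        rw [h6]
        have : 0 ≤ 4 * (2 * s * k) := by positivity
        calc 4 * (2 * s * k) * (Real.sin (y - a) - (y - a) * Real.cos (y - a))
            ≤ 4 * (2 * s * k) * (4 / 3 * (y - a) * w ^ 2) :=
              mul_le_mul_of_nonneg_left h5 this
          _ = _ := by ring
      have hPhi_eq : Phi a y = (y - a) * w * s * ((c ^ 2 + k ^ 2) / (c ^ 2 - k ^ 2) ^ 2) := by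
        rw [Phi_eq hsa.ne' hsy.ne', one_add_cos_mul_cos_eq, ← mul_pow, sin_mul_sin_eq]
        ring
      have hpk : 0 < c ^ 2 - k ^ 2 := by
        rw [hc, hk, ← sin_mul_sin_eq]; positivity
      have hfin : 32 / 3 * k * w ≤ 17 / 20 * ((c ^ 2 + k ^ 2) / (c ^ 2 - k ^ 2) ^ 2) := by
        rw [← mul_div_assoc, le_div_iff₀ (by positivity)]
        have h12 : 32 / 3 * k * w * (c ^ 2 - k ^ 2) ^ 2 = 32 / 3 * w * (k * (c ^ 2 - k ^ 2) ^ 2) := by
          ring
        rw [h12]
        have h13 : 32 / 3 * w * (k * (c ^ 2 - k ^ 2) ^ 2) ≤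
            32 / 3 * w * (61 / 250 * c ^ 3 * (c ^ 2 + k ^ 2)) :=
          mul_le_mul_of_nonneg_left h7 (by positivity)
        refine h13.trans ?_
        have h14 : 32 / 3 * w * (61 / 250 * c ^ 3 * (c ^ 2 + k ^ 2)) =
            (32 / 3 * (61 / 250) * (w * c ^ 3)) * (c ^ 2 + k ^ 2) := by ring
        rw [h14]
        refine mul_le_mul_of_nonneg_right ?_ (by positivity)
        linarith
      have hpre : 0 ≤ (y - a) * w * s := by
        have : 0 < y - a := by linarith
        positivity
      have := mul_le_mul_of_nonneg_left hfin hpre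
      rw [hPhi_eq]
      nlinarith

theorem Phi_pos {a y : ℝ} (ha0 : 0 < a) (hap : a < Real.pi) (hy0 : 0 < y) (hyp : y < Real.pi)
    (hne : y ≠ a) : 0 < Phi a y := by
  have hsa := Real.sin_pos_of_pos_of_lt_pi ha0 hap
  have hsy := Real.sin_pos_of_pos_of_lt_pi hy0 hyp
  rw [Phi_eq hsa.ne' hsy.ne']
  have h1 : 0 < Real.sin ((a + y) / 2) :=
    Real.sin_pos_of_pos_of_lt_pi (by linarith) (by linarith)
  have h2 : 0 < 1 + Real.cos a * Real.cos y := by
    rw [one_add_cos_mul_cos_eq]
    have : 0 < Real.cos ((y - a) / 2) :=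
      Real.cos_pos_of_mem_Ioo ⟨by linarith, by linarith⟩
    positivity
  have h3 : 0 < (y - a) * Real.sin ((y - a) / 2) := by
    rcases lt_or_gt_of_ne hne with h | h
    · have : 0 < Real.sin ((a - y) / 2) :=
        Real.sin_pos_of_pos_of_lt_pi (by linarith) (by linarith)
      rw [show (y - a) / 2 = -((a - y) / 2) by ring, Real.sin_neg]
      have : 0 < a - y := by linarith
      nlinarith
    · have : 0 < Real.sin ((y - a) / 2) :=
        Real.sin_pos_of_pos_of_lt_pi (by linarith) (by linarith)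
      have : 0 < y - a := by linarith
      positivity
  positivity

end Pool.Agent.Lib_helper90d
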