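import Pool.Agent.Lib_helper90d.Func

set_option autoImplicit false

namespace Pool.Agent.Lib_helper90d

/-- `Ψ ≥ (1 - 7 sin² a) Φ` for small `a` -/
theorem Psi_ge_small {a y : ℝ} (ha0 : 0 < a) (hap : a ≤ 1 / 5) (hy0 : 0 < y) (hyp : y < Real.pi) :
    (1 - 7 * Real.sin a ^ 2) * Phi a y ≤ Psi a y := by
  have hpi := Real.pi_gt_three
  have hPhi := Phi_nonneg ha0 (by linarith) hy0 hyp
  have hsa := Real.sin_pos_of_pos_of_lt_pi ha0 (by linarith)
  have hsy := Real.sin_pos_of_pos_of_lt_pi hy0 hyp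
  have hsq : 0 ≤ 7 * Real.sin a ^ 2 * Phi a y := by positivity
  rw [Psi_eq]
  rcases le_or_gt y a with h | h
  · have h1 : 0 ≤ Real.sin (a + y) := Real.sin_nonneg_of_nonneg_of_le_pi (by linarith) (by linarith)
    have h2 := sin_sub_mul_cos_nonneg (show 0 ≤ a - y by linarith) (by linarith)
    have h3 : Real.sin (y - a) - (y - a) * Real.cos (y - a) =
        -(Real.sin (a - y) - (a - y) * Real.cos (a - y)) := by
      rw [show y - a = -(a - y) by ring, Real.sin_neg, Real.cos_neg]; ring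
    rw [h3]
    nlinarith
  · rcases le_or_gt Real.pi (a + y) with h4 | h4
    · have h1 : Real.sin (a + y) ≤ 0 := by
        have : Real.sin (a + y) = - Real.sin (a + y - Real.pi) := by
          rw [Real.sin_sub_pi]; ring
        rw [this]
        have := Real.sin_nonneg_of_nonneg_of_le_pi (show 0 ≤ a + y - Real.pi by linarith)
          (by linarith)
        linarith
      have h2 := sin_sub_mul_cos_nonneg (show 0 ≤ y - a by linarith) (by linarith)
      nlinarith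
    · have hs0 : 0 < Real.sin ((a + y) / 2) :=
        Real.sin_pos_of_pos_of_lt_pi (by linarith) (by linarith)
      have hk0 : 0 < Real.cos ((a + y) / 2) :=
        Real.cos_pos_of_mem_Ioo ⟨by linarith, by linarith⟩
      have hw0 : 0 < Real.sin ((y - a) / 2) :=
        Real.sin_pos_of_pos_of_lt_pi (by linarith) (by linarith)
      have h5 := sin_sub_mul_cos_le (show 0 ≤ y - a by linarith)
      have h6 : Real.sin (a + y) = 2 * Real.sin ((a + y) / 2) * Real.cos ((a + y) / 2) := by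
        have := Real.sin_two_mul ((a + y) / 2)
        rwa [show 2 * ((a + y) / 2) = a + y by ring] at this
      -- k w ≤ sin y / 2
      have h7 : Real.cos ((a + y) / 2) ≤ Real.cos (y / 2) :=
        Real.cos_le_cos_of_nonneg_of_le_pi (by linarith) (by linarith) (by linarith)
      have h8 : Real.sin ((y - a) / 2) ≤ Real.sin (y / 2) := by
        apply Real.sin_le_sin_of_le_of_le_pi_div_two (by linarith) (by linarith) (by linarith)
      have h9 : Real.sin y = 2 * Real.sin (y / 2) * Real.cos (y / 2) := by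
        have := Real.sin_two_mul (y / 2)
        rwa [show 2 * (y / 2) = y by ring] at this
      have h10 : Real.cos ((a + y) / 2) * Real.sin ((y - a) / 2) ≤ Real.sin y / 2 := by
        rw [h9]
        nlinarith
      have hca : 49 / 50 ≤ Real.cos a := by
        have := Real.one_sub_sq_div_two_le_cos (x := a)
        nlinarith
      have hca1 : Real.cos a ≤ 1 := Real.cos_le_one a
      have h11 : 16 / 3 * Real.sin y ^ 3 ≤ 7 * (1 + Real.cos a * Real.cos y) := by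
        set C := Real.cos y with hC
        set s := Real.sin y with hs
        have hsC : s ^ 2 = 1 - C ^ 2 := Real.sin_sq _
        have hC1 : -1 ≤ C := Real.neg_one_le_cos _
        have hC2 : C ≤ 1 := Real.cos_le_one _
        rcases le_total C 0 with hC0 | hC0
        · have hb : s * (1 - C) ≤ 13 / 10 := by
            have h12 := poly2 (t := (1 + C) / 2)
            have h13 : (s * (1 - C)) ^ 2 ≤ (13 / 10) ^ 2 := by
              rw [mul_pow, hsC]
              nlinarith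
            exact abs_le_of_sq_le_sq' h13 (by norm_num) |>.2
          have e : s ^ 3 = (s * (1 - C)) * (1 + C) := by
            have : s ^ 3 = s * s ^ 2 := by ring
            rw [this, hsC]; ring
          rw [e]
          nlinarith [mul_nonneg (sub_nonneg.mpr hb) (show 0 ≤ 1 + C by linarith),
            mul_nonneg (sub_nonneg.mpr hca1) (neg_nonneg.mpr hC0)]
        · have hs1 : s ≤ 1 := Real.sin_le_one _
          have h14 : s ^ 3 ≤ 1 - C ^ 2 := by
            have : s ^ 3 = s * s ^ 2 := by ring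
            rw [this, hsC]
            nlinarith [sq_nonneg C, mul_nonneg (sub_nonneg.mpr hs1) (show 0 ≤ 1 - C ^ 2 by rw [← hsC]; positivity)]
          nlinarith [mul_nonneg hC0 (sub_nonneg.mpr hca), sq_nonneg C]
      set k := Real.cos ((a + y) / 2) with hk
      set w := Real.sin ((y - a) / 2) with hw
      set s := Real.sin ((a + y) / 2) with hs
      have hlhs : 4 * Real.sin (a + y) * (Real.sin (y - a) - (y - a) * Real.cos (y - a)) ≤
          (y - a) * w * s * (32 / 3 * (k * w)) := by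
        rw [h6]
        have : 0 ≤ 4 * (2 * s * k) := by positivity
        calc 4 * (2 * s * k) * (Real.sin (y - a) - (y - a) * Real.cos (y - a))
            ≤ 4 * (2 * s * k) * (4 / 3 * (y - a) * w ^ 2) :=
              mul_le_mul_of_nonneg_left h5 this
          _ = _ := by ring
      have hpre : 0 ≤ (y - a) * w * s := by
        have : 0 < y - a := by linarith
        positivity
      have hfin : 32 / 3 * (k * w) ≤ 7 * ((1 + Real.cos a * Real.cos y) / Real.sin y ^ 2) := by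
        rw [← mul_div_assoc, le_div_iff₀ (by positivity)]
        have h16 := mul_le_mul_of_nonneg_right h10 (show 0 ≤ Real.sin y ^ 2 by positivity)
        have h17 : Real.sin y / 2 * Real.sin y ^ 2 = Real.sin y ^ 3 / 2 := by ring
        rw [h17] at h16
        linarith
      have h15 : 7 * Real.sin a ^ 2 * Phi a y = (y - a) * w * s *
          (7 * ((1 + Real.cos a * Real.cos y) / Real.sin y ^ 2)) := by
        rw [Phi_eq hsa.ne' hsy.ne', ← hw, ← hs]
        field_simp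
      have h18 := mul_le_mul_of_nonneg_left hfin hpre
      have h19 : (1 - 7 * Real.sin a ^ 2) * Phi a y = Phi a y - 7 * Real.sin a ^ 2 * Phi a y := by
        ring
      rw [h19, h15]
      linarith

theorem polyB {u : ℝ} (hu0 : 877 / 1000 ≤ u) :
    3 / 2 ≤ 3 * u ^ 2 * (1 + 2 * u ^ 4) - (1 - u ^ 2) * u * (4 + 3 * u) * (1 + 2 * u ^ 2) := by
  -- put u = 877/1000 + t
  obtain ⟨t, ht⟩ : ∃ t, t = u - 877 / 1000 := ⟨_, rfl⟩
  have ht0 : 0 ≤ t := by linarith
  have hu : u = 877 / 1000 + t := by linarith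
  have e : 3 * u ^ 2 * (1 + 2 * u ^ 4) - (1 - u ^ 2) * u * (4 + 3 * u) * (1 + 2 * u ^ 2) - 3 / 2 =
    12 * u ^ 6 + 8 * u ^ 5 - 3 * u ^ 4 - 4 * u ^ 3 - 4 * u - 3 / 2 := by ring
  have : 0 ≤ 12 * u ^ 6 + 8 * u ^ 5 - 3 * u ^ 4 - 4 * u ^ 3 - 4 * u - 3 / 2 := by
    rw [hu]
    ring_nf
    positivity
  linarith

theorem polyC {u q : ℝ} (hu1 : u ≤ 1) (hu0 : 0 ≤ u) (hq : 0 ≤ q) (hq1 : q ≤ 1 / 10) :
    6 * u ^ 2 * (1 + 2 * u ^ 4) * q ^ 2 ≤ 18 / 100 := by
  have h1 : u ^ 2 ≤ 1 := pow_le_one₀ hu0 hu1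
  have h2 : u ^ 4 ≤ 1 := pow_le_one₀ hu0 hu1
  have h3 : q ^ 2 ≤ (1 / 10) ^ 2 := by gcongr
  have h4 : 6 * u ^ 2 * (1 + 2 * u ^ 4) ≤ 6 * 1 * (1 + 2 * 1) := by gcongr
  calc 6 * u ^ 2 * (1 + 2 * u ^ 4) * q ^ 2 ≤ (6 * 1 * (1 + 2 * 1)) * (1 / 10) ^ 2 := by gcongr
    _ = 18 / 100 := by norm_num

theorem polyK {u v q : ℝ} (hu1 : u ≤ 1) (hu0 : 877 / 1000 ≤ u) (hv : 0 ≤ v)
    (hv2 : v ≤ 1 / 2) (hq : 0 ≤ q) (hq1 : q ≤ 1 / 10) :
    753 / 100 * u * (1 + 2 * u ^ 4) + (1 + 2 * u ^ 2) * (1 - u ^ 2) * (2 + 3 * u)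
        + (1 + 2 * u ^ 2) * (1 - u ^ 2) * v * q - 306 / 100 * u * (1 + 2 * u ^ 4) * q ^ 2 ≤ 23 := by
  have hu00 : 0 ≤ u := by linarith
  have h6 : 0 ≤ 306 / 100 * u * (1 + 2 * u ^ 4) * q ^ 2 := by positivity
  have h11 : u + 2 * u ^ 5 ≤ 3 - 8 * (1 - u) := by
    have : 0 ≤ (1 - u) * (2 * u ^ 4 + 2 * u ^ 3 + 2 * u ^ 2 + 2 * u - 5) := by
      apply mul_nonneg (by linarith)
      have h2 : (877 / 1000 : ℝ) ^ 2 ≤ u ^ 2 := by gcongr
      have h3 : (877 / 1000 : ℝ) ^ 3 ≤ u ^ 3 := by gcongr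
      have h4 : (877 / 1000 : ℝ) ^ 4 ≤ u ^ 4 := by gcongr
      norm_num at h2 h3 h4
      linarith
    have e : (1 - u) * (2 * u ^ 4 + 2 * u ^ 3 + 2 * u ^ 2 + 2 * u - 5) =
      3 - 8 * (1 - u) - (u + 2 * u ^ 5) := by ring
    rw [e] at this
    linarith
  have h2 : u ^ 2 ≤ 1 := pow_le_one₀ hu00 hu1
  have h12 : (1 + 2 * u ^ 2) * (1 - u ^ 2) * (2 + 3 * u) ≤ 30 * (1 - u) := by
    have e : (1 + 2 * u ^ 2) * (1 - u ^ 2) * (2 + 3 * u) =
        ((1 + 2 * u ^ 2) * (1 + u) * (2 + 3 * u)) * (1 - u) := by ring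
    rw [e]
    refine mul_le_mul_of_nonneg_right ?_ (by linarith)
    calc (1 + 2 * u ^ 2) * (1 + u) * (2 + 3 * u) ≤ (1 + 2 * 1) * (1 + 1) * (2 + 3 * 1) := by gcongr
      _ = 30 := by norm_num
  have h13 : (1 + 2 * u ^ 2) * (1 - u ^ 2) * v * q ≤ (1 + 2 * 1) * (1 - u ^ 2) * (1 / 2) * (1 / 10) := by
    have : 0 ≤ 1 - u ^ 2 := by linarith
    gcongr
  have h14 : 1 - u ^ 2 ≤ 2 * (1 - u) := by nlinarith [sq_nonneg (1 - u)]
  have e1 : 753 / 100 * u * (1 + 2 * u ^ 4) = 753 / 100 * (u + 2 * u ^ 5) := by ring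
  rw [e1]
  linarith

/-- the polynomial inequality for `P1` -/
theorem polyE {u v q : ℝ} (hu1 : u ≤ 1) (hu0 : 877 / 1000 ≤ u) (hv : 0 ≤ v)
    (huv : u ^ 2 + v ^ 2 = 1) (hq : 0 ≤ q) (hq1 : q ≤ 1 / 10) :
    v * (u + v * q) ^ 2 * (2 + u + v * q) * (1 + 2 * u ^ 2) ≤
    3 * u * (v * (1 - 51 / 100 * q ^ 2) + u * q) * (1 - 2 * q ^ 2) * (1 + 2 * u ^ 4) := by
  have hu00 : 0 ≤ u := by linarith
  have hv1 : v ^ 2 = 1 - u ^ 2 := by linarith
  have hvle : v ≤ 1 / 2 := by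
    have h1 : (877 / 1000 : ℝ) ^ 2 ≤ u ^ 2 := by gcongr
    have : v ^ 2 ≤ (1 / 2) ^ 2 := by norm_num at h1 ⊢; linarith
    exact abs_le_of_sq_le_sq' this (by norm_num) |>.2
  have hA0 : 0 ≤ u * (1 - u) ^ 2 * (4 * u ^ 2 + 4 * u + 3) := by positivity
  -- exact expansion
  have hexp : 3 * u * (v * (1 - 51 / 100 * q ^ 2) + u * q) * (1 - 2 * q ^ 2) * (1 + 2 * u ^ 4) -
      v * (u + v * q) ^ 2 * (2 + u + v * q) * (1 + 2 * u ^ 2) =
      v * (u * (1 - u) ^ 2 * (4 * u ^ 2 + 4 * u + 3)) +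
      q * ((3 * u ^ 2 * (1 + 2 * u ^ 4) - v ^ 2 * u * (4 + 3 * u) * (1 + 2 * u ^ 2)) -
        6 * u ^ 2 * (1 + 2 * u ^ 4) * q ^ 2) -
      q ^ 2 * v * (753 / 100 * u * (1 + 2 * u ^ 4) + (1 + 2 * u ^ 2) * v ^ 2 * (2 + 3 * u)
        + (1 + 2 * u ^ 2) * v ^ 2 * v * q - 306 / 100 * u * (1 + 2 * u ^ 4) * q ^ 2) := by
    ring
  rw [hv1] at hexp
  have hB1 := polyB hu0
  have hC := polyC hu1 hu00 hq hq1
  have hK := polyK hu1 hu0 hv hvle hq hq1
  have hlast := mul_le_mul_of_nonneg_left hK (show 0 ≤ q ^ 2 * v by positivity)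
  have h1 : q ^ 2 * v * 23 ≤ q * (115 / 100) := by
    have h2 : q * v ≤ 1 / 10 * (1 / 2) := by gcongr
    have e : q ^ 2 * v * 23 = q * (q * v * 23) := by ring
    rw [e]
    apply mul_le_mul_of_nonneg_left _ hq
    linarith
  have h3 : q * (3 / 2 - 18 / 100) ≤ q * ((3 * u ^ 2 * (1 + 2 * u ^ 4) -
      (1 - u ^ 2) * u * (4 + 3 * u) * (1 + 2 * u ^ 2)) -
        6 * u ^ 2 * (1 + 2 * u ^ 4) * q ^ 2) := by
    apply mul_le_mul_of_nonneg_left _ hq
    linarith
  have h4 := mul_nonneg hv hA0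
  linarith

theorem cos_half_ge : 877 / 1000 ≤ Real.cos (1 / 2) := by
  have h1 := Real.one_sub_sq_div_two_le_cos (x := 1 / 8)
  have h2 : Real.cos (1 / 4) = 2 * Real.cos (1 / 8) ^ 2 - 1 := by
    rw [← Real.cos_two_mul]; norm_num
  have h3 : Real.cos (1 / 2) = 2 * Real.cos (1 / 4) ^ 2 - 1 := by
    rw [← Real.cos_two_mul]; norm_num
  norm_num at h1
  have h4 : (96887 / 100000 : ℝ) ≤ Real.cos (1 / 4) := by
    rw [h2]; nlinarith
  rw [h3]; nlinarith

theorem T_poly {u v p q : ℝ} (hu0 : 0 < u) (hu1 : u ≤ 1) (hv0 : 0 < v) (hp0 : 0 < p) (hp1 : p ≤ 1)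
    (hq0 : 0 < q) (hql : q ≤ 1 / 10) (hul : 877 / 1000 ≤ u) (huv : u ^ 2 + v ^ 2 = 1)
    (hpq : p ^ 2 + q ^ 2 = 1) :
    2 * (2 * v * u) * (u * p + v * q) ^ 2 * (2 + (u * p + v * q)) * (2 + (2 * u ^ 2 - 1)) ≤
    3 * (v * p + u * q) * (1 + (1 - 2 * q ^ 2) * (2 * u ^ 2 - 1)) *
      (3 + 2 * (2 * u ^ 2 - 1) + (2 * u ^ 2 - 1) ^ 2) := by
  have hE := polyE hu1 hul hv0.le huv hq0.le hql
  have hq2 : q ^ 2 ≤ (1 / 10) ^ 2 := by gcongr
  have hp2 : 1 - 51 / 100 * q ^ 2 ≤ p := by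
    have h1 : (1 - 51 / 100 * q ^ 2) ^ 2 ≤ p ^ 2 := by
      have : p ^ 2 = 1 - q ^ 2 := by linarith
      rw [this]
      nlinarith [sq_nonneg q]
    exact abs_le_of_sq_le_sq' h1 hp0.le |>.2
  have h1 : 2 * (2 * v * u) * (u * p + v * q) ^ 2 * (2 + (u * p + v * q)) * (2 + (2 * u ^ 2 - 1))
      ≤ 4 * u * (v * (u + v * q) ^ 2 * (2 + u + v * q) * (1 + 2 * u ^ 2)) := by
    have e : 4 * u * (v * (u + v * q) ^ 2 * (2 + u + v * q) * (1 + 2 * u ^ 2)) =
      2 * (2 * v * u) * (u + v * q) ^ 2 * (2 + (u + v * q)) * (1 + 2 * u ^ 2) := by ring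
    have e' : 2 + (2 * u ^ 2 - 1) = 1 + 2 * u ^ 2 := by ring
    rw [e, e']
    have h3 : u * p ≤ u := mul_le_of_le_one_right hu0.le hp1
    gcongr
  have h2 : 4 * u * (3 * u * (v * (1 - 51 / 100 * q ^ 2) + u * q) * (1 - 2 * q ^ 2) *
      (1 + 2 * u ^ 4)) ≤ 3 * (v * p + u * q) * (1 + (1 - 2 * q ^ 2) * (2 * u ^ 2 - 1)) *
    (3 + 2 * (2 * u ^ 2 - 1) + (2 * u ^ 2 - 1) ^ 2) := by
    have e : 3 * (v * p + u * q) * (1 + (1 - 2 * q ^ 2) * (2 * u ^ 2 - 1)) *
      (3 + 2 * (2 * u ^ 2 - 1) + (2 * u ^ 2 - 1) ^ 2) =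
      12 * (v * p + u * q) * (u ^ 2 * (1 - 2 * q ^ 2) + q ^ 2) * (1 + 2 * u ^ 4) := by ring
    have e2 : 4 * u * (3 * u * (v * (1 - 51 / 100 * q ^ 2) + u * q) * (1 - 2 * q ^ 2) *
      (1 + 2 * u ^ 4)) = 12 * (v * (1 - 51 / 100 * q ^ 2) + u * q) *
      (u ^ 2 * (1 - 2 * q ^ 2)) * (1 + 2 * u ^ 4) := by ring
    rw [e, e2]
    have h5 : 0 ≤ 1 - 2 * q ^ 2 := by norm_num at hq2; linarith
    have h6 : u ^ 2 * (1 - 2 * q ^ 2) ≤ u ^ 2 * (1 - 2 * q ^ 2) + q ^ 2 :=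
      le_add_of_nonneg_right (sq_nonneg q)
    have h7 : 0 ≤ u ^ 2 * (1 - 2 * q ^ 2) := mul_nonneg (sq_nonneg u) h5
    gcongr
  exact h1.trans ((mul_le_mul_of_nonneg_left hE (by positivity)).trans h2)

theorem key_alg {w cd sg S C X y dl : ℝ} (hw : 0 < w) (hcd : 0 < cd) (hsg : 0 < sg) (hS : 0 < S)
    (hC1 : 0 < 2 + C) (hX : 0 ≤ X) (hdl : 0 < dl)
    (hcusa1 : 3 * w ≤ dl / 2 * (2 + cd)) (hcusa2 : 3 * S ≤ y * (2 + C))
    (hT : 2 * S * cd ^ 2 * (2 + cd) * (2 + C) ≤ 3 * sg * X * (3 + 2 * C + C ^ 2)) :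
    4 * w * cd ^ 2 * S ^ 2 ≤ dl * sg * X * (y + S * C) := by
  have h1 : 6 * w ≤ dl * (2 + cd) := by linarith
  have h2 : S * (3 + 2 * C + C ^ 2) ≤ (y + S * C) * (2 + C) := by nlinarith
  have h3 : 0 ≤ 3 + 2 * C + C ^ 2 := by nlinarith [sq_nonneg (C + 1)]
  have hD : 0 < (2 + cd) * (2 + C) := by positivity
  have h4 : (6 * w) * (S * (3 + 2 * C + C ^ 2)) ≤ (dl * (2 + cd)) * ((y + S * C) * (2 + C)) := by
    apply mul_le_mul h1 h2 (by positivity) (by positivity)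
  have h5 : (4 * w * cd ^ 2 * S ^ 2) * ((2 + cd) * (2 + C)) ≤
      (dl * sg * X * (y + S * C)) * ((2 + cd) * (2 + C)) := by
    calc (4 * w * cd ^ 2 * S ^ 2) * ((2 + cd) * (2 + C)) =
        (2 * w * S) * (2 * S * cd ^ 2 * (2 + cd) * (2 + C)) := by ring
      _ ≤ (2 * w * S) * (3 * sg * X * (3 + 2 * C + C ^ 2)) :=
          mul_le_mul_of_nonneg_left hT (by positivity)
      _ = (sg * X) * ((6 * w) * (S * (3 + 2 * C + C ^ 2))) := by ring
      _ ≤ (sg * X) * ((dl * (2 + cd)) * ((y + S * C) * (2 + C))) :=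
          mul_le_mul_of_nonneg_left h4 (by positivity)
      _ = _ := by ring
  exact le_of_mul_le_mul_right h5 hD

theorem low_alg {w cd sg S C c y dl : ℝ} (hw : 0 ≤ w) (hcd : cd ^ 2 ≤ 1) (hS : 0 < S)
    (hss : S ≤ sg) (hyS : S ≤ y) (hc : 49 / 50 ≤ c) (hC : 49 / 50 ≤ C) (hdl : 2 * w ≤ dl) :
    (-(2 * w * cd)) ^ 2 * S ^ 2 ≤ dl * w * sg * (1 + c * C) * (y + S * C) := by
  have h1 : S * (1 + C) ≤ y + S * C := by nlinarith
  have hcC : (49 / 50) * (49 / 50) ≤ c * C := mul_le_mul hc hC (by norm_num) (by linarith)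
  have hcC0 : 0 ≤ c * C := by linarith
  have h2 : 2 ≤ (1 + c * C) * (1 + C) := by nlinarith
  have hC0 : 0 ≤ 1 + C := by linarith
  have hsg : 0 ≤ sg := by linarith
  have h3 : 2 * S ^ 2 ≤ sg * (1 + c * C) * (y + S * C) := by
    calc 2 * S ^ 2 ≤ ((1 + c * C) * (1 + C)) * S ^ 2 := mul_le_mul_of_nonneg_right h2 (by positivity)
      _ = S * (1 + c * C) * (S * (1 + C)) := by ring
      _ ≤ sg * (1 + c * C) * (y + S * C) := by
          apply mul_le_mul _ h1 (by positivity) (by positivity)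
          exact mul_le_mul_of_nonneg_right hss (by positivity)
  have h4 : 0 ≤ dl := by linarith
  calc (-(2 * w * cd)) ^ 2 * S ^ 2 = (2 * w) * w * (2 * S ^ 2) * cd ^ 2 := by ring
    _ ≤ (2 * w) * w * (2 * S ^ 2) * 1 := by gcongr
    _ = (2 * w) * w * (2 * S ^ 2) := by ring
    _ ≤ dl * w * (sg * (1 + c * C) * (y + S * C)) := by gcongr
    _ = _ := by ring

/-- `P1` for `a < y ≤ 1` -/
theorem P1_mid {a y : ℝ} (ha0 : 0 < a) (hap : a ≤ 1 / 5) (hya : a < y) (hy1 : y ≤ 1) :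
    Real.sin (y - a) ^ 2 ≤ Phi a y * (y + Real.sin y * Real.cos y) * Real.sin a ^ 2 := by
  have hpi := Real.pi_gt_three
  have hy0 : 0 < y := by linarith
  have hsa := Real.sin_pos_of_pos_of_lt_pi ha0 (by linarith)
  have hsy := Real.sin_pos_of_pos_of_lt_pi hy0 (by linarith)
  have hs0 : 0 < Real.sin ((a + y) / 2) :=
    Real.sin_pos_of_pos_of_lt_pi (by linarith) (by linarith)
  have hw0 : 0 < Real.sin ((y - a) / 2) :=
    Real.sin_pos_of_pos_of_lt_pi (by linarith) (by linarith)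
  have hcd : 0 < Real.cos ((y - a) / 2) :=
    Real.cos_pos_of_mem_Ioo ⟨by linarith, by linarith⟩
  -- half angles
  have hv0 : 0 < Real.sin (y / 2) := Real.sin_pos_of_pos_of_lt_pi (by linarith) (by linarith)
  have hq0 : 0 < Real.sin (a / 2) := Real.sin_pos_of_pos_of_lt_pi (by linarith) (by linarith)
  have hu0 : 0 < Real.cos (y / 2) := Real.cos_pos_of_mem_Ioo ⟨by linarith, by linarith⟩
  have hp0 : 0 < Real.cos (a / 2) := Real.cos_pos_of_mem_Ioo ⟨by linarith, by linarith⟩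
  have huv := Real.cos_sq_add_sin_sq (y / 2)
  have hpq := Real.cos_sq_add_sin_sq (a / 2)
  have hu1 : Real.cos (y / 2) ≤ 1 := Real.cos_le_one _
  have hp1 : Real.cos (a / 2) ≤ 1 := Real.cos_le_one _
  have hql : Real.sin (a / 2) ≤ 1 / 10 := by
    have := Real.sin_lt (show 0 < a / 2 by linarith)
    linarith
  have hul : 877 / 1000 ≤ Real.cos (y / 2) := by
    have h1 : Real.cos (1 / 2) ≤ Real.cos (y / 2) :=
      Real.cos_le_cos_of_nonneg_of_le_pi (by linarith) (by linarith) (by linarith)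
    exact cos_half_ge.trans h1
  have eS : Real.sin y = 2 * Real.sin (y / 2) * Real.cos (y / 2) := by
    have := Real.sin_two_mul (y / 2)
    rwa [show 2 * (y / 2) = y by ring] at this
  have eC : Real.cos y = 2 * Real.cos (y / 2) ^ 2 - 1 := by
    have := Real.cos_two_mul (y / 2)
    rwa [show 2 * (y / 2) = y by ring] at this
  have ec : Real.cos a = 1 - 2 * Real.sin (a / 2) ^ 2 := by
    have := Real.cos_two_mul (a / 2)
    rw [show 2 * (a / 2) = a by ring] at this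
    linarith
  have es : Real.sin ((a + y) / 2) = Real.sin (y / 2) * Real.cos (a / 2) +
      Real.cos (y / 2) * Real.sin (a / 2) := by
    rw [show (a + y) / 2 = y / 2 + a / 2 by ring, Real.sin_add]
  have ed : Real.cos ((y - a) / 2) = Real.cos (y / 2) * Real.cos (a / 2) +
      Real.sin (y / 2) * Real.sin (a / 2) := by
    rw [show (y - a) / 2 = y / 2 - a / 2 by ring, Real.cos_sub]
  have hcusa1 := cusa (show 0 ≤ (y - a) / 2 by linarith)
  have hcusa2 := cusa hy0.le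
  have hsind : Real.sin (y - a) = 2 * Real.sin ((y - a) / 2) * Real.cos ((y - a) / 2) := by
    have := Real.sin_two_mul ((y - a) / 2)
    rwa [show 2 * ((y - a) / 2) = y - a by ring] at this
  -- T'
  have hT : 2 * Real.sin y * Real.cos ((y - a) / 2) ^ 2 * (2 + Real.cos ((y - a) / 2)) *
      (2 + Real.cos y) ≤ 3 * Real.sin ((a + y) / 2) * (1 + Real.cos a * Real.cos y) *
      (3 + 2 * Real.cos y + Real.cos y ^ 2) := by
    rw [eS, eC, ec, es, ed]
    exact T_poly hu0 hu1 hv0 hp0 hp1 hq0 hql hul huv hpq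
  -- conclusion
  have hC1 : 0 < 2 + Real.cos y := by linarith [Real.neg_one_le_cos y]
  have hkey : 4 * Real.sin ((y - a) / 2) * Real.cos ((y - a) / 2) ^ 2 * Real.sin y ^ 2 ≤
      (y - a) * Real.sin ((a + y) / 2) * (1 + Real.cos a * Real.cos y) *
      (y + Real.sin y * Real.cos y) := by
    have hcc : 0 ≤ 1 + Real.cos a * Real.cos y := by rw [one_add_cos_mul_cos_eq]; positivity
    exact key_alg hw0 hcd hs0 hsy hC1 hcc (by linarith) hcusa1 hcusa2 hT
  rw [Phi_eq hsa.ne' hsy.ne', hsind]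
  have e3 : (y - a) * Real.sin ((y - a) / 2) * Real.sin ((a + y) / 2) *
      (1 + Real.cos a * Real.cos y) / (Real.sin a ^ 2 * Real.sin y ^ 2) *
      (y + Real.sin y * Real.cos y) * Real.sin a ^ 2 =
      Real.sin ((y - a) / 2) * ((y - a) * Real.sin ((a + y) / 2) *
      (1 + Real.cos a * Real.cos y) * (y + Real.sin y * Real.cos y)) / Real.sin y ^ 2 := by
    field_simp
  rw [e3, le_div_iff₀ (by positivity)]
  calc (2 * Real.sin ((y - a) / 2) * Real.cos ((y - a) / 2)) ^ 2 * Real.sin y ^ 2 =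
      Real.sin ((y - a) / 2) * (4 * Real.sin ((y - a) / 2) * Real.cos ((y - a) / 2) ^ 2 *
        Real.sin y ^ 2) := by ring
    _ ≤ _ := mul_le_mul_of_nonneg_left hkey hw0.le

/-- `P1` for `y ≤ a` -/
theorem P1_low {a y : ℝ} (hap : a ≤ 1 / 5) (hy0 : 0 < y) (hya : y ≤ a) :
    Real.sin (y - a) ^ 2 ≤ Phi a y * (y + Real.sin y * Real.cos y) * Real.sin a ^ 2 := by
  have hpi := Real.pi_gt_three
  have ha0 : 0 < a := by linarith
  have hsa := Real.sin_pos_of_pos_of_lt_pi ha0 (by linarith)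
  have hsy := Real.sin_pos_of_pos_of_lt_pi hy0 (by linarith)
  have hw0 : 0 ≤ Real.sin ((a - y) / 2) :=
    Real.sin_nonneg_of_nonneg_of_le_pi (by linarith) (by linarith)
  have hw1 : Real.sin ((a - y) / 2) ≤ (a - y) / 2 := Real.sin_le (by linarith)
  have hss : Real.sin y ≤ Real.sin ((a + y) / 2) :=
    Real.sin_le_sin_of_le_of_le_pi_div_two (by linarith) (by linarith) (by linarith)
  have hyS : Real.sin y ≤ y := Real.sin_le hy0.le
  have hca : 49 / 50 ≤ Real.cos a := by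
    have := Real.one_sub_sq_div_two_le_cos (x := a)
    nlinarith
  have hcy : 49 / 50 ≤ Real.cos y := by
    have := Real.one_sub_sq_div_two_le_cos (x := y)
    nlinarith
  have hsind : Real.sin (y - a) = - (2 * Real.sin ((a - y) / 2) * Real.cos ((a - y) / 2)) := by
    have := Real.sin_two_mul ((a - y) / 2)
    rw [show 2 * ((a - y) / 2) = a - y by ring] at this
    rw [← this, ← Real.sin_neg]; congr 1; ring
  rw [Phi_eq hsa.ne' hsy.ne', hsind]
  have e3 : (y - a) * Real.sin ((y - a) / 2) * Real.sin ((a + y) / 2) *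
      (1 + Real.cos a * Real.cos y) / (Real.sin a ^ 2 * Real.sin y ^ 2) *
      (y + Real.sin y * Real.cos y) * Real.sin a ^ 2 =
      (a - y) * Real.sin ((a - y) / 2) * Real.sin ((a + y) / 2) *
      (1 + Real.cos a * Real.cos y) * (y + Real.sin y * Real.cos y) / Real.sin y ^ 2 := by
    rw [show (y - a) / 2 = -((a - y) / 2) by ring, Real.sin_neg]
    field_simp
    ring
  rw [e3, le_div_iff₀ (by positivity)]
  have hcd : Real.cos ((a - y) / 2) ^ 2 ≤ 1 := Real.cos_sq_le_one _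
  exact low_alg hw0 hcd hsy hss hyS hca hcy (by linarith)

/-- `P1` for `y ≥ π / 2` -/
theorem P1_high {a y : ℝ} (ha0 : 0 < a) (hap : a ≤ 1 / 5) (hya : Real.pi / 2 ≤ y)
    (hyp : y < Real.pi) :
    Real.sin (y - a) ^ 2 ≤ Phi a y * (y + Real.sin y * Real.cos y) * Real.sin a ^ 2 := by
  have hpi := Real.pi_gt_d4
  have hy0 : 0 < y := by linarith
  have hsa := Real.sin_pos_of_pos_of_lt_pi ha0 (by linarith)
  have hsy := Real.sin_pos_of_pos_of_lt_pi hy0 (by linarith)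
  have hC : Real.cos y ≤ 0 := Real.cos_nonpos_of_pi_div_two_le_of_le hya (by linarith)
  have hca : 49 / 50 ≤ Real.cos a := by
    have := Real.one_sub_sq_div_two_le_cos (x := a)
    nlinarith
  have hSC : Real.pi / 2 ≤ y + Real.sin y * Real.cos y := by
    have h1 : Real.sin (2 * (y - Real.pi / 2)) ≤ 2 * (y - Real.pi / 2) :=
      Real.sin_le (by linarith)
    have h2 : Real.sin (2 * (y - Real.pi / 2)) = - (2 * Real.sin y * Real.cos y) := by
      rw [show 2 * (y - Real.pi / 2) = 2 * y - Real.pi by ring, Real.sin_sub_pi,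
        Real.sin_two_mul]
    linarith
  have hPhi : (y - a) / 2 * (49 / 50) ≤ Phi a y * Real.sin a ^ 2 := by
    have e : Phi a y * Real.sin a ^ 2 = (y - a) / 2 * (Real.cos a -
        Real.cos y * Real.sin a ^ 2 / Real.sin y ^ 2) := by
      unfold Phi; field_simp
    rw [e]
    have : Real.cos y * Real.sin a ^ 2 / Real.sin y ^ 2 ≤ 0 :=
      div_nonpos_of_nonpos_of_nonneg (mul_nonpos_of_nonpos_of_nonneg hC (by positivity))
        (by positivity)
    apply mul_le_mul_of_nonneg_left _ (by linarith)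
    linarith
  have h1 : Real.sin (y - a) ^ 2 ≤ 1 := Real.sin_sq_le_one _
  have h2 : 1 ≤ ((y - a) / 2 * (49 / 50)) * (Real.pi / 2) := by
    nlinarith
  calc Real.sin (y - a) ^ 2 ≤ 1 := h1
    _ ≤ ((y - a) / 2 * (49 / 50)) * (Real.pi / 2) := h2
    _ ≤ (Phi a y * Real.sin a ^ 2) * (y + Real.sin y * Real.cos y) := by
        apply mul_le_mul hPhi hSC (by linarith)
        have := Phi_nonneg ha0 (by linarith) hy0 hyp
        positivity
    _ = _ := by ring

end Pool.Agent.Lib_helper90d
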