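import Pool.Agent.Lib_helper90d.Func2

set_option autoImplicit false

namespace Pool.Agent.Lib_helper90d

theorem cos_one_le' : Real.cos 1 ≤ 5427 / 10000 := by
  have h := Real.cos_bound (x := 1 / 2) (by rw [abs_of_nonneg] <;> norm_num)
  have h2 : Real.cos 1 = 2 * Real.cos (1 / 2) ^ 2 - 1 := by
    rw [← Real.cos_two_mul]; norm_num
  have h3 := (abs_le.mp h).2
  rw [abs_of_nonneg (by norm_num : (0:ℝ) ≤ 1 / 2)] at h3
  have h4 := cos_half_ge
  norm_num at h3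
  rw [h2]
  nlinarith

/-- polynomial inequality, small `e` -/
theorem polyH_small {e a : ℝ} (he0 : 0 ≤ e) (he1 : e ≤ 3 / 10) (ha0 : 0 ≤ a) (ha1 : a ≤ 1 / 5) :
    2 - 2 * (e + a) ^ 2 + 2 / 3 * (e + a) ^ 4 ≤
    (15707 / 10000 - (e + a)) * (1 - 127 / 100 * a ^ 2) * (15707 / 10000 - 2 / 3 * e ^ 3) := by
  have ha2 : a ^ 2 ≤ (1 / 5) ^ 2 := by gcongr
  have he3 : e ^ 3 ≤ (3 / 10) ^ 3 := by gcongr
  obtain ⟨g, hg⟩ : ∃ g, g = e + a := ⟨_, rfl⟩
  rw [← hg]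
  have hg0 : 0 ≤ g := by linarith
  have hg1 : g ≤ 1 / 2 := by linarith
  have h1 : 1 - 127 / 100 * (1 / 5) ^ 2 ≤ 1 - 127 / 100 * a ^ 2 := by linarith
  have h2 : 15707 / 10000 - 2 / 3 * (3 / 10) ^ 3 ≤ 15707 / 10000 - 2 / 3 * e ^ 3 := by linarith
  have h3 : (1 - 127 / 100 * (1 / 5) ^ 2) * (15707 / 10000 - 2 / 3 * (3 / 10) ^ 3) ≤
      (1 - 127 / 100 * a ^ 2) * (15707 / 10000 - 2 / 3 * e ^ 3) :=
    mul_le_mul h1 h2 (by norm_num) (by linarith)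
  have h4 : (15707 / 10000 - g) * ((1 - 127 / 100 * (1 / 5) ^ 2) * (15707 / 10000 - 2 / 3 * (3 / 10) ^ 3))
      ≤ (15707 / 10000 - g) * ((1 - 127 / 100 * a ^ 2) * (15707 / 10000 - 2 / 3 * e ^ 3)) :=
    mul_le_mul_of_nonneg_left h3 (by linarith)
  have h5 : g ^ 4 ≤ 1 / 4 * g ^ 2 := by
    have : g ^ 4 = g ^ 2 * g ^ 2 := by ring
    rw [this]
    apply mul_le_mul_of_nonneg_right _ (sq_nonneg g)
    nlinarith
  have h6 : 2 - 2 * g ^ 2 + 2 / 3 * (1 / 4 * g ^ 2) ≤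
      (15707 / 10000 - g) * ((1 - 127 / 100 * (1 / 5) ^ 2) * (15707 / 10000 - 2 / 3 * (3 / 10) ^ 3)) := by
    nlinarith [sq_nonneg (g - 402 / 1000)]
  rw [mul_assoc]
  linarith

theorem quad_aux {A B C D a : ℝ} (ha0 : 0 ≤ a) (ha1 : a ≤ 1 / 5) (hH0 : 0 ≤ A)
    (hG : 0 ≤ A + 1 / 5 * B + 1 / 25 * C) (hH2 : C ≤ 0) (h3 : 0 ≤ D) :
    0 ≤ A + a * B + a ^ 2 * (C + 2 / 75) + a ^ 3 * D - 2 / 3 * a ^ 4 := by
  have h4 : a ^ 4 ≤ 1 / 25 * a ^ 2 := by
    have : a ^ 4 = a ^ 2 * a ^ 2 := by ring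
    rw [this]
    apply mul_le_mul_of_nonneg_right _ (sq_nonneg a)
    nlinarith
  have h5 : 0 ≤ a ^ 3 * D := by positivity
  have h7 : a ^ 2 ≤ a / 5 := by nlinarith
  have h8 : a / 5 * C ≤ a ^ 2 * C := mul_le_mul_of_nonpos_right h7 hH2
  have h9 : 0 ≤ (1 - 5 * a) * A := mul_nonneg (by linarith) hH0
  have h10 : 0 ≤ 5 * a * (A + 1 / 5 * B + 1 / 25 * C) := mul_nonneg (by linarith) hG
  linarith

theorem polyH_large {e a : ℝ} (he0 : 3 / 10 ≤ e) (he1 : e ≤ 571 / 1000) (ha0 : 0 ≤ a)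
    (ha1 : a ≤ 1 / 5) :
    2 - 2 * (e + a) ^ 2 + 2 / 3 * (e + a) ^ 4 ≤
    (15707 / 10000 - (e + a)) * (1 - 127 / 100 * a ^ 2) * (15707 / 10000 - 2 / 3 * e ^ 3) := by
  obtain ⟨t, ht⟩ : ∃ t, t = e - 3 / 10 := ⟨_, rfl⟩
  have het : e = 3 / 10 + t := by linarith
  have ht0 : 0 ≤ t := by linarith
  have ht1 : t ≤ 271 / 1000 := by linarith
  have e2 : e ^ 2 ≤ (571 / 1000) ^ 2 := by gcongr
  have e3 : e ^ 3 ≤ (571 / 1000) ^ 3 := by gcongr
  have t2 : 0 ≤ t ^ 2 := sq_nonneg t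
  have t3 : t ^ 3 ≤ 271 / 1000 * t ^ 2 := by
    have : t ^ 3 = t * t ^ 2 := by ring
    rw [this]; exact mul_le_mul_of_nonneg_right ht1 t2
  have t4 : t ^ 4 ≤ 271 / 1000 * (271 / 1000 * t ^ 2) := by
    have : t ^ 4 = t * t ^ 3 := by ring
    rw [this]
    exact mul_le_mul ht1 t3 (by positivity) (by norm_num)
  have hH0 : 0 ≤ (15707 / 10000 - e) * (15707 / 10000 - 2 / 3 * e ^ 3) - 2 + 2 * e ^ 2
      - 2 / 3 * e ^ 4 := by
    rw [het]
    nlinarith [sq_nonneg (t - 422 / 1000)]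
  have hG : 0 ≤ ((15707 / 10000 - e) * (15707 / 10000 - 2 / 3 * e ^ 3) - 2 + 2 * e ^ 2
      - 2 / 3 * e ^ 4) + 1 / 5 * (-(15707 / 10000 - 2 / 3 * e ^ 3) + 4 * e - 8 / 3 * e ^ 3) +
      1 / 25 * (2 - 4 * e ^ 2 - 127 / 100 * ((15707 / 10000 - e) * (15707 / 10000 - 2 / 3 * e ^ 3))
       - 2 / 75) := by
    rw [het]
    nlinarith
  have hH2 : 2 - 4 * e ^ 2 - 127 / 100 * ((15707 / 10000 - e) * (15707 / 10000 - 2 / 3 * e ^ 3))
       - 2 / 75 ≤ 0 := by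
    rw [het]
    nlinarith [pow_nonneg ht0 3]
  have h3 : 0 ≤ 127 / 100 * (15707 / 10000 - 2 / 3 * e ^ 3) - 8 / 3 * e := by
    norm_num at e3 ⊢
    linarith
  have h := quad_aux ha0 ha1 hH0 hG hH2 h3
  have hexp : (15707 / 10000 - (e + a)) * (1 - 127 / 100 * a ^ 2) *
      (15707 / 10000 - 2 / 3 * e ^ 3) - (2 - 2 * (e + a) ^ 2 + 2 / 3 * (e + a) ^ 4) =
      ((15707 / 10000 - e) * (15707 / 10000 - 2 / 3 * e ^ 3) - 2 + 2 * e ^ 2
      - 2 / 3 * e ^ 4) + a * (-(15707 / 10000 - 2 / 3 * e ^ 3) + 4 * e - 8 / 3 * e ^ 3) + a ^ 2 *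
      ((2 - 4 * e ^ 2 - 127 / 100 * ((15707 / 10000 - e) * (15707 / 10000 - 2 / 3 * e ^ 3))
       - 2 / 75) + 2 / 75) + a ^ 3 * (127 / 100 * (15707 / 10000 - 2 / 3 * e ^ 3) - 8 / 3 * e)
       - 2 / 3 * a ^ 4 := by
    ring
  rw [← hexp] at h
  linarith

theorem P1_upper {a y : ℝ} (ha0 : 0 < a) (hap : a ≤ 1 / 5) (hy1 : 1 ≤ y)
    (hyp : y < Real.pi / 2) :
    Real.sin (y - a) ^ 2 ≤ Phi a y * (y + Real.sin y * Real.cos y) * Real.sin a ^ 2 := by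
  have hpi := Real.pi_gt_d4
  have hpi2 := Real.pi_lt_d4
  have hy0 : 0 < y := by linarith
  have hsa := Real.sin_pos_of_pos_of_lt_pi ha0 (by linarith)
  have hsy := Real.sin_pos_of_pos_of_lt_pi hy0 (by linarith)
  have hCy0 : 0 ≤ Real.cos y := Real.cos_nonneg_of_neg_pi_div_two_le_of_le (by linarith) (by linarith)
  have hCy : Real.cos y ≤ 5427 / 10000 :=
    (Real.cos_le_cos_of_nonneg_of_le_pi (by norm_num) (by linarith) hy1).trans cos_one_le'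
  have hS2 : 7054 / 10000 ≤ Real.sin y ^ 2 := by
    have h1 := Real.sin_sq_add_cos_sq y
    have h2 : Real.cos y ^ 2 ≤ (5427 / 10000) ^ 2 := by gcongr
    norm_num at h2
    linarith
  have hca := Real.one_sub_sq_div_two_le_cos (x := a)
  have hsa2 : Real.sin a ^ 2 ≤ a ^ 2 := by
    have := Real.sin_le ha0.le
    gcongr
  obtain ⟨e, he⟩ : ∃ e, e = Real.pi / 2 - y := ⟨_, rfl⟩
  have he0 : 0 < e := by linarith
  have he1 : e ≤ 571 / 1000 := by linarith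
  have hq : Real.cos y * Real.sin a ^ 2 / Real.sin y ^ 2 ≤ 77 / 100 * a ^ 2 := by
    rw [div_le_iff₀ (by positivity)]
    have h1 : Real.cos y * Real.sin a ^ 2 ≤ 5427 / 10000 * a ^ 2 := by gcongr
    have h2 : 77 / 100 * a ^ 2 * (7054 / 10000) ≤ 77 / 100 * a ^ 2 * Real.sin y ^ 2 := by gcongr
    nlinarith [sq_nonneg a]
  have hX : 1 - 127 / 100 * a ^ 2 ≤ Real.cos a - Real.cos y * Real.sin a ^ 2 / Real.sin y ^ 2 := by
    linarith
  have hX0 : 0 ≤ 1 - 127 / 100 * a ^ 2 := by nlinarith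
  have e1 : Phi a y * Real.sin a ^ 2 = (y - a) / 2 * (Real.cos a -
      Real.cos y * Real.sin a ^ 2 / Real.sin y ^ 2) := by
    unfold Phi; field_simp
  have hW : Real.pi / 2 - 2 / 3 * e ^ 3 ≤ y + Real.sin y * Real.cos y := by
    have h1 := Real.sin_gt_sub_cube (show 0 < 2 * e by linarith)
    have h2 : Real.sin (2 * e) = 2 * Real.sin y * Real.cos y := by
      rw [he, show 2 * (Real.pi / 2 - y) = Real.pi - 2 * y by ring, Real.sin_pi_sub,
        Real.sin_two_mul]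
    rw [h2] at h1
    have h3 : (2 * e) ^ 3 / 6 = 4 / 3 * e ^ 3 := by ring
    rw [h3] at h1
    linarith
  have hsin : Real.sin (y - a) ^ 2 ≤ 1 - (e + a) ^ 2 + (e + a) ^ 4 / 3 := by
    have h1 : Real.sin (y - a) = Real.cos (e + a) := by
      rw [he, ← Real.sin_pi_div_two_sub]; congr 1; ring
    have h2 := Real.sin_gt_sub_cube (show 0 < e + a by linarith)
    have h3 := Real.sin_sq_add_cos_sq (e + a)
    have h4 : 0 ≤ (e + a) - (e + a) ^ 3 / 6 := by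
      have : (e + a) ^ 2 ≤ 1 := by nlinarith
      have e5 : (e + a) - (e + a) ^ 3 / 6 = (e + a) * (1 - (e + a) ^ 2 / 6) := by ring
      rw [e5]
      apply mul_nonneg (by linarith); linarith
    have h5 : ((e + a) - (e + a) ^ 3 / 6) ^ 2 ≤ Real.sin (e + a) ^ 2 := by
      gcongr
    rw [h1]
    nlinarith [sq_nonneg ((e + a) ^ 3)]
  have hpoly : 2 - 2 * (e + a) ^ 2 + 2 / 3 * (e + a) ^ 4 ≤
    (15707 / 10000 - (e + a)) * (1 - 127 / 100 * a ^ 2) * (15707 / 10000 - 2 / 3 * e ^ 3) := by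
    rcases le_total e (3 / 10) with h | h
    · exact polyH_small he0.le h ha0.le hap
    · exact polyH_large h he1 ha0.le hap
  have e3' : e ^ 3 ≤ (571 / 1000) ^ 3 := by gcongr
  have h6 : (15707 / 10000 - (e + a)) * (1 - 127 / 100 * a ^ 2) * (15707 / 10000 - 2 / 3 * e ^ 3) ≤
      2 * ((Phi a y * Real.sin a ^ 2) * (y + Real.sin y * Real.cos y)) := by
    rw [e1]
    have h7 : (15707 / 10000 - (e + a)) * (1 - 127 / 100 * a ^ 2) ≤
        2 * ((y - a) / 2 * (Real.cos a - Real.cos y * Real.sin a ^ 2 / Real.sin y ^ 2)) := by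
      have : 2 * ((y - a) / 2 * (Real.cos a - Real.cos y * Real.sin a ^ 2 / Real.sin y ^ 2)) =
        (y - a) * (Real.cos a - Real.cos y * Real.sin a ^ 2 / Real.sin y ^ 2) := by ring
      rw [this]
      exact mul_le_mul (by linarith) hX hX0 (by linarith)
    calc (15707 / 10000 - (e + a)) * (1 - 127 / 100 * a ^ 2) * (15707 / 10000 - 2 / 3 * e ^ 3)
        ≤ (2 * ((y - a) / 2 * (Real.cos a - Real.cos y * Real.sin a ^ 2 / Real.sin y ^ 2))) *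
          (y + Real.sin y * Real.cos y) := by
          apply mul_le_mul h7 (by linarith) (by norm_num at e3' ⊢; linarith)
          have : 0 ≤ (y - a) * (Real.cos a - Real.cos y * Real.sin a ^ 2 / Real.sin y ^ 2) :=
            mul_nonneg (by linarith) (by linarith)
          linarith
      _ = _ := by ring
  have h8 : Phi a y * (y + Real.sin y * Real.cos y) * Real.sin a ^ 2 =
      (Phi a y * Real.sin a ^ 2) * (y + Real.sin y * Real.cos y) := by ring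
  rw [h8]
  linarith

theorem P1 {a y : ℝ} (ha0 : 0 < a) (hap : a ≤ 1 / 5) (hy0 : 0 < y) (hyp : y < Real.pi) :
    Real.sin (y - a) ^ 2 ≤ Phi a y * (y + Real.sin y * Real.cos y) * Real.sin a ^ 2 := by
  rcases le_or_gt y a with h | h
  · exact P1_low hap hy0 h
  · rcases le_or_gt y 1 with h1 | h1
    · exact P1_mid ha0 hap h h1
    · rcases lt_or_ge y (Real.pi / 2) with h2 | h2
      · exact P1_upper ha0 hap h1.le h2
      · exact P1_high ha0 hap h2 hyp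

end Pool.Agent.Lib_helper90d
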