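import Mathlib

set_option autoImplicit false

open Finset Filter

namespace Pool.Agent.Lib_helper90d

/-- the inverse-cube vector -/
noncomputable def ic (z : ℂ) : ℂ := (((‖z‖ ^ 3)⁻¹ : ℝ) : ℂ) * z

theorem ic_zero : ic 0 = 0 := by simp [ic]

theorem ic_neg (z : ℂ) : ic (-z) = - ic z := by simp [ic]

theorem ic_tendsto {u : ℕ → ℂ} {z : ℂ} (hz : z ≠ 0) (h : Tendsto u atTop (nhds z)) :
    Tendsto (fun k => ic (u k)) atTop (nhds (ic z)) := by
  unfold ic
  have h1 : Tendsto (fun k => ‖u k‖ ^ 3) atTop (nhds (‖z‖ ^ 3)) := (h.norm).pow 3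
  have h2 := h1.inv₀ (by simpa using hz)
  exact ((Complex.continuous_ofReal.tendsto _).comp h2).mul h

theorem hall_alg {N : ℕ} {q : Fin (N + 1) → ℂ} {e lam : ℝ} {G : ℂ}
    (h : ∀ i : Fin (N + 1), (lam : ℂ) * (q i - G) =
      ∑ j ∈ Finset.univ.erase i,
        ((((if j = 0 then (1 : ℝ) else e) / ‖q i - q j‖ ^ 3 : ℝ)) : ℂ) * (q i - q j))
    (i : Fin N) :
    (lam : ℂ) * (q i.succ - q 0) = ic (q i.succ - q 0) +
      (e : ℂ) * ∑ j : Fin N, (ic ((q i.succ - q 0) - (q j.succ - q 0)) + ic (q j.succ - q 0)) := by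
  have hs : ∀ i : Fin (N + 1), (lam : ℂ) * (q i - G) = ic (q i - q 0) +
      (e : ℂ) * ∑ j : Fin N, ic (q i - q j.succ) := by
    intro i
    rw [h i, Finset.sum_erase _ (by simp), Fin.sum_univ_succ, Finset.mul_sum]
    congr 1
    · simp [ic]
    · refine Finset.sum_congr rfl fun j _ => ?_
      unfold ic
      rw [if_neg (Fin.succ_ne_zero j)]
      push_cast
      ring
  have h1 := hs i.succ
  have h2 := hs 0
  rw [sub_self, ic_zero] at h2
  have h3 : ∑ j : Fin N, ic (q 0 - q j.succ) = - ∑ j : Fin N, ic (q j.succ - q 0) := by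
    rw [← Finset.sum_neg_distrib]
    refine Finset.sum_congr rfl fun j _ => ?_
    rw [← ic_neg, neg_sub]
  have h4 : ∑ j : Fin N, (ic ((q i.succ - q 0) - (q j.succ - q 0)) + ic (q j.succ - q 0)) =
      ∑ j : Fin N, ic (q i.succ - q j.succ) + ∑ j : Fin N, ic (q j.succ - q 0) := by
    rw [← Finset.sum_add_distrib]
    refine Finset.sum_congr rfl fun j _ => ?_
    rw [sub_sub_sub_cancel_right]
  rw [h4]
  rw [h3] at h2
  linear_combination h1 - h2

theorem conj_mul_ic (z : ℂ) (hz : z ≠ 0) :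
    (‖z‖ : ℂ) * (starRingEnd ℂ) z * ic z = 1 := by
  unfold ic
  have h : (starRingEnd ℂ) z * z = ((‖z‖ ^ 2 : ℝ) : ℂ) := by
    rw [mul_comm, Complex.mul_conj, Complex.normSq_eq_norm_sq]
  have hz' : (‖z‖ : ℂ) ≠ 0 := by simpa using hz
  calc (‖z‖ : ℂ) * (starRingEnd ℂ) z * ((((‖z‖ ^ 3)⁻¹ : ℝ) : ℂ) * z) =
      (‖z‖ : ℂ) * (((‖z‖ ^ 3)⁻¹ : ℝ) : ℂ) * ((starRingEnd ℂ) z * z) := by ring
    _ = 1 := by
      rw [h]; push_cast; field_simp

/-- the imaginary part of the reduced equation -/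
theorem hall_im {N : ℕ} {r : Fin N → ℂ} {e lam : ℝ} (he : 0 < e) (i : Fin N)
    (h : (lam : ℂ) * r i = ic (r i) + (e : ℂ) * ∑ j : Fin N, (ic (r i - r j) + ic (r j))) :
    ∑ j : Fin N, ((starRingEnd ℂ) (r i) * r j).im * ((‖r j‖ ^ 3)⁻¹ - (‖r i - r j‖ ^ 3)⁻¹) = 0 := by
  have h1 := congrArg (fun z => ((starRingEnd ℂ) (r i) * z).im) h
  beta_reduce at h1
  have hreal : ∀ c : ℝ, ((starRingEnd ℂ) (r i) * ((c : ℂ) * r i)).im = 0 := by
    intro c
    simp only [Complex.mul_im, Complex.mul_re, Complex.conj_re, Complex.conj_im,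
      Complex.ofReal_re, Complex.ofReal_im]
    ring
  rw [hreal, mul_add, Complex.add_im] at h1
  have h2 : ((starRingEnd ℂ) (r i) * ic (r i)).im = 0 := hreal _
  rw [h2, zero_add] at h1
  have h3 : ((starRingEnd ℂ) (r i) * ((e : ℂ) * ∑ j : Fin N, (ic (r i - r j) + ic (r j)))).im =
      e * ∑ j : Fin N, ((starRingEnd ℂ) (r i) * (ic (r i - r j) + ic (r j))).im := by
    rw [show (starRingEnd ℂ) (r i) * ((e : ℂ) * ∑ j : Fin N, (ic (r i - r j) + ic (r j))) =
      (e : ℂ) * ((starRingEnd ℂ) (r i) * ∑ j : Fin N, (ic (r i - r j) + ic (r j))) by ring,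
      Complex.im_ofReal_mul, Finset.mul_sum, Complex.im_sum]
  rw [h3] at h1
  have h4 : ∑ j : Fin N, ((starRingEnd ℂ) (r i) * (ic (r i - r j) + ic (r j))).im = 0 := by
    rcases mul_eq_zero.mp h1.symm with h | h
    · linarith
    · exact h
  rw [← h4]
  refine Finset.sum_congr rfl fun j _ => ?_
  unfold ic
  simp only [Complex.mul_im, Complex.mul_re, Complex.conj_re, Complex.conj_im, Complex.add_im,
    Complex.add_re, Complex.sub_re, Complex.sub_im,
      Complex.ofReal_re, Complex.ofReal_im]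
  ring

theorem hall_nonzero {N : ℕ} (hN : 2 ≤ N) {r : ℕ → Fin N → ℂ} {e lam : ℕ → ℝ}
    (hr0 : ∀ k i, r k i ≠ 0)
    (h : ∀ k i, (lam k : ℂ) * r k i = ic (r k i) +
      (e k : ℂ) * ∑ j : Fin N, (ic (r k i - r k j) + ic (r k j)))
    (he : Tendsto e atTop (nhds 0)) {p : Fin N → ℂ} (hp : Function.Injective p)
    (hr : ∀ i, Tendsto (fun k => r k i) atTop (nhds (p i))) (i₀ : Fin N) : p i₀ ≠ 0 := by
  intro h0
  have hec : Tendsto (fun k => (e k : ℂ)) atTop (nhds 0) := by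
    have := (Complex.continuous_ofReal.tendsto 0).comp he
    rw [Complex.ofReal_zero] at this
    exact this
  -- differences converge
  have hK : ∀ i j, Tendsto (fun k => ic (r k i - r k j)) atTop (nhds (ic (p i - p j))) := by
    intro i j
    rcases eq_or_ne i j with rfl | hne
    · simp only [sub_self, ic_zero]
      exact tendsto_const_nhds
    · exact ic_tendsto (sub_ne_zero.mpr (hp.ne hne)) ((hr i).sub (hr j))
  have hpne : ∀ j, j ≠ i₀ → p j ≠ 0 := by
    intro j hj h1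
    exact hj (hp (h1.trans h0.symm))
  have hB : ∀ j, j ≠ i₀ → Tendsto (fun k => ic (r k j)) atTop (nhds (ic (p j))) :=
    fun j hj => ic_tendsto (hpne j hj) (hr j)
  have hs : Tendsto (fun k => (‖r k i₀‖ : ℂ)) atTop (nhds 0) := by
    have h1 := (hr i₀).norm
    rw [h0, norm_zero] at h1
    have := (Complex.continuous_ofReal.tendsto 0).comp h1
    rw [Complex.ofReal_zero] at this
    exact this
  have hs3 : Tendsto (fun k => (‖r k i₀‖ : ℂ) ^ 3) atTop (nhds 0) := by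
    simpa using hs.pow 3
  -- s^3 lam → 1
  have hlam : Tendsto (fun k => (‖r k i₀‖ : ℂ) ^ 3 * (lam k : ℂ)) atTop (nhds 1) := by
    have e1 : ∀ k, (‖r k i₀‖ : ℂ) ^ 3 * (lam k : ℂ) = 1 + (e k : ℂ) +
        (e k : ℂ) * ((‖r k i₀‖ : ℂ) * (starRingEnd ℂ) (r k i₀) *
        (∑ j : Fin N, ic (r k i₀ - r k j) + ∑ j ∈ Finset.univ.erase i₀, ic (r k j))) := by
      intro k
      have h1 := h k i₀
      have h2 := conj_mul_ic (r k i₀) (hr0 k i₀)
      have h3 : (‖r k i₀‖ : ℂ) ^ 3 = (‖r k i₀‖ : ℂ) * (starRingEnd ℂ) (r k i₀) * r k i₀ := by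
        rw [mul_assoc, mul_comm ((starRingEnd ℂ) (r k i₀)), Complex.mul_conj,
          Complex.normSq_eq_norm_sq]
        push_cast
        ring
      have h4 : ∑ j : Fin N, ic (r k j) = ic (r k i₀) + ∑ j ∈ Finset.univ.erase i₀, ic (r k j) :=
        (Finset.add_sum_erase _ _ (Finset.mem_univ i₀)).symm
      rw [Finset.sum_add_distrib, h4] at h1
      rw [h3]
      linear_combination ((‖r k i₀‖ : ℂ) * (starRingEnd ℂ) (r k i₀)) * h1 + (1 + (e k : ℂ)) * h2
    rw [show (1 : ℂ) = 1 + 0 + 0 * ((0 : ℂ) * (starRingEnd ℂ) 0 *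
      (∑ j : Fin N, ic (p i₀ - p j) + ∑ j ∈ Finset.univ.erase i₀, ic (p j))) by simp]
    simp_rw [e1]
    refine (tendsto_const_nhds.add hec).add (hec.mul ((hs.mul ?_).mul ?_))
    · have h1 := hr i₀
      rw [h0] at h1
      exact (Complex.continuous_conj.tendsto 0).comp h1
    · refine (tendsto_finsetSum _ fun j _ => hK i₀ j).add (tendsto_finsetSum _ fun j hj => ?_)
      exact hB j (Finset.ne_of_mem_erase hj)
  -- another index
  obtain ⟨i, hi⟩ : ∃ i : Fin N, i ≠ i₀ := by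
    have : Nontrivial (Fin N) := Fin.nontrivial_iff_two_le.mpr hN
    exact exists_ne i₀
  have hsB : ∀ j, Tendsto (fun k => (‖r k i₀‖ : ℂ) ^ 3 * ic (r k j)) atTop (nhds 0) := by
    intro j
    rcases eq_or_ne j i₀ with rfl | hj
    · have e1 : ∀ k, (‖r k j‖ : ℂ) ^ 3 * ic (r k j) = r k j := by
        intro k
        unfold ic
        have : (‖r k j‖ : ℂ) ≠ 0 := by simpa using hr0 k j
        push_cast
        field_simp
      simp_rw [e1]
      rw [← h0]
      exact hr j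
    · simpa using hs3.mul (hB j hj)
  have hfin : Tendsto (fun k => ((‖r k i₀‖ : ℂ) ^ 3 * (lam k : ℂ)) * r k i) atTop (nhds 0) := by
    have e1 : ∀ k, ((‖r k i₀‖ : ℂ) ^ 3 * (lam k : ℂ)) * r k i =
        (‖r k i₀‖ : ℂ) ^ 3 * ic (r k i) + (e k : ℂ) *
        ∑ j : Fin N, ((‖r k i₀‖ : ℂ) ^ 3 * ic (r k i - r k j) +
          (‖r k i₀‖ : ℂ) ^ 3 * ic (r k j)) := by
      intro k
      have h1 := h k i
      have h2 : ∑ j : Fin N, ((‖r k i₀‖ : ℂ) ^ 3 * ic (r k i - r k j) +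
          (‖r k i₀‖ : ℂ) ^ 3 * ic (r k j)) = (‖r k i₀‖ : ℂ) ^ 3 *
          ∑ j : Fin N, (ic (r k i - r k j) + ic (r k j)) := by
        rw [Finset.mul_sum]
        exact Finset.sum_congr rfl fun j _ => by ring
      rw [h2]
      linear_combination (‖r k i₀‖ : ℂ) ^ 3 * h1
    simp_rw [e1]
    rw [show (0 : ℂ) = 0 + 0 * ∑ j : Fin N, ((0 : ℂ) * ic (p i - p j) + 0) by simp]
    exact (hsB i).add (hec.mul (tendsto_finsetSum _ fun j _ => (hs3.mul (hK i j)).add (hsB j)))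
  have h2 := hlam.mul (hr i)
  rw [one_mul] at h2
  exact hpne i hi (tendsto_nhds_unique h2 hfin)

theorem hall_limit {N : ℕ} {r : ℕ → Fin N → ℂ} {e lam : ℕ → ℝ}
    (hr0 : ∀ k i, r k i ≠ 0)
    (h : ∀ k i, (lam k : ℂ) * r k i = ic (r k i) +
      (e k : ℂ) * ∑ j : Fin N, (ic (r k i - r k j) + ic (r k j)))
    (he0 : ∀ k, 0 < e k)
    (he : Tendsto e atTop (nhds 0)) {p : Fin N → ℂ} (hp : Function.Injective p)
    (hr : ∀ i, Tendsto (fun k => r k i) atTop (nhds (p i))) (hp0 : ∀ i, p i ≠ 0) :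
    (∀ i j, ‖p i‖ = ‖p j‖) ∧
    (∀ i, ∑ j : Fin N, ((starRingEnd ℂ) (p i) * p j).im *
      ((‖p j‖ ^ 3)⁻¹ - (‖p i - p j‖ ^ 3)⁻¹) = 0) := by
  have hec : Tendsto (fun k => (e k : ℂ)) atTop (nhds 0) := by
    have := (Complex.continuous_ofReal.tendsto 0).comp he
    rw [Complex.ofReal_zero] at this
    exact this
  have hK : ∀ i j, Tendsto (fun k => ic (r k i - r k j)) atTop (nhds (ic (p i - p j))) := by
    intro i j
    rcases eq_or_ne i j with rfl | hne
    · simp only [sub_self, ic_zero]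
      exact tendsto_const_nhds
    · exact ic_tendsto (sub_ne_zero.mpr (hp.ne hne)) ((hr i).sub (hr j))
  have hB : ∀ j, Tendsto (fun k => ic (r k j)) atTop (nhds (ic (p j))) :=
    fun j => ic_tendsto (hp0 j) (hr j)
  have hn : ∀ i, Tendsto (fun k => (‖r k i‖ : ℂ)) atTop (nhds (‖p i‖ : ℂ)) := fun i =>
    (Complex.continuous_ofReal.tendsto _).comp (hr i).norm
  have hlam : ∀ i, Tendsto (fun k => (‖r k i‖ : ℂ) ^ 3 * (lam k : ℂ)) atTop (nhds 1) := by
    intro i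
    have e1 : ∀ k, (‖r k i‖ : ℂ) ^ 3 * (lam k : ℂ) = 1 +
        (e k : ℂ) * ((‖r k i‖ : ℂ) * (starRingEnd ℂ) (r k i) *
        (∑ j : Fin N, (ic (r k i - r k j) + ic (r k j)))) := by
      intro k
      have h1 := h k i
      have h2 := conj_mul_ic (r k i) (hr0 k i)
      have h3 : (‖r k i‖ : ℂ) ^ 3 = (‖r k i‖ : ℂ) * (starRingEnd ℂ) (r k i) * r k i := by
        rw [mul_assoc, mul_comm ((starRingEnd ℂ) (r k i)), Complex.mul_conj,
          Complex.normSq_eq_norm_sq]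
        push_cast
        ring
      rw [h3]
      linear_combination ((‖r k i‖ : ℂ) * (starRingEnd ℂ) (r k i)) * h1 + h2
    rw [show (1 : ℂ) = 1 + 0 * ((‖p i‖ : ℂ) * (starRingEnd ℂ) (p i) *
      (∑ j : Fin N, (ic (p i - p j) + ic (p j)))) by simp]
    simp_rw [e1]
    refine tendsto_const_nhds.add (hec.mul (((hn i).mul ?_).mul ?_))
    · exact (Complex.continuous_conj.tendsto _).comp (hr i)
    · exact tendsto_finsetSum _ fun j _ => (hK i j).add (hB j)
  refine ⟨fun i j => ?_, fun i => ?_⟩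
  · have h1 := ((hn i).pow 3).mul (hlam j)
    have h2 := ((hn j).pow 3).mul (hlam i)
    have h3 : (fun k => (‖r k i‖ : ℂ) ^ 3 * ((‖r k j‖ : ℂ) ^ 3 * (lam k : ℂ))) =
        (fun k => (‖r k j‖ : ℂ) ^ 3 * ((‖r k i‖ : ℂ) ^ 3 * (lam k : ℂ))) := by
      funext k; ring
    rw [h3] at h1
    have h4 := tendsto_nhds_unique h1 h2
    rw [mul_one, mul_one] at h4
    have h5 : ‖p i‖ ^ 3 = ‖p j‖ ^ 3 := by exact_mod_cast h4
    exact (pow_left_inj₀ (norm_nonneg _) (norm_nonneg _) (by norm_num)).mp h5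
  · have h1 : ∀ k, ∑ j : Fin N, ((starRingEnd ℂ) (r k i) * r k j).im *
        ((‖r k j‖ ^ 3)⁻¹ - (‖r k i - r k j‖ ^ 3)⁻¹) = 0 := fun k =>
      hall_im (he0 k) i (h k i)
    have h2 : Tendsto (fun k => ∑ j : Fin N, ((starRingEnd ℂ) (r k i) * r k j).im *
        ((‖r k j‖ ^ 3)⁻¹ - (‖r k i - r k j‖ ^ 3)⁻¹)) atTop
        (nhds (∑ j : Fin N, ((starRingEnd ℂ) (p i) * p j).im *
      ((‖p j‖ ^ 3)⁻¹ - (‖p i - p j‖ ^ 3)⁻¹))) := by
      refine tendsto_finsetSum _ fun j _ => ?_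
      have h3 : Tendsto (fun k => ((starRingEnd ℂ) (r k i) * r k j).im) atTop
          (nhds ((starRingEnd ℂ) (p i) * p j).im) :=
        (Complex.continuous_im.tendsto _).comp
          (((Complex.continuous_conj.tendsto _).comp (hr i)).mul (hr j))
      rcases eq_or_ne i j with rfl | hne
      · simp only [sub_self, norm_zero]
        refine h3.mul ((((hr i).norm.pow 3).inv₀ (by simpa using hp0 i)).sub tendsto_const_nhds)
      · refine h3.mul ((((hr j).norm.pow 3).inv₀ (by simpa using hp0 j)).sub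
          ((((hr i).sub (hr j)).norm.pow 3).inv₀ ?_))
        have := sub_ne_zero.mpr (hp.ne hne)
        simpa using this
    simp_rw [h1] at h2
    exact (tendsto_nhds_unique h2 tendsto_const_nhds)

end Pool.Agent.Lib_helper90d
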