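import Pool.Agent.Lib_helper90d.Basic

set_option autoImplicit false

open Finset

namespace Pool.Agent.Lib_helper90d

/-- the basic function of the argument -/
noncomputable def Psi (a y : ℝ) : ℝ :=
  (y - a) / 2 * (Real.cos a / Real.sin a ^ 2 - Real.cos y / Real.sin y ^ 2)
    - 2 * (Real.cos (2 * a) - Real.cos (2 * y)
      - (y - a) * (Real.sin (2 * a) + Real.sin (2 * y)))

theorem Psi_refl (a y : ℝ) : Psi (Real.pi - a) (Real.pi - y) = Psi a y := by
  unfold Psi
  rw [Real.cos_pi_sub, Real.cos_pi_sub, Real.sin_pi_sub, Real.sin_pi_sub,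
    show 2 * (Real.pi - a) = 2 * Real.pi - 2 * a by ring,
    show 2 * (Real.pi - y) = 2 * Real.pi - 2 * y by ring,
    Real.cos_two_pi_sub, Real.cos_two_pi_sub, Real.sin_two_pi_sub, Real.sin_two_pi_sub]
  ring

noncomputable def al (N m : ℕ) : ℝ := Real.pi * m / N

namespace Sol

variable {N : ℕ} (S : Sol N)

noncomputable def SS (m : ℕ) : ℝ := ∑ j ∈ range N, Psi (al N m) (S.y m j)

theorem sum_dl (m : ℕ) : ∑ j ∈ range N, (S.y m j - al N m) = 0 := by
  have hN : (N : ℝ) ≠ 0 := by have := S.N_pos; positivity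
  rw [Finset.sum_sub_distrib, S.sum_y]
  simp only [Finset.sum_const, Finset.card_range, nsmul_eq_mul]
  unfold al
  field_simp
  ring

theorem sum_dl_E : ∑ i ∈ range (N - 1), ∑ j ∈ range N,
    (S.y (i + 1) j - al N (i + 1)) * Efun (2 * S.y (i + 1) j) = 0 := by
  have hN : (N : ℝ) ≠ 0 := by have := S.N_pos; positivity
  have h := S.sum_mul_E (fun j : ℕ => S.th j - 2 * Real.pi * (j : ℝ) / N) (by
    intro j
    rw [S.per]
    push_cast
    field_simp
    ring)
  have e : ∀ i ∈ range (N - 1), ∑ j ∈ range N,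
      (S.y (i + 1) j - al N (i + 1)) * Efun (2 * S.y (i + 1) j) =
      (∑ j ∈ range N, ((S.th (j + (i + 1)) - 2 * Real.pi * ((j + (i + 1) : ℕ) : ℝ) / N) -
        (S.th j - 2 * Real.pi * (j : ℝ) / N)) *
        Efun (S.th (j + (i + 1)) - S.th j)) / 2 := by
    intro i _
    rw [Finset.sum_div]
    refine Finset.sum_congr rfl fun j _ => ?_
    unfold y al
    rw [show 2 * ((S.th (j + (i + 1)) - S.th j) / 2) = S.th (j + (i + 1)) - S.th j by ring]
    push_cast
    field_simp
    ring
  rw [Finset.sum_congr rfl e, ← Finset.sum_div, h, zero_div]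

theorem identK (hN2 : 2 ≤ N) : ∑ i ∈ range (N - 1), S.SS (i + 1) = 2 * S.F ^ 2 := by
  have h1 := S.sum_dl_E
  have h2 := S.F_sq
  have h3 := sum_cos_roots hN2
  have e : ∀ i ∈ range (N - 1), S.SS (i + 1) =
      2 * (∑ j ∈ range N, (S.y (i + 1) j - al N (i + 1)) * Efun (2 * S.y (i + 1) j)) +
      2 * (∑ j ∈ range N, Real.cos (2 * S.y (i + 1) j)) -
      2 * N * Real.cos (2 * (Real.pi * ((i + 1 : ℕ) : ℝ) / N)) := by
    intro i _
    unfold SS
    have hd := S.sum_dl (i + 1)
    have : ∀ j ∈ range N, Psi (al N (i + 1)) (S.y (i + 1) j) =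
        2 * ((S.y (i + 1) j - al N (i + 1)) * Efun (2 * S.y (i + 1) j)) +
        2 * Real.cos (2 * S.y (i + 1) j) - 2 * Real.cos (2 * al N (i + 1)) +
        (Real.cos (al N (i + 1)) / Real.sin (al N (i + 1)) ^ 2 / 2 +
          2 * Real.sin (2 * al N (i + 1))) * (S.y (i + 1) j - al N (i + 1)) := by
      intro j _
      unfold Psi Efun
      rw [show 2 * S.y (i + 1) j / 2 = S.y (i + 1) j by ring]
      rcases eq_or_ne (Real.sin (S.y (i + 1) j)) 0 with h0 | h0
      · rw [h0]; simp; ring
      · field_simp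
        ring
    rw [Finset.sum_congr rfl this, Finset.sum_add_distrib, Finset.sum_sub_distrib,
      Finset.sum_add_distrib, ← Finset.mul_sum, ← Finset.mul_sum, ← Finset.mul_sum,
      ← Finset.mul_sum (s := range N) (f := fun j => S.y (i + 1) j - al N (i + 1)), hd]
    simp only [Finset.sum_const, Finset.card_range, nsmul_eq_mul]
    unfold al
    ring
  rw [Finset.sum_congr rfl e, Finset.sum_sub_distrib, Finset.sum_add_distrib, ← Finset.mul_sum,
    ← Finset.mul_sum, ← Finset.mul_sum, h1, h3, h2]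
  ring

theorem SS_symm {m : ℕ} (hm : m ≤ N) : S.SS (N - m) = S.SS m := by
  have hN : (N : ℝ) ≠ 0 := by have := S.N_pos; positivity
  unfold SS
  have hper : ∀ j, (fun j => Psi (al N (N - m)) (S.y (N - m) j)) (j + N) =
      (fun j => Psi (al N (N - m)) (S.y (N - m) j)) j := by
    intro j
    beta_reduce
    have : S.y (N - m) (j + N) = S.y (N - m) j := by
      unfold y
      rw [show j + N + (N - m) = (j + (N - m)) + N by ring, S.per, S.per]
      ring
    rw [this]
  rw [← sum_shift (H := fun j => Psi (al N (N - m)) (S.y (N - m) j)) hper m]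
  refine Finset.sum_congr rfl fun j _ => ?_
  have e1 : S.y (N - m) (j + m) = Real.pi - S.y m j := by
    unfold y
    rw [show j + m + (N - m) = j + N by omega, S.per]
    ring
  have e2 : al N (N - m) = Real.pi - al N m := by
    unfold al
    rw [Nat.cast_sub hm]
    field_simp
  rw [e1, e2, Psi_refl]

/-- lower bound for `F²` by half the indices -/
theorem F_sq_ge (hN2 : 2 ≤ N) (hpos : ∀ m, 0 < m → m < N → 0 ≤ S.SS m) (M : Finset ℕ)
    (hM : ∀ m ∈ M, 0 < m ∧ 2 * m < N) : ∑ m ∈ M, S.SS m ≤ S.F ^ 2 := by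
  have h := S.identK hN2
  have h1 : ∑ m ∈ M, S.SS m + ∑ m ∈ M.image (fun m => N - m), S.SS m ≤
      ∑ i ∈ range (N - 1), S.SS (i + 1) := by
    have hdis : Disjoint M (M.image (fun m => N - m)) := by
      rw [Finset.disjoint_left]
      intro m hm hm2
      obtain ⟨k, hk, hkm⟩ := Finset.mem_image.mp hm2
      have := hM m hm
      have := hM k hk
      omega
    rw [← Finset.sum_union hdis]
    have : ∑ i ∈ range (N - 1), S.SS (i + 1) = ∑ m ∈ (range (N - 1)).image (fun i => i + 1),
        S.SS m := by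
      rw [Finset.sum_image]
      intro a _ b _ hab
      simpa using hab
    rw [this]
    refine Finset.sum_le_sum_of_subset_of_nonneg ?_ ?_
    · intro m hm
      rw [Finset.mem_union] at hm
      rw [Finset.mem_image]
      rcases hm with hm | hm
      · have := hM m hm
        exact ⟨m - 1, Finset.mem_range.mpr (by omega), by omega⟩
      · obtain ⟨k, hk, hkm⟩ := Finset.mem_image.mp hm
        have := hM k hk
        exact ⟨m - 1, Finset.mem_range.mpr (by omega), by omega⟩
    · intro m hm _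
      obtain ⟨k, hk, hkm⟩ := Finset.mem_image.mp hm
      have := Finset.mem_range.mp hk
      exact hpos m (by omega) (by omega)
  have h2 : ∑ m ∈ M.image (fun m => N - m), S.SS m = ∑ m ∈ M, S.SS m := by
    rw [Finset.sum_image]
    · refine Finset.sum_congr rfl fun m hm => S.SS_symm (by have := hM m hm; omega)
    · intro a ha b hb hab
      have := hM a ha
      have := hM b hb
      simp only at hab
      omega
  rw [h, h2] at h1
  linarith

/-- exact value of `∑ (y + sin y cos y cos 2ψ)` -/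
theorem sum_weight (m : ℕ) : ∑ j ∈ range N, (S.y m j +
    Real.sin (S.y m j) * Real.cos (S.y m j) * Real.cos (2 * S.ps m j)) = Real.pi * m := by
  have h := S.sum_sin_cos 2 m
  have e : ∀ j ∈ range N, (S.y m j +
      Real.sin (S.y m j) * Real.cos (S.y m j) * Real.cos (2 * S.ps m j)) =
      S.y m j + (Real.sin (((2 : ℕ) : ℝ) * S.y m j) * Real.cos (((2 : ℕ) : ℝ) * S.ps m j)) / 2 := by
    intro j _
    push_cast
    rw [Real.sin_two_mul]
    ring
  rw [Finset.sum_congr rfl e, Finset.sum_add_distrib, ← Finset.sum_div, h, S.sum_y]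
  ring

theorem F_sin (m : ℕ) : S.F * Real.sin (al N m) =
    - ∑ j ∈ range N, Real.sin (S.y m j - al N m) * Real.cos (S.ps m j) := by
  have h1 := S.sum_sin_cos 1 m
  have h2 := S.sum_cos_cos 1 m
  simp only [Nat.cast_one, one_mul] at h1 h2
  rw [S.cosF] at h2
  have e : ∀ j ∈ range N, Real.sin (S.y m j - al N m) * Real.cos (S.ps m j) =
      Real.cos (al N m) * (Real.sin (S.y m j) * Real.cos (S.ps m j)) -
      Real.sin (al N m) * (Real.cos (S.y m j) * Real.cos (S.ps m j)) := by
    intro j _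
    rw [Real.sin_sub]; ring
  rw [Finset.sum_congr rfl e, Finset.sum_sub_distrib, ← Finset.mul_sum, ← Finset.mul_sum, h1, h2]
  ring

end Sol

theorem sin_cos_lt {y : ℝ} (hy : 0 < y) : Real.sin y * Real.cos y < y := by
  have := Real.sin_lt (show 0 < 2 * y by linarith)
  rw [Real.sin_two_mul] at this
  linarith

theorem y_add_pos {y : ℝ} (hy : 0 < y) : 0 < y + Real.sin y * Real.cos y := by
  have h := Real.sin_lt (show 0 < 2 * y by linarith)
  have h2 : -(2 * y) < Real.sin (2 * y) := by
    rcases lt_or_ge (2 * y) 1 with h1 | h1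
    · have := Real.sin_pos_of_pos_of_lt_pi (show 0 < 2 * y by linarith)
        (by linarith [Real.pi_gt_three])
      linarith
    · rcases lt_or_ge 1 (2 * y) with h3 | h3
      · linarith [Real.neg_one_le_sin (2 * y)]
      · have h4 : 2 * y = 1 := le_antisymm h3 h1
        have := Real.sin_pos_of_pos_of_lt_pi (show 0 < 2 * y by linarith)
          (by linarith [Real.pi_gt_three])
        linarith
  rw [Real.sin_two_mul] at h2
  linarith

namespace Sol
variable {N : ℕ} (S : Sol N)

theorem cs_bound {m : ℕ} (hm : 0 < m) : S.F ^ 2 * Real.sin (al N m) ^ 2 ≤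
    (∑ j ∈ range N, Real.sin (S.y m j - al N m) ^ 2 /
      (S.y m j + Real.sin (S.y m j) * Real.cos (S.y m j))) * (Real.pi * m) := by
  have h1 := S.F_sin m
  have h2 := S.sum_weight m
  have key : ∀ j ∈ range N, (S.y m j + Real.sin (S.y m j) * Real.cos (S.y m j)) *
      Real.cos (S.ps m j) ^ 2 ≤ S.y m j +
      Real.sin (S.y m j) * Real.cos (S.y m j) * Real.cos (2 * S.ps m j) := by
    intro j _
    have hy := S.y_pos hm j
    have h3 := sin_cos_lt hy
    have h4 : Real.cos (S.ps m j) ^ 2 ≤ 1 := Real.cos_sq_le_one _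
    rw [Real.cos_two_mul]
    nlinarith
  have hcs := Finset.sum_mul_sq_le_sq_mul_sq (range N)
    (fun j => Real.sin (S.y m j - al N m) /
      Real.sqrt (S.y m j + Real.sin (S.y m j) * Real.cos (S.y m j)))
    (fun j => Real.sqrt (S.y m j + Real.sin (S.y m j) * Real.cos (S.y m j)) *
      Real.cos (S.ps m j))
  have e1 : ∀ j ∈ range N, (Real.sin (S.y m j - al N m) /
      Real.sqrt (S.y m j + Real.sin (S.y m j) * Real.cos (S.y m j))) *
      (Real.sqrt (S.y m j + Real.sin (S.y m j) * Real.cos (S.y m j)) *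
      Real.cos (S.ps m j)) = Real.sin (S.y m j - al N m) * Real.cos (S.ps m j) := by
    intro j _
    have := Real.sqrt_pos.mpr (y_add_pos (S.y_pos hm j))
    field_simp
  have e2 : ∀ j ∈ range N, (Real.sin (S.y m j - al N m) /
      Real.sqrt (S.y m j + Real.sin (S.y m j) * Real.cos (S.y m j))) ^ 2 =
      Real.sin (S.y m j - al N m) ^ 2 /
      (S.y m j + Real.sin (S.y m j) * Real.cos (S.y m j)) := by
    intro j _
    rw [div_pow, Real.sq_sqrt (y_add_pos (S.y_pos hm j)).le]
  have e3 : ∀ j ∈ range N, (Real.sqrt (S.y m j + Real.sin (S.y m j) * Real.cos (S.y m j)) *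
      Real.cos (S.ps m j)) ^ 2 = (S.y m j + Real.sin (S.y m j) * Real.cos (S.y m j)) *
      Real.cos (S.ps m j) ^ 2 := by
    intro j _
    rw [mul_pow, Real.sq_sqrt (y_add_pos (S.y_pos hm j)).le]
  rw [Finset.sum_congr rfl e1, Finset.sum_congr rfl e2, Finset.sum_congr rfl e3] at hcs
  have h5 : S.F ^ 2 * Real.sin (al N m) ^ 2 =
      (∑ j ∈ range N, Real.sin (S.y m j - al N m) * Real.cos (S.ps m j)) ^ 2 := by
    have : (S.F * Real.sin (al N m)) ^ 2 = (- ∑ j ∈ range N, Real.sin (S.y m j - al N m) *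
      Real.cos (S.ps m j)) ^ 2 := by rw [h1]
    rw [neg_sq] at this
    rw [← this]; ring
  rw [h5]
  refine hcs.trans ?_
  refine mul_le_mul_of_nonneg_left ?_ ?_
  · rw [← h2]
    exact Finset.sum_le_sum key
  · exact Finset.sum_nonneg fun j _ => div_nonneg (sq_nonneg _) (y_add_pos (S.y_pos hm j)).le

end Sol

end Pool.Agent.Lib_helper90d
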