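import Pool.Agent.Lib_helper90d.T00

/-!
Certificates for `N = 9`, part 1.
-/

set_option autoImplicit false
set_option maxRecDepth 100000

namespace Pool.Agent.Lib_helper90d

theorem j9_0 : jsegsOK 168 46 9 26 6 2 9 36736
  tb_6_3 43000
  [⟨36736,43072,[-309153792,21794816,0],
    [⟨-913563553,-1833832474,[2285758880,-405866762,-89142164],[-2195695527,-658048367,378554408],[-309153792,21794816,0]⟩,⟨-427896748,-449192994,[1084331894,-219923005,15545798],[-409080822,-157913133,45028121],[-309153792,21794816,0]⟩,⟨-243860131,-137781959,[681622126,-104165947,81980092],[-176967216,-21017383,-11253265],[-309153792,21794816,0]⟩,⟨-163999602,-53944715,[500291600,-49872650,46592846],[-47621565,-21357606,6492237],[-309153792,21794816,0]⟩],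
    [⟨-982742105,-2142520519,[2379328434,-371559695,-126862248],[-2560041164,-820869279,475766431],[-309153792,21794816,0]⟩,⟨-682311126,-527866755,[1493184183,-404235736,56500104],[-497724606,-182078873,57984875],[-309153792,21794816,0]⟩,⟨-265157334,-177065984,[716812160,-98641926,83172708],[-249598673,-4727217,-27432263],[-309153792,21794816,0]⟩,⟨-175558292,-64757556,[521236819,-39891021,51648030],[-80552807,-3513272,-6526279],[-309153792,21794816,0]⟩]⟩] = true := by decide +kernel

theorem j9_1 : jsegsOK 164 46 9 26 6 2 9 32960
  tb_6_3 36736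
  [⟨32960,36736,[-125853696,23105536,0],
    [⟨-183490950,-701344570,[653099222,-187658859,-577370],[-863740783,-46985580,37825025],[-125853696,23105536,0]⟩,⟨-92341269,-179067174,[310829546,-81667665,16329447],[-158645633,-37938435,1582484],[-125853696,23105536,0]⟩,⟨-57888386,-56965117,[207274917,-21428190,24361860],[-67447530,-10786938,-8116836],[-125853696,23105536,0]⟩,⟨-28968651,-11169441,[143158594,5924694,12178133],[-13947742,-2814590,-2324221],[-125853696,23105536,0]⟩],
    [⟨-208052806,-776039083,[694451423,-206950111,5189],[-953438618,-36151260,43025407],[-125853696,23105536,0]⟩,⟨-97691897,-199770601,[320274573,-83755629,15078774],[-183015608,-36004432,979426],[-125853696,23105536,0]⟩,⟨-63134834,-67004304,[217141591,-22043809,25117790],[-84315572,-5998272,-12604801],[-125853696,23105536,0]⟩,⟨-46598253,-18423145,[174607009,-4711483,18081059],[-22822525,-2179684,-4087805],[-125853696,23105536,0]⟩]⟩] = true := by decide +kernel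

theorem j9_2 : jsegsOK 164 46 9 26 6 2 9 31232
  tb_6_3 32960
  [⟨31232,32960,[-72095744,17983488,0],
    [⟨-68221596,-420297131,[319313337,-111223022,7585406],[-501943578,1889193,-787739],[-72095744,17983488,0]⟩,⟨-37081274,-111640410,[152746617,-42989896,12086653],[-97150027,-19514675,-2939274],[-72095744,17983488,0]⟩,⟨-24928695,-38035972,[107588928,-5967819,12480768],[-43540747,-8155786,-5563548],[-72095744,17983488,0]⟩,⟨-14915285,-10897650,[83276719,5569161,6413325],[-11796182,-2813311,-2095358],[-72095744,17983488,0]⟩],
    [⟨-76201752,-446066738,[334124896,-116080823,7333194],[-534421427,939728,1033618],[-72095744,17983488,0]⟩,⟨-38983664,-118251409,[156732244,-42691696,11480379],[-105593910,-19997683,-3417014],[-72095744,17983488,0]⟩,⟨-26587333,-41283568,[110903262,-6296300,12260896],[-47672265,-7595606,-6728298],[-72095744,17983488,0]⟩,⟨-23133913,-11243350,[98900437,1902914,9625466],[-13703732,-2424587,-2660586],[-72095744,17983488,0]⟩]⟩] = true := by decide +kernel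

end Pool.Agent.Lib_helper90d
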