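import Pool.Agent.Lib_helper90d.T00

/-!
Certificates for `N = 10`, part 2.
-/

set_option autoImplicit false
set_option maxRecDepth 100000

namespace Pool.Agent.Lib_helper90d

def c10_2a0 : List Cert :=
  [⟨-8909115,-151709079,[99685940,-25471885,5428238,347358],[-234036514,-17244452,-1947072,-1278062],[-20090880,7573504,-714752,0]⟩,
  ⟨-4850223,-42053894,[43075433,-7739309,3918909,-807362],[-41377535,-10609869,826746,-1104555],[-20090880,7573504,-714752,0]⟩,
  ⟨-3582254,-15163619,[30383332,339374,512550,-706833],[-15358442,-5510921,-959106,-1215230],[-20090880,7573504,-714752,0]⟩,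
  ⟨-2659411,-7324424,[26399174,2572593,897030,51257],[-7407051,-2042541,-542452,-59469],[-20090880,7573504,-714752,0]⟩,
  ⟨-3190193,14572,[27666410,3075574,970386,109240],[12392,-3434,-2826,-1049],[-20090880,7573504,-714752,0]⟩]

theorem j10_2_a0 : jok 172 46 9 26 7 4 tb_7_4 [-20090880,7573504,-714752,0] 10 0 c10_2a0 = true := by
  decide +kernel

def c10_2b0 : List Cert :=
  [⟨-23612830,-248158740,[131148793,-39826911,8206080,3473599],[-332085396,-14877628,824096,-5563705],[-20090880,7573504,-714752,0]⟩,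
  ⟨-10712053,-63878243,[58342049,-10481055,3615378,-3185158],[-70199340,-9439728,-1997919,299190],[-20090880,7573504,-714752,0]⟩,
  ⟨-8105857,-26757478,[41961322,-1668933,1966638,-2013980],[-27788294,-6172292,-2365774,-694248],[-20090880,7573504,-714752,0]⟩,
  ⟨-7256199,-10873989,[39471532,5729147,1822020,-34817],[-12845516,-3727940,-1170070,-417481],[-20090880,7573504,-714752,0]⟩,
  ⟨-7929933,-34701,[41577535,7535724,1987808,386692],[-28566,4015,1510,3270],[-20090880,7573504,-714752,0]⟩]

theorem j10_2_b0 : jok 172 46 9 26 7 4 tb_7_4 [-20090880,7573504,-714752,0] 10 0 c10_2b0 = true := by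
  decide +kernel

theorem j10_2 : (JSeg.mk 19456 28736 [-20090880,7573504,-714752,0] (c10_2a0) (c10_2b0)).ok 172 46 9 26 7 3 10 tb_7_4 = true :=
  JSeg.ok_of (by decide +kernel) j10_2_a0 j10_2_b0

def c10_3a0 : List Cert :=
  [⟨-1207662,-37542468,[49285182,-7175228,759125,-90359],[-109734305,-3558894,-697318,-49587],[-9672704,2291712,-73728,0]⟩,
  ⟨-673390,-13449758,[19147407,-894139,440238,4508],[-16280996,-3080517,38786,-119090],[-9672704,2291712,-73728,0]⟩,
  ⟨-440200,-4763531,[13172096,947907,84064,17937],[-5944586,-1210156,-229215,40708],[-9672704,2291712,-73728,0]⟩,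
  ⟨-366201,-2136444,[10786460,597554,175700,16019],[-2303089,-179130,-9179,-254],[-9672704,2291712,-73728,0]⟩,
  ⟨-401355,-2626,[10236262,392912,103046,6590],[-501,368,96,21],[-9672704,2291712,-73728,0]⟩]

theorem j10_3_a0 : jok 172 46 9 26 7 4 tb_7_4 [-9672704,2291712,-73728,0] 10 0 c10_3a0 = true := by
  decide +kernel

def c10_3b0 : List Cert :=
  [⟨-5383465,-107785882,[65568715,-13674289,1474576,612183],[-174214767,3302958,-669041,-678469],[-9672704,2291712,-73728,0]⟩,
  ⟨-2903512,-31471736,[28336908,-3792025,2246348,-209291],[-33091990,-2697605,6479,-339230],[-9672704,2291712,-73728,0]⟩,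
  ⟨-2114341,-13069841,[20650167,425346,-516807,-466225],[-13612235,-1808611,-1202087,-323468],[-9672704,2291712,-73728,0]⟩,
  ⟨-2276861,-6178147,[19829386,1512632,46919,-70812],[-6080026,-1387725,-708760,-107758],[-9672704,2291712,-73728,0]⟩,
  ⟨-2616988,-29382,[21267807,2559712,301448,49410],[-17444,5252,2789,847],[-9672704,2291712,-73728,0]⟩]

theorem j10_3_b0 : jok 172 46 9 26 7 4 tb_7_4 [-9672704,2291712,-73728,0] 10 0 c10_3b0 = true := by
  decide +kernel

theorem j10_3 : (JSeg.mk 8640 19456 [-9672704,2291712,-73728,0] (c10_3a0) (c10_3b0)).ok 172 46 9 26 7 3 10 tb_7_4 = true :=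
  JSeg.ok_of (by decide +kernel) j10_3_a0 j10_3_b0

end Pool.Agent.Lib_helper90d
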