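import Pool.Agent.Lib_helper90d.T00

/-!
Certificates for `N = 10`, part 3.
-/

set_option autoImplicit false
set_option maxRecDepth 100000

namespace Pool.Agent.Lib_helper90d

def c10_4a0 : List Cert :=
  [⟨-264150,-12489728,[44636511,-3650540,-50412,119292],[-81781936,250203,-593177,-91924],[-11331584,866304,116736,0]⟩,
  ⟨-193673,-7101384,[17280573,-258870,192700,-117292],[-10587174,-1063052,-126445,-135616],[-11331584,866304,116736,0]⟩,
  ⟨-74120,-1935153,[11396310,495966,46451,20203],[-3330366,-322353,-33385,3355],[-11331584,866304,116736,0]⟩,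
  ⟨-64867,-645471,[8711716,88602,43919,7743],[-948495,-117236,-61528,-7396],[-11331584,866304,116736,0]⟩,
  ⟨-62471,-8487,[7693609,53484,33824,7368],[-998,1094,95,-57],[-11331584,866304,116736,0]⟩]

theorem j10_4_a0 : jok 172 46 9 26 7 4 tb_7_4 [-11331584,866304,116736,0] 10 0 c10_4a0 = true := by
  decide +kernel

def c10_4b0 : List Cert :=
  [⟨-1077430,-39010771,[52164643,-7084485,-589460,452957],[-107663840,4798479,70308,-303667],[-11331584,866304,116736,0]⟩,
  ⟨-612305,-13046800,[21126791,-1349976,1118832,-426097],[-16557725,-781837,-15443,-394002],[-11331584,866304,116736,0]⟩,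
  ⟨-350682,-4837772,[14355695,464023,-197793,-55381],[-5906396,-448529,-556194,-26150],[-11331584,866304,116736,0]⟩,
  ⟨-320206,-2131041,[11451576,280970,151077,64702],[-2092166,-98240,-252700,-76126],[-11331584,866304,116736,0]⟩,
  ⟨-369331,8112,[10958546,285936,176788,81538],[2086,652,466,3],[-11331584,866304,116736,0]⟩]

theorem j10_4_b0 : jok 172 46 9 26 7 4 tb_7_4 [-11331584,866304,116736,0] 10 0 c10_4b0 = true := by
  decide +kernel

theorem j10_4 : (JSeg.mk 3776 8640 [-11331584,866304,116736,0] (c10_4a0) (c10_4b0)).ok 172 46 9 26 7 3 10 tb_7_4 = true :=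
  JSeg.ok_of (by decide +kernel) j10_4_a0 j10_4_b0

def c10_5a0 : List Cert :=
  [⟨-17703,-1574958,[37469935,-1192386,-37203,-6927],[-58957674,216713,14639,2380],[-11323392,280576,2048,0]⟩,
  ⟨-63357,-3147153,[14691639,353429,45132,4995],[-6808495,-511524,35031,-6172],[-11323392,280576,2048,0]⟩,
  ⟨-4934,-470580,[9705560,123231,7152,2006],[-1971515,-92632,16469,548],[-11323392,280576,2048,0]⟩,
  ⟨-3362,-87700,[7005992,-4517,2075,44],[-343786,-59260,-2392,-55],[-11323392,280576,2048,0]⟩,
  ⟨-3042,-122,[6086305,2686,1308,24],[2,1,0,0],[-11323392,280576,2048,0]⟩]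

theorem j10_5_a0 : jok 172 46 10 51 7 4 tb_7_4 [-11323392,280576,2048,0] 10 0 c10_5a0 = true := by
  decide +kernel

def c10_5b0 : List Cert :=
  [⟨-321563,-14290055,[45012872,-3689241,-112637,229579],[-82560403,3395746,247791,-128874],[-11323392,280576,2048,0]⟩,
  ⟨-177909,-7249742,[17436238,-415726,213207,-225252],[-10836855,-206212,36527,-216623],[-11323392,280576,2048,0]⟩,
  ⟨-77179,-2142812,[11619847,312985,-66555,-16959],[-3483065,-74290,-192764,7459],[-11323392,280576,2048,0]⟩,
  ⟨-77018,-757758,[8945437,106065,46966,11405],[-1027795,-3714,-68643,-9730],[-11323392,280576,2048,0]⟩,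
  ⟨-76437,-112,[7978836,72234,18878,3774],[12,-3,0,0],[-11323392,280576,2048,0]⟩]

theorem j10_5_b0 : jok 172 46 10 51 7 4 tb_7_4 [-11323392,280576,2048,0] 10 0 c10_5b0 = true := by
  decide +kernel

theorem j10_5 : (JSeg.mk 832 4224 [-11323392,280576,2048,0] (c10_5a0) (c10_5b0)).ok 172 46 10 51 7 3 10 tb_7_4 = true :=
  JSeg.ok_of (by decide +kernel) j10_5_a0 j10_5_b0

end Pool.Agent.Lib_helper90d
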