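import Pool.Agent.Lib_helper90d.T00

/-!
Certificates for `N = 10`, part 4.
-/

set_option autoImplicit false
set_option maxRecDepth 100000

namespace Pool.Agent.Lib_helper90d

def c10_6a0 : List Cert :=
  [⟨-1439,-334596,[21093123,-181343,-6282,-396],[-31578757,157144,4872,80],[-6694912,18432,0,0]⟩,
  ⟨-3888,-693316,[8990238,135382,7109,322],[-4525700,-69178,3594,-45],[-6694912,18432,0,0]⟩,
  ⟨-343,-17487,[5675411,-16453,-501,51],[-1117221,-13723,-1432,-75],[-6694912,18432,0,0]⟩,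
  ⟨-299,-7475,[3930909,-3000,418,26],[-133604,-7393,-600,5],[-6694912,18432,0,0]⟩,
  ⟨-334,-85,[3412107,68,-1128,-6],[0,0,0,0],[-6694912,18432,0,0]⟩]

theorem j10_6_a0 : jok 172 46 10 51 7 4 tb_7_4 [-6694912,18432,0,0] 10 0 c10_6a0 = true := by
  decide +kernel

def c10_6b0 : List Cert :=
  [⟨-17401,-941211,[23106433,-563482,-12622,8798],[-37760528,658642,18456,-4273],[-6694912,18432,0,0]⟩,
  ⟨-7832,-1402779,[9525877,154085,14280,-9020],[-5272555,-75741,4344,-11875],[-6694912,18432,0,0]⟩,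
  ⟨-4596,-131684,[6253723,-20651,-2621,47],[-1538137,-19230,-5306,-128],[-6694912,18432,0,0]⟩,
  ⟨-3300,-59586,[4341599,3736,1643,156],[-267677,-2999,-2587,-38],[-6694912,18432,0,0]⟩,
  ⟨-2995,-85,[3775751,2684,980,38],[2,0,0,0],[-6694912,18432,0,0]⟩]

theorem j10_6_b0 : jok 172 46 10 51 7 4 tb_7_4 [-6694912,18432,0,0] 10 0 c10_6b0 = true := by
  decide +kernel

theorem j10_6 : (JSeg.mk 128 832 [-6694912,18432,0,0] (c10_6a0) (c10_6b0)).ok 172 46 10 51 7 3 10 tb_7_4 = true :=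
  JSeg.ok_of (by decide +kernel) j10_6_a0 j10_6_b0

end Pool.Agent.Lib_helper90d
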