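import Pool.Agent.Lib_helper90d.J10a
import Pool.Agent.Lib_helper90d.J10b
import Pool.Agent.Lib_helper90d.J10c
import Pool.Agent.Lib_helper90d.J10d

/-!
The case `N = 10`.
-/

set_option autoImplicit false
set_option maxRecDepth 100000

namespace Pool.Agent.Lib_helper90d

theorem u10 : fsegsOK 156 46 8 13 10 43000 65536
  [⟨4,53696,65536,1,[(-504829066,-829321470,753622923,-1176247273,-781356194)]⟩,
  ⟨4,43101,53696,3,[(-102547969,-378252333,219245170,-642747780,-127738614),(-52716437,-98406637,106917873,-137233637,-31603272),(-41734735,-38655411,83724872,-43985062,-20131272)]⟩,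
  ⟨4,43000,43101,4,[(-58681279,-294164193,149974077,-495111591,-66284648),(-27197207,-76407245,66355628,-101723736,-15256162),(-23548751,-31083781,54807648,-35814191,-10502667),(-23516828,-14188468,55092037,-10609606,-9427260)]⟩] = true := by decide +kernel

theorem s10 : smallOK 10 128 4398 9830 false = true := by decide +kernel

theorem F10 (S : Sol 10) : S.F = 0 :=
  S.finish s10
    (S.jstep (by norm_num) symSum10 tb_7_4_eq j10_6 (top := 832) rfl
    (S.jstep (by norm_num) symSum10 tb_7_4_eq j10_5 (top := 3776) rfl
    (S.jstep (by norm_num) symSum10 tb_7_4_eq j10_4 (top := 8640) rfl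
    (S.jstep (by norm_num) symSum10 tb_7_4_eq j10_3 (top := 19456) rfl
    (S.jstep (by norm_num) symSum10 tb_7_4_eq j10_2 (top := 28736) rfl
    (S.jstep (by norm_num) symSum10 tb_7_4_eq j10_1 (top := 34240) rfl
    (S.jstep (by norm_num) symSum10 tb_7_4_eq j10_0 (top := 43000) rfl
    (S.fsegs_ok _ _ u10 S.start))))))))

end Pool.Agent.Lib_helper90d
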