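import Pool.Agent.Lib_helper90d.T00

/-!
Certificates for `N = 10`, part 1.
-/

set_option autoImplicit false
set_option maxRecDepth 100000

namespace Pool.Agent.Lib_helper90d

def c10_0a0 : List Cert :=
  [⟨-803593648,-2136532774,[2296232943,-421163871,-108101226,37494229],[-2584427403,-771890878,408836697,-121611473],[-320706560,19056640,13854720,0]⟩,
  ⟨-415550227,-537764687,[1145954060,-251844405,15983793,-2208530],[-679962695,21099076,-84169833,20280077],[-320706560,19056640,13854720,0]⟩,
  ⟨-266084100,-190012471,[753908807,-142228047,79772159,-3102087],[-315762350,79401962,-90963023,10535783],[-320706560,19056640,13854720,0]⟩,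
  ⟨-160577087,-51147435,[512363984,-37737098,46359970,4232391],[-32275727,-48876099,17517928,-14661677],[-320706560,19056640,13854720,0]⟩,
  ⟨-133482663,-71259777,[435941100,-42005158,31534108,-446506],[-41948498,-30410279,6827810,-14202548],[-320706560,19056640,13854720,0]⟩]

theorem j10_0_a0 : jok 176 46 9 26 7 4 tb_7_4 [-320706560,19056640,13854720,0] 10 0 c10_0a0 = true := by
  decide +kernel

def c10_0b0 : List Cert :=
  [⟨-1156906837,-2737172946,[2793071223,-432512228,-291831891,145262538],[-2906449562,-1560675751,956063831,-306969039],[-320706560,19056640,13854720,0]⟩,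
  ⟨-525174754,-674886159,[1365783786,-359129493,132205922,-63831282],[-875461863,-71328853,-60274644,5473706],[-320706560,19056640,13854720,0]⟩,
  ⟨-363208516,-262495122,[939472292,-251975170,150584076,-40068602],[-293450402,-79199343,-1590654,-27555763],[-320706560,19056640,13854720,0]⟩,
  ⟨-193953947,-101125086,[571673850,-48415032,55989767,2338442],[-53045287,-103909895,44399755,-29784657],[-320706560,19056640,13854720,0]⟩,
  ⟨-145503749,-83598402,[454677352,-14761754,31349552,3654708],[-36144241,-65901854,29338022,-21273865],[-320706560,19056640,13854720,0]⟩]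

theorem j10_0_b0 : jok 176 46 9 26 7 4 tb_7_4 [-320706560,19056640,13854720,0] 10 0 c10_0b0 = true := by
  decide +kernel

theorem j10_0 : (JSeg.mk 34240 43072 [-320706560,19056640,13854720,0] (c10_0a0) (c10_0b0)).ok 176 46 9 26 7 3 10 tb_7_4 = true :=
  JSeg.ok_of (by decide +kernel) j10_0_a0 j10_0_b0

def c10_1a0 : List Cert :=
  [⟨-128651967,-682416997,[565815324,-166058220,2579750,13364464],[-832756380,-54938126,30424031,-30028871],[-112996352,20158464,2613248,0]⟩,
  ⟨-61845452,-177517359,[265637045,-70610254,15365919,-3866509],[-159222529,-41000371,5451642,-6571672],[-112996352,20158464,2613248,0]⟩,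
  ⟨-37509925,-64168055,[171917424,-24995472,17484495,-5259997],[-56247036,-24137403,422543,-7450253],[-112996352,20158464,2613248,0]⟩,
  ⟨-22582154,-21685682,[125831338,2632460,6955281,617430],[-16019567,-14362796,852521,-5047565],[-112996352,20158464,2613248,0]⟩,
  ⟨-12908598,-97857,[103392164,11141972,3619250,1747704],[-93675,26163,-14679,14252],[-112996352,20158464,2613248,0]⟩]

theorem j10_1_a0 : jok 176 46 9 26 7 4 tb_7_4 [-112996352,20158464,2613248,0] 10 0 c10_1a0 = true := by
  decide +kernel

def c10_1b0 : List Cert :=
  [⟨-185167331,-815146385,[658319188,-209286928,512695,34541071],[-952872017,-68152420,61330536,-58734046],[-112996352,20158464,2613248,0]⟩,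
  ⟨-69242494,-197704176,[288257999,-71469138,23688934,-19770398],[-228600284,-14072989,-20199682,1709676],[-112996352,20158464,2613248,0]⟩,
  ⟨-43450034,-81753453,[184481329,-31133586,16613190,-8632687],[-77893622,-17380331,-7650061,-4814829],[-112996352,20158464,2613248,0]⟩,
  ⟨-26848229,-32042212,[135436949,1757135,9344602,-702548],[-27694565,-13328505,-1982477,-4285007],[-112996352,20158464,2613248,0]⟩,
  ⟨-19055798,26347,[116901526,16250034,5001258,2782324],[80524,-53111,32727,-26793],[-112996352,20158464,2613248,0]⟩]

theorem j10_1_b0 : jok 176 46 9 26 7 4 tb_7_4 [-112996352,20158464,2613248,0] 10 0 c10_1b0 = true := by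
  decide +kernel

theorem j10_1 : (JSeg.mk 28736 34240 [-112996352,20158464,2613248,0] (c10_1a0) (c10_1b0)).ok 176 46 9 26 7 3 10 tb_7_4 = true :=
  JSeg.ok_of (by decide +kernel) j10_1_a0 j10_1_b0

end Pool.Agent.Lib_helper90d
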