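import Pool.Agent.Lib_helper90d.T00

/-!
Certificates for `N = 11`, part 1.
-/

set_option autoImplicit false
set_option maxRecDepth 100000

namespace Pool.Agent.Lib_helper90d

theorem j11_0 : jsegsOK 168 46 9 26 6 2 11 34816
  tb_6_3 43000
  [⟨34816,43072,[-304646144,15509504,0],
    [⟨-1009037986,-2576318739,[2633242432,-398545429,-103697494],[-3289094620,-917488997,526386849],[-304646144,15509504,0]⟩,⟨-471312573,-633277625,[1254062123,-233551738,9825036],[-687718794,-170593214,62092476],[-304646144,15509504,0]⟩,⟨-295863400,-260752870,[802918121,-138657978,40551669],[-211776931,-109934974,22720571],[-304646144,15509504,0]⟩,⟨-192038897,-90608570,[575998400,-64370125,61388312],[-101474529,-28640659,3875205],[-304646144,15509504,0]⟩,⟨-155472429,-72651595,[476944898,-55012682,37249309],[-84365757,9110545,-11723322],[-304646144,15509504,0]⟩],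
    [⟨-1119822354,-3129831361,[2784560360,-325952176,-165530975],[-3947889362,-1275730620,706929359],[-304646144,15509504,0]⟩,⟨-831765558,-782188322,[1834191952,-470874511,63682380],[-893724227,-210413109,76906829],[-304646144,15509504,0]⟩,⟨-326356284,-325052873,[852927760,-120591665,39587043],[-320520605,-107730768,11742043],[-304646144,15509504,0]⟩,⟨-216021243,-134648316,[618406364,-56532548,66512919],[-179472157,-12267044,-13927588],[-304646144,15509504,0]⟩,⟨-272595568,-76815596,[664749043,-127267559,51811552],[-162226781,88294598,-58578305],[-304646144,15509504,0]⟩]⟩] = true := by decide +kernel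

theorem j11_1 : jsegsOK 164 46 9 26 6 2 11 27776
  tb_6_3 34816
  [⟨27776,34816,[-96847872,16951296,0],
    [⟨-119816298,-714314250,[539911407,-142861098,-2210863],[-941696368,-26249951,32456186],[-96847872,16951296,0]⟩,⟨-59982695,-185452934,[255216561,-67361509,13244578],[-184302163,-21842853,-221297],[-96847872,16951296,0]⟩,⟨-40671370,-76367560,[167639857,-25505211,13347126],[-65034104,-23167849,-191639],[-96847872,16951296,0]⟩,⟨-25575886,-25608117,[125190131,695209,11301331],[-30338788,-7394922,-2316087],[-96847872,16951296,0]⟩,⟨-11285039,-8080592,[91785503,9274923,3832226],[-8143404,-2091897,-1122742],[-96847872,16951296,0]⟩],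
    [⟨-139804086,-889949135,[578975839,-144175469,-14234939],[-1157234196,-30757838,52308700],[-96847872,16951296,0]⟩,⟨-110838177,-230770748,[342036874,-116853988,25021004],[-230292783,-15078870,1008360],[-96847872,16951296,0]⟩,⟨-48193545,-94795649,[184139542,-23448460,15433437],[-96889175,-18631623,-6255001],[-96847872,16951296,0]⟩,⟨-31975580,-40736017,[138321905,-1201529,12178206],[-47639886,-5994881,-5819428],[-96847872,16951296,0]⟩,⟨-30220969,-11953148,[128983134,2702070,11131860],[-14303320,-1960262,-2047067],[-96847872,16951296,0]⟩]⟩] = true := by decide +kernel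

theorem j11_2 : jsegsOK 164 46 9 26 6 2 11 16704
  tb_6_3 27776
  [⟨16704,27776,[-25405440,6348800,0],
    [⟨-8176649,-164905963,[120196015,-27235792,1615529],[-273711567,-7037456,-3221292],[-25405440,6348800,0]⟩,⟨-4651614,-46790211,[52264686,-11543426,5181578],[-47997359,-6536544,-1201627],[-25405440,6348800,0]⟩,⟨-3456613,-19851163,[35174736,-989899,940745],[-17319731,-6178154,-223703],[-25405440,6348800,0]⟩,⟨-1937350,-9269680,[28424869,1991996,598147],[-9064535,-2228292,-762949],[-25405440,6348800,0]⟩,⟨-2282166,-3065403,[27528862,2162366,564101],[-2835200,-816823,-239241],[-25405440,6348800,0]⟩],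
    [⟨-18856348,-301087981,[149862133,-35876797,-4706002],[-417346350,2857287,5417317],[-25405440,6348800,0]⟩,⟨-22058842,-82494942,[85894099,-32408529,12251403],[-77607106,-2808567,-1961238],[-25405440,6348800,0]⟩,⟨-8167145,-35176550,[48185623,-831509,3355074],[-35809695,-6668605,-1684506],[-25405440,6348800,0]⟩,⟨-6341076,-16602589,[41297879,4452781,1658338],[-18453390,-3340993,-1588753],[-25405440,6348800,0]⟩,⟨-8206531,-4913564,[44944877,5442584,2240587],[-6081630,-1239181,-605925],[-25405440,6348800,0]⟩]⟩] = true := by decide +kernel

end Pool.Agent.Lib_helper90d
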