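import Pool.Agent.Lib_helper90d.E23

/-!
Tables of differences of Chebyshev polynomials.
-/

set_option autoImplicit false

namespace Pool.Agent.Lib_helper90d

def tb_5_2 : List (List ℤ) :=
  [[256, -16, 0], [-256, 62, -4]]

theorem tb_5_2_eq : tabl 5 2 2 = tb_5_2 := by decide +kernel

def tb_6_3 : List (List ℤ) :=
  [[32768, -1024, 0, 0], [-32768, 4032, -128, 0], [32768, -8836, 744, -24]]

theorem tb_6_3_eq : tabl 6 3 3 = tb_6_3 := by decide +kernel

def tb_7_4 : List (List ℤ) :=
  [[16777216, -262144, 0, 0, 0], [-16777216, 1040384, -16384, 0, 0], [16777216, -2310400, 96768, -1536, 0], [-16777216, 4032504, -315504, 12000, -192]]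

theorem tb_7_4_eq : tabl 7 4 4 = tb_7_4 := by decide +kernel

def tb_8_6 : List (List ℤ) :=
  [[4398046511104, -34359738368, 0, 0, 0, 0, 0], [-4398046511104, 136902082560, -1073741824, 0, 0, 0, 0], [4398046511104, -306024808448, 6392119296, -50331648, 0, 0, 0], [-4398046511104, 539085373440, -21074018304, 397934592, -3145728, 0, 0], [4398046511104, -832442206208, 51943772160, -1714728960, 30965760, -245760, 0], [-4398046511104, 1181511606240, -107204102080, 5386009728, -164020992, 2891520, -23040]]

theorem tb_8_6_eq : tabl 8 6 6 = tb_8_6 := by decide +kernel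

end Pool.Agent.Lib_helper90d
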