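import Pool.Agent.Lib_helper90d.Basic
import Pool.Agent.Lib_helper90d.Hall

set_option autoImplicit false

open Finset Filter

namespace Pool.Agent.Lib_helper90d

/-- periodic form of the force -/
noncomputable def gfun (x : ℝ) : ℝ := Real.sin x * (1 - (8 * |Real.sin (x / 2)| ^ 3)⁻¹)

theorem gfun_periodic : Function.Periodic gfun (2 * Real.pi) := by
  intro x
  unfold gfun
  rw [Real.sin_add_two_pi, show (x + 2 * Real.pi) / 2 = x / 2 + Real.pi by ring,
    Real.sin_add_pi, abs_neg]

theorem gfun_zero : gfun 0 = 0 := by simp [gfun]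

theorem gfun_eq {x : ℝ} (h0 : 0 < x) (h1 : x < 2 * Real.pi) : gfun x = Efun x := by
  unfold gfun Efun
  have hs : 0 < Real.sin (x / 2) := Real.sin_pos_of_pos_of_lt_pi (by linarith) (by linarith)
  rw [abs_of_pos hs]
  have e : Real.sin x = 2 * Real.sin (x / 2) * Real.cos (x / 2) := by
    have := Real.sin_two_mul (x / 2)
    rwa [show 2 * (x / 2) = x by ring] at this
  rw [e]
  field_simp
  ring

/-- build a `Sol` from sorted angles -/
theorem sol_of_angles {N : ℕ} (hN : 0 < N) {φ : Fin N → ℝ} (hinj : Function.Injective φ)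
    (hlo : ∀ i, -Real.pi < φ i) (hhi : ∀ i, φ i ≤ Real.pi)
    (hg : ∀ i, ∑ j, gfun (φ j - φ i) = 0) {F : ℝ} (hF : 0 ≤ F)
    (hc : ∑ i, Real.cos (φ i) = F) (hs : ∑ i, Real.sin (φ i) = 0) :
    ∃ (S : Sol N) (σ : Equiv.Perm (Fin N)), ∀ k : Fin N, φ (σ k) = S.th k := by
  set σ := Tuple.sort φ with hσ
  have hmono : Monotone (φ ∘ σ) := Tuple.monotone_sort φ
  have hsm : StrictMono (φ ∘ σ) := hmono.strictMono_of_injective (hinj.comp σ.injective)
  set th : ℕ → ℝ := fun j => φ (σ ⟨j % N, Nat.mod_lt _ hN⟩) + 2 * Real.pi * ((j / N : ℕ) : ℝ)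
    with hth
  have hper : ∀ j, th (j + N) = th j + 2 * Real.pi := by
    intro j
    simp only [hth, Nat.add_mod_right, Nat.add_div_right j hN]
    push_cast
    ring
  have hmod : ∀ k : Fin N, th k = φ (σ k) := by
    intro k
    simp only [hth]
    have h1 : (k : ℕ) / N = 0 := Nat.div_eq_of_lt k.2
    have h2 : (⟨(k : ℕ) % N, Nat.mod_lt _ hN⟩ : Fin N) = k := by
      ext
      exact Nat.mod_eq_of_lt k.2
    rw [h1, h2]
    simp
  have hstrict : StrictMono th := by
    apply strictMono_nat_of_lt_succ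
    intro j
    rcases lt_or_ge (j % N + 1) N with h | h
    · have h1 : (j + 1) % N = j % N + 1 := by
        rw [Nat.add_mod, Nat.mod_eq_of_lt (show 1 < N by omega), Nat.mod_eq_of_lt h]
      have h2 : (j + 1) / N = j / N := by
        have e1 := Nat.div_add_mod j N
        have e2 := Nat.div_add_mod (j + 1) N
        rw [h1] at e2
        have e3 : N * ((j + 1) / N) = N * (j / N) := by omega
        exact Nat.eq_of_mul_eq_mul_left hN e3
      simp only [hth, h1, h2]
      have h3 : (φ ∘ σ) ⟨j % N, Nat.mod_lt _ hN⟩ < (φ ∘ σ) ⟨j % N + 1, h⟩ := hsm (by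
        rw [Fin.mk_lt_mk]; omega)
      simp only [Function.comp_apply] at h3
      linarith
    · have h0 : j % N = N - 1 := by
        have := Nat.mod_lt j hN
        omega
      have h1 : (j + 1) / N = j / N + 1 := by
        have e1 := Nat.div_add_mod j N
        have e3 : j + 1 = N * (j / N + 1) := by rw [Nat.mul_add]; omega
        rw [e3, Nat.mul_div_cancel_left _ hN]
      simp only [hth, h1]
      have h4 := hlo (σ ⟨(j + 1) % N, Nat.mod_lt _ hN⟩)
      have h5 := hhi (σ ⟨j % N, Nat.mod_lt _ hN⟩)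
      push_cast
      linarith
  have hsum : ∀ H : ℝ → ℝ, ∑ j ∈ range N, H (th j) = ∑ i, H (φ i) := by
    intro H
    rw [Finset.sum_range]
    simp_rw [hmod]
    exact Equiv.sum_comp σ (fun i => H (φ i))
  have heq : ∀ j, ∑ i ∈ range (N - 1), Efun (th (j + (i + 1)) - th j) = 0 := by
    intro j
    have h1 : ∀ i ∈ range (N - 1), Efun (th (j + (i + 1)) - th j) =
        gfun (th (j + (i + 1)) - th j) := by
      intro i hi
      have hi' := Finset.mem_range.mp hi
      have h2 := hstrict (show j < j + (i + 1) by omega)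
      have h3 := hstrict (show j + (i + 1) < j + N by omega)
      rw [hper] at h3
      exact (gfun_eq (by linarith) (by linarith)).symm
    rw [Finset.sum_congr rfl h1]
    have h2 : ∑ i ∈ range N, gfun (th (j + i) - th j) =
        ∑ i ∈ range (N - 1), gfun (th (j + (i + 1)) - th j) := by
      have hN1 : N = (N - 1) + 1 := by omega
      have h3 : ∑ i ∈ range N, gfun (th (j + i) - th j) =
        ∑ i ∈ range ((N - 1) + 1), gfun (th (j + i) - th j) := by rw [← hN1]
      rw [h3, Finset.sum_range_succ', add_zero, sub_self, gfun_zero, add_zero]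
    rw [← h2]
    have hp : ∀ k, (fun k : ℕ => gfun (th k - th j)) (k + N) =
        (fun k : ℕ => gfun (th k - th j)) k := by
      intro k
      beta_reduce
      rw [hper, show th k + 2 * Real.pi - th j = (th k - th j) + 2 * Real.pi by ring,
        gfun_periodic]
    have h4 := sum_shift (H := fun k : ℕ => gfun (th k - th j)) hp j
    beta_reduce at h4
    have h5 : ∀ i ∈ range N, gfun (th (j + i) - th j) = gfun (th (i + j) - th j) := by
      intro i _; rw [add_comm]
    rw [Finset.sum_congr rfl h5, h4, hsum (fun x => gfun (x - th j))]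
    rw [← hg (σ ⟨j % N, Nat.mod_lt _ hN⟩)]
    refine Finset.sum_congr rfl fun k _ => ?_
    simp only [hth]
    have h6 := gfun_periodic.sub_nat_mul_eq (x := φ k - φ (σ ⟨j % N, Nat.mod_lt _ hN⟩)) (j / N)
    rw [← h6]
    congr 1
    ring
  refine ⟨⟨th, hstrict, hper, heq, F, hF, ?_, ?_⟩, σ, fun k => (hmod k).symm⟩
  · rw [hsum]; exact hc
  · rw [hsum]; exact hs

theorem norm_exp_sub (x y : ℝ) : ‖Complex.exp (x * Complex.I) - Complex.exp (y * Complex.I)‖ =
    2 * |Real.sin ((y - x) / 2)| := by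
  have h := Complex.norm_exp_I_mul_ofReal_sub_one (y - x)
  have e : Complex.exp (x * Complex.I) - Complex.exp (y * Complex.I) =
      - (Complex.exp (x * Complex.I) * (Complex.exp (Complex.I * ((y - x : ℝ) : ℂ)) - 1)) := by
    rw [mul_sub, ← Complex.exp_add]
    push_cast
    rw [show (x : ℂ) * Complex.I + Complex.I * (y - x) = y * Complex.I by ring]
    ring
  rw [e, norm_neg, norm_mul, Complex.norm_exp_ofReal_mul_I, h, one_mul, norm_mul,
    Real.norm_eq_abs, Real.norm_eq_abs]
  simp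

theorem sol_of_points {N : ℕ} (hN : 0 < N) {p : Fin N → ℂ} (hp : Function.Injective p)
    {R : ℝ} (hR : 0 < R) (hn : ∀ i, ‖p i‖ = R)
    (hE : ∀ i, ∑ j : Fin N, ((starRingEnd ℂ) (p i) * p j).im *
      ((‖p j‖ ^ 3)⁻¹ - (‖p i - p j‖ ^ 3)⁻¹) = 0) :
    ∃ (S : Sol N) (r : ℂ) (σ : Equiv.Perm (Fin N)), r ≠ 0 ∧
      ∀ k : Fin N, p (σ k) = r * Complex.exp (S.th k * Complex.I) := by
  obtain ⟨U, hU, hWU⟩ : ∃ U : ℂ, ‖U‖ = 1 ∧ ∑ i, p i = (‖∑ i, p i‖ : ℂ) * U := by
    rcases eq_or_ne (∑ i, p i) 0 with h | h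
    · exact ⟨1, by simp, by simp [h]⟩
    · refine ⟨(∑ i, p i) / ‖∑ i, p i‖, ?_, ?_⟩
      · have : (‖∑ i, p i‖ : ℝ) ≠ 0 := by simpa using h
        rw [norm_div, Complex.norm_real, norm_norm]
        field_simp
      · have : (‖∑ i, p i‖ : ℂ) ≠ 0 := by simpa using h
        field_simp
  have hU0 : U ≠ 0 := by
    intro h; rw [h] at hU; simp at hU
  have hR' : (R : ℂ) ≠ 0 := by exact_mod_cast hR.ne'
  set z : Fin N → ℂ := fun i => p i / (R * U) with hz
  have hzn : ∀ i, ‖z i‖ = 1 := by
    intro i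
    simp only [hz]
    rw [norm_div, norm_mul, hn, hU, Complex.norm_real, Real.norm_eq_abs, abs_of_pos hR]
    field_simp
  set φ : Fin N → ℝ := fun i => (z i).arg with hφ
  have hzφ : ∀ i, z i = Complex.exp (φ i * Complex.I) := by
    intro i
    have := Complex.norm_mul_exp_arg_mul_I (z i)
    rw [hzn i] at this
    rw [Complex.ofReal_one, one_mul] at this
    exact this.symm
  have hpz : ∀ i, p i = (R * U) * Complex.exp (φ i * Complex.I) := by
    intro i
    rw [← hzφ i]
    simp only [hz]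
    field_simp
  have hφinj : Function.Injective φ := by
    intro i j hij
    apply hp
    rw [hpz i, hpz j, hij]
  have hsum : ∑ i, Complex.exp (φ i * Complex.I) = ((‖∑ i, p i‖ / R : ℝ) : ℂ) := by
    have h1 : ∑ i, Complex.exp (φ i * Complex.I) = (∑ i, p i) / (R * U) := by
      rw [Finset.sum_div]
      refine Finset.sum_congr rfl fun i _ => ?_
      rw [hpz i]
      field_simp
    rw [h1]
    nth_rw 1 [hWU]
    push_cast
    field_simp
  have hg : ∀ i, ∑ j, gfun (φ j - φ i) = 0 := by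
    intro i
    have h1 := hE i
    have h2 : ∀ j ∈ (Finset.univ : Finset (Fin N)), ((starRingEnd ℂ) (p i) * p j).im *
      ((‖p j‖ ^ 3)⁻¹ - (‖p i - p j‖ ^ 3)⁻¹) = R⁻¹ * gfun (φ j - φ i) := by
      intro j _
      have h3 : (starRingEnd ℂ) (p i) * p j = ((R ^ 2 : ℝ) : ℂ) *
          Complex.exp (((φ j - φ i : ℝ) : ℂ) * Complex.I) := by
        rw [hpz i, hpz j]
        rw [map_mul, map_mul, Complex.conj_ofReal, ← Complex.exp_conj, map_mul,
          Complex.conj_ofReal, Complex.conj_I]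
        have hUU : (starRingEnd ℂ) U * U = 1 := by
          rw [mul_comm, Complex.mul_conj, Complex.normSq_eq_norm_sq, hU]; simp
        calc (R : ℂ) * (starRingEnd ℂ) U * Complex.exp (↑(φ i) * -Complex.I) *
              (↑R * U * Complex.exp (↑(φ j) * Complex.I)) =
            (R : ℂ) ^ 2 * ((starRingEnd ℂ) U * U) * (Complex.exp (↑(φ i) * -Complex.I) *
              Complex.exp (↑(φ j) * Complex.I)) := by ring
          _ = _ := by
            rw [hUU, ← Complex.exp_add]
            push_cast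
            rw [mul_one]
            congr 2
            ring
      have h4 : ‖p i - p j‖ = R * (2 * |Real.sin ((φ j - φ i) / 2)|) := by
        rw [← norm_exp_sub, hpz i, hpz j, ← mul_sub, norm_mul, norm_mul, hU, mul_one,
          Complex.norm_real, Real.norm_eq_abs, abs_of_pos hR]
      rw [h3, h4, hn j, Complex.im_ofReal_mul, Complex.exp_ofReal_mul_I_im]
      unfold gfun
      rw [mul_pow, mul_pow, mul_inv, show (2 : ℝ) ^ 3 = 8 by norm_num]
      field_simp
    rw [Finset.sum_congr rfl h2, ← Finset.mul_sum] at h1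
    rcases mul_eq_zero.mp h1 with h | h
    · exact absurd h (by positivity)
    · exact h
  have hc : ∑ i, Real.cos (φ i) = ‖∑ i, p i‖ / R := by
    have := congrArg Complex.re hsum
    rw [Complex.re_sum, Complex.ofReal_re] at this
    simpa only [Complex.exp_ofReal_mul_I_re] using this
  have hs : ∑ i, Real.sin (φ i) = 0 := by
    have := congrArg Complex.im hsum
    rw [Complex.im_sum, Complex.ofReal_im] at this
    simpa only [Complex.exp_ofReal_mul_I_im] using this
  obtain ⟨S, σ, hσ⟩ := sol_of_angles hN hφinj (fun i => Complex.neg_pi_lt_arg _)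
    (fun i => Complex.arg_le_pi _) hg (by positivity) hc hs
  refine ⟨S, R * U, σ, mul_ne_zero hR' hU0, fun k => ?_⟩
  rw [hpz, hσ]

/-- The reduction of the limiting central configurations to the angular equations. -/
theorem reduction {N : ℕ} (hN : 2 ≤ N) (x : Fin (N + 1) → ℂ)
    (hyp : ∃ ε : ℕ → ℝ, ∃ q : ℕ → Fin (N + 1) → ℂ,
        (∀ k, 0 < ε k) ∧ Tendsto ε atTop (nhds 0) ∧
        (∀ k, Function.Injective (q k) ∧
          ∃ lam : ℝ, ∀ i : Fin (N + 1),
            (lam : ℂ) * (q k i -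
              (∑ j : Fin (N + 1), (((if j = 0 then (1 : ℝ) else ε k) : ℝ) : ℂ) * q k j)
                / (((1 + (N : ℝ) * ε k) : ℝ) : ℂ)) =
            ∑ j ∈ Finset.univ.erase i,
              ((((if j = 0 then (1 : ℝ) else ε k) / ‖q k i - q k j‖ ^ 3 : ℝ)) : ℂ)
                * (q k i - q k j)) ∧
        Tendsto q atTop (nhds x))
    (hinj : Function.Injective (fun i : Fin N => x i.succ)) :
    ∃ (S : Sol N) (r : ℂ) (σ : Equiv.Perm (Fin N)), r ≠ 0 ∧
      ∀ k : Fin N, x (σ k).succ = x 0 + r * Complex.exp (S.th k * Complex.I) := by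
  obtain ⟨ε, q, hε0, hε, hq, hqx⟩ := hyp
  choose hqi lam hlam using hq
  have hqx' : ∀ i, Tendsto (fun k => q k i) atTop (nhds (x i)) := fun i =>
    (tendsto_pi_nhds.mp hqx) i
  set r : ℕ → Fin N → ℂ := fun k i => q k i.succ - q k 0 with hr
  set p : Fin N → ℂ := fun i => x i.succ - x 0 with hp
  have hrp : ∀ i, Tendsto (fun k => r k i) atTop (nhds (p i)) := fun i =>
    (hqx' i.succ).sub (hqx' 0)
  have hr0 : ∀ k i, r k i ≠ 0 := by
    intro k i
    exact sub_ne_zero.mpr ((hqi k).ne (Fin.succ_ne_zero i))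
  have halg : ∀ k i, (lam k : ℂ) * r k i = ic (r k i) +
      (ε k : ℂ) * ∑ j : Fin N, (ic (r k i - r k j) + ic (r k j)) := fun k i =>
    hall_alg (hlam k) i
  have hpinj : Function.Injective p := by
    intro i j hij
    apply hinj
    simp only [hp] at hij
    exact sub_left_injective hij
  have hp0 : ∀ i, p i ≠ 0 := fun i => hall_nonzero hN hr0 halg hε hpinj hrp i
  obtain ⟨h1, h2⟩ := hall_limit hr0 halg hε0 hε hpinj hrp hp0
  obtain ⟨S, r', σ, hr', hS⟩ := sol_of_points (show 0 < N by omega) hpinj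
    (norm_pos_iff.mpr (hp0 ⟨0, by omega⟩)) (fun i => h1 i ⟨0, by omega⟩) h2
  refine ⟨S, r', σ, hr', fun k => ?_⟩
  rw [← hS k]
  simp only [hp]
  ring

/-- conclusion from `F = 0` type regularity -/
theorem conclusion {N : ℕ} (hN : 2 ≤ N) (x : Fin (N + 1) → ℂ) (S : Sol N) (r : ℂ)
    (σ : Equiv.Perm (Fin N)) (hr : r ≠ 0)
    (h : ∀ k : Fin N, x (σ k).succ = x 0 + r * Complex.exp (S.th k * Complex.I))
    (hth : ∀ j : ℕ, S.th j = S.th 0 + 2 * Real.pi * j / N) :
    ∃ c r : ℂ, r ≠ 0 ∧ ∃ σ : Equiv.Perm (Fin N), ∀ k : Fin N,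
        x (σ k).succ = c + r * Complex.exp (2 * (Real.pi : ℂ) * Complex.I * ((k : ℕ) : ℂ) / (N : ℂ)) := by
  refine ⟨x 0, r * Complex.exp (S.th 0 * Complex.I), mul_ne_zero hr (Complex.exp_ne_zero _), σ,
    fun k => ?_⟩
  have e : Complex.exp (S.th k * Complex.I) = Complex.exp (S.th 0 * Complex.I) *
      Complex.exp (2 * (Real.pi : ℂ) * Complex.I * ((k : ℕ) : ℂ) / (N : ℂ)) := by
    rw [← Complex.exp_add, hth k]
    congr 1
    push_cast
    ring
  rw [h k, e]
  ring

end Pool.Agent.Lib_helper90d
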